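import Mathlib

/-!
# Fixed area polygons: definitions (A1)

Cells of the square lattice, paths, polygons (as finite sets of cells), the frozen counting
functions.
-/

set_option autoImplicit false

namespace Pool.Agent.Lib.MP_dcf1eb_pr

/-- A cell of the square lattice. -/
abbrev Cell := ℤ × ℤ

/-- `b` is one of the four neighbours of `a`. -/
def Nb (a b : Cell) : Prop :=
  b = (a.1 + 1, a.2) ∨ b = (a.1 - 1, a.2) ∨ b = (a.1, a.2 + 1) ∨ b = (a.1, a.2 - 1)

/-- `a` and `b` are joined by a path of neighbouring cells of `S`. -/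
def Reach (S : Set Cell) : Cell → Cell → Prop :=
  Relation.ReflTransGen (fun x y => Nb x y ∧ x ∈ S ∧ y ∈ S)

/-- `S` is connected (the empty set is allowed). -/
def Conn (S : Set Cell) : Prop := ∀ a ∈ S, ∀ b ∈ S, Reach S a b

/-- No block of four cells is a checkerboard. -/
def NoCB (S : Set Cell) : Prop := ∀ x y : ℤ,
  ¬ ((x, y) ∈ S ∧ (x + 1, y + 1) ∈ S ∧ (x + 1, y) ∉ S ∧ (x, y + 1) ∉ S) ∧
  ¬ ((x + 1, y) ∈ S ∧ (x, y + 1) ∈ S ∧ (x, y) ∉ S ∧ (x + 1, y + 1) ∉ S)

/-- A polygon, as the set of the cells it encloses. -/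
structure IsPoly (S : Set Cell) : Prop where
  fin : S.Finite
  ne : S.Nonempty
  conn : Conn S
  cconn : Conn Sᶜ
  ncb : NoCB S

/-- Twice the half-perimeter: the number of boundary edges of a finite set of cells. -/
def perim (S : Finset (ℤ × ℤ)) : ℕ :=
  ∑ a ∈ S, (Finset.filter (fun b => b ∉ S)
    ({(a.1 + 1, a.2), (a.1 - 1, a.2), (a.1, a.2 + 1), (a.1, a.2 - 1)} : Finset (ℤ × ℤ))).card

/-- Normalised position. -/
def Norm (S : Finset (ℤ × ℤ)) : Prop :=
  (∀ a ∈ S, 0 ≤ a.1 ∧ 0 ≤ a.2) ∧ (∃ a ∈ S, a.1 = 0) ∧ (∃ a ∈ S, a.2 = 0)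

/-- The predicate of the frozen statement. -/
def Frz (m n : ℕ) (S : Finset (ℤ × ℤ)) : Prop :=
  (SimpleGraph.induce (↑S : Set (ℤ × ℤ))
    (SimpleGraph.fromRel (fun a b : ℤ × ℤ => |a.1 - b.1| + |a.2 - b.2| = 1))).Connected ∧
  (SimpleGraph.induce ((↑S : Set (ℤ × ℤ))ᶜ)
    (SimpleGraph.fromRel (fun a b : ℤ × ℤ => |a.1 - b.1| + |a.2 - b.2| = 1))).Connected ∧
  (∀ x y : ℤ,
    ¬ ((x, y) ∈ S ∧ (x + 1, y + 1) ∈ S ∧ (x + 1, y) ∉ S ∧ (x, y + 1) ∉ S) ∧
    ¬ ((x + 1, y) ∈ S ∧ (x, y + 1) ∈ S ∧ (x, y) ∉ S ∧ (x + 1, y + 1) ∉ S)) ∧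
  S.card = n ∧
  (∑ a ∈ S, (Finset.filter (fun b => b ∉ S)
    ({(a.1 + 1, a.2), (a.1 - 1, a.2), (a.1, a.2 + 1), (a.1, a.2 - 1)} : Finset (ℤ × ℤ))).card)
    = 2 * m ∧
  (∀ a ∈ S, 0 ≤ a.1 ∧ 0 ≤ a.2) ∧ (∃ a ∈ S, a.1 = 0) ∧ (∃ a ∈ S, a.2 = 0)

/-- The number of polygons of half-perimeter `m` and area `n`, as in the frozen statement. -/
noncomputable def pp (m n : ℕ) : ℕ := Nat.card {S : Finset (ℤ × ℤ) // Frz m n S}

/-- The normalised polygons of area `n`. -/
noncomputable def polys (n : ℕ) : Finset (Finset (ℤ × ℤ)) := by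
  classical
  exact ((Finset.Icc (0 : ℤ) n ×ˢ Finset.Icc (0 : ℤ) n).powerset).filter
    (fun S => IsPoly (↑S : Set Cell) ∧ S.card = n ∧ Norm S)

/-! ### Basic facts -/

theorem Nb.symm {a b : Cell} (h : Nb a b) : Nb b a := by
  rcases a with ⟨x, y⟩
  rcases h with h | h | h | h <;> subst h <;> simp [Nb]

theorem nb_comm {a b : Cell} : Nb a b ↔ Nb b a := ⟨Nb.symm, Nb.symm⟩

theorem Nb.ne {a b : Cell} (h : Nb a b) : a ≠ b := by
  rcases a with ⟨x, y⟩
  rcases b with ⟨x', y'⟩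
  simp only [Nb, Prod.mk.injEq, ne_eq] at h ⊢
  omega

theorem Reach.refl (S : Set Cell) (a : Cell) : Reach S a a := Relation.ReflTransGen.refl

theorem Reach.trans {S : Set Cell} {a b c : Cell} (h : Reach S a b) (h' : Reach S b c) :
    Reach S a c := Relation.ReflTransGen.trans h h'

theorem Reach.symm {S : Set Cell} {a b : Cell} (h : Reach S a b) : Reach S b a := by
  induction h with
  | refl => exact Relation.ReflTransGen.refl
  | tail _ h ih => exact Relation.ReflTransGen.head ⟨h.1.symm, h.2.2, h.2.1⟩ ih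

theorem Reach.mono {S T : Set Cell} (hST : S ⊆ T) {a b : Cell} (h : Reach S a b) :
    Reach T a b := by
  induction h with
  | refl => exact Relation.ReflTransGen.refl
  | tail _ h ih => exact Relation.ReflTransGen.tail ih ⟨h.1, hST h.2.1, hST h.2.2⟩

theorem Reach.step {S : Set Cell} {a b : Cell} (h : Nb a b) (ha : a ∈ S) (hb : b ∈ S) :
    Reach S a b := Relation.ReflTransGen.single ⟨h, ha, hb⟩

theorem Reach.tail {S : Set Cell} {a b c : Cell} (h : Reach S a b) (h' : Nb b c) (hb : b ∈ S)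
    (hc : c ∈ S) : Reach S a c := h.trans (Reach.step h' hb hc)

theorem Reach.mem {S : Set Cell} {a b : Cell} (h : Reach S a b) (ha : a ∈ S) : b ∈ S := by
  induction h with
  | refl => exact ha
  | tail _ h _ => exact h.2.2

theorem Reach.mem' {S : Set Cell} {a b : Cell} (h : Reach S a b) (hb : b ∈ S) : a ∈ S :=
  h.symm.mem hb

/-- A set closed under the steps of `S` which contains `a` contains everything reachable. -/
theorem Reach.closed {S : Set Cell} {R : Set Cell} {a b : Cell} (h : Reach S a b) (ha : a ∈ R)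
    (hR : ∀ x y, x ∈ R → Nb x y → x ∈ S → y ∈ S → y ∈ R) : b ∈ R := by
  induction h with
  | refl => exact ha
  | tail _ h ih => exact hR _ _ ih h.1 h.2.1 h.2.2

theorem conn_union {A B : Set Cell} (hA : Conn A) (hB : Conn B) {c : Cell} (hcA : c ∈ A)
    (hcB : c ∈ B) : Conn (A ∪ B) := by
  have h : ∀ a ∈ A ∪ B, Reach (A ∪ B) a c := by
    rintro a (ha | ha)
    · exact Reach.mono Set.subset_union_left (hA a ha c hcA)
    · exact Reach.mono Set.subset_union_right (hB a ha c hcB)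
  intro a ha b hb
  exact (h a ha).trans (h b hb).symm

end Pool.Agent.Lib.MP_dcf1eb_pr
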