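import Pool.Agent.Lib.MP_dcf1eb_pr.A1

/-!
# Fixed area polygons: link with the frozen counting function (A2)
-/

set_option autoImplicit false

namespace Pool.Agent.Lib.MP_dcf1eb_pr

private theorem A2_nb_iff (a b : ℤ × ℤ) :
    Nb a b ↔ |a.1 - b.1| + |a.2 - b.2| = 1 := by
  rcases a with ⟨x, y⟩
  rcases b with ⟨x', y'⟩
  simp only [Nb, Prod.mk.injEq]
  constructor
  · intro h
    rcases abs_cases (x - x') with h1 | h1 <;> rcases abs_cases (y - y') with h2 | h2 <;> omega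
  · intro h
    rcases abs_cases (x - x') with h1 | h1 <;> rcases abs_cases (y - y') with h2 | h2 <;> omega

private theorem A2_adj (a b : ℤ × ℤ) :
    (SimpleGraph.fromRel (fun a b : ℤ × ℤ => |a.1 - b.1| + |a.2 - b.2| = 1)).Adj a b ↔ Nb a b := by
  rw [SimpleGraph.fromRel_adj]
  constructor
  · rintro ⟨_, h | h⟩
    · exact (A2_nb_iff a b).mpr h
    · exact ((A2_nb_iff b a).mpr h).symm
  · intro h
    exact ⟨h.ne, Or.inl ((A2_nb_iff a b).mp h)⟩

/-- PROOF. `SimpleGraph.connected_iff` and `Reachable` in the induced graph is `Reach`: adjacency of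
the `fromRel` graph is `Nb` (`|a.1 - b.1| + |a.2 - b.2| = 1`, by cases / omega). -/
theorem connected_iff_conn (S : Set (ℤ × ℤ)) :
    (SimpleGraph.induce S
      (SimpleGraph.fromRel (fun a b : ℤ × ℤ => |a.1 - b.1| + |a.2 - b.2| = 1))).Connected ↔
    S.Nonempty ∧ Conn S := by
  rw [SimpleGraph.connected_iff]
  constructor
  · rintro ⟨hpre, hne⟩
    obtain ⟨⟨a0, ha0⟩⟩ := hne
    refine ⟨⟨a0, ha0⟩, ?_⟩
    intro a ha b hb
    obtain ⟨w⟩ := hpre ⟨a, ha⟩ ⟨b, hb⟩
    have key : ∀ (u v : S), (SimpleGraph.induce S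
      (SimpleGraph.fromRel (fun a b : ℤ × ℤ => |a.1 - b.1| + |a.2 - b.2| = 1))).Walk u v →
      Reach S u.1 v.1 := by
      intro u v w
      induction w with
      | nil => exact Reach.refl S _
      | cons h _ ih =>
        have h1 := (A2_adj _ _).mp (SimpleGraph.induce_adj.mp h)
        exact (Reach.step h1 (Subtype.property _) (Subtype.property _)).trans ih
    exact key _ _ w
  · rintro ⟨⟨a0, ha0⟩, hconn⟩
    refine ⟨?_, ⟨⟨a0, ha0⟩⟩⟩
    rintro ⟨a, ha⟩ ⟨b, hb⟩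
    have hr := hconn a ha b hb
    have key : ∀ (hb : b ∈ S), (SimpleGraph.induce S
      (SimpleGraph.fromRel (fun a b : ℤ × ℤ => |a.1 - b.1| + |a.2 - b.2| = 1))).Reachable
      ⟨a, ha⟩ ⟨b, hb⟩ := by
      clear hb
      induction hr with
      | refl => intro _; exact SimpleGraph.Reachable.refl _
      | tail _ h ih =>
        intro hb
        refine (ih h.2.1).trans ?_
        refine SimpleGraph.Adj.reachable ?_
        exact SimpleGraph.induce_adj.mpr ((A2_adj _ _).mpr h.1)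
    exact key hb

private theorem A2_compl_nonempty (S : Finset (ℤ × ℤ)) : ((↑S : Set (ℤ × ℤ))ᶜ).Nonempty := by
  obtain ⟨x, hx⟩ := Infinite.exists_notMem_finset S
  exact ⟨x, by simpa using hx⟩

theorem frz_iff (m n : ℕ) (S : Finset (ℤ × ℤ)) :
    Frz m n S ↔ IsPoly (↑S : Set Cell) ∧ S.card = n ∧ perim S = 2 * m ∧ Norm S := by
  unfold Frz
  rw [connected_iff_conn, connected_iff_conn]
  constructor
  · rintro ⟨⟨h1, h2⟩, ⟨_, h3⟩, h4, h5, h6, h7⟩
    refine ⟨⟨S.finite_toSet, h1, h2, h3, ?_⟩, h5, h6, h7⟩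
    intro x y
    have h := h4 x y
    simpa only [Finset.mem_coe] using h
  · rintro ⟨⟨_, h1, h2, h3, h4⟩, h5, h6, h7⟩
    refine ⟨⟨h1, h2⟩, ⟨A2_compl_nonempty S, h3⟩, ?_, h5, h6, h7⟩
    intro x y
    have h := h4 x y
    simpa only [Finset.mem_coe] using h

private theorem A2_inter1 {S : Set Cell} {a c : Cell} (h : Reach S a c) (ha : a ∈ S)
    (h0 : a.1 = 0) : ∀ i : ℤ, 0 ≤ i → i ≤ c.1 → ∃ d ∈ S, d.1 = i := by
  have := h.closed (R := {x : Cell | ∀ i : ℤ, 0 ≤ i → i ≤ x.1 → ∃ d ∈ S, d.1 = i}) (by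
    intro i hi hi'
    exact ⟨a, ha, by omega⟩) (by
    intro x y hx hxy _ hyS i hi hi'
    by_cases h2 : i ≤ x.1
    · exact hx i hi h2
    · refine ⟨y, hyS, ?_⟩
      rcases x with ⟨x1, x2⟩
      rcases y with ⟨y1, y2⟩
      simp only [Nb, Prod.mk.injEq] at hxy
      simp only at h2 hi' ⊢
      omega)
  exact this

private theorem A2_inter2 {S : Set Cell} {a c : Cell} (h : Reach S a c) (ha : a ∈ S)
    (h0 : a.2 = 0) : ∀ i : ℤ, 0 ≤ i → i ≤ c.2 → ∃ d ∈ S, d.2 = i := by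
  have := h.closed (R := {x : Cell | ∀ i : ℤ, 0 ≤ i → i ≤ x.2 → ∃ d ∈ S, d.2 = i}) (by
    intro i hi hi'
    exact ⟨a, ha, by omega⟩) (by
    intro x y hx hxy _ hyS i hi hi'
    by_cases h2 : i ≤ x.2
    · exact hx i hi h2
    · refine ⟨y, hyS, ?_⟩
      rcases x with ⟨x1, x2⟩
      rcases y with ⟨y1, y2⟩
      simp only [Nb, Prod.mk.injEq] at hxy
      simp only at h2 hi' ⊢
      omega)
  exact this

private theorem A2_count (S : Finset (ℤ × ℤ)) (f : ℤ × ℤ → ℤ) (t : ℤ) (ht : 0 ≤ t)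
    (h : ∀ i : ℤ, 0 ≤ i → i ≤ t → ∃ d ∈ S, f d = i) : t + 1 ≤ S.card := by
  have h1 : Finset.Icc (0 : ℤ) t ⊆ S.image f := by
    intro i hi
    obtain ⟨h2, h3⟩ := Finset.mem_Icc.mp hi
    obtain ⟨d, hd, hdi⟩ := h i h2 h3
    exact Finset.mem_image.mpr ⟨d, hd, hdi⟩
  have h2 := (Finset.card_le_card h1).trans Finset.card_image_le
  rw [Int.card_Icc] at h2
  omega

/-- PROOF. Only `S ⊆ Icc 0 n ×ˢ Icc 0 n` is to be shown: if `S` is connected, contains a cell with
first coordinate `0` and a cell with first coordinate `t ≥ 0`, then it contains cells with every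
first coordinate between (a path changes it by at most one), so `t + 1 ≤ S.card`. -/
theorem mem_polys {n : ℕ} {S : Finset (ℤ × ℤ)} :
    S ∈ polys n ↔ IsPoly (↑S : Set Cell) ∧ S.card = n ∧ Norm S := by
  classical
  unfold polys
  rw [Finset.mem_filter, Finset.mem_powerset]
  constructor
  · exact fun h => h.2
  · intro h
    refine ⟨?_, h⟩
    obtain ⟨hP, hc, hpos, ⟨a, haS, ha⟩, ⟨b, hbS, hb⟩⟩ := h
    intro c hcS
    obtain ⟨hc1, hc2⟩ := hpos c hcS
    have hca : Reach (↑S : Set Cell) a c :=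
      hP.conn a (Finset.mem_coe.mpr haS) c (Finset.mem_coe.mpr hcS)
    have hcb : Reach (↑S : Set Cell) b c :=
      hP.conn b (Finset.mem_coe.mpr hbS) c (Finset.mem_coe.mpr hcS)
    have e1 := A2_count S Prod.fst c.1 hc1 (by
      intro i hi hi'
      obtain ⟨d, hd, hdi⟩ := A2_inter1 hca (Finset.mem_coe.mpr haS) ha i hi hi'
      exact ⟨d, Finset.mem_coe.mp hd, hdi⟩)
    have e2 := A2_count S Prod.snd c.2 hc2 (by
      intro i hi hi'
      obtain ⟨d, hd, hdi⟩ := A2_inter2 hcb (Finset.mem_coe.mpr hbS) hb i hi hi'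
      exact ⟨d, Finset.mem_coe.mp hd, hdi⟩)
    rw [hc] at e1 e2
    rw [Finset.mem_product, Finset.mem_Icc, Finset.mem_Icc]
    exact ⟨⟨hc1, by omega⟩, ⟨hc2, by omega⟩⟩

end Pool.Agent.Lib.MP_dcf1eb_pr
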