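import Pool.Agent.Lib.MP_dcf1eb_pr.A2

/-!
# Fixed area polygons: the perimeter and the frozen counting function (A3)
-/

set_option autoImplicit false

namespace Pool.Agent.Lib.MP_dcf1eb_pr

open Classical in
theorem pp_eq (m n : ℕ) : pp m n = ((polys n).filter (fun S => perim S = 2 * m)).card := by
  unfold pp
  refine Nat.subtype_card _ ?_
  intro S
  rw [Finset.mem_filter, mem_polys, frz_iff]
  constructor
  · rintro ⟨⟨h1, h2, h3⟩, h4⟩
    exact ⟨h1, h2, h4, h3⟩
  · rintro ⟨h1, h2, h4, h3⟩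
    exact ⟨⟨h1, h2, h3⟩, h4⟩

/-- The four neighbours of a cell. -/
private def A3_nbs (a : ℤ × ℤ) : Finset (ℤ × ℤ) :=
  {(a.1 + 1, a.2), (a.1 - 1, a.2), (a.1, a.2 + 1), (a.1, a.2 - 1)}

private theorem A3_card_filter (a : ℤ × ℤ) (p : ℤ × ℤ → Prop) [DecidablePred p] :
    ((A3_nbs a).filter p).card = (if p (a.1 + 1, a.2) then 1 else 0) +
      ((if p (a.1 - 1, a.2) then 1 else 0) + ((if p (a.1, a.2 + 1) then 1 else 0) +
      (if p (a.1, a.2 - 1) then 1 else 0))) := by
  have h1 : ((a.1 + 1, a.2) : ℤ × ℤ) ∉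
      ({(a.1 - 1, a.2), (a.1, a.2 + 1), (a.1, a.2 - 1)} : Finset (ℤ × ℤ)) := by
    simp only [Finset.mem_insert, Finset.mem_singleton, Prod.mk.injEq]
    omega
  have h2 : ((a.1 - 1, a.2) : ℤ × ℤ) ∉
      ({(a.1, a.2 + 1), (a.1, a.2 - 1)} : Finset (ℤ × ℤ)) := by
    simp only [Finset.mem_insert, Finset.mem_singleton, Prod.mk.injEq]
    omega
  have h3 : ((a.1, a.2 + 1) : ℤ × ℤ) ∉ ({(a.1, a.2 - 1)} : Finset (ℤ × ℤ)) := by
    simp only [Finset.mem_singleton, Prod.mk.injEq]
    omega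
  unfold A3_nbs
  rw [Finset.card_filter, Finset.sum_insert h1, Finset.sum_insert h2, Finset.sum_insert h3,
    Finset.sum_singleton]

private theorem A3_nbs_card (a : ℤ × ℤ) : (A3_nbs a).card = 4 := by
  have h := A3_card_filter a (fun _ => True)
  simpa using h

private theorem A3_perim (S : Finset (ℤ × ℤ)) :
    perim S = ∑ a ∈ S, ((A3_nbs a).filter (fun b => b ∉ S)).card := rfl

private theorem A3_add (S : Finset (ℤ × ℤ)) :
    (∑ a ∈ S, ((A3_nbs a).filter (fun b => b ∈ S)).card) + perim S = 4 * S.card := by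
  rw [A3_perim, ← Finset.sum_add_distrib]
  have h : ∀ a ∈ S, ((A3_nbs a).filter (fun b => b ∈ S)).card +
      ((A3_nbs a).filter (fun b => b ∉ S)).card = 4 := by
    intro a _
    rw [Finset.card_filter_add_card_filter_not, A3_nbs_card]
  rw [Finset.sum_congr rfl h, Finset.sum_const, smul_eq_mul, mul_comm]

private theorem A3_shift (S : Finset (ℤ × ℤ)) (u v : ℤ) :
    (∑ a ∈ S, (if ((a.1 + u, a.2 + v) : ℤ × ℤ) ∈ S then 1 else 0)) =
      ∑ a ∈ S, (if ((a.1 - u, a.2 - v) : ℤ × ℤ) ∈ S then 1 else 0) := by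
  rw [← Finset.card_filter, ← Finset.card_filter]
  refine Finset.card_bij' (fun a _ => (a.1 + u, a.2 + v)) (fun a _ => (a.1 - u, a.2 - v))
    ?_ ?_ ?_ ?_
  · intro a ha
    rw [Finset.mem_filter] at ha ⊢
    refine ⟨ha.2, ?_⟩
    have : ((a.1 + u - u, a.2 + v - v) : ℤ × ℤ) = a := by
      rw [add_sub_cancel_right, add_sub_cancel_right]
    simpa using ha.1
  · intro a ha
    rw [Finset.mem_filter] at ha ⊢
    refine ⟨ha.2, ?_⟩
    simpa using ha.1
  · intro a _
    simp
  · intro a _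
    simp

/-- PROOF. `perim S + ∑ a ∈ S, #{neighbours of a in S} = 4 * S.card` and the sum is even (symmetric
relation without fixed points: e.g. it is twice the number of pairs `a, a + (1, 0)` plus twice the
number of pairs `a, a + (0, 1)` in `S`). -/
theorem perim_even (S : Finset (ℤ × ℤ)) : Even (perim S) := by
  have hadd := A3_add S
  have h : (∑ a ∈ S, ((A3_nbs a).filter (fun b => b ∈ S)).card) =
      2 * ((∑ a ∈ S, (if ((a.1 + 1, a.2) : ℤ × ℤ) ∈ S then 1 else 0)) +
        ∑ a ∈ S, (if ((a.1, a.2 + 1) : ℤ × ℤ) ∈ S then 1 else 0)) := by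
    have h1 : ∀ a ∈ S, ((A3_nbs a).filter (fun b => b ∈ S)).card = _ :=
      fun a _ => A3_card_filter a (fun b => b ∈ S)
    rw [Finset.sum_congr rfl h1, Finset.sum_add_distrib, Finset.sum_add_distrib,
      Finset.sum_add_distrib]
    have e1 := A3_shift S 1 0
    have e2 := A3_shift S 0 1
    simp only [add_zero, sub_zero] at e1 e2
    rw [← e1, ← e2]
    ring
  rw [h] at hadd
  rw [even_iff_two_dvd]
  omega

theorem perim_le (S : Finset (ℤ × ℤ)) : perim S ≤ 4 * S.card := by
  have hadd := A3_add S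
  omega

/-- PROOF. `pp_eq`, `perim_even`, `perim_le`, sum over the fibres of `perim S / 2`. -/
theorem sum_pp (n : ℕ) (f : ℕ → ℝ) :
    ∑ m ∈ Finset.range (4 * n + 4), f m * (pp m n : ℝ) = ∑ S ∈ polys n, f (perim S / 2) := by
  classical
  have hmaps : ∀ S ∈ polys n, perim S / 2 ∈ Finset.range (4 * n + 4) := by
    intro S hS
    rw [Finset.mem_range]
    have h1 := perim_le S
    have h2 := (mem_polys.mp hS).2.1
    rw [h2] at h1
    omega
  rw [← Finset.sum_fiberwise_of_maps_to hmaps]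
  refine Finset.sum_congr rfl ?_
  intro m _
  have h1 : ∑ S ∈ (polys n).filter (fun S => perim S / 2 = m), f (perim S / 2) =
      ∑ S ∈ (polys n).filter (fun S => perim S / 2 = m), f m := by
    refine Finset.sum_congr rfl ?_
    intro S hS
    rw [(Finset.mem_filter.mp hS).2]
  have h2 : (polys n).filter (fun S => perim S / 2 = m) =
      (polys n).filter (fun S => perim S = 2 * m) := by
    refine Finset.filter_congr ?_
    intro S _
    have he := perim_even S
    rw [even_iff_two_dvd] at he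
    omega
  rw [h1, Finset.sum_const, nsmul_eq_mul, h2, pp_eq, mul_comm]

end Pool.Agent.Lib.MP_dcf1eb_pr
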