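import Pool.Agent.Lib.MP_dcf1eb_pr.A1

/-!
# Fixed area polygons: removing one cell (B1)
-/

set_option autoImplicit false

namespace Pool.Agent.Lib.MP_dcf1eb_pr

/-- The local condition under which the cell `(x, y)` of `S` can be removed. -/
def RingOK (S : Set Cell) (x y : ℤ) : Prop :=
  ((x, y + 1) ∉ S ∨ (x + 1, y) ∉ S ∨ (x, y - 1) ∉ S ∨ (x - 1, y) ∉ S) ∧
  ((x, y + 1) ∈ S → (x + 1, y) ∈ S → (x + 1, y + 1) ∈ S) ∧
  ((x + 1, y) ∈ S → (x, y - 1) ∈ S → (x + 1, y - 1) ∈ S) ∧
  ((x, y - 1) ∈ S → (x - 1, y) ∈ S → (x - 1, y - 1) ∈ S) ∧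
  ((x - 1, y) ∈ S → (x, y + 1) ∈ S → (x - 1, y + 1) ∈ S) ∧
  ¬ ((x, y + 1) ∈ S ∧ (x, y - 1) ∈ S ∧ (x + 1, y) ∉ S ∧ (x - 1, y) ∉ S) ∧
  ¬ ((x + 1, y) ∈ S ∧ (x - 1, y) ∈ S ∧ (x, y + 1) ∉ S ∧ (x, y - 1) ∉ S)

/-- Removing a cell `x` from a connected set keeps it connected if the neighbours of `x` in `S`
are joined to each other in `S \ {x}`.
PROOF. Claim: for `a ∈ S`, `a ≠ x` and `Reach S a c`: if `c ≠ x` then `Reach (S \ {x}) a c`, and if
`c = x` then `Reach (S \ {x}) a d` for every neighbour `d ∈ S` of `x`. Induction on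
`Relation.ReflTransGen`: base `c = a`. Step `c → d`: if `c ≠ x`, `d ≠ x`: extend by one step. If
`c ≠ x`, `d = x`: for a neighbour `e ∈ S` of `x`, `c` is itself a neighbour of `x` in `S`
(`Nb.symm`), so `Reach (S \ {x}) c e` by `hn`. If `c = x`: `d` is a neighbour of `x` in `S`
(so `d ≠ x` by `Nb.ne`), use the induction hypothesis. -/
theorem conn_erase {S : Set Cell} (h : Conn S) {x : Cell} (hx : x ∈ S)
    (hn : ∀ a ∈ S, ∀ b ∈ S, Nb x a → Nb x b → Reach (S \ {x}) a b) : Conn (S \ {x}) := by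
  intro a ha c hc
  have key : ∀ d, Reach S a d → (d ≠ x → Reach (S \ {x}) a d) ∧
      (d = x → ∀ e ∈ S, Nb x e → Reach (S \ {x}) a e) := by
    intro d hd
    induction hd with
    | refl => exact ⟨fun _ => Reach.refl _ _, fun h => absurd h ha.2⟩
    | @tail c d hcd hstep ih =>
      obtain ⟨hnb, hcS, hdS⟩ := hstep
      constructor
      · intro hdx
        by_cases hcx : c = x
        · subst hcx
          exact ih.2 rfl d hdS hnb
        · exact (ih.1 hcx).tail hnb ⟨hcS, hcx⟩ ⟨hdS, hdx⟩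
      · intro hdx e he hxe
        subst hdx
        have hcx : c ≠ d := hnb.ne
        exact (ih.1 hcx).trans (hn c hcS e he hnb.symm hxe)
  exact (key c (h a ha.1 c hc.1)).1 hc.2

private theorem B1_step2 {T : Set Cell} {a b c : Cell} (ha : a ∈ T) (hb : b ∈ T) (hc : c ∈ T)
    (h1 : Nb a b) (h2 : Nb b c) : Reach T a c :=
  (Reach.step h1 ha hb).tail h2 hb hc

/-- PROOF. `Conn`: by `conn_erase`: let `a, b ∈ S` be neighbours of `(x, y)`; by cases on the four
directions of each (16 cases). Equal directions: `Reach.refl`. Adjacent directions, e.g. north and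
east: `(x + 1, y + 1) ∈ S` by `RingOK` and `N - NE - E` is a path in `S \ {(x, y)}`. Opposite
directions, e.g. north and south: by the sixth part of `RingOK` east or west is in `S`, say east;
path `N - NE - E - SE - S`. `NoCB`: the blocks not containing `(x, y)` are unchanged; a block
containing it, e.g. `{(x,y), N, NE, E}`, could only become a checkerboard with `N, E ∈ S` and
`NE ∉ S`, excluded by `RingOK`. (In Lean: from `NoCB S` at the same block, `simp` with
`Set.mem_diff, Set.mem_singleton_iff, Prod.mk.injEq`, and by cases on which corner of the block is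
`(x, y)`.) -/
theorem bump {S : Set Cell} (hc : Conn S) (hn : NoCB S) {x y : ℤ} (hx : (x, y) ∈ S)
    (hr : RingOK S x y) : Conn (S \ {((x, y) : Cell)}) ∧ NoCB (S \ {((x, y) : Cell)}) := by
  obtain ⟨r0, r1, r2, r3, r4, r5, r6⟩ := hr
  have mT : ∀ c : Cell, c ∈ S → c ≠ (x, y) → c ∈ S \ {((x, y) : Cell)} := fun c h1 h2 => ⟨h1, h2⟩
  have hNE : (x, y + 1) ∈ S → (x + 1, y) ∈ S →
      Reach (S \ {((x, y) : Cell)}) (x, y + 1) (x + 1, y) := fun h1 h2 =>
    B1_step2 (mT _ h1 (by simp)) (mT _ (r1 h1 h2) (by simp)) (mT _ h2 (by simp))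
      (by simp [Nb]) (by simp [Nb])
  have hES : (x + 1, y) ∈ S → (x, y - 1) ∈ S →
      Reach (S \ {((x, y) : Cell)}) (x + 1, y) (x, y - 1) := fun h1 h2 =>
    B1_step2 (mT _ h1 (by simp)) (mT _ (r2 h1 h2) (by simp)) (mT _ h2 (by simp))
      (by simp [Nb]) (by simp [Nb])
  have hSW : (x, y - 1) ∈ S → (x - 1, y) ∈ S →
      Reach (S \ {((x, y) : Cell)}) (x, y - 1) (x - 1, y) := fun h1 h2 =>
    B1_step2 (mT _ h1 (by simp)) (mT _ (r3 h1 h2) (by simp)) (mT _ h2 (by simp))
      (by simp [Nb]) (by simp [Nb])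
  have hWN : (x - 1, y) ∈ S → (x, y + 1) ∈ S →
      Reach (S \ {((x, y) : Cell)}) (x - 1, y) (x, y + 1) := fun h1 h2 =>
    B1_step2 (mT _ h1 (by simp)) (mT _ (r4 h1 h2) (by simp)) (mT _ h2 (by simp))
      (by simp [Nb]) (by simp [Nb])
  have hNS : (x, y + 1) ∈ S → (x, y - 1) ∈ S →
      Reach (S \ {((x, y) : Cell)}) (x, y + 1) (x, y - 1) := by
    intro h1 h2
    by_cases hE : (x + 1, y) ∈ S
    · exact (hNE h1 hE).trans (hES hE h2)
    · by_cases hW : (x - 1, y) ∈ S
      · exact (hWN hW h1).symm.trans (hSW h2 hW).symm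
      · exact absurd ⟨h1, h2, hE, hW⟩ r5
  have hEW : (x + 1, y) ∈ S → (x - 1, y) ∈ S →
      Reach (S \ {((x, y) : Cell)}) (x + 1, y) (x - 1, y) := by
    intro h1 h2
    by_cases hN : (x, y + 1) ∈ S
    · exact (hNE hN h1).symm.trans (hWN h2 hN).symm
    · by_cases hS : (x, y - 1) ∈ S
      · exact (hES h1 hS).trans (hSW hS h2)
      · exact absurd ⟨h1, h2, hN, hS⟩ r6
  constructor
  · apply conn_erase hc hx
    intro a ha b hb hna hnb
    rcases hna with e | e | e | e <;> rcases hnb with e' | e' | e' | e' <;>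
      simp only at e e' <;> subst e <;> subst e'
    · exact Reach.refl _ _
    · exact hEW ha hb
    · exact (hNE hb ha).symm
    · exact hES ha hb
    · exact (hEW hb ha).symm
    · exact Reach.refl _ _
    · exact hWN ha hb
    · exact (hSW hb ha).symm
    · exact hNE ha hb
    · exact (hWN hb ha).symm
    · exact Reach.refl _ _
    · exact hNS ha hb
    · exact (hES hb ha).symm
    · exact hSW ha hb
    · exact (hNS hb ha).symm
    · exact Reach.refl _ _
  · intro u v
    have h0 := hn u v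
    have key : ∀ c : Cell, c ∈ S \ {((x, y) : Cell)} ↔ c ∈ S ∧ c ≠ (x, y) := fun c => by
      simp
    simp only [key]
    constructor
    · rintro ⟨⟨a1, a2⟩, ⟨b1, b2⟩, c1, d1⟩
      have c2 : (u + 1, v) ∉ S ∨ ((u + 1, v) : Cell) = (x, y) := by
        by_cases h : ((u + 1, v) : Cell) = (x, y)
        · exact Or.inr h
        · exact Or.inl fun h' => c1 ⟨h', h⟩
      have d2 : (u, v + 1) ∉ S ∨ ((u, v + 1) : Cell) = (x, y) := by
        by_cases h : ((u, v + 1) : Cell) = (x, y)
        · exact Or.inr h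
        · exact Or.inl fun h' => d1 ⟨h', h⟩
      rcases c2 with c2 | c2
      · rcases d2 with d2 | d2
        · exact h0.1 ⟨a1, b1, c2, d2⟩
        · rw [Prod.mk.injEq] at d2
          obtain ⟨e1, e2⟩ := d2
          subst e1
          have e3 : v = y - 1 := by omega
          subst e3
          have b1' : (u + 1, y) ∈ S := by simpa using b1
          exact c2 (r2 b1' a1)
      · rw [Prod.mk.injEq] at c2
        obtain ⟨e1, e2⟩ := c2
        subst e2
        have e3 : u = x - 1 := by omega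
        subst e3
        have b1' : (x, v + 1) ∈ S := by simpa using b1
        have := r4 a1 b1'
        rcases d2 with d2 | d2
        · exact d2 this
        · rw [Prod.mk.injEq] at d2
          omega
    · rintro ⟨⟨a1, a2⟩, ⟨b1, b2⟩, c1, d1⟩
      have c2 : (u, v) ∉ S ∨ ((u, v) : Cell) = (x, y) := by
        by_cases h : ((u, v) : Cell) = (x, y)
        · exact Or.inr h
        · exact Or.inl fun h' => c1 ⟨h', h⟩
      have d2 : (u + 1, v + 1) ∉ S ∨ ((u + 1, v + 1) : Cell) = (x, y) := by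
        by_cases h : ((u + 1, v + 1) : Cell) = (x, y)
        · exact Or.inr h
        · exact Or.inl fun h' => d1 ⟨h', h⟩
      rcases c2 with c2 | c2
      · rcases d2 with d2 | d2
        · exact h0.2 ⟨a1, b1, c2, d2⟩
        · rw [Prod.mk.injEq] at d2
          obtain ⟨e1, e2⟩ := d2
          have e3 : u = x - 1 := by omega
          have e4 : v = y - 1 := by omega
          subst e3
          subst e4
          have a1' : (x, y - 1) ∈ S := by simpa using a1
          have b1' : (x - 1, y) ∈ S := by simpa using b1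
          exact c2 (r3 a1' b1')
      · rw [Prod.mk.injEq] at c2
        obtain ⟨e1, e2⟩ := c2
        subst e1
        subst e2
        have := r1 b1 a1
        rcases d2 with d2 | d2
        · exact d2 this
        · rw [Prod.mk.injEq] at d2
          omega

/-- The condition is invariant under complement, exchanging the two diagonals. -/
theorem noCB_compl {S : Set Cell} (h : NoCB S) : NoCB Sᶜ := by
  intro x y
  have h0 := h x y
  simp only [Set.mem_compl_iff, not_not]
  constructor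
  · rintro ⟨h1, h2, h3, h4⟩
    exact h0.2 ⟨h3, h4, h1, h2⟩
  · rintro ⟨h1, h2, h3, h4⟩
    exact h0.1 ⟨h3, h4, h1, h2⟩

private theorem B1_conn_insert {T : Set Cell} (hT : Conn T) {p q : Cell} (hq : q ∈ T)
    (hpq : Nb p q) : Conn (T ∪ {p}) := by
  have h1 : ∀ a ∈ T ∪ {p}, Reach (T ∪ {p}) a q := by
    rintro a (ha | ha)
    · exact Reach.mono Set.subset_union_left (hT a ha q hq)
    · rw [Set.mem_singleton_iff] at ha
      subst ha
      exact Reach.step hpq (Or.inr rfl) (Or.inl hq)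
  intro a ha b hb
  exact (h1 a ha).trans (h1 b hb).symm

private theorem B1_nbr {S : Set Cell} {x y : ℤ} (hr : RingOK S x y) :
    ∃ q ∈ Sᶜ, Nb (x, y) q := by
  rcases hr.1 with h | h | h | h
  · exact ⟨_, h, by simp [Nb]⟩
  · exact ⟨_, h, by simp [Nb]⟩
  · exact ⟨_, h, by simp [Nb]⟩
  · exact ⟨_, h, by simp [Nb]⟩

/-- PROOF. `bump`; the complement of `S \ {p}` is `Sᶜ ∪ {p}` and `p` has a neighbour in `Sᶜ` by the
first part of `RingOK` (use `conn_union` with `{p, neighbour}` or a direct argument); nonempty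
because of `hne`. -/
theorem poly_erase {S : Set Cell} (h : IsPoly S) {x y : ℤ} (hx : (x, y) ∈ S)
    (hr : RingOK S x y) (hne : ∃ a ∈ S, Nb (x, y) a) : IsPoly (S \ {((x, y) : Cell)}) := by
  obtain ⟨hc, hn⟩ := bump h.conn h.ncb hx hr
  refine ⟨h.fin.subset Set.sdiff_subset, ?_, hc, ?_, hn⟩
  · obtain ⟨a, ha, hna⟩ := hne
    exact ⟨a, ha, fun h' => hna.ne (by rw [Set.mem_singleton_iff] at h'; exact h'.symm)⟩
  · have e : (S \ {((x, y) : Cell)})ᶜ = Sᶜ ∪ {((x, y) : Cell)} := by
      rw [Set.sdiff_eq, Set.compl_inter, compl_compl]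
    rw [e]
    obtain ⟨q, hq, hpq⟩ := B1_nbr hr
    exact B1_conn_insert h.cconn hq hpq

/-- PROOF. The same for the complement: apply `bump` to `Sᶜ` (`noCB_compl`); note
`(S ∪ {p})ᶜ = Sᶜ \ {p}`; `S ∪ {p}` is connected because `p` has a neighbour in `S` (first part of
`RingOK Sᶜ`). -/
theorem poly_insert {S : Set Cell} (h : IsPoly S) {x y : ℤ} (hx : (x, y) ∉ S)
    (hr : RingOK Sᶜ x y) : IsPoly (S ∪ {((x, y) : Cell)}) := by
  obtain ⟨hc, hn⟩ := bump (S := Sᶜ) h.cconn (noCB_compl h.ncb) hx hr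
  have e : (S ∪ {((x, y) : Cell)})ᶜ = Sᶜ \ {((x, y) : Cell)} := by
    rw [Set.sdiff_eq, Set.compl_union]
  refine ⟨h.fin.union (Set.finite_singleton _), h.ne.mono Set.subset_union_left, ?_, ?_, ?_⟩
  · obtain ⟨q, hq, hpq⟩ := B1_nbr hr
    rw [compl_compl] at hq
    exact B1_conn_insert h.conn hq hpq
  · rw [e]
    exact hc
  · rw [← compl_compl (S ∪ {((x, y) : Cell)}), e]
    exact noCB_compl hn

end Pool.Agent.Lib.MP_dcf1eb_pr
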