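import Pool.Agent.Lib.MP_dcf1eb_pr.A1

/-!
# Fixed area polygons: removing a cell between two components of the complement (B2)
-/

set_option autoImplicit false

namespace Pool.Agent.Lib.MP_dcf1eb_pr

/-- The pairing of two neighbouring cells. -/
private def B2_t (u k : Cell → ZMod 2) (a b : Cell) : ZMod 2 := u a * k b + k a * u b

/-- The sum over the four sides of a block. -/
private def B2_s (u k : Cell → ZMod 2) (i j : ℤ) : ZMod 2 :=
  B2_t u k (i, j) (i + 1, j) + B2_t u k (i, j + 1) (i + 1, j + 1) +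
    B2_t u k (i, j) (i, j + 1) + B2_t u k (i + 1, j) (i + 1, j + 1)

private theorem B2_dec : ∀ ua ub uc ud ka kb kc kd : ZMod 2, ∀ qa qb qc qd : Bool,
    ¬ (qa = true ∧ qd = true ∧ qb = false ∧ qc = false) →
    ¬ (qb = true ∧ qc = true ∧ qa = false ∧ qd = false) →
    (qa = true → ka = 0) → (qb = true → kb = 0) → (qc = true → kc = 0) → (qd = true → kd = 0) →
    (qa = false → ua = 0) → (qb = false → ub = 0) → (qc = false → uc = 0) →
    (qd = false → ud = 0) →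
    (qa = true → qb = true → ua = ub) → (qc = true → qd = true → uc = ud) →
    (qa = true → qc = true → ua = uc) → (qb = true → qd = true → ub = ud) →
    (qa = false → qb = false → ka = kb) → (qc = false → qd = false → kc = kd) →
    (qa = false → qc = false → ka = kc) → (qb = false → qd = false → kb = kd) →
    (ua * kb + ka * ub) + (uc * kd + kc * ud) + (ua * kc + ka * uc) + (ub * kd + kb * ud) = 0 := by
  intro ua ub uc ud ka kb kc kd qa qb qc qd c1 c2 a1 a2 a3 a4 b1 b2 b3 b4 d1 d2 d3 d4 e1 e2 e3 e4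
  have ch : ∀ z : ZMod 2, z + z = 0 := fun z => CharTwo.add_self_eq_zero z
  have ch' : ∀ z w : ZMod 2, z * w + w * z = 0 := fun z w => by rw [mul_comm w z, ch]
  cases qa <;> cases qb <;> cases qc <;> cases qd <;>
    simp at c1 c2 a1 a2 a3 a4 b1 b2 b3 b4 d1 d2 d3 d4 e1 e2 e3 e4 <;> subst_vars <;>
    simp [ch, ch']

private theorem B2_block {Q : Set Cell} (hn : NoCB Q) {p : Cell} {u k : Cell → ZMod 2}
    (hu0 : ∀ c, c ∉ Q → u c = 0) (hk0 : ∀ c, c ∈ Q → k c = 0)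
    (hu : ∀ c d, Nb c d → c ∈ Q → d ∈ Q → c ≠ p → d ≠ p → u c = u d)
    (hk : ∀ c d, Nb c d → c ∉ Q → d ∉ Q → k c = k d) {i j : ℤ}
    (h1 : ((i, j) : Cell) ≠ p) (h2 : ((i + 1, j) : Cell) ≠ p) (h3 : ((i, j + 1) : Cell) ≠ p)
    (h4 : ((i + 1, j + 1) : Cell) ≠ p) : B2_s u k i j = 0 := by
  classical
  have n1 : Nb ((i, j) : Cell) (i + 1, j) := by simp [Nb]
  have n2 : Nb ((i, j + 1) : Cell) (i + 1, j + 1) := by simp [Nb]
  have n3 : Nb ((i, j) : Cell) (i, j + 1) := by simp [Nb]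
  have n4 : Nb ((i + 1, j) : Cell) (i + 1, j + 1) := by simp [Nb]
  have h0 := hn i j
  have key := B2_dec (u (i, j)) (u (i + 1, j)) (u (i, j + 1)) (u (i + 1, j + 1))
    (k (i, j)) (k (i + 1, j)) (k (i, j + 1)) (k (i + 1, j + 1))
    (decide ((i, j) ∈ Q)) (decide ((i + 1, j) ∈ Q)) (decide ((i, j + 1) ∈ Q))
    (decide ((i + 1, j + 1) ∈ Q))
  simp only [decide_eq_true_eq, decide_eq_false_iff_not] at key
  exact key h0.1 h0.2 (hk0 _) (hk0 _) (hk0 _) (hk0 _) (hu0 _) (hu0 _) (hu0 _) (hu0 _)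
    (fun a b => hu _ _ n1 a b h1 h2) (fun a b => hu _ _ n2 a b h3 h4)
    (fun a b => hu _ _ n3 a b h1 h3) (fun a b => hu _ _ n4 a b h2 h4)
    (fun a b => hk _ _ n1 a b) (fun a b => hk _ _ n2 a b)
    (fun a b => hk _ _ n3 a b) (fun a b => hk _ _ n4 a b)

private theorem B2_tel (f : ℕ → ZMod 2) (M : ℕ) :
    ∑ b ∈ Finset.range M, (f b + f (b + 1)) = f 0 + f M := by
  induction M with
  | zero => simp [CharTwo.add_self_eq_zero]
  | succ M ih =>
    rw [Finset.sum_range_succ, ih]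
    have h2 : f M + f M = 0 := CharTwo.add_self_eq_zero _
    calc f 0 + f M + (f M + f (M + 1)) = f 0 + (f M + f M) + f (M + 1) := by ring
      _ = f 0 + f (M + 1) := by rw [h2, add_zero]

private theorem B2_square {u k : Cell → ZMod 2} {R : ℕ}
    (hb : ∀ c : Cell, (c.1 ≤ -(R : ℤ) ∨ (R : ℤ) ≤ c.1 ∨ c.2 ≤ -(R : ℤ) ∨ (R : ℤ) ≤ c.2) →
      u c = 0) :
    ∑ a ∈ Finset.range (2 * R), ∑ b ∈ Finset.range (2 * R),
      B2_s u k ((a : ℤ) - R) ((b : ℤ) - R) = 0 := by
  have t0 : ∀ a b : Cell, u a = 0 → u b = 0 → B2_t u k a b = 0 := by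
    intro a b ha hb
    simp [B2_t, ha, hb]
  have e1 : ∀ a b : ℕ, B2_s u k ((a : ℤ) - R) ((b : ℤ) - R) =
      (B2_t u k ((a : ℤ) - R, (b : ℤ) - R) ((a : ℤ) - R + 1, (b : ℤ) - R) +
        B2_t u k ((a : ℤ) - R, ((b + 1 : ℕ) : ℤ) - R) ((a : ℤ) - R + 1, ((b + 1 : ℕ) : ℤ) - R)) +
      (B2_t u k ((a : ℤ) - R, (b : ℤ) - R) ((a : ℤ) - R, (b : ℤ) - R + 1) +
        B2_t u k (((a + 1 : ℕ) : ℤ) - R, (b : ℤ) - R)
          (((a + 1 : ℕ) : ℤ) - R, (b : ℤ) - R + 1)) := by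
    intro a b
    have x1 : ((a + 1 : ℕ) : ℤ) - R = (a : ℤ) - R + 1 := by push_cast; ring
    have x2 : ((b + 1 : ℕ) : ℤ) - R = (b : ℤ) - R + 1 := by push_cast; ring
    rw [x1, x2]
    simp only [B2_s]
    ring
  simp only [e1]
  rw [Finset.sum_congr rfl fun a _ => Finset.sum_add_distrib, Finset.sum_add_distrib]
  have p1 : ∑ a ∈ Finset.range (2 * R), ∑ b ∈ Finset.range (2 * R),
      (B2_t u k ((a : ℤ) - R, (b : ℤ) - R) ((a : ℤ) - R + 1, (b : ℤ) - R) +
        B2_t u k ((a : ℤ) - R, ((b + 1 : ℕ) : ℤ) - R)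
          ((a : ℤ) - R + 1, ((b + 1 : ℕ) : ℤ) - R)) = 0 := by
    apply Finset.sum_eq_zero
    intro a _
    rw [B2_tel (fun b : ℕ => B2_t u k ((a : ℤ) - R, (b : ℤ) - R)
      ((a : ℤ) - R + 1, (b : ℤ) - R))]
    rw [t0 _ _ (hb _ _) (hb _ _), t0 _ _ (hb _ _) (hb _ _), add_zero]
    · right; right; right; push_cast; omega
    · right; right; right; push_cast; omega
    · right; right; left; push_cast; omega
    · right; right; left; push_cast; omega
  have p2 : ∑ a ∈ Finset.range (2 * R), ∑ b ∈ Finset.range (2 * R),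
      (B2_t u k ((a : ℤ) - R, (b : ℤ) - R) ((a : ℤ) - R, (b : ℤ) - R + 1) +
        B2_t u k (((a + 1 : ℕ) : ℤ) - R, (b : ℤ) - R)
          (((a + 1 : ℕ) : ℤ) - R, (b : ℤ) - R + 1)) = 0 := by
    rw [Finset.sum_comm]
    apply Finset.sum_eq_zero
    intro b _
    rw [B2_tel (fun a : ℕ => B2_t u k ((a : ℤ) - R, (b : ℤ) - R)
      ((a : ℤ) - R, (b : ℤ) - R + 1))]
    rw [t0 _ _ (hb _ _) (hb _ _), t0 _ _ (hb _ _) (hb _ _), add_zero]
    · right; left; push_cast; omega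
    · right; left; push_cast; omega
    · left; push_cast; omega
    · left; push_cast; omega
  rw [p1, p2, add_zero]

private theorem B2_four {Q : Set Cell} (hf : Q.Finite) (hn : NoCB Q) {x y : ℤ}
    {u k : Cell → ZMod 2}
    (hu0 : ∀ c, c ∉ Q → u c = 0) (hk0 : ∀ c, c ∈ Q → k c = 0)
    (hu : ∀ c d, Nb c d → c ∈ Q → d ∈ Q → c ≠ (x, y) → d ≠ (x, y) → u c = u d)
    (hk : ∀ c d, Nb c d → c ∉ Q → d ∉ Q → k c = k d) :
    B2_s u k (x - 1) (y - 1) + B2_s u k (x - 1) y + (B2_s u k x (y - 1) + B2_s u k x y) = 0 := by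
  classical
  obtain ⟨R, hR, hRx⟩ : ∃ R : ℕ, (∀ c ∈ Q, -(R : ℤ) < c.1 ∧ c.1 < R ∧ -(R : ℤ) < c.2 ∧ c.2 < R) ∧
      -(R : ℤ) < x ∧ x < R ∧ -(R : ℤ) < y ∧ y < R := by
    have hf' : (insert ((x, y) : Cell) Q).Finite := hf.insert _
    obtain ⟨B, hB⟩ : ∃ B : ℕ, B = ∑ c ∈ hf'.toFinset, (c.1.natAbs + c.2.natAbs) := ⟨_, rfl⟩
    have hall : ∀ c : Cell, c ∈ hf'.toFinset → c.1.natAbs + c.2.natAbs ≤ B := by
      intro c hc
      rw [hB]
      exact Finset.single_le_sum (f := fun c : Cell => c.1.natAbs + c.2.natAbs)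
        (fun _ _ => Nat.zero_le _) hc
    refine ⟨B + 1, ?_, ?_⟩
    · intro c hc
      have h1 := hall c (by simp [hc])
      push_cast
      omega
    · have h1 := hall (x, y) (by simp)
      simp only at h1
      push_cast
      omega
  have hsq := B2_square (u := u) (k := k) (R := R) (by
    intro c hc
    apply hu0
    intro hcQ
    have := hR c hcQ
    omega)
  obtain ⟨a0, ha0⟩ : ∃ a0 : ℕ, (a0 : ℤ) = x - 1 + R := ⟨(x - 1 + R).toNat, by omega⟩
  obtain ⟨b0, hb0⟩ : ∃ b0 : ℕ, (b0 : ℤ) = y - 1 + R := ⟨(y - 1 + R).toNat, by omega⟩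
  rw [← Finset.sum_product'] at hsq
  have hsub : ({a0, a0 + 1} ×ˢ {b0, b0 + 1} : Finset (ℕ × ℕ)) ⊆
      Finset.range (2 * R) ×ˢ Finset.range (2 * R) := by
    intro c hc
    simp only [Finset.mem_product, Finset.mem_insert, Finset.mem_singleton] at hc
    simp only [Finset.mem_product, Finset.mem_range]
    omega
  have hss := Finset.sum_subset (f := fun c : ℕ × ℕ =>
    B2_s u k ((c.1 : ℤ) - R) ((c.2 : ℤ) - R)) hsub (by
      intro c hc hcn
      simp only [Finset.mem_product, Finset.mem_insert, Finset.mem_singleton] at hcn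
      apply B2_block hn hu0 hk0 hu hk
      · rw [ne_eq, Prod.mk.injEq]
        omega
      · rw [ne_eq, Prod.mk.injEq]
        omega
      · rw [ne_eq, Prod.mk.injEq]
        omega
      · rw [ne_eq, Prod.mk.injEq]
        omega)
  rw [hsq, Finset.sum_product, Finset.sum_pair (by omega), Finset.sum_pair (by omega),
    Finset.sum_pair (by omega)] at hss
  have x1 : (a0 : ℤ) - R = x - 1 := by omega
  have x2 : ((a0 + 1 : ℕ) : ℤ) - R = x := by push_cast; omega
  have x3 : (b0 : ℤ) - R = y - 1 := by omega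
  have x4 : ((b0 + 1 : ℕ) : ℤ) - R = y := by push_cast; omega
  simp only [x1, x2, x3, x4] at hss
  exact hss

/-- Parity lemma. Let `p = (x, y) ∈ Q`, north and south of `p` in `Q`, east and west of `p` not in
`Q` and in different components of the complement. Then north and south are joined in `Q \ {p}`.

PROOF. Suppose not. Put `U = {c | Reach (Q \ {p}) N c}` (a subset of `Q \ {p}`, finite, contains
`N`, not `S`) and `K = {c | Reach Qᶜ E c}` (a subset of `Qᶜ`, contains `E`, not `W`). With the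
indicator functions `u, k : Cell → ZMod 2` put `t a b = u a * k b + k a * u b` and for a block at
`(i, j)`: `s i j = t (i,j) (i+1,j) + t (i,j+1) (i+1,j+1) + t (i,j) (i,j+1) + t (i+1,j) (i+1,j+1)`.
(1) `s i j = 0` if the block does not contain `p`: for the four cells, membership in `Q` is
arbitrary but not a checkerboard; two adjacent cells in `Q` (both `≠ p`) have the same `u`, two
adjacent cells not in `Q` have the same `k`; `u = 0` outside `Q`, `k = 0` on `Q`. Finite check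
(e.g. generalize the 4 memberships and the 8 values to `Bool`/`ZMod 2` and `decide`, or case split).
(2) The sum of `s i j` over a large square `-R ≤ i, j < R` with `Q ⊆ (-R, R)^2` is `0`: write
`s i j = (h i j + h i (j+1)) + (v i j + v (i+1) j)` and telescope in `ZMod 2`
(`∑_j (h i j + h i (j+1)) = h i (-R) + h i R = 0` because `h, v` vanish outside `(-R, R)^2`; they
vanish if both `u`-values vanish).
(3) So the sum of `s` over the four blocks `(x-1,y-1), (x,y-1), (x-1,y), (x,y)` containing `p` is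
`0`. As `u p = k p = 0` it is the sum of `t` around the ring N, NE, E, SE, S, SW, W, NW of `p`.
Evaluate: if `NE ∈ Q` then `NE ∈ U` and (N,NE),(NE,E) contribute `0 + 1`; if `NE ∉ Q` then `NE ∈ K`
and they contribute `1 + 0`. East-south: `SE ∈ Q` then `SE` is joined to `S`, not in `U`: `0 + 0`;
`SE ∉ Q` then `SE ∈ K`, `S ∉ U`: `0 + 0`. South-west: `S ∉ U`, `W ∉ K`; `SW ∈ Q`: not in `U`; `SW ∉ Q`:
joined to `W`, not in `K`: `0`. West-north: `W ∉ K`; `NW ∈ Q`: in `U` but `W, N` not in `K`, `k NW = 0`: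
`0`; `NW ∉ Q`: joined to `W`, not in `K`: `0`. Total `1 ≠ 0`, contradiction. -/
theorem parity {Q : Set Cell} (hf : Q.Finite) (hn : NoCB Q) {x y : ℤ} (hp : (x, y) ∈ Q)
    (hE : (x + 1, y) ∉ Q) (hW : (x - 1, y) ∉ Q) (hN : (x, y + 1) ∈ Q) (hS : (x, y - 1) ∈ Q)
    (hab : ¬ Reach Qᶜ (x + 1, y) (x - 1, y)) :
    Reach (Q \ {((x, y) : Cell)}) (x, y + 1) (x, y - 1) := by
  classical
  by_contra hno
  obtain ⟨T, hT⟩ : ∃ T : Set Cell, T = Q \ {((x, y) : Cell)} := ⟨_, rfl⟩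
  rw [← hT] at hno
  have mT : ∀ c : Cell, c ∈ Q → c ≠ (x, y) → c ∈ T := fun c h1 h2 => by
    rw [hT]
    exact ⟨h1, h2⟩
  have hNT : ((x, y + 1) : Cell) ∈ T := mT _ hN (by simp)
  obtain ⟨u, hu⟩ : ∃ u : Cell → ZMod 2, ∀ c, u c = if Reach T (x, y + 1) c then 1 else 0 :=
    ⟨_, fun _ => rfl⟩
  obtain ⟨k, hk⟩ : ∃ k : Cell → ZMod 2, ∀ c, k c = if Reach Qᶜ (x + 1, y) c then 1 else 0 :=
    ⟨_, fun _ => rfl⟩
  have hu0 : ∀ c, c ∉ Q → u c = 0 := by
    intro c hc
    rw [hu, if_neg]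
    intro h
    have := h.mem hNT
    rw [hT] at this
    exact hc this.1
  have hup : u (x, y) = 0 := by
    rw [hu, if_neg]
    intro h
    have := h.mem hNT
    rw [hT] at this
    exact this.2 rfl
  have hk0 : ∀ c, c ∈ Q → k c = 0 := by
    intro c hc
    rw [hk, if_neg]
    intro h
    exact h.mem (S := Qᶜ) hE hc
  have huu : ∀ c d, Nb c d → c ∈ Q → d ∈ Q → c ≠ (x, y) → d ≠ (x, y) → u c = u d := by
    intro c d hcd hc hd hcp hdp
    have h1 : Reach T (x, y + 1) c ↔ Reach T (x, y + 1) d :=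
      ⟨fun h => h.tail hcd (mT c hc hcp) (mT d hd hdp),
        fun h => h.tail hcd.symm (mT d hd hdp) (mT c hc hcp)⟩
    rw [hu, hu]
    simp only [h1]
  have hkk : ∀ c d, Nb c d → c ∉ Q → d ∉ Q → k c = k d := by
    intro c d hcd hc hd
    have h1 : Reach Qᶜ (x + 1, y) c ↔ Reach Qᶜ (x + 1, y) d :=
      ⟨fun h => h.tail hcd hc hd, fun h => h.tail hcd.symm hd hc⟩
    rw [hk, hk]
    simp only [h1]
  have hsum := B2_four hf hn hu0 hk0 huu hkk
  have uN : u (x, y + 1) = 1 := by rw [hu, if_pos (Reach.refl _ _)]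
  have uS : u (x, y - 1) = 0 := by rw [hu, if_neg hno]
  have kE : k (x + 1, y) = 1 := by rw [hk, if_pos (Reach.refl _ _)]
  have kW : k (x - 1, y) = 0 := by rw [hk, if_neg hab]
  have uE : u (x + 1, y) = 0 := hu0 _ hE
  have uW : u (x - 1, y) = 0 := hu0 _ hW
  have kN : k (x, y + 1) = 0 := hk0 _ hN
  have kS : k (x, y - 1) = 0 := hk0 _ hS
  have kp : k (x, y) = 0 := hk0 _ hp
  have kNW : k (x - 1, y + 1) = 0 := by
    by_cases h : ((x - 1, y + 1) : Cell) ∈ Q
    · exact hk0 _ h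
    · rw [hkk _ _ (by simp [Nb]) h hW, kW]
  have uSE : u (x + 1, y - 1) = 0 := by
    by_cases h : ((x + 1, y - 1) : Cell) ∈ Q
    · rw [huu _ _ (by simp [Nb]) h hS (by simp) (by simp), uS]
    · exact hu0 _ h
  have uSW : u (x - 1, y - 1) = 0 := by
    by_cases h : ((x - 1, y - 1) : Cell) ∈ Q
    · rw [huu _ _ (by simp [Nb]) h hS (by simp) (by simp), uS]
    · exact hu0 _ h
  have hNE : k (x + 1, y + 1) + u (x + 1, y + 1) = 1 := by
    by_cases h : ((x + 1, y + 1) : Cell) ∈ Q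
    · rw [hk0 _ h, huu _ _ (by simp [Nb]) h hN (by simp) (by simp), uN, zero_add]
    · rw [hu0 _ h, hkk _ _ (by simp [Nb]) h hE, kE, add_zero]
  simp only [B2_s, B2_t, sub_add_cancel] at hsum
  rw [hup, kp, uN, uS, kE, kW, uE, uW, kN, kS, kNW, uSE, uSW] at hsum
  have h3 : k (x + 1, y + 1) + u (x + 1, y + 1) = 0 := by
    linear_combination hsum
  rw [hNE] at h3
  exact absurd h3 (by decide)

end Pool.Agent.Lib.MP_dcf1eb_pr
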