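import Pool.Agent.Lib.MP_dcf1eb_pr.B1
import Pool.Agent.Lib.MP_dcf1eb_pr.B2

/-!
# Fixed area polygons: the merge lemma (B3)
-/

set_option autoImplicit false

namespace Pool.Agent.Lib.MP_dcf1eb_pr

/-- Transposition. -/
def swp (S : Set Cell) : Set Cell := {c | (c.2, c.1) ∈ S}

private theorem B3_swp {S : Set Cell} {a b : Cell} (h : Reach S a b) :
    Reach (swp S) (a.2, a.1) (b.2, b.1) := by
  induction h with
  | refl => exact Reach.refl _ _
  | @tail c d _ h ih =>
    refine ih.tail ?_ h.2.1 h.2.2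
    rcases c with ⟨c1, c2⟩
    rcases d with ⟨d1, d2⟩
    have h1 := h.1
    simp only [Nb, Prod.mk.injEq] at h1 ⊢
    omega

private theorem B3_ncb {Q : Set Cell} (hn : NoCB Q) : NoCB (swp Q) := by
  intro a b
  have h := hn b a
  exact ⟨fun ⟨p, q, r, s⟩ => h.1 ⟨p, q, s, r⟩, fun ⟨p, q, r, s⟩ => h.2 ⟨q, p, r, s⟩⟩

/-- The parity lemma with the roles of the two axes exchanged. PROOF. Apply `parity` to `swp Q`
(`NoCB (swp Q)`, `Reach (swp Q) (a.2, a.1) (b.2, b.1) ↔ Reach Q a b` by induction, finiteness by an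
injective map). -/
theorem parity' {Q : Set Cell} (hf : Q.Finite) (hn : NoCB Q) {x y : ℤ} (hp : (x, y) ∈ Q)
    (hN : (x, y + 1) ∉ Q) (hS : (x, y - 1) ∉ Q) (hE : (x + 1, y) ∈ Q) (hW : (x - 1, y) ∈ Q)
    (hab : ¬ Reach Qᶜ (x, y + 1) (x, y - 1)) :
    Reach (Q \ {((x, y) : Cell)}) (x + 1, y) (x - 1, y) := by
  have hfin : (swp Q).Finite := hf.preimage (Prod.swap_injective.injOn)
  have h1 : ¬ Reach (swp Q)ᶜ (y + 1, x) (y - 1, x) := by
    intro h
    exact hab (B3_swp h)
  have h2 := parity (Q := swp Q) hfin (B3_ncb hn) (x := y) (y := x) hp hN hS hE hW h1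
  have h3 := B3_swp h2
  refine h3.mono ?_
  rintro ⟨c1, c2⟩ ⟨hc1, hc2⟩
  refine ⟨hc1, ?_⟩
  intro h
  apply hc2
  simp only [Set.mem_singleton_iff, Prod.mk.injEq] at h ⊢
  exact ⟨h.2, h.1⟩

private theorem B3_adj {Q : Set Cell} (hn : NoCB Q) {x y : ℤ} (hp : (x, y) ∈ Q) :
    ((x, y + 1) ∉ Q → (x + 1, y) ∉ Q → Reach Qᶜ (x, y + 1) (x + 1, y)) ∧
    ((x, y + 1) ∉ Q → (x - 1, y) ∉ Q → Reach Qᶜ (x, y + 1) (x - 1, y)) ∧
    ((x, y - 1) ∉ Q → (x + 1, y) ∉ Q → Reach Qᶜ (x, y - 1) (x + 1, y)) ∧
    ((x, y - 1) ∉ Q → (x - 1, y) ∉ Q → Reach Qᶜ (x, y - 1) (x - 1, y)) := by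
  refine ⟨fun h1 h2 => ?_, fun h1 h2 => ?_, fun h1 h2 => ?_, fun h1 h2 => ?_⟩
  · have h3 : (x + 1, y + 1) ∉ Q := fun h3 => (hn x y).1 ⟨hp, h3, h2, h1⟩
    have n1 : Nb (x, y + 1) (x + 1, y + 1) := by simp [Nb]
    have n2 : Nb (x + 1, y + 1) (x + 1, y) := by simp [Nb]
    exact (Reach.step n1 h1 h3).tail n2 h3 h2
  · have h := (hn (x - 1) y).2
    rw [sub_add_cancel] at h
    have h3 : (x - 1, y + 1) ∉ Q := fun h3 => h ⟨hp, h3, h2, h1⟩
    have n1 : Nb (x, y + 1) (x - 1, y + 1) := by simp [Nb]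
    have n2 : Nb (x - 1, y + 1) (x - 1, y) := by simp [Nb]
    exact (Reach.step n1 h1 h3).tail n2 h3 h2
  · have h := (hn x (y - 1)).2
    rw [sub_add_cancel] at h
    have h3 : (x + 1, y - 1) ∉ Q := fun h3 => h ⟨h3, hp, h1, h2⟩
    have n1 : Nb (x, y - 1) (x + 1, y - 1) := by simp [Nb]
    have n2 : Nb (x + 1, y - 1) (x + 1, y) := by simp [Nb]
    exact (Reach.step n1 h1 h3).tail n2 h3 h2
  · have h := (hn (x - 1) (y - 1)).1
    rw [sub_add_cancel, sub_add_cancel] at h
    have h3 : (x - 1, y - 1) ∉ Q := fun h3 => h ⟨h3, hp, h1, h2⟩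
    have n1 : Nb (x, y - 1) (x - 1, y - 1) := by simp [Nb]
    have n2 : Nb (x - 1, y - 1) (x - 1, y) := by simp [Nb]
    exact (Reach.step n1 h1 h3).tail n2 h3 h2

private theorem B3_EW {Q : Set Cell} (hf : Q.Finite) (hc : Conn Q) (hn : NoCB Q) {x y : ℤ}
    (hp : (x, y) ∈ Q) (hE : (x + 1, y) ∉ Q) (hW : (x - 1, y) ∉ Q)
    (hab : ¬ Reach Qᶜ (x + 1, y) (x - 1, y)) :
    Conn (Q \ {((x, y) : Cell)}) ∧ NoCB (Q \ {((x, y) : Cell)}) := by
  obtain ⟨r1, r2, r3, r4⟩ := B3_adj hn hp
  have hN : (x, y + 1) ∈ Q := by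
    by_contra h
    exact hab ((r1 h hE).symm.trans (r2 h hW))
  have hS : (x, y - 1) ∈ Q := by
    by_contra h
    exact hab ((r3 h hE).symm.trans (r4 h hW))
  have hr := parity hf hn hp hE hW hN hS hab
  constructor
  · refine conn_erase hc hp ?_
    have key : ∀ a ∈ Q, Nb (x, y) a → a = (x, y + 1) ∨ a = (x, y - 1) := by
      intro a ha h
      rcases h with h | h | h | h
      · exact absurd (h ▸ ha) hE
      · exact absurd (h ▸ ha) hW
      · exact Or.inl h
      · exact Or.inr h
    intro a ha b hb hpa hpb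
    rcases key a ha hpa with rfl | rfl <;> rcases key b hb hpb with rfl | rfl
    · exact Reach.refl _ _
    · exact hr
    · exact hr.symm
    · exact Reach.refl _ _
  · intro i j
    have h := hn i j
    constructor
    · rintro ⟨h1, h2, h3, h4⟩
      have h3' : (i + 1, j) ∉ Q := by
        intro h5
        have h6 : (i + 1, j) = ((x, y) : Cell) := by
          by_contra h7
          exact h3 ⟨h5, h7⟩
        simp only [Prod.mk.injEq] at h6
        apply hW
        have h8 : ((x - 1, y) : Cell) = (i, j) := by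
          simp only [Prod.mk.injEq]
          omega
        rw [h8]
        exact h1.1
      have h4' : (i, j + 1) ∉ Q := by
        intro h5
        have h6 : (i, j + 1) = ((x, y) : Cell) := by
          by_contra h7
          exact h4 ⟨h5, h7⟩
        simp only [Prod.mk.injEq] at h6
        apply hE
        have h8 : ((x + 1, y) : Cell) = (i + 1, j + 1) := by
          simp only [Prod.mk.injEq]
          omega
        rw [h8]
        exact h2.1
      exact h.1 ⟨h1.1, h2.1, h3', h4'⟩
    · rintro ⟨h1, h2, h3, h4⟩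
      have h3' : (i, j) ∉ Q := by
        intro h5
        have h6 : (i, j) = ((x, y) : Cell) := by
          by_contra h7
          exact h3 ⟨h5, h7⟩
        simp only [Prod.mk.injEq] at h6
        apply hE
        have h8 : ((x + 1, y) : Cell) = (i + 1, j) := by
          simp only [Prod.mk.injEq]
          omega
        rw [h8]
        exact h1.1
      have h4' : (i + 1, j + 1) ∉ Q := by
        intro h5
        have h6 : (i + 1, j + 1) = ((x, y) : Cell) := by
          by_contra h7
          exact h4 ⟨h5, h7⟩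
        simp only [Prod.mk.injEq] at h6
        apply hW
        have h8 : ((x - 1, y) : Cell) = (i, j + 1) := by
          simp only [Prod.mk.injEq]
          omega
        rw [h8]
        exact h2.1
      exact h.2 ⟨h1.1, h2.1, h3', h4'⟩

private theorem B3_NS {Q : Set Cell} (hf : Q.Finite) (hc : Conn Q) (hn : NoCB Q) {x y : ℤ}
    (hp : (x, y) ∈ Q) (hN : (x, y + 1) ∉ Q) (hS : (x, y - 1) ∉ Q)
    (hab : ¬ Reach Qᶜ (x, y + 1) (x, y - 1)) :
    Conn (Q \ {((x, y) : Cell)}) ∧ NoCB (Q \ {((x, y) : Cell)}) := by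
  obtain ⟨r1, r2, r3, r4⟩ := B3_adj hn hp
  have hE : (x + 1, y) ∈ Q := by
    by_contra h
    exact hab ((r1 hN h).trans (r3 hS h).symm)
  have hW : (x - 1, y) ∈ Q := by
    by_contra h
    exact hab ((r2 hN h).trans (r4 hS h).symm)
  have hr := parity' hf hn hp hN hS hE hW hab
  constructor
  · refine conn_erase hc hp ?_
    have key : ∀ a ∈ Q, Nb (x, y) a → a = (x + 1, y) ∨ a = (x - 1, y) := by
      intro a ha h
      rcases h with h | h | h | h
      · exact Or.inl h
      · exact Or.inr h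
      · exact absurd (h ▸ ha) hN
      · exact absurd (h ▸ ha) hS
    intro a ha b hb hpa hpb
    rcases key a ha hpa with rfl | rfl <;> rcases key b hb hpb with rfl | rfl
    · exact Reach.refl _ _
    · exact hr
    · exact hr.symm
    · exact Reach.refl _ _
  · intro i j
    have h := hn i j
    constructor
    · rintro ⟨h1, h2, h3, h4⟩
      have h3' : (i + 1, j) ∉ Q := by
        intro h5
        have h6 : (i + 1, j) = ((x, y) : Cell) := by
          by_contra h7
          exact h3 ⟨h5, h7⟩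
        simp only [Prod.mk.injEq] at h6
        apply hN
        have h8 : ((x, y + 1) : Cell) = (i + 1, j + 1) := by
          simp only [Prod.mk.injEq]
          omega
        rw [h8]
        exact h2.1
      have h4' : (i, j + 1) ∉ Q := by
        intro h5
        have h6 : (i, j + 1) = ((x, y) : Cell) := by
          by_contra h7
          exact h4 ⟨h5, h7⟩
        simp only [Prod.mk.injEq] at h6
        apply hS
        have h8 : ((x, y - 1) : Cell) = (i, j) := by
          simp only [Prod.mk.injEq]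
          omega
        rw [h8]
        exact h1.1
      exact h.1 ⟨h1.1, h2.1, h3', h4'⟩
    · rintro ⟨h1, h2, h3, h4⟩
      have h3' : (i, j) ∉ Q := by
        intro h5
        have h6 : (i, j) = ((x, y) : Cell) := by
          by_contra h7
          exact h3 ⟨h5, h7⟩
        simp only [Prod.mk.injEq] at h6
        apply hN
        have h8 : ((x, y + 1) : Cell) = (i, j + 1) := by
          simp only [Prod.mk.injEq]
          omega
        rw [h8]
        exact h2.1
      have h4' : (i + 1, j + 1) ∉ Q := by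
        intro h5
        have h6 : (i + 1, j + 1) = ((x, y) : Cell) := by
          by_contra h7
          exact h4 ⟨h5, h7⟩
        simp only [Prod.mk.injEq] at h6
        apply hS
        have h8 : ((x, y - 1) : Cell) = (i + 1, j) := by
          simp only [Prod.mk.injEq]
          omega
        rw [h8]
        exact h1.1
      exact h.2 ⟨h1.1, h2.1, h3', h4'⟩

/-- The merge lemma: a cell of `Q` with two neighbours in different components of the complement
can be removed.
PROOF. Write `p = (x, y)`. By cases on the directions of `a` and `b` (16 cases). The same direction: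
`a = b`, contradiction with `hab`. Two adjacent directions, say `N, E ∉ Q`: if `NE ∉ Q` then
`N - NE - E` is a path in `Qᶜ`, contradiction; if `NE ∈ Q` then `p, NE ∈ Q`, `N, E ∉ Q` is a
checkerboard, contradiction with `hn`. Two opposite directions, say `E` and `W`: then `N ∈ Q`: if
`N ∉ Q`, then `NE ∉ Q` (else checkerboard `p, NE`, `N, E`) and `NW ∉ Q`, so `E - NE - N - NW - W` is a
path in `Qᶜ`, contradiction; in the same way `S ∈ Q`. Then `parity` (or `parity'`, and `Reach.symm`)
gives `Reach (Q \ {p}) N S`. `Conn (Q \ {p})`: `conn_erase`, as the only neighbours of `p` in `Q`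
are `N` and `S`. `NoCB (Q \ {p})`: every block containing `p` contains `E` or `W` next to `p`, both
not in `Q \ {p}`, so it is no checkerboard; the other blocks are unchanged. -/
theorem merge {Q : Set Cell} (hf : Q.Finite) (hc : Conn Q) (hn : NoCB Q) {p a b : Cell}
    (hp : p ∈ Q) (ha : a ∉ Q) (hb : b ∉ Q) (hpa : Nb p a) (hpb : Nb p b)
    (hab : ¬ Reach Qᶜ a b) : Conn (Q \ {p}) ∧ NoCB (Q \ {p}) := by
  rcases p with ⟨x, y⟩
  obtain ⟨r1, r2, r3, r4⟩ := B3_adj hn hp
  have hba : ¬ Reach Qᶜ b a := fun h => hab h.symm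
  rcases hpa with rfl | rfl | rfl | rfl <;> rcases hpb with rfl | rfl | rfl | rfl
  · exact absurd (Reach.refl _ _) hab
  · exact B3_EW hf hc hn hp ha hb hab
  · exact absurd (r1 hb ha).symm hab
  · exact absurd (r3 hb ha).symm hab
  · exact B3_EW hf hc hn hp hb ha hba
  · exact absurd (Reach.refl _ _) hab
  · exact absurd (r2 hb ha).symm hab
  · exact absurd (r4 hb ha).symm hab
  · exact absurd (r1 ha hb) hab
  · exact absurd (r2 ha hb) hab
  · exact absurd (Reach.refl _ _) hab
  · exact B3_NS hf hc hn hp ha hb hab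
  · exact absurd (r3 ha hb) hab
  · exact absurd (r4 ha hb) hab
  · exact B3_NS hf hc hn hp hb ha hba
  · exact absurd (Reach.refl _ _) hab

end Pool.Agent.Lib.MP_dcf1eb_pr
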