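import Pool.Agent.Lib.MP_dcf1eb_pr.B1

/-!
# Fixed area polygons: what one removed cell does to the components, frames (B4)
-/

set_option autoImplicit false

namespace Pool.Agent.Lib.MP_dcf1eb_pr

/-- If no neighbour of `p` outside `Q` is joined to `m`, removing `p` from `Q` joins nothing new
to `m`. PROOF. `Reach.closed` with `R = {c | Reach Qᶜ m c}`: a step from `R` inside
`(Q \ {p})ᶜ = Qᶜ ∪ {p}` which is not a step of `Qᶜ` goes to `p` from a neighbour of `p` in `R`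
(`R ⊆ Qᶜ` as `m ∉ Q`), excluded. -/
theorem reach_off {Q : Set Cell} {m p : Cell} (hm : m ∉ Q) (hp : p ∈ Q)
    (h : ∀ c, Nb p c → c ∉ Q → ¬ Reach Qᶜ m c) :
    ∀ c, Reach (Q \ {p})ᶜ m c → Reach Qᶜ m c := by
  intro c hc
  refine Reach.closed (R := {c | Reach Qᶜ m c}) hc (Reach.refl _ _) ?_
  intro x y hx hxy hxS hyS
  have hx' : Reach Qᶜ m x := hx
  have hxQ : x ∈ Qᶜ := hx'.mem hm
  by_cases hyp : y = p
  · subst hyp
    exact absurd hx' (h x hxy.symm hxQ)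
  · have hyQ : y ∈ Qᶜ := fun hy => hyS ⟨hy, hyp⟩
    exact hx'.tail hxy hxQ hyQ

/-- If all neighbours of `p` outside `Q` are joined to `m`, removing `p` from `Q` joins nothing new
to `m` except `p`. PROOF. `Reach.closed` with `R = {c | c = p ∨ Reach Qᶜ m c}`. -/
theorem reach_on {Q : Set Cell} {m p : Cell} (hm : m ∉ Q) (hp : p ∈ Q)
    (h : ∀ c, Nb p c → c ∉ Q → Reach Qᶜ m c) :
    ∀ c, Reach (Q \ {p})ᶜ m c → c = p ∨ Reach Qᶜ m c := by
  intro c hc
  refine Reach.closed (R := {c | c = p ∨ Reach Qᶜ m c}) hc (Or.inr (Reach.refl _ _)) ?_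
  intro x y hx hxy hxS hyS
  by_cases hyp : y = p
  · exact Or.inl hyp
  · have hyQ : y ∈ Qᶜ := fun hy => hyS ⟨hy, hyp⟩
    rcases hx with hx | hx
    · subst hx
      exact Or.inr (h y hxy hyQ)
    · have hx' : Reach Qᶜ m x := hx
      exact Or.inr (hx'.tail hxy (hx'.mem hm) hyQ)

/-- Joined cells stay joined if cells are removed from `Q`. -/
theorem reach_sub {Q Q' : Set Cell} (h : Q' ⊆ Q) {a b : Cell} (hab : Reach Qᶜ a b) :
    Reach Q'ᶜ a b :=
  hab.mono (Set.compl_subset_compl.2 h)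

/-- `RingOK` in the coordinates of a frame `g`. -/
def RingF (g : ℤ → ℤ → Cell) (S : Set Cell) (x y : ℤ) : Prop :=
  (g x (y + 1) ∉ S ∨ g (x + 1) y ∉ S ∨ g x (y - 1) ∉ S ∨ g (x - 1) y ∉ S) ∧
  (g x (y + 1) ∈ S → g (x + 1) y ∈ S → g (x + 1) (y + 1) ∈ S) ∧
  (g (x + 1) y ∈ S → g x (y - 1) ∈ S → g (x + 1) (y - 1) ∈ S) ∧
  (g x (y - 1) ∈ S → g (x - 1) y ∈ S → g (x - 1) (y - 1) ∈ S) ∧
  (g (x - 1) y ∈ S → g x (y + 1) ∈ S → g (x - 1) (y + 1) ∈ S) ∧
  ¬ (g x (y + 1) ∈ S ∧ g x (y - 1) ∈ S ∧ g (x + 1) y ∉ S ∧ g (x - 1) y ∉ S) ∧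
  ¬ (g (x + 1) y ∈ S ∧ g (x - 1) y ∈ S ∧ g x (y + 1) ∉ S ∧ g x (y - 1) ∉ S)

/-- A frame: coordinates of the lattice which respect everything. -/
structure Fr (g : ℤ → ℤ → Cell) : Prop where
  inj : ∀ a b a' b', g a b = g a' b' ↔ a = a' ∧ b = b'
  nb : ∀ a b c, Nb (g a b) c ↔
    c = g (a + 1) b ∨ c = g (a - 1) b ∨ c = g a (b + 1) ∨ c = g a (b - 1)
  bump : ∀ (S : Set Cell) (a b : ℤ), Conn S → NoCB S → g a b ∈ S → RingF g S a b →
    Conn (S \ {g a b}) ∧ NoCB (S \ {g a b})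
  ncb : ∀ S : Set Cell, NoCB S → ∀ a b : ℤ,
    ¬ (g a b ∈ S ∧ g (a + 1) (b + 1) ∈ S ∧ g (a + 1) b ∉ S ∧ g a (b + 1) ∉ S) ∧
    ¬ (g (a + 1) b ∈ S ∧ g a (b + 1) ∈ S ∧ g a b ∉ S ∧ g (a + 1) (b + 1) ∉ S)

/-- The four rotations of the box `[1, 10]^2` (and of `[0, 11]^2`) onto itself. -/
def rot (k : Fin 4) (a b : ℤ) : Cell :=
  if k = 0 then (a, b) else if k = 1 then (11 - b, a) else if k = 2 then (11 - a, 11 - b)
  else (b, 11 - a)

theorem rot0 (a b : ℤ) : rot 0 a b = (a, b) := by simp [rot]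
theorem rot1 (a b : ℤ) : rot 1 a b = (11 - b, a) := by simp [rot]
theorem rot2 (a b : ℤ) : rot 2 a b = (11 - a, 11 - b) := by simp [rot]
theorem rot3 (a b : ℤ) : rot 3 a b = (b, 11 - a) := by simp [rot]

private theorem B4_rot0' (a b : ℤ) : rot ((fun i => i) ⟨0, by decide⟩) a b = (a, b) := by
  simp [rot]
private theorem B4_rot1' (a b : ℤ) : rot ((fun i => i) ⟨1, by decide⟩) a b = (11 - b, a) := by
  simp [rot]
private theorem B4_rot2' (a b : ℤ) :
    rot ((fun i => i) ⟨2, by decide⟩) a b = (11 - a, 11 - b) := by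
  simp [rot]
private theorem B4_rot3' (a b : ℤ) : rot ((fun i => i) ⟨3, by decide⟩) a b = (b, 11 - a) := by
  simp [rot]

/-- PROOF. Four cases of `k` (`fin_cases k`, `rot0` ... `rot3`). `bump`: the condition `RingF` is,
after the rotation, a permutation of the parts of `RingOK` at `(g a b).1`, `(g a b).2`
(use the theorem `bump` of B1). `ncb`: `NoCB S` at the appropriate corner of the block. -/
theorem fr_rot (k : Fin 4) : Fr (rot k) := by
  have e1 : ∀ b : ℤ, (11 : ℤ) - (b + 1) = 11 - b - 1 := fun b => by ring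
  have e2 : ∀ b : ℤ, (11 : ℤ) - (b - 1) = 11 - b + 1 := fun b => by ring
  fin_cases k
  · refine ⟨?_, ?_, ?_, ?_⟩
    · intro a b a' b'
      simp only [B4_rot0', Prod.mk.injEq]
    · rintro a b ⟨c1, c2⟩
      simp only [B4_rot0', Nb, Prod.mk.injEq]
    · intro S a b hc hn hx hr
      simp only [RingF, B4_rot0'] at hr hx ⊢
      exact _root_.Pool.Agent.Lib.MP_dcf1eb_pr.bump hc hn hx hr
    · intro S hn a b
      simp only [B4_rot0']
      exact hn a b
  · refine ⟨?_, ?_, ?_, ?_⟩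
    · intro a b a' b'
      simp only [B4_rot1', Prod.mk.injEq]
      omega
    · rintro a b ⟨c1, c2⟩
      simp only [B4_rot1', Nb, Prod.mk.injEq]
      omega
    · intro S a b hc hn hx hr
      simp only [RingF, B4_rot1', e1, e2] at hr hx ⊢
      refine _root_.Pool.Agent.Lib.MP_dcf1eb_pr.bump hc hn hx ?_
      obtain ⟨h1, h2, h3, h4, h5, h6, h7⟩ := hr
      refine ⟨?_, h3, h4, h5, h2, fun ⟨p, q, r, s⟩ => h7 ⟨p, q, s, r⟩,
        fun ⟨p, q, r, s⟩ => h6 ⟨q, p, r, s⟩⟩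
      rcases h1 with h | h | h | h
      · exact Or.inr (Or.inr (Or.inr h))
      · exact Or.inl h
      · exact Or.inr (Or.inl h)
      · exact Or.inr (Or.inr (Or.inl h))
    · intro S hn a b
      have h := hn (11 - b - 1) a
      simp only [sub_add_cancel] at h
      simp only [B4_rot1', e1]
      exact ⟨fun ⟨p, q, r, s⟩ => h.2 ⟨p, q, s, r⟩, fun ⟨p, q, r, s⟩ => h.1 ⟨q, p, r, s⟩⟩
  · refine ⟨?_, ?_, ?_, ?_⟩
    · intro a b a' b'
      simp only [B4_rot2', Prod.mk.injEq]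
      omega
    · rintro a b ⟨c1, c2⟩
      simp only [B4_rot2', Nb, Prod.mk.injEq]
      omega
    · intro S a b hc hn hx hr
      simp only [RingF, B4_rot2', e1, e2] at hr hx ⊢
      refine _root_.Pool.Agent.Lib.MP_dcf1eb_pr.bump hc hn hx ?_
      obtain ⟨h1, h2, h3, h4, h5, h6, h7⟩ := hr
      refine ⟨?_, h4, h5, h2, h3, fun ⟨p, q, r, s⟩ => h6 ⟨q, p, s, r⟩,
        fun ⟨p, q, r, s⟩ => h7 ⟨q, p, s, r⟩⟩
      rcases h1 with h | h | h | h
      · exact Or.inr (Or.inr (Or.inl h))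
      · exact Or.inr (Or.inr (Or.inr h))
      · exact Or.inl h
      · exact Or.inr (Or.inl h)
    · intro S hn a b
      have h := hn (11 - a - 1) (11 - b - 1)
      simp only [sub_add_cancel] at h
      simp only [B4_rot2', e1]
      exact ⟨fun ⟨p, q, r, s⟩ => h.1 ⟨q, p, s, r⟩, fun ⟨p, q, r, s⟩ => h.2 ⟨q, p, s, r⟩⟩
  · refine ⟨?_, ?_, ?_, ?_⟩
    · intro a b a' b'
      simp only [B4_rot3', Prod.mk.injEq]
      omega
    · rintro a b ⟨c1, c2⟩
      simp only [B4_rot3', Nb, Prod.mk.injEq]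
      omega
    · intro S a b hc hn hx hr
      simp only [RingF, B4_rot3', e1, e2] at hr hx ⊢
      refine _root_.Pool.Agent.Lib.MP_dcf1eb_pr.bump hc hn hx ?_
      obtain ⟨h1, h2, h3, h4, h5, h6, h7⟩ := hr
      refine ⟨?_, h5, h2, h3, h4, fun ⟨p, q, r, s⟩ => h7 ⟨q, p, r, s⟩,
        fun ⟨p, q, r, s⟩ => h6 ⟨p, q, s, r⟩⟩
      rcases h1 with h | h | h | h
      · exact Or.inr (Or.inl h)
      · exact Or.inr (Or.inr (Or.inl h))
      · exact Or.inr (Or.inr (Or.inr h))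
      · exact Or.inl h
    · intro S hn a b
      have h := hn b (11 - a - 1)
      simp only [sub_add_cancel] at h
      simp only [B4_rot3', e1]
      exact ⟨fun ⟨p, q, r, s⟩ => h.2 ⟨q, p, r, s⟩, fun ⟨p, q, r, s⟩ => h.1 ⟨p, q, s, r⟩⟩

/-- PROOF. `bump`: `RingF (fun a b => g b a) S a b` implies `RingF g S b a` (permute the parts).
`ncb`: use `h.ncb S _ b a`. -/
theorem Fr.swap {g : ℤ → ℤ → Cell} (h : Fr g) : Fr (fun a b => g b a) := by
  refine ⟨?_, ?_, ?_, ?_⟩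
  · intro a b a' b'
    rw [h.inj]
    exact and_comm
  · intro a b c
    rw [h.nb]
    constructor
    · rintro (h | h | h | h)
      · exact Or.inr (Or.inr (Or.inl h))
      · exact Or.inr (Or.inr (Or.inr h))
      · exact Or.inl h
      · exact Or.inr (Or.inl h)
    · rintro (h | h | h | h)
      · exact Or.inr (Or.inr (Or.inl h))
      · exact Or.inr (Or.inr (Or.inr h))
      · exact Or.inl h
      · exact Or.inr (Or.inl h)
  · intro S a b hc hn hx hr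
    refine h.bump S b a hc hn hx ?_
    obtain ⟨h1, h2, h3, h4, h5, h6, h7⟩ := hr
    refine ⟨?_, fun n e => h2 e n, fun e s => h5 s e, fun s w => h4 w s, fun w n => h3 n w,
      h7, h6⟩
    rcases h1 with h | h | h | h
    · exact Or.inr (Or.inl h)
    · exact Or.inl h
    · exact Or.inr (Or.inr (Or.inr h))
    · exact Or.inr (Or.inr (Or.inl h))
  · intro S hn a b
    have h1 := h.ncb S hn b a
    exact ⟨fun ⟨p, q, r, s⟩ => h1.1 ⟨p, q, s, r⟩, fun ⟨p, q, r, s⟩ => h1.2 ⟨q, p, r, s⟩⟩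

end Pool.Agent.Lib.MP_dcf1eb_pr
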