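import Pool.Agent.Lib.MP_dcf1eb_pr.B4

/-!
# Fixed area polygons: the filled box and the ring (C0)

Box `Bx = [1, 10]^2`. `P1` is `P` with the box filled (except exceptional corners), `R3 g` is the
boundary ring of `[3, 8]^2` without the gap cell `(g, 3)`, `P2 = P1 \ R3`.
-/

set_option autoImplicit false

namespace Pool.Agent.Lib.MP_dcf1eb_pr

def Bx : Set Cell := {c | 1 ≤ c.1 ∧ c.1 ≤ 10 ∧ 1 ≤ c.2 ∧ c.2 ≤ 10}

/-- The corners of the box which are not filled. -/
def XX (P : Set Cell) : Set Cell :=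
  {c | ∃ k : Fin 4, c = rot k 10 10 ∧ rot k 11 10 ∉ P ∧ rot k 10 11 ∉ P ∧ rot k 11 11 ∈ P}

def P1 (P : Set Cell) : Set Cell := P ∪ (Bx \ XX P)

def R3 (g : ℤ) : Set Cell :=
  {c | 3 ≤ c.1 ∧ c.1 ≤ 8 ∧ 3 ≤ c.2 ∧ c.2 ≤ 8 ∧ (c.1 = 3 ∨ c.1 = 8 ∨ c.2 = 3 ∨ c.2 = 8) ∧
    c ≠ (g, 3)}

def P2 (P : Set Cell) (g : ℤ) : Set Cell := P1 P \ R3 g

/-- A horizontal segment inside `S`. -/
theorem seg_h {S : Set Cell} {y : ℤ} : ∀ (n : ℕ) (a : ℤ), (∀ i : ℤ, a ≤ i → i ≤ a + n →
    (i, y) ∈ S) → Reach S (a, y) (a + n, y) := by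
  intro n
  induction n with
  | zero => intro a _; simpa using Reach.refl S _
  | succ n ih =>
    intro a h
    have h1 := ih a (fun i h1 h2 => h i h1 (by push_cast; omega))
    refine h1.tail (b := (a + n, y)) ?_ (h _ (by omega) (by push_cast; omega))
      (h _ (by push_cast; omega) (by push_cast; omega))
    left
    simp only [Prod.mk.injEq, and_true]
    push_cast
    ring

/-- A vertical segment inside `S`. -/
theorem seg_v {S : Set Cell} {x : ℤ} : ∀ (n : ℕ) (a : ℤ), (∀ i : ℤ, a ≤ i → i ≤ a + n →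
    (x, i) ∈ S) → Reach S (x, a) (x, a + n) := by
  intro n
  induction n with
  | zero => intro a _; simpa using Reach.refl S _
  | succ n ih =>
    intro a h
    have h1 := ih a (fun i h1 h2 => h i h1 (by push_cast; omega))
    refine h1.tail (b := (x, a + n)) ?_ (h _ (by omega) (by push_cast; omega))
      (h _ (by push_cast; omega) (by push_cast; omega))
    right; right; left
    simp only [Prod.mk.injEq, true_and]
    push_cast
    ring

/-- Horizontal segment, both orders. -/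
theorem seg_h' {S : Set Cell} {y a b : ℤ} (h : ∀ i : ℤ, min a b ≤ i → i ≤ max a b →
    (i, y) ∈ S) : Reach S (a, y) (b, y) := by
  rcases le_total a b with hab | hab
  · have := seg_h (S := S) (y := y) (b - a).toNat a (fun i h1 h2 => h i (by omega) (by omega))
    have e : a + ((b - a).toNat : ℤ) = b := by omega
    rwa [e] at this
  · have := seg_h (S := S) (y := y) (a - b).toNat b (fun i h1 h2 => h i (by omega) (by omega))
    have e : b + ((a - b).toNat : ℤ) = a := by omega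
    rw [e] at this
    exact this.symm

/-- Vertical segment, both orders. -/
theorem seg_v' {S : Set Cell} {x a b : ℤ} (h : ∀ i : ℤ, min a b ≤ i → i ≤ max a b →
    (x, i) ∈ S) : Reach S (x, a) (x, b) := by
  rcases le_total a b with hab | hab
  · have := seg_v (S := S) (x := x) (b - a).toNat a (fun i h1 h2 => h i (by omega) (by omega))
    have e : a + ((b - a).toNat : ℤ) = b := by omega
    rwa [e] at this
  · have := seg_v (S := S) (x := x) (a - b).toNat b (fun i h1 h2 => h i (by omega) (by omega))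
    have e : b + ((a - b).toNat : ℤ) = a := by omega
    rw [e] at this
    exact this.symm

theorem mem_XX {P : Set Cell} {c : Cell} : c ∈ XX P ↔
    (c = (10, 10) ∧ (11, 10) ∉ P ∧ (10, 11) ∉ P ∧ (11, 11) ∈ P) ∨
    (c = (1, 10) ∧ (1, 11) ∉ P ∧ (0, 10) ∉ P ∧ (0, 11) ∈ P) ∨
    (c = (1, 1) ∧ (0, 1) ∉ P ∧ (1, 0) ∉ P ∧ (0, 0) ∈ P) ∨
    (c = (10, 1) ∧ (10, 0) ∉ P ∧ (11, 1) ∉ P ∧ (11, 0) ∈ P) := by
  simp only [XX, Set.mem_setOf_eq]
  constructor
  · rintro ⟨k, h⟩
    fin_cases k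
    · left; simpa [rot] using h
    · right; left; simpa [rot] using h
    · right; right; left; simpa [rot] using h
    · right; right; right; simpa [rot] using h
  · rintro (h | h | h | h)
    · exact ⟨0, by simpa [rot] using h⟩
    · exact ⟨1, by simpa [rot] using h⟩
    · exact ⟨2, by simpa [rot] using h⟩
    · exact ⟨3, by simpa [rot] using h⟩

theorem mem_P2 {P : Set Cell} {g : ℤ} {c : Cell} :
    c ∈ P2 P g ↔ (c ∈ P ∨ (c ∈ Bx ∧ c ∉ XX P)) ∧ c ∉ R3 g := Iff.rfl

end Pool.Agent.Lib.MP_dcf1eb_pr
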