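import Pool.Agent.Lib.MP_dcf1eb_pr.C0

/-!
# Fixed area polygons: the filled box minus the ring is connected (C1)
-/

set_option autoImplicit false

namespace Pool.Agent.Lib.MP_dcf1eb_pr

/-- a cell of the box which is neither a corner nor in the ring -/
private def C1_ok (g x y : ℤ) : Prop :=
  1 ≤ x ∧ x ≤ 10 ∧ 1 ≤ y ∧ y ≤ 10 ∧ ((2 ≤ x ∧ x ≤ 9) ∨ (2 ≤ y ∧ y ≤ 9)) ∧
  ¬ (3 ≤ x ∧ x ≤ 8 ∧ 3 ≤ y ∧ y ≤ 8 ∧ (x = 3 ∨ x = 8 ∨ y = 3 ∨ y = 8) ∧ ¬ (x = g ∧ y = 3))

private theorem C1_mem {P : Set Cell} {g x y : ℤ} (h : C1_ok g x y) : (x, y) ∈ P2 P g := by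
  obtain ⟨h1, h2, h3, h4, h5, h6⟩ := h
  rw [mem_P2]
  refine ⟨Or.inr ⟨⟨h1, h2, h3, h4⟩, ?_⟩, ?_⟩
  · rw [mem_XX]
    simp only [Prod.mk.injEq]
    omega
  · simp only [R3, Set.mem_ofPred_eq, ne_eq, Prod.mk.injEq]
    exact h6

private theorem C1_h {P : Set Cell} {g y a b : ℤ} (h : ∀ i : ℤ, min a b ≤ i → i ≤ max a b →
    C1_ok g i y) : Reach (P2 P g) (a, y) (b, y) :=
  seg_h' fun i h1 h2 => C1_mem (h i h1 h2)

private theorem C1_v {P : Set Cell} {g x a b : ℤ} (h : ∀ i : ℤ, min a b ≤ i → i ≤ max a b →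
    C1_ok g x i) : Reach (P2 P g) (x, a) (x, b) :=
  seg_v' fun i h1 h2 => C1_mem (h i h1 h2)

private theorem C1_inner {P : Set Cell} {g x y : ℤ} (hx : 4 ≤ x ∧ x ≤ 7)
    (hy : 4 ≤ y ∧ y ≤ 7) : Reach (P2 P g) (x, y) (4, 4) := by
  have h1 : Reach (P2 P g) (x, y) (4, y) := C1_h fun i h1 h2 => by
    unfold C1_ok
    omega
  have h2 : Reach (P2 P g) (4, y) (4, 4) := C1_v fun i h1 h2 => by
    unfold C1_ok
    omega
  exact h1.trans h2

private theorem C1_gap {P : Set Cell} {g y : ℤ} (hg : g = 5 ∨ g = 6) (hy : 2 ≤ y ∧ y ≤ 3) :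
    Reach (P2 P g) (g, y) (4, 4) := by
  have h1 : Reach (P2 P g) (g, y) (g, 4) := C1_v fun i h1 h2 => by
    unfold C1_ok
    omega
  exact h1.trans (C1_inner (by omega) (by omega))

private theorem C1_bot {P : Set Cell} {g x : ℤ} (hg : g = 5 ∨ g = 6) (hx : 2 ≤ x ∧ x ≤ 9) :
    Reach (P2 P g) (x, 2) (4, 4) := by
  have h1 : Reach (P2 P g) (x, 2) (g, 2) := C1_h fun i h1 h2 => by
    unfold C1_ok
    omega
  exact h1.trans (C1_gap hg (by omega))

private theorem C1_left {P : Set Cell} {g y : ℤ} (hg : g = 5 ∨ g = 6) (hy : 2 ≤ y ∧ y ≤ 9) :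
    Reach (P2 P g) (2, y) (4, 4) := by
  have h1 : Reach (P2 P g) (2, y) (2, 2) := C1_v fun i h1 h2 => by
    unfold C1_ok
    omega
  exact h1.trans (C1_bot hg (by omega))

private theorem C1_right {P : Set Cell} {g y : ℤ} (hg : g = 5 ∨ g = 6) (hy : 2 ≤ y ∧ y ≤ 9) :
    Reach (P2 P g) (9, y) (4, 4) := by
  have h1 : Reach (P2 P g) (9, y) (9, 2) := C1_v fun i h1 h2 => by
    unfold C1_ok
    omega
  exact h1.trans (C1_bot hg (by omega))

private theorem C1_top {P : Set Cell} {g x : ℤ} (hg : g = 5 ∨ g = 6) (hx : 2 ≤ x ∧ x ≤ 9) :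
    Reach (P2 P g) (x, 9) (4, 4) := by
  have h1 : Reach (P2 P g) (x, 9) (2, 9) := C1_h fun i h1 h2 => by
    unfold C1_ok
    omega
  exact h1.trans (C1_left hg (by omega))

private theorem C1_okr {P : Set Cell} {g x y : ℤ} (hg : g = 5 ∨ g = 6) (h : C1_ok g x y) :
    Reach (P2 P g) (x, y) (4, 4) := by
  have h0 := h
  obtain ⟨h1, h2, h3, h4, h5, h6⟩ := h
  by_cases a1 : x = 1
  · subst a1
    have e : Reach (P2 P g) (1, y) (2, y) := C1_h fun i h1 h2 => by
      unfold C1_ok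
      omega
    exact e.trans (C1_left hg (by omega))
  by_cases a2 : x = 10
  · subst a2
    have e : Reach (P2 P g) (10, y) (9, y) := C1_h fun i h1 h2 => by
      unfold C1_ok
      omega
    exact e.trans (C1_right hg (by omega))
  by_cases a3 : y = 1
  · subst a3
    have e : Reach (P2 P g) (x, 1) (x, 2) := C1_v fun i h1 h2 => by
      unfold C1_ok
      omega
    exact e.trans (C1_bot hg (by omega))
  by_cases a4 : y = 10
  · subst a4
    have e : Reach (P2 P g) (x, 10) (x, 9) := C1_v fun i h1 h2 => by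
      unfold C1_ok
      omega
    exact e.trans (C1_top hg (by omega))
  by_cases a5 : x = 2
  · subst a5
    exact C1_left hg (by omega)
  by_cases a6 : x = 9
  · subst a6
    exact C1_right hg (by omega)
  by_cases a7 : y = 2
  · subst a7
    exact C1_bot hg (by omega)
  by_cases a8 : y = 9
  · subst a8
    exact C1_top hg (by omega)
  by_cases a9 : x = g ∧ y = 3
  · obtain ⟨r1, r2⟩ := a9
    subst r1
    subst r2
    exact C1_gap hg (by omega)
  exact C1_inner (by omega) (by omega)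

private theorem C1_box {P : Set Cell} {g x y : ℤ} (hg : g = 5 ∨ g = 6)
    (h1 : 1 ≤ x) (h2 : x ≤ 10) (h3 : 1 ≤ y) (h4 : y ≤ 10) (h : (x, y) ∈ P2 P g) :
    Reach (P2 P g) (x, y) (4, 4) := by
  by_cases hc : (2 ≤ x ∧ x ≤ 9) ∨ (2 ≤ y ∧ y ≤ 9)
  · refine C1_okr hg ⟨h1, h2, h3, h4, hc, ?_⟩
    have h5 := (mem_P2.1 h).2
    simp only [R3, Set.mem_ofPred_eq, ne_eq, Prod.mk.injEq] at h5
    exact h5
  · have hx : x = 1 ∨ x = 10 := by omega
    rcases hx with hx | hx
    · subst hx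
      have hk : C1_ok g 2 y := by
        unfold C1_ok
        omega
      exact (Reach.step (S := P2 P g) (a := (1, y)) (b := (2, y)) (Or.inl rfl) h
        (C1_mem hk)).trans (C1_okr hg hk)
    · subst hx
      have hk : C1_ok g 9 y := by
        unfold C1_ok
        omega
      exact (Reach.step (S := P2 P g) (a := (10, y)) (b := (9, y)) (Or.inr (Or.inl rfl)) h
        (C1_mem hk)).trans (C1_okr hg hk)

private theorem C1_path {P : Set Cell} {g : ℤ} (hg : g = 5 ∨ g = 6) {c : Cell}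
    (h : Reach P c (5, 5)) : c ∉ Bx → Reach (P2 P g) c (4, 4) := by
  have hBR : ∀ z : Cell, z ∈ P → z ∉ Bx → z ∈ P2 P g := by
    intro z hz hzB
    rw [mem_P2]
    refine ⟨Or.inl hz, fun hr => hzB ?_⟩
    obtain ⟨h1, h2, h3, h4, -, -⟩ := hr
    exact ⟨by omega, by omega, by omega, by omega⟩
  induction h using Relation.ReflTransGen.head_induction_on with
  | refl =>
    intro hB
    exact absurd (show ((5, 5) : Cell) ∈ Bx from ⟨by norm_num, by norm_num, by norm_num, by norm_num⟩) hB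
  | @head a b hab hbc ih =>
    intro haB
    obtain ⟨hn, ha, hb⟩ := hab
    by_cases hbB : b ∈ Bx
    · have hbP : b ∈ P2 P g := by
        rw [mem_P2]
        refine ⟨Or.inl hb, fun hr => haB ?_⟩
        obtain ⟨h1, h2, h3, h4, -, -⟩ := hr
        obtain ⟨x, y⟩ := a
        obtain ⟨u, v⟩ := b
        simp only [Nb, Prod.mk.injEq] at hn
        simp only at h1 h2 h3 h4
        refine ⟨?_, ?_, ?_, ?_⟩ <;> simp only <;> omega
      obtain ⟨u, v⟩ := b
      obtain ⟨h1, h2, h3, h4⟩ := hbB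
      exact (Reach.step hn (hBR a ha haB) hbP).trans (C1_box hg h1 h2 h3 h4 hbP)
    · exact (Reach.step hn (hBR a ha haB) (hBR b hb hbB)).trans (ih hbB)

private theorem C1_all {P : Set Cell} {g : ℤ} (hg : g = 5 ∨ g = 6) (hc : Conn P)
    (h5 : ((5, 5) : Cell) ∈ P) {c : Cell} (h : c ∈ P2 P g) : Reach (P2 P g) c (4, 4) := by
  by_cases hB : c ∈ Bx
  · obtain ⟨x, y⟩ := c
    obtain ⟨h1, h2, h3, h4⟩ := hB
    exact C1_box hg h1 h2 h3 h4 h
  · have hP : c ∈ P := by
      rcases (mem_P2.1 h).1 with h' | h'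
      · exact h'
      · exact absurd h'.1 hB
    exact C1_path hg (hc c hP (5, 5) h5) hB

/-- PROOF. Base cell `(4, 4)`. Write `S = P2 P g`.
(a) every cell of `(Bx \ XX P) \ R3 g` is joined to `(4, 4)` in `S`: use `seg_h'`, `seg_v'` (their side
conditions: the cells of the segment are in `Bx`, not corners of the box [so not in `XX P`, see
`mem_XX`], not in `R3 g`; `omega` after `simp`). The inner block `[4, 7]^2` (rectangle: horizontal then
vertical). Gap: `(g, 4) - (g, 3) - (g, 2)`. The cycle `R2` (boundary of `[2, 9]^2`) is joined to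
`(g, 2)` by straight segments. A cell of the boundary of `[1, 10]^2` which is not a corner has an
inward neighbour in `R2`; a corner `(10, 10) ∉ XX P` has the neighbour `(9, 10)`, etc.
(b) every `c ∈ P \ Bx` is joined in `S` to a cell of (a): take the path in `P` from `c` to
`(5, 5)`; induct (`Relation.ReflTransGen.head_induction_on`, or `Reach.closed`): the first cell
`z ∈ Bx` on it has a neighbour outside `Bx`, so it is on the boundary of `[1,10]^2`, not in `R3 g`,
and it is in `P`, hence not in `XX P` (a corner in `XX P` in `P` is impossible? NOT assumed: but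
`z ∈ P` is in `S` anyway because `z ∈ P` and `z ∉ R3 g`; if `z` is a corner of the box, it may lie
in `XX P`; its neighbours inside are in `Bx \ XX P`, e.g. `(9, 10)` for `(10, 10)`, so it is joined to
a cell of (a)).
Cells of `P ∩ Bx` not in `R3 g`: not corners: covered by (a); corners: see (b). -/
theorem conn_P2 {P : Set Cell} {g : ℤ} (hg : g = 5 ∨ g = 6) (hc : Conn P)
    (h5 : ((5, 5) : Cell) ∈ P) : Conn (P2 P g) := by
  intro a ha b hb
  exact (C1_all hg hc h5 ha).trans (C1_all hg hc h5 hb).symm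

end Pool.Agent.Lib.MP_dcf1eb_pr
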