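import Pool.Agent.Lib.MP_dcf1eb_pr.C0

/-!
# Fixed area polygons: no checkerboards after filling the box and removing the ring (C2)
-/

set_option autoImplicit false

namespace Pool.Agent.Lib.MP_dcf1eb_pr

/-- PROOF. Block at `(x, y)` (cells `(x,y), (x+1,y), (x,y+1), (x+1,y+1)`).
(1) `2 ≤ x ≤ 8` and `2 ≤ y ≤ 8`: all four cells are in `[2, 9]^2`, so in `Bx` and not corners; so
membership in `P2 P g` is `∉ R3 g`: finite check (`interval_cases x`, `interval_cases y`, `rcases hg`,
`simp [R3]`, or `omega` directly).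
(2) otherwise no cell of the block is in `R3 g` [if a cell of the block is in `[3,8]^2` then
`2 ≤ x ≤ 8`, `2 ≤ y ≤ 8`], so membership in `P2 P g` is membership in `P1 P`. If all four cells are
in `Bx` (`1 ≤ x, y ≤ 9`): at most one of them is a corner of the box, the three others are in.
If no cell is in `Bx`: `hn`. If exactly two cells are in `Bx` (a side): they are neighbours; if none
of them is in `XX P` both are in, no checkerboard; if one is in `XX P` (a corner of the box,
`mem_XX`), then its outer neighbour in the block is not in `P` (and not in `Bx`), so two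
neighbouring cells are out unless the corner is in `P`, in which case both `Bx` cells are in; no
checkerboard in any case. If exactly one cell is in `Bx`: it is a corner `q` of the box,
e.g. `(10, 10)` with `x = y = 10`. If `q` is in `P1 P` and the block is a checkerboard then
`(11, 10), (10, 11) ∉ P`, `(11, 11) ∈ P`, so `q ∈ XX P` and hence `q ∈ P`: contradiction with `hn`.
If `q ∉ P1 P` then `q ∈ XX P`, so only `(11, 11)` is in. -/
theorem ncb_P2 {P : Set Cell} {g : ℤ} (hg : g = 5 ∨ g = 6) (hn : NoCB P) : NoCB (P2 P g) := by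
  intro x y
  by_cases hin : 2 ≤ x ∧ x ≤ 8 ∧ 2 ≤ y ∧ y ≤ 8
  · obtain ⟨h1, h2, h3, h4⟩ := hin
    have key : ∀ a b : ℤ, 2 ≤ a → a ≤ 9 → 2 ≤ b → b ≤ 9 →
        (((a, b) : Cell) ∈ P2 P g ↔ ¬ (3 ≤ a ∧ a ≤ 8 ∧ 3 ≤ b ∧ b ≤ 8 ∧
          (a = 3 ∨ a = 8 ∨ b = 3 ∨ b = 8) ∧ ¬ (a = g ∧ b = 3))) := by
      intro a b ha1 ha2 hb1 hb2
      have hbx : ((a, b) : Cell) ∈ Bx := ⟨by simp; omega, by simp; omega, by simp; omega, by simp; omega⟩
      have hxx : ((a, b) : Cell) ∉ XX P := by
        rw [mem_XX]
        simp only [Prod.mk.injEq]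
        omega
      rw [mem_P2]
      simp only [R3, Set.mem_setOf_eq, ne_eq, Prod.mk.injEq]
      constructor
      · rintro ⟨_, h⟩; exact h
      · intro h; exact ⟨Or.inr ⟨hbx, hxx⟩, h⟩
    rw [key x y (by omega) (by omega) (by omega) (by omega),
      key (x + 1) y (by omega) (by omega) (by omega) (by omega),
      key x (y + 1) (by omega) (by omega) (by omega) (by omega),
      key (x + 1) (y + 1) (by omega) (by omega) (by omega) (by omega)]
    omega
  · have key : ∀ a b : ℤ, (a = x ∨ a = x + 1) → (b = y ∨ b = y + 1) →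
        (((a, b) : Cell) ∈ P2 P g ↔ (((a, b) : Cell) ∈ P ∨
          ((1 ≤ a ∧ a ≤ 10 ∧ 1 ≤ b ∧ b ≤ 10) ∧ ((a, b) : Cell) ∉ XX P))) := by
      intro a b ha hb
      rw [mem_P2]
      constructor
      · rintro ⟨h, _⟩; exact h
      · intro h
        refine ⟨h, ?_⟩
        rintro ⟨h1, h2, h3, h4, _⟩
        simp only at h1 h2 h3 h4
        omega
    have hn1 := (hn x y).1
    have hn2 := (hn x y).2
    rw [key x y (by omega) (by omega), key (x + 1) y (by omega) (by omega),
      key x (y + 1) (by omega) (by omega), key (x + 1) (y + 1) (by omega) (by omega)]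
    clear key
    simp only [mem_XX, Prod.mk.injEq]
    grind

end Pool.Agent.Lib.MP_dcf1eb_pr
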