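import Pool.Agent.Lib.MP_dcf1eb_pr.C0

/-!
# Fixed area polygons: the ring (C3)
-/

set_option autoImplicit false

namespace Pool.Agent.Lib.MP_dcf1eb_pr

/-- PROOF. Every cell of `R3 g` is joined to `(8, 8)` in `R3 g` by at most four straight segments
(`seg_h'`, `seg_v'`): right side `x = 8`: vertical; top `y = 8`: horizontal; left `x = 3`: vertical to
`(3, 8)`, then the top; bottom `y = 3`, `x > g`: horizontal to `(8, 3)`, then the right side; bottom,
`x < g`: horizontal to `(3, 3)`, then the left side. -/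
theorem conn_R3 {g : ℤ} (hg : g = 5 ∨ g = 6) : Conn (R3 g) := by
  have mem : ∀ x y : ℤ, 3 ≤ x → x ≤ 8 → 3 ≤ y → y ≤ 8 → (x = 3 ∨ x = 8 ∨ y = 3 ∨ y = 8) →
      (y = 3 → x ≠ g) → ((x, y) : Cell) ∈ R3 g := by
    intro x y h1 h2 h3 h4 h5 h6
    refine ⟨h1, h2, h3, h4, h5, ?_⟩
    intro h
    simp only [Prod.mk.injEq] at h
    exact h6 h.2 h.1
  have right : ∀ y : ℤ, 3 ≤ y → y ≤ 8 → Reach (R3 g) (8, y) (8, 8) := by
    intro y h1 h2
    exact seg_v' (fun i h3 h4 => mem 8 i (by omega) (by omega) (by omega) (by omega)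
      (by omega) (by omega))
  have top : ∀ x : ℤ, 3 ≤ x → x ≤ 8 → Reach (R3 g) (x, 8) (8, 8) := by
    intro x h1 h2
    exact seg_h' (fun i h3 h4 => mem i 8 (by omega) (by omega) (by omega) (by omega)
      (by omega) (by omega))
  have left : ∀ y : ℤ, 3 ≤ y → y ≤ 8 → Reach (R3 g) (3, y) (8, 8) := by
    intro y h1 h2
    have h : Reach (R3 g) (3, y) (3, 8) :=
      seg_v' (fun i h3 h4 => mem 3 i (by omega) (by omega) (by omega) (by omega)
        (by omega) (by omega))
    exact h.trans (top 3 (by omega) (by omega))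
  have main : ∀ a ∈ R3 g, Reach (R3 g) a (8, 8) := by
    rintro ⟨x, y⟩ ⟨h1, h2, h3, h4, h5, h6⟩
    simp only [ne_eq, Prod.mk.injEq, not_and_or] at h1 h2 h3 h4 h5 h6
    rcases h5 with h5 | h5 | h5 | h5
    · subst h5; exact left y h3 h4
    · subst h5; exact right y h3 h4
    · subst h5
      rcases lt_or_ge x g with hx | hx
      · have h : Reach (R3 g) (x, 3) (3, 3) :=
          seg_h' (fun i h7 h8 => mem i 3 (by omega) (by omega) (by omega) (by omega)
            (by omega) (by omega))
        exact h.trans (left 3 (by omega) (by omega))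
      · have hx' : g < x := by omega
        have h : Reach (R3 g) (x, 3) (8, 3) :=
          seg_h' (fun i h7 h8 => mem i 3 (by omega) (by omega) (by omega) (by omega)
            (by omega) (by omega))
        exact h.trans (right 3 (by omega) (by omega))
    · subst h5; exact top x h1 h2
  intro a ha b hb
  exact (main a ha).trans (main b hb).symm

theorem mem_R3_88 {g : ℤ} : ((8, 8) : Cell) ∈ R3 g := by
  refine ⟨by norm_num, by norm_num, by norm_num, by norm_num, by norm_num, ?_⟩
  simp

theorem reach_ring {P : Set Cell} {g : ℤ} (hg : g = 5 ∨ g = 6) :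
    ∀ c ∈ R3 g, Reach (P2 P g)ᶜ (8, 8) c := by
  intro c hc
  have hs : R3 g ⊆ (P2 P g)ᶜ := by
    intro a ha h
    exact h.2 ha
  exact Reach.mono hs (conn_R3 hg _ mem_R3_88 _ hc)

end Pool.Agent.Lib.MP_dcf1eb_pr
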