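import Pool.Agent.Lib.MP_dcf1eb_pr.C3

/-!
# Fixed area polygons: components of the complement of the filled box (C4)
-/

set_option autoImplicit false

namespace Pool.Agent.Lib.MP_dcf1eb_pr

/-- PROOF. Let `c ∉ P2 P g`. If `c ∈ R3 g`: left alternative by `reach_ring`. Otherwise `c ∉ P` and
(`c ∉ Bx` or `c ∈ XX P`). There is a path from `c` to `z` in `Pᶜ`. Show by
`Relation.ReflTransGen.head_induction_on` (or `Reach.closed` for the statement `not R`) along this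
path: if `c ∉ P2 P g`, `c ∉ R3 g`, `Reach Pᶜ c z`, then `∃ k j, 1 ≤ j ≤ 10, rot k 11 j ∉ P` and
`Reach (P2 P g)ᶜ (rot k 11 j) c`. Step `c → c'` (`c' ∉ P`, `Nb c c'`), by cases:
* `c' ∉ Bx` or `c' ∈ XX P`: then `c' ∉ P2 P g` (it is not in `R3 g`: `c' ∉ Bx`, or `c'` is a corner of
the box), use the induction hypothesis and one step `c' → c` in `(P2 P g)ᶜ`;
* `c' ∈ Bx`, `c' ∉ XX P`, and `c ∉ Bx`: then `c` is an outer side cell: `c = rot k 11 j` with
`1 ≤ j ≤ 10` (`c.1 = 11`: `k = 0, j = c.2`; `c.2 = 11`: `k = 1, j = 11 - c.1`; `c.1 = 0`: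
`k = 2, j = 11 - c.2`; `c.2 = 0`: `k = 3, j = c.1`), take it, `Reach.refl`;
* `c' ∈ Bx`, `c' ∉ XX P` and `c ∈ XX P`: `c = rot k 10 10` with `rot k 11 10 ∉ P`; take `j = 10`: the
cell `rot k 11 10` is a neighbour of `c` and not in `P2 P g` (not in `Bx`). [The remaining case
`c ∈ Bx`, `c ∉ XX P` cannot occur since `c ∉ P2 P g` and `c ∉ R3 g`.]
At the end of the path (`c = z`): `z ∈ [4,7]^2 ⊆ Bx`, not a corner of the box, and `z ∉ R3 g`, so
`z ∈ P2 P g`: the hypothesis `c ∉ P2 P g` fails. -/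
theorem comp_P2 {P : Set Cell} {g : ℤ} (hg : g = 5 ∨ g = 6) (hcc : Conn Pᶜ) {z : Cell}
    (hz : z ∉ P) (hz1 : 4 ≤ z.1 ∧ z.1 ≤ 7 ∧ 4 ≤ z.2 ∧ z.2 ≤ 7) :
    ∀ c, c ∉ P2 P g → Reach (P2 P g)ᶜ (8, 8) c ∨
      ∃ (k : Fin 4) (j : ℤ), 1 ≤ j ∧ j ≤ 10 ∧ rot k 11 j ∉ P ∧
        Reach (P2 P g)ᶜ (rot k 11 j) c := by
  intro c hc
  by_cases hR : c ∈ R3 g
  · left
    exact reach_ring hg c hR
  right
  have hcP : c ∉ P := fun h => hc (by rw [mem_P2]; exact ⟨Or.inl h, hR⟩)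
  have hreach : Reach Pᶜ c z := hcc c hcP z hz
  have R3sub : ∀ a : Cell, a ∈ R3 g → a ∈ Bx ∧ a ∉ XX P := by
    rintro ⟨x, y⟩ ⟨h1, h2, h3, h4, _⟩
    simp only at h1 h2 h3 h4
    refine ⟨⟨by simp only; omega, by simp only; omega, by simp only; omega,
      by simp only; omega⟩, ?_⟩
    rw [mem_XX]
    simp only [Prod.mk.injEq]
    omega
  revert hc hR
  induction hreach using Relation.ReflTransGen.head_induction_on with
  | refl =>
    intro hc hR
    exfalso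
    apply hc
    rw [mem_P2]
    refine ⟨Or.inr ⟨⟨by omega, by omega, by omega, by omega⟩, ?_⟩, hR⟩
    rw [mem_XX]
    obtain ⟨x, y⟩ := z
    simp only [Prod.mk.injEq]
    simp only at hz1
    omega
  | @head a c' h _ ih =>
    obtain ⟨hnb, haP, hc'P⟩ := h
    intro ha hR
    have haP' : a ∉ P := haP
    have hc'P' : c' ∉ P := hc'P
    have haN : ¬ (a ∈ Bx ∧ a ∉ XX P) := fun h => ha (by rw [mem_P2]; exact ⟨Or.inr h, hR⟩)
    by_cases hc' : c' ∈ Bx ∧ c' ∉ XX P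
    · by_cases haB : a ∈ Bx
      · have haX : a ∈ XX P := by
          by_contra h
          exact haN ⟨haB, h⟩
        obtain ⟨k, hk, hk1, hk2, hk3⟩ := haX
        refine ⟨k, 10, by norm_num, by norm_num, hk1, ?_⟩
        refine Reach.step ?_ ?_ ha
        · rw [hk]
          fin_cases k <;> simp [rot, Nb]
        · intro h
          rw [mem_P2] at h
          rcases h.1 with h1 | h1
          · exact hk1 h1
          · have h2 := h1.1
            fin_cases k <;> simp [rot, Bx] at h2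
      · have hside : ∃ (k : Fin 4) (j : ℤ), 1 ≤ j ∧ j ≤ 10 ∧ a = rot k 11 j := by
          obtain ⟨x, y⟩ := a
          obtain ⟨x', y'⟩ := c'
          obtain ⟨⟨h1, h2, h3, h4⟩, _⟩ := hc'
          simp only at h1 h2 h3 h4
          simp only [Nb, Prod.mk.injEq] at hnb
          have hB : ¬ (1 ≤ x ∧ x ≤ 10 ∧ 1 ≤ y ∧ y ≤ 10) := haB
          have hcase : (x = 11 ∧ 1 ≤ y ∧ y ≤ 10) ∨ (y = 11 ∧ 1 ≤ x ∧ x ≤ 10) ∨
              (x = 0 ∧ 1 ≤ y ∧ y ≤ 10) ∨ (y = 0 ∧ 1 ≤ x ∧ x ≤ 10) := by omega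
          rcases hcase with h | h | h | h
          · exact ⟨0, y, h.2.1, h.2.2, by rw [rot0, h.1]⟩
          · refine ⟨1, 11 - x, by omega, by omega, ?_⟩
            rw [rot1, h.1]
            simp
          · refine ⟨2, 11 - y, by omega, by omega, ?_⟩
            rw [rot2, h.1]
            simp
          · refine ⟨3, x, h.2.1, h.2.2, ?_⟩
            rw [rot3, h.1]
            simp
        obtain ⟨k, j, hj1, hj2, hk⟩ := hside
        refine ⟨k, j, hj1, hj2, ?_, ?_⟩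
        · rw [← hk]; exact haP'
        · rw [← hk]; exact Reach.refl _ _
    · have hc2 : c' ∉ P2 P g := by
        intro h
        rw [mem_P2] at h
        rcases h.1 with h1 | h1
        · exact hc'P' h1
        · exact hc' h1
      have hc3 : c' ∉ R3 g := fun h => hc' (R3sub _ h)
      obtain ⟨k, j, hj1, hj2, hk, hr⟩ := ih hc'P' hc2 hc3
      exact ⟨k, j, hj1, hj2, hk, hr.tail hnb.symm hc2 ha⟩

end Pool.Agent.Lib.MP_dcf1eb_pr
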