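import Pool.Agent.Lib.MP_dcf1eb_pr.B3
import Pool.Agent.Lib.MP_dcf1eb_pr.C3

/-!
# Fixed area polygons: the portals in the sides of the box (D1)
-/

set_option autoImplicit false

namespace Pool.Agent.Lib.MP_dcf1eb_pr

/-- State after some portals `{rot k 10 j, rot k 9 j}` (`3 ≤ j ≤ 8`) have been opened. The ring is
represented by its cell `(8, 8)`. -/
structure St (P : Set Cell) (g : ℤ) (Q : Set Cell) : Prop where
  sub : Q ⊆ P2 P g
  conn : Conn Q
  ncb : NoCB Q
  mid : ∀ c ∈ P2 P g, c ∉ Q →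
    ∃ (k : Fin 4) (j : ℤ), 3 ≤ j ∧ j ≤ 8 ∧ (c = rot k 10 j ∨ c = rot k 9 j)
  pair : ∀ (k : Fin 4) (j : ℤ), 3 ≤ j → j ≤ 8 → (rot k 10 j ∈ Q ↔ rot k 9 j ∈ Q)
  port : ∀ (k : Fin 4) (j : ℤ), 3 ≤ j → j ≤ 8 → rot k 10 j ∉ Q → rot k 11 j ∉ P
  inM : ∀ c ∈ P2 P g, c ∉ Q → Reach Qᶜ (8, 8) c

private theorem D1_k4 (k : Fin 4) : k = 0 ∨ k = 1 ∨ k = 2 ∨ k = 3 := by
  fin_cases k <;> simp

private theorem D1_memP2 {P : Set Cell} {g : ℤ} (k : Fin 4) {a b : ℤ}
    (ha : a = 9 ∨ a = 10) (h2 : 2 ≤ b) (h9 : b ≤ 9) : rot k a b ∈ P2 P g := by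
  rw [mem_P2]
  rcases D1_k4 k with h | h | h | h <;> subst h
  · rw [rot0]
    refine ⟨Or.inr ⟨?_, ?_⟩, ?_⟩
    · simp only [Bx, Set.mem_ofPred_eq]; omega
    · rw [mem_XX]; simp only [Prod.mk.injEq]; omega
    · simp only [R3, Set.mem_ofPred_eq]; omega
  · rw [rot1]
    refine ⟨Or.inr ⟨?_, ?_⟩, ?_⟩
    · simp only [Bx, Set.mem_ofPred_eq]; omega
    · rw [mem_XX]; simp only [Prod.mk.injEq]; omega
    · simp only [R3, Set.mem_ofPred_eq]; omega
  · rw [rot2]
    refine ⟨Or.inr ⟨?_, ?_⟩, ?_⟩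
    · simp only [Bx, Set.mem_ofPred_eq]; omega
    · rw [mem_XX]; simp only [Prod.mk.injEq]; omega
    · simp only [R3, Set.mem_ofPred_eq]; omega
  · rw [rot3]
    refine ⟨Or.inr ⟨?_, ?_⟩, ?_⟩
    · simp only [Bx, Set.mem_ofPred_eq]; omega
    · rw [mem_XX]; simp only [Prod.mk.injEq]; omega
    · simp only [R3, Set.mem_ofPred_eq]; omega

private theorem D1_memR3 {g : ℤ} (hg : g = 5 ∨ g = 6) (k : Fin 4) {j : ℤ}
    (h3 : 3 ≤ j) (h8 : j ≤ 8) (hkj : ¬ (k = 3 ∧ j = g)) : rot k 8 j ∈ R3 g := by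
  rcases D1_k4 k with h | h | h | h <;> subst h
  · rw [rot0]
    refine ⟨by norm_num, le_refl _, h3, h8, Or.inr (Or.inl rfl), ?_⟩
    intro he
    have h1 := congrArg Prod.fst he
    simp only at h1
    omega
  · rw [rot1]
    refine ⟨by simp only; omega, by simp only; omega, by norm_num, le_refl _,
      Or.inr (Or.inr (Or.inr rfl)), ?_⟩
    intro he
    have h1 := congrArg Prod.snd he
    simp only at h1
    omega
  · rw [rot2]
    refine ⟨by norm_num, by norm_num, by simp only; omega, by simp only; omega,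
      Or.inl (by norm_num), ?_⟩
    intro he
    have h1 := congrArg Prod.fst he
    simp only at h1
    omega
  · rw [rot3]
    have hj : j ≠ g := fun h => hkj ⟨rfl, h⟩
    simp only [R3, Set.mem_ofPred_eq, Prod.mk.injEq, ne_eq]; omega

private theorem D1_out {P : Set Cell} {g : ℤ} (k : Fin 4) {j : ℤ} (ho : rot k 11 j ∉ P) :
    rot k 11 j ∉ P2 P g := by
  rw [mem_P2]
  rintro ⟨h | h, -⟩
  · exact ho h
  · have h1 := h.1
    rcases D1_k4 k with h' | h' | h' | h' <;> subst h'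
    · rw [rot0] at h1; simp only [Bx, Set.mem_ofPred_eq] at h1; omega
    · rw [rot1] at h1; simp only [Bx, Set.mem_ofPred_eq] at h1; omega
    · rw [rot2] at h1; simp only [Bx, Set.mem_ofPred_eq] at h1; omega
    · rw [rot3] at h1; simp only [Bx, Set.mem_ofPred_eq] at h1; omega

/-- Comparison of the side cells of the layers `9` and `10`. -/
private theorem D1_cmp (k k' : Fin 4) {a a' b j' : ℤ} (ha : a = 9 ∨ a = 10)
    (ha' : a' = 9 ∨ a' = 10) (h2 : 2 ≤ b) (h9 : b ≤ 9) (h3' : 3 ≤ j') (h8' : j' ≤ 8)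
    (hb : a = 10 ∨ (3 ≤ b ∧ b ≤ 8))
    (he : rot k a b = rot k' a' j') : k = k' ∧ a = a' ∧ b = j' := by
  rcases D1_k4 k with h | h | h | h <;> rcases D1_k4 k' with h' | h' | h' | h' <;>
    subst h <;> subst h' <;>
    simp only [rot0, rot1, rot2, rot3, Prod.mk.injEq] at he <;>
    first
      | exact ⟨rfl, by omega, by omega⟩
      | (exfalso; omega)

private theorem D1_finP2 {P : Set Cell} (hP : P.Finite) (g : ℤ) : (P2 P g).Finite := by
  have hB : (Bx : Set Cell).Finite := by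
    refine Set.Finite.subset (Set.finite_Icc ((1, 1) : Cell) ((10, 10) : Cell)) ?_
    rintro ⟨x, y⟩ h
    simp only [Bx, Set.mem_ofPred_eq] at h
    simp only [Set.mem_Icc, Prod.mk_le_mk]
    omega
  refine Set.Finite.subset (hP.union hB) ?_
  rintro c ⟨h | h, -⟩
  · exact Or.inl h
  · exact Or.inr h.1

private theorem D1_nb1 (k : Fin 4) (a b : ℤ) : Nb (rot k a b) (rot k (a + 1) b) :=
  ((fr_rot k).nb a b _).mpr (Or.inl rfl)

private theorem D1_nb2 (k : Fin 4) (a b : ℤ) : Nb (rot k a b) (rot k (a - 1) b) :=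
  ((fr_rot k).nb a b _).mpr (Or.inr (Or.inl rfl))

private theorem D1_nb3 (k : Fin 4) (a b : ℤ) : Nb (rot k a b) (rot k a (b + 1)) :=
  ((fr_rot k).nb a b _).mpr (Or.inr (Or.inr (Or.inl rfl)))

private theorem D1_nb4 (k : Fin 4) (a b : ℤ) : Nb (rot k a b) (rot k a (b - 1)) :=
  ((fr_rot k).nb a b _).mpr (Or.inr (Or.inr (Or.inr rfl)))

/-- One more portal. PROOF. Put `φ = rot k` (a frame, `fr_rot k`), `o = φ 11 j`. `hr3`: `φ 8 j ∈ R3 g`.
* `φ 10 j ∈ Q`: it is in `P2 P g` (in `Bx`, no corner, not in `R3 g`); otherwise `inM` joins it to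
`(8, 8)`, and `o ∉ Q` is its neighbour, contradiction with `hnr`. So `φ 9 j ∈ Q` by `pair`.
* `φ 10 (j+1) ∈ Q`: otherwise it is in `P2 P g \ Q`, by `mid` and comparison of coordinates
`j + 1 ≤ 8` (the cell `rot k 10 9` is not of the form `rot k' 10 j'`, `rot k' 9 j'` with
`3 ≤ j' ≤ 8`), so `φ 11 (j+1) ∉ P` by `port`, `inM` joins `φ 10 (j+1)` to `(8,8)`; the path
`φ 10 (j+1) - φ 11 (j+1) - φ 11 j` in `Qᶜ` contradicts `hnr`. In the same way `φ 10 (j-1) ∈ Q`.
* `(fr_rot k).bump` at `9, j`: the ring there has `E = φ 10 j ∈ Q`, `W = φ 8 j ∉ Q`,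
`NE = φ 10 (j+1) ∈ Q`, `SE = φ 10 (j-1) ∈ Q`, so `RingF` holds. `Q1 = Q \ {φ 9 j}`. By `reach_on` with
`m = (8,8)` (neighbours of `φ 9 j` outside `Q`: `φ 8 j` in the ring: `reach_ring`, `reach_sub`;
`φ 9 (j±1)`: in `P2 P g`, use `inM`) the cell `o` is still not joined to `(8,8)` in `Q1ᶜ`, while
`φ 9 j` is.
* `merge` at `φ 10 j` with the neighbours `φ 9 j` and `o` gives `Q' = Q1 \ {φ 10 j}`.
* check `St P g Q'`: `rot k' 10 j' = rot k 10 j` iff `k' = k, j' = j` for `3 ≤ j, j' ≤ 8`, the same for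
`9`, and `rot k' 10 j' ≠ rot k 9 j`, (`fin_cases k`, `fin_cases k'`, `simp [rot]`, `omega`). -/
theorem one_portal {P : Set Cell} {g : ℤ} (hP : P.Finite) (hg : g = 5 ∨ g = 6) {Q : Set Cell}
    (h : St P g Q) (k : Fin 4) {j : ℤ} (h3 : 3 ≤ j) (h8 : j ≤ 8) (hkj : ¬ (k = 3 ∧ j = g))
    (ho : rot k 11 j ∉ P) (hnr : ¬ Reach Qᶜ (8, 8) (rot k 11 j)) :
    ∃ Q', Q' ⊆ Q ∧ Q' ≠ Q ∧ St P g Q' := by
  have hr3 : rot k 8 j ∈ R3 g := D1_memR3 hg k h3 h8 hkj
  have hoQ : rot k 11 j ∉ Q := fun hc => D1_out k ho (h.sub hc)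
  have h88 : ((8, 8) : Cell) ∉ Q := fun hc => (h.sub hc).2 mem_R3_88
  have h8Q : rot k 8 j ∉ Q := fun hc => (h.sub hc).2 hr3
  have e10 : (9 : ℤ) + 1 = 10 := by norm_num
  have e11 : (10 : ℤ) + 1 = 11 := by norm_num
  have e9 : (10 : ℤ) - 1 = 9 := by norm_num
  have e8 : (9 : ℤ) - 1 = 8 := by norm_num
  -- the cell `φ 10 j` is in `Q`
  have h10 : rot k 10 j ∈ Q := by
    by_contra hc
    have h1 := h.inM _ (D1_memP2 (P := P) (g := g) k (Or.inr rfl) (by omega) (by omega)) hc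
    have h2 : Nb (rot k 10 j) (rot k 11 j) := by
      have := D1_nb1 k 10 j
      rwa [e11] at this
    exact hnr (h1.tail h2 hc hoQ)
  have h9 : rot k 9 j ∈ Q := (h.pair k j h3 h8).mp h10
  -- the cells `φ 10 (j ± 1)`
  have hside : ∀ i : ℤ, (i = j + 1 ∨ i = j - 1) → rot k 10 i ∈ Q := by
    intro i hi
    by_contra hc
    have hm : rot k 10 i ∈ P2 P g := D1_memP2 k (Or.inr rfl) (by omega) (by omega)
    obtain ⟨k', j', h3', h8', hcase⟩ := h.mid _ hm hc
    have hi38 : 3 ≤ i ∧ i ≤ 8 := by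
      rcases hcase with hh | hh
      · have := D1_cmp k k' (Or.inr rfl) (Or.inr rfl) (by omega) (by omega) h3' h8' (Or.inl rfl) hh
        omega
      · have := D1_cmp k k' (Or.inr rfl) (Or.inl rfl) (by omega) (by omega) h3' h8' (Or.inl rfl) hh
        omega
    have hp := h.port k i hi38.1 hi38.2 hc
    have hpQ : rot k 11 i ∉ Q := fun hq => D1_out k hp (h.sub hq)
    have h1 := h.inM _ hm hc
    have h2 : Nb (rot k 10 i) (rot k 11 i) := by
      have := D1_nb1 k 10 i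
      rwa [e11] at this
    have h4 : Nb (rot k 11 i) (rot k 11 j) := by
      rcases hi with hi | hi
      · have := D1_nb4 k 11 i
        rwa [show i - 1 = j by omega] at this
      · have := D1_nb3 k 11 i
        rwa [show i + 1 = j by omega] at this
    exact hnr ((h1.tail h2 hc hpQ).tail h4 hpQ hoQ)
  have hNE := hside (j + 1) (Or.inl rfl)
  have hSE := hside (j - 1) (Or.inr rfl)
  -- remove `φ 9 j`
  have hring : RingF (rot k) Q 9 j := by
    refine ⟨Or.inr (Or.inr (Or.inr ?_)), ?_, ?_, ?_, ?_, ?_, ?_⟩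
    · rw [e8]; exact h8Q
    · intro _ _; rw [e10]; exact hNE
    · intro _ _; rw [e10]; exact hSE
    · intro _ hh; rw [e8] at hh; exact absurd hh h8Q
    · intro hh; rw [e8] at hh; exact absurd hh h8Q
    · rintro ⟨-, -, hh, -⟩; rw [e10] at hh; exact hh h10
    · rintro ⟨-, hh, -, -⟩; rw [e8] at hh; exact h8Q hh
  obtain ⟨hc1, hn1⟩ := (fr_rot k).bump Q 9 j h.conn h.ncb h9 hring
  have hR8 : Reach Qᶜ (8, 8) (rot k 8 j) := reach_sub h.sub (reach_ring hg _ hr3)
  have hon : ∀ c, Reach (Q \ {rot k 9 j})ᶜ (8, 8) c → c = rot k 9 j ∨ Reach Qᶜ (8, 8) c := by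
    refine reach_on h88 h9 ?_
    intro c hnb hcQ
    rcases ((fr_rot k).nb 9 j c).mp hnb with hh | hh | hh | hh
    · rw [e10] at hh; subst hh; exact absurd h10 hcQ
    · rw [e8] at hh; subst hh; exact hR8
    · subst hh
      exact h.inM _ (D1_memP2 k (Or.inl rfl) (by omega) (by omega)) hcQ
    · subst hh
      exact h.inM _ (D1_memP2 k (Or.inl rfl) (by omega) (by omega)) hcQ
  have hsub1 : Q \ {rot k 9 j} ⊆ Q := Set.sdiff_subset
  have h9n : rot k 9 j ∉ Q \ {rot k 9 j} := fun hh => hh.2 rfl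
  have hne119 : rot k 11 j ≠ rot k 9 j := by
    intro hh
    have := ((fr_rot k).inj 11 j 9 j).mp hh
    omega
  have hne109 : rot k 10 j ≠ rot k 9 j := by
    intro hh
    have := ((fr_rot k).inj 10 j 9 j).mp hh
    omega
  have hno : ¬ Reach (Q \ {rot k 9 j})ᶜ (8, 8) (rot k 11 j) := by
    intro hh
    rcases hon _ hh with h1 | h1
    · exact hne119 h1
    · exact hnr h1
  have hR9 : Reach (Q \ {rot k 9 j})ᶜ (8, 8) (rot k 9 j) := by
    have h1 : Nb (rot k 8 j) (rot k 9 j) := by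
      have := D1_nb1 k 8 j
      rwa [show (8 : ℤ) + 1 = 9 by norm_num] at this
    exact (reach_sub hsub1 hR8).tail h1 (fun hh => h8Q hh.1) h9n
  -- remove `φ 10 j`
  have h10m : rot k 10 j ∈ Q \ {rot k 9 j} := ⟨h10, hne109⟩
  have hnb9 : Nb (rot k 10 j) (rot k 9 j) := by
    have := D1_nb2 k 10 j
    rwa [e9] at this
  have hnb11 : Nb (rot k 10 j) (rot k 11 j) := by
    have := D1_nb1 k 10 j
    rwa [e11] at this
  have hfin : (Q \ {rot k 9 j}).Finite :=
    ((D1_finP2 hP g).subset h.sub).subset hsub1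
  obtain ⟨hc2, hn2⟩ := merge hfin hc1 hn1 h10m h9n (fun hh => hoQ hh.1) hnb9 hnb11
    (fun hh => hno (hR9.trans hh))
  refine ⟨(Q \ {rot k 9 j}) \ {rot k 10 j}, fun c hc => hc.1.1, ?_, ?_⟩
  · intro he
    have : rot k 9 j ∈ (Q \ {rot k 9 j}) \ {rot k 10 j} := by rw [he]; exact h9
    exact this.1.2 rfl
  · have hout : ∀ c, c ∉ (Q \ {rot k 9 j}) \ {rot k 10 j} →
        c ∉ Q ∨ c = rot k 9 j ∨ c = rot k 10 j := by
      intro c hc
      by_contra hcon
      push Not at hcon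
      exact hc ⟨⟨hcon.1, hcon.2.1⟩, hcon.2.2⟩
    refine ⟨fun c hc => h.sub hc.1.1, hc2, hn2, ?_, ?_, ?_, ?_⟩
    · intro c hcP hc
      rcases hout c hc with hh | hh | hh
      · exact h.mid c hcP hh
      · exact ⟨k, j, h3, h8, Or.inr hh⟩
      · exact ⟨k, j, h3, h8, Or.inl hh⟩
    · intro k' j' h3' h8'
      constructor
      · intro hh
        refine ⟨⟨(h.pair k' j' h3' h8').mp hh.1.1, ?_⟩, ?_⟩
        · intro he
          have := D1_cmp k' k (Or.inl rfl) (Or.inl rfl) (by omega) (by omega) h3 h8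
            (Or.inr ⟨h3', h8'⟩) he
          apply hh.2
          rw [this.1, this.2.2]
          rfl
        · intro he
          have := D1_cmp k' k (Or.inl rfl) (Or.inr rfl) (by omega) (by omega) h3 h8
            (Or.inr ⟨h3', h8'⟩) he
          omega
      · intro hh
        refine ⟨⟨(h.pair k' j' h3' h8').mpr hh.1.1, ?_⟩, ?_⟩
        · intro he
          have := D1_cmp k' k (Or.inr rfl) (Or.inl rfl) (by omega) (by omega) h3 h8
            (Or.inl rfl) he
          omega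
        · intro he
          have := D1_cmp k' k (Or.inr rfl) (Or.inr rfl) (by omega) (by omega) h3 h8
            (Or.inl rfl) he
          apply hh.1.2
          rw [this.1, this.2.2]
          rfl
    · intro k' j' h3' h8' hc
      rcases hout _ hc with hh | hh | hh
      · exact h.port k' j' h3' h8' hh
      · exfalso
        have := D1_cmp k' k (Or.inr rfl) (Or.inl rfl) (by omega) (by omega) h3 h8
          (Or.inl rfl) hh
        omega
      · have := D1_cmp k' k (Or.inr rfl) (Or.inr rfl) (by omega) (by omega) h3 h8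
          (Or.inl rfl) hh
        rw [this.1, this.2.2]
        exact ho
    · intro c hcP hc
      have hsub2 : (Q \ {rot k 9 j}) \ {rot k 10 j} ⊆ Q \ {rot k 9 j} := Set.sdiff_subset
      rcases hout c hc with hh | hh | hh
      · exact reach_sub (hsub2.trans hsub1) (h.inM c hcP hh)
      · rw [hh]; exact reach_sub hsub2 hR9
      · rw [hh]
        refine (reach_sub hsub2 hR9).tail hnb9.symm ?_ ?_
        · intro h1; exact h1.1.2 rfl
        · intro h1; exact h1.2 rfl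

end Pool.Agent.Lib.MP_dcf1eb_pr
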