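import Pool.Agent.Lib.MP_dcf1eb_pr.D1

/-!
# Fixed area polygons: all portals (D2)
-/

set_option autoImplicit false

namespace Pool.Agent.Lib.MP_dcf1eb_pr

/-- Cells of the box near a side, not in a corner, belong to `P2`. -/
private theorem D2_mem {P : Set Cell} {g : ℤ} (k : Fin 4) {j : ℤ} (h3 : 3 ≤ j) (h8 : j ≤ 8) :
    rot k 10 j ∈ P2 P g ∧ rot k 9 j ∈ P2 P g := by
  fin_cases k
  · constructor
    · rw [mem_P2, mem_XX]
      simp only [Fin.zero_eta, rot0, Bx, R3, Set.mem_setOf_eq, Prod.mk.injEq]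
      refine ⟨Or.inr ⟨by omega, by omega⟩, by omega⟩
    · rw [mem_P2, mem_XX]
      simp only [Fin.zero_eta, rot0, Bx, R3, Set.mem_setOf_eq, Prod.mk.injEq]
      refine ⟨Or.inr ⟨by omega, by omega⟩, by omega⟩
  · constructor
    · rw [mem_P2, mem_XX]
      simp only [Fin.mk_one, rot1, Bx, R3, Set.mem_setOf_eq, Prod.mk.injEq]
      refine ⟨Or.inr ⟨by omega, by omega⟩, by omega⟩
    · rw [mem_P2, mem_XX]
      simp only [Fin.mk_one, rot1, Bx, R3, Set.mem_setOf_eq, Prod.mk.injEq]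
      refine ⟨Or.inr ⟨by omega, by omega⟩, by omega⟩
  · constructor
    · rw [mem_P2, mem_XX]
      simp only [Fin.reduceFinMk, rot2, Bx, R3, Set.mem_setOf_eq, Prod.mk.injEq]
      refine ⟨Or.inr ⟨by omega, by omega⟩, by omega⟩
    · rw [mem_P2, mem_XX]
      simp only [Fin.reduceFinMk, rot2, Bx, R3, Set.mem_setOf_eq, Prod.mk.injEq]
      refine ⟨Or.inr ⟨by omega, by omega⟩, by omega⟩
  · constructor
    · rw [mem_P2, mem_XX]
      simp only [Fin.reduceFinMk, rot3, Bx, R3, Set.mem_setOf_eq, Prod.mk.injEq]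
      refine ⟨Or.inr ⟨by omega, by omega⟩, by omega⟩
    · rw [mem_P2, mem_XX]
      simp only [Fin.reduceFinMk, rot3, Bx, R3, Set.mem_setOf_eq, Prod.mk.injEq]
      refine ⟨Or.inr ⟨by omega, by omega⟩, by omega⟩

private theorem D2_fin {P : Set Cell} {g : ℤ} (hP : P.Finite) : (P2 P g).Finite := by
  have hB : (Bx : Set Cell).Finite := by
    refine ((Set.finite_Icc (1 : ℤ) 10).prod (Set.finite_Icc (1 : ℤ) 10)).subset ?_
    intro c hc
    simp only [Bx, Set.mem_setOf_eq] at hc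
    simp only [Set.mem_prod, Set.mem_Icc]
    omega
  refine (hP.union hB).subset ?_
  intro c hc
  rw [mem_P2] at hc
  rcases hc.1 with h | h
  · exact Or.inl h
  · exact Or.inr h.1

private theorem D2_start {P : Set Cell} {g : ℤ} (hc2 : Conn (P2 P g)) (hn2 : NoCB (P2 P g)) :
    St P g (P2 P g) where
  sub := subset_rfl
  conn := hc2
  ncb := hn2
  mid := fun c h h' => absurd h h'
  pair := fun k _ h3 h8 => ⟨fun _ => (D2_mem k h3 h8).2, fun _ => (D2_mem k h3 h8).1⟩
  port := fun k _ h3 h8 h => absurd (D2_mem k h3 h8).1 h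
  inM := fun c h h' => absurd h h'

private theorem D2_min {P : Set Cell} {g : ℤ} (hP : P.Finite) (hg : g = 5 ∨ g = 6) :
    ∀ (n : ℕ) (Q : Set Cell), Q.ncard = n → St P g Q → ∃ Q, St P g Q ∧
      ∀ (k : Fin 4) (j : ℤ), 3 ≤ j → j ≤ 8 → ¬ (k = 3 ∧ j = g) → rot k 11 j ∉ P →
        Reach Qᶜ (8, 8) (rot k 11 j) := by
  intro n
  induction n using Nat.strong_induction_on with
  | _ n ih =>
    intro Q hQ hSt
    by_cases hgood : ∀ (k : Fin 4) (j : ℤ), 3 ≤ j → j ≤ 8 → ¬ (k = 3 ∧ j = g) →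
        rot k 11 j ∉ P → Reach Qᶜ (8, 8) (rot k 11 j)
    · exact ⟨Q, hSt, hgood⟩
    · push Not at hgood
      obtain ⟨k, j, h3, h8, hkj, ho, hnr⟩ := hgood
      obtain ⟨Q', hsub, hne, hSt'⟩ := one_portal hP hg hSt k h3 h8
        (fun h => hkj h.1 h.2) ho hnr
      have hfin : Q.Finite := (D2_fin hP).subset hSt.sub
      have hlt : Q'.ncard < n := by
        rw [← hQ]
        exact Set.ncard_lt_ncard (lt_of_le_of_ne hsub hne) hfin
      exact ih _ hlt Q' rfl hSt'

/-- All portals. PROOF. The set of `Q` with `St P g Q` contains `P2 P g` (`hc2`, `hn2`) and all its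
members contain `P2 P g` minus a fixed finite set (48 cells); so it has a minimal element `Q` for
inclusion (e.g. minimise `(Q ∩ F).ncard` with `F` the finite set of all `rot k 10 j`, `rot k 9 j`;
by `mid` a strict subset in the family has a strictly smaller value). By `one_portal` and
minimality every `rot k 11 j ∉ P` with `(k, j) ≠ (3, g)` is joined to `(8, 8)`. For `(3, g)`: the
cell is `(g, 0)`. If `g = 5`, `(5, 0) ∈ P`, nothing to show. If `g = 6` and `(6, 0) ∉ P`: as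
`(5, 0) ∉ P` is `rot 3 11 5`, it is joined to `(8,8)`, and `(6, 0)` is its neighbour, both not in `Q`
(`Q ⊆ P2 P g` and outside `Bx` the set `P2 P g` is `P`). -/
theorem side_phase {P : Set Cell} {g : ℤ} (hP : P.Finite)
    (hg : (g = 5 ∧ ((5, 0) : Cell) ∈ P) ∨ (g = 6 ∧ ((5, 0) : Cell) ∉ P))
    (hc2 : Conn (P2 P g)) (hn2 : NoCB (P2 P g)) :
    ∃ Q, St P g Q ∧ ∀ (k : Fin 4) (j : ℤ), 3 ≤ j → j ≤ 8 → rot k 11 j ∉ P →
      Reach Qᶜ (8, 8) (rot k 11 j) := by
  have hg' : g = 5 ∨ g = 6 := by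
    rcases hg with h | h
    · exact Or.inl h.1
    · exact Or.inr h.1
  obtain ⟨Q, hSt, hQ⟩ := D2_min hP hg' _ _ rfl (D2_start hc2 hn2)
  refine ⟨Q, hSt, ?_⟩
  intro k j h3 h8 ho
  by_cases hkj : k = 3 ∧ j = g
  · obtain ⟨rfl, rfl⟩ := hkj
    rw [rot3] at ho ⊢
    rcases hg with ⟨rfl, h5⟩ | ⟨rfl, h5⟩
    · exact absurd h5 (by simpa using ho)
    · have h1 := hQ 3 5 (by norm_num) (by norm_num) (by norm_num) (by rw [rot3]; simpa using h5)
      rw [rot3] at h1
      have hout : ∀ x : ℤ, ((x, 11 - 11) : Cell) ∉ P → ((x, 11 - 11) : Cell) ∈ Qᶜ := by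
        intro x hx hxQ
        have h2 := hSt.sub hxQ
        rw [mem_P2] at h2
        rcases h2.1 with h3 | h3
        · exact hx h3
        · have h4 := h3.1
          simp only [Bx, Set.mem_setOf_eq] at h4
          omega
      refine h1.tail ?_ (hout 5 (by simpa using h5)) (hout 6 ho)
      left
      norm_num
  · exact hQ k j h3 h8 hkj ho

end Pool.Agent.Lib.MP_dcf1eb_pr
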