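import Pool.Agent.Lib.MP_dcf1eb_pr.B3
import Pool.Agent.Lib.MP_dcf1eb_pr.B4

/-!
# Fixed area polygons: local data at a corner of the box (E0)
-/

set_option autoImplicit false

namespace Pool.Agent.Lib.MP_dcf1eb_pr

/-- The hypotheses at the corner `φ 10 10` of the box (untouched corner). -/
structure Loc (φ : ℤ → ℤ → Cell) (Q : Set Cell) (m : Cell) : Prop where
  fr : Fr φ
  fin : Q.Finite
  conn : Conn Q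
  ncb : NoCB Q
  hm : m ∉ Q
  v : φ 10 9 ∈ Q
  u : φ 9 10 ∈ Q
  c1 : φ 9 9 ∈ Q
  r88 : Reach Qᶜ m (φ 8 8)
  pa8 : φ 10 8 ∈ Q ↔ φ 9 8 ∈ Q
  pa7 : φ 10 7 ∈ Q ↔ φ 9 7 ∈ Q
  pb8 : φ 8 10 ∈ Q ↔ φ 8 9 ∈ Q
  pb7 : φ 7 10 ∈ Q ↔ φ 7 9 ∈ Q
  ra8 : φ 9 8 ∉ Q → Reach Qᶜ m (φ 9 8)
  ra7 : φ 9 7 ∉ Q → Reach Qᶜ m (φ 9 7)
  rb8 : φ 8 9 ∉ Q → Reach Qᶜ m (φ 8 9)
  rb7 : φ 7 9 ∉ Q → Reach Qᶜ m (φ 7 9)
  oa8 : φ 11 8 ∉ Q → Reach Qᶜ m (φ 11 8)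
  ob8 : φ 8 11 ∉ Q → Reach Qᶜ m (φ 8 11)
  qa8 : φ 10 8 ∉ Q → φ 11 8 ∉ Q
  qb8 : φ 8 10 ∉ Q → φ 8 11 ∉ Q
  x : φ 10 10 ∉ Q → φ 11 10 ∉ Q ∧ φ 10 11 ∉ Q

/-- The cells which may be removed at the corner. -/
def Cn (φ : ℤ → ℤ → Cell) : Set Cell :=
  {φ 10 10, φ 10 9, φ 9 10, φ 9 9, φ 8 9, φ 9 8, φ 11 9, φ 9 11}

/-- The four outer cells at the corner. -/
def On (φ : ℤ → ℤ → Cell) : Set Cell := {φ 11 9, φ 11 10, φ 10 11, φ 9 11}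

/-- The conclusion at a corner. -/
def Done (φ : ℤ → ℤ → Cell) (Q : Set Cell) (m : Cell) : Prop :=
  ∃ D : Set Cell, D ⊆ Cn φ ∧ Conn (Q \ D) ∧ NoCB (Q \ D) ∧
    (∀ c ∈ D, Reach (Q \ D)ᶜ m c) ∧ ∀ o ∈ On φ, o ∉ Q → Reach (Q \ D)ᶜ m o

theorem Loc.swap {φ : ℤ → ℤ → Cell} {Q : Set Cell} {m : Cell} (h : Loc φ Q m) :
    Loc (fun a b => φ b a) Q m where
  fr := h.fr.swap
  fin := h.fin
  conn := h.conn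
  ncb := h.ncb
  hm := h.hm
  v := h.u
  u := h.v
  c1 := h.c1
  r88 := h.r88
  pa8 := h.pb8
  pa7 := h.pb7
  pb8 := h.pa8
  pb7 := h.pa7
  ra8 := h.rb8
  ra7 := h.rb7
  rb8 := h.ra8
  rb7 := h.ra7
  oa8 := h.ob8
  ob8 := h.oa8
  qa8 := h.qb8
  qb8 := h.qa8
  x := fun h' => (h.x h').symm

theorem Done.swap {φ : ℤ → ℤ → Cell} {Q : Set Cell} {m : Cell}
    (h : Done (fun a b => φ b a) Q m) : Done φ Q m := by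
  obtain ⟨D, h1, h2, h3, h4, h5⟩ := h
  refine ⟨D, ?_, h2, h3, h4, ?_⟩
  · intro c hc
    have := h1 hc
    simp only [Cn, Set.mem_insert_iff, Set.mem_singleton_iff] at this ⊢
    tauto
  · intro o ho
    apply h5
    simp only [On, Set.mem_insert_iff, Set.mem_singleton_iff] at ho ⊢
    tauto

end Pool.Agent.Lib.MP_dcf1eb_pr
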