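import Pool.Agent.Lib.MP_dcf1eb_pr.B3
import Pool.Agent.Lib.MP_dcf1eb_pr.B4

/-!
# Fixed area polygons: the corner channel (E1)
-/

set_option autoImplicit false

namespace Pool.Agent.Lib.MP_dcf1eb_pr

private theorem E1_nb {φ : ℤ → ℤ → Cell} (hφ : Fr φ) {a b a' b' : ℤ}
    (h : (a' = a + 1 ∧ b' = b) ∨ (a' = a - 1 ∧ b' = b) ∨ (a' = a ∧ b' = b + 1) ∨
      (a' = a ∧ b' = b - 1)) : Nb (φ a b) (φ a' b') := by
  rw [hφ.nb]
  rcases h with ⟨h1, h2⟩ | ⟨h1, h2⟩ | ⟨h1, h2⟩ | ⟨h1, h2⟩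
  · left; rw [h1, h2]
  · right; left; rw [h1, h2]
  · right; right; left; rw [h1, h2]
  · right; right; right; rw [h1, h2]

private theorem E1_nb_cases {φ : ℤ → ℤ → Cell} (hφ : Fr φ) {a b : ℤ} {c : Cell}
    (h : Nb (φ a b) c) {a1 a2 b1 b2 : ℤ} (h1 : a1 = a + 1) (h2 : a2 = a - 1) (h3 : b1 = b + 1)
    (h4 : b2 = b - 1) : c = φ a1 b ∨ c = φ a2 b ∨ c = φ a b1 ∨ c = φ a b2 := by
  rw [hφ.nb] at h
  rw [h1, h2, h3, h4]
  exact h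

private theorem E1_core {φ : ℤ → ℤ → Cell} (hφ : Fr φ) {Q : Set Cell} {m : Cell} (hf : Q.Finite)
    (hc : Conn Q) (hn : NoCB Q) (hm : m ∉ Q)
    (hv : φ 10 9 ∈ Q) (hu : φ 9 10 ∈ Q) (hc1 : φ 9 9 ∈ Q)
    (hv' : φ 10 8 ∈ Q) (hc2' : φ 9 8 ∈ Q)
    (h89 : Reach Qᶜ m (φ 8 9))
    (hK : (φ 11 9 ∉ Q ∧ ¬ Reach Qᶜ m (φ 11 9) ∧
        (φ 10 10 ∉ Q → ¬ Reach Qᶜ m (φ 10 10))) ∨
      (φ 11 9 ∈ Q ∧ φ 11 8 ∈ Q ∧ φ 10 10 ∉ Q ∧ ¬ Reach Qᶜ m (φ 10 10))) :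
    Conn ((Q \ {φ 10 9}) \ {φ 9 9}) ∧ NoCB ((Q \ {φ 10 9}) \ {φ 9 9}) ∧
      Reach ((Q \ {φ 10 9}) \ {φ 9 9})ᶜ m (φ 8 9) ∧
      Reach ((Q \ {φ 10 9}) \ {φ 9 9})ᶜ m (φ 9 9) ∧
      Reach ((Q \ {φ 10 9}) \ {φ 9 9})ᶜ m (φ 10 9) := by
  have h89n : φ 8 9 ∉ Q := h89.mem hm
  have hring : RingF φ Q 10 9 := by
    have e1 : (9 : ℤ) + 1 = 10 := by norm_num
    have e2 : (10 : ℤ) + 1 = 11 := by norm_num
    have e3 : (9 : ℤ) - 1 = 8 := by norm_num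
    have e4 : (10 : ℤ) - 1 = 9 := by norm_num
    simp only [RingF, e1, e2, e3, e4]
    rcases hK with ⟨k1, k2, k3⟩ | ⟨k1, k2, k3, k4⟩
    · refine ⟨Or.inr (Or.inl k1), fun _ h => absurd h k1, fun h => absurd h k1,
        fun _ _ => hc2', fun _ _ => hu, ?_, ?_⟩
      · rintro ⟨_, _, _, h⟩
        exact h hc1
      · rintro ⟨_, _, _, h⟩
        exact h hv'
    · refine ⟨Or.inl k3, fun h => absurd h k3, fun _ _ => k2,
        fun _ _ => hc2', fun _ _ => hu, ?_, ?_⟩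
      · rintro ⟨_, _, _, h⟩
        exact h hc1
      · rintro ⟨_, _, _, h⟩
        exact h hv'
  obtain ⟨hc2, hn2⟩ := hφ.bump Q 10 9 hc hn hv hring
  have hoff := reach_off hm hv (by
    intro c hcn hcQ
    rcases E1_nb_cases hφ hcn (a1 := 11) (a2 := 9) (b1 := 10) (b2 := 8) (by norm_num)
      (by norm_num) (by norm_num) (by norm_num) with rfl | rfl | rfl | rfl
    · rcases hK with ⟨k1, k2, k3⟩ | ⟨k1, k2, k3, k4⟩
      · exact k2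
      · exact absurd k1 hcQ
    · exact absurd hc1 hcQ
    · rcases hK with ⟨k1, k2, k3⟩ | ⟨k1, k2, k3, k4⟩
      · exact k3 hcQ
      · exact k4
    · exact absurd hv' hcQ)
  have hne1 : φ 9 9 ≠ φ 10 9 := by
    intro h
    have := ((hφ.inj _ _ _ _).mp h).1
    omega
  have hp2 : φ 9 9 ∈ Q \ {φ 10 9} := ⟨hc1, by simpa using hne1⟩
  have ha2 : φ 8 9 ∉ Q \ {φ 10 9} := fun h => h89n h.1
  have hb2 : φ 10 9 ∉ Q \ {φ 10 9} := fun h => h.2 rfl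
  have h89' : Reach (Q \ {φ 10 9})ᶜ m (φ 8 9) := reach_sub Set.sdiff_subset h89
  have hnot : ¬ Reach (Q \ {φ 10 9})ᶜ (φ 8 9) (φ 10 9) := by
    intro h
    have h1 := hoff _ (h89'.trans h)
    exact (h1.mem hm) hv
  obtain ⟨hc3, hn3⟩ := merge (hf.subset Set.sdiff_subset) hc2 hn2 hp2 ha2 hb2
    (E1_nb hφ (by right; left; norm_num)) (E1_nb hφ (by left; norm_num)) hnot
  have r1 : Reach ((Q \ {φ 10 9}) \ {φ 9 9})ᶜ m (φ 8 9) := reach_sub Set.sdiff_subset h89'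
  have m1 : φ 8 9 ∈ ((Q \ {φ 10 9}) \ {φ 9 9})ᶜ := fun h => ha2 h.1
  have m2 : φ 9 9 ∈ ((Q \ {φ 10 9}) \ {φ 9 9})ᶜ := fun h => h.2 rfl
  have m3 : φ 10 9 ∈ ((Q \ {φ 10 9}) \ {φ 9 9})ᶜ := fun h => hb2 h.1
  have r2 : Reach ((Q \ {φ 10 9}) \ {φ 9 9})ᶜ m (φ 9 9) :=
    r1.tail (E1_nb hφ (by left; norm_num)) m1 m2
  have r3 : Reach ((Q \ {φ 10 9}) \ {φ 9 9})ᶜ m (φ 10 9) :=
    r2.tail (E1_nb hφ (by left; norm_num)) m2 m3
  exact ⟨hc3, hn3, r1, r2, r3⟩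

/-- The corner channel. Everything in the coordinates of a frame `φ`; `m` is a cell of the
complement (the ring), joined means `Reach Qᶜ m`.

PROOF. Step 1. If `φ 8 9 ∈ Q` remove it: `hφ.bump Q 8 9`; `RingF`: `N = φ 8 10 ∈ Q` (`hp8`),
`NE = φ 9 10 ∈ Q`, `E = φ 9 9 ∈ Q`, `S = φ 8 8 ∉ Q` (`h88`, `Reach.mem`), `W = φ 7 9 ∈ Q → NW = φ 7 10 ∈ Q`
(`hp7`): all seven parts hold. Its neighbours outside `Q` are `φ 8 8` and possibly `φ 7 9`, all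
joined; so by `reach_on` no other cell gets joined. `Q1 = Q \ {φ 8 9}`; if `φ 8 9 ∉ Q` put `Q1 = Q`. In
both cases `φ 8 9 ∉ Q1` is joined in `Q1ᶜ`.
Step 2. Remove `φ 10 9` from `Q1`: `hφ.bump Q1 10 9`. `RingF` at `(10, 9)`: `W = φ 9 9 ∈ Q1`,
`S = φ 10 8 ∈ Q1`, `SW = φ 9 8 ∈ Q1`, `NW = φ 9 10 ∈ Q1`; in case A of `hK` `E = φ 11 9 ∉ Q1`; in case B
`N = φ 10 10 ∉ Q1`, `E = φ 11 9 ∈ Q1`, `SE = φ 11 8 ∈ Q1`: all seven parts hold in both cases. Its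
neighbours outside `Q1` (case A: `φ 11 9` and possibly `φ 10 10`; case B: `φ 10 10`) are not joined in
`Q1ᶜ`; so by `reach_off` the cell `φ 10 9` is not joined in `Q2ᶜ`, `Q2 = Q1 \ {φ 10 9}` (it is in `Q1`, so
not joined in `Q1ᶜ`), and `φ 8 9` is (`reach_sub`).
Step 3. `merge` at `φ 9 9` in `Q2` (finite subset of `Q`) with the neighbours `φ 8 9` (joined) and
`φ 10 9` (not joined): they are not joined to each other. `Q3 = Q2 \ {φ 9 9}`.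
`D = {φ 10 9, φ 9 9}` or `{φ 8 9, φ 10 9, φ 9 9}`. In `Q3ᶜ`: `φ 8 9` joined, its neighbour `φ 9 9` joined,
its neighbour `φ 10 9` joined. -/
theorem channel {φ : ℤ → ℤ → Cell} (hφ : Fr φ) {Q : Set Cell} {m : Cell} (hf : Q.Finite)
    (hc : Conn Q) (hn : NoCB Q) (hm : m ∉ Q)
    (hv : φ 10 9 ∈ Q) (hu : φ 9 10 ∈ Q) (hc1 : φ 9 9 ∈ Q)
    (hv' : φ 10 8 ∈ Q) (hc2' : φ 9 8 ∈ Q)
    (h88 : Reach Qᶜ m (φ 8 8))
    (hp8 : φ 8 9 ∈ Q → φ 8 10 ∈ Q) (hr8 : φ 8 9 ∉ Q → Reach Qᶜ m (φ 8 9))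
    (hp7 : φ 7 9 ∈ Q → φ 7 10 ∈ Q) (hr7 : φ 7 9 ∉ Q → Reach Qᶜ m (φ 7 9))
    (hK : (φ 11 9 ∉ Q ∧ ¬ Reach Qᶜ m (φ 11 9) ∧
        (φ 10 10 ∉ Q → ¬ Reach Qᶜ m (φ 10 10))) ∨
      (φ 11 9 ∈ Q ∧ φ 11 8 ∈ Q ∧ φ 10 10 ∉ Q ∧ ¬ Reach Qᶜ m (φ 10 10))) :
    ∃ D : Set Cell, D ⊆ {φ 8 9, φ 10 9, φ 9 9} ∧ φ 10 9 ∈ D ∧ φ 9 9 ∈ D ∧
      Conn (Q \ D) ∧ NoCB (Q \ D) ∧ ∀ c ∈ D, Reach (Q \ D)ᶜ m c := by
  by_cases h8 : φ 8 9 ∈ Q
  · have h88n : φ 8 8 ∉ Q := h88.mem hm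
    have h810 := hp8 h8
    have hring : RingF φ Q 8 9 := by
      have e1 : (9 : ℤ) + 1 = 10 := by norm_num
      have e2 : (8 : ℤ) + 1 = 9 := by norm_num
      have e3 : (9 : ℤ) - 1 = 8 := by norm_num
      have e4 : (8 : ℤ) - 1 = 7 := by norm_num
      simp only [RingF, e1, e2, e3, e4]
      refine ⟨Or.inr (Or.inr (Or.inl h88n)), fun _ _ => hu, fun _ h => absurd h h88n,
        fun h => absurd h h88n, fun h _ => hp7 h, ?_, ?_⟩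
      · rintro ⟨_, h, _, _⟩
        exact h88n h
      · rintro ⟨_, _, h, _⟩
        exact h h810
    obtain ⟨hc', hn'⟩ := hφ.bump Q 8 9 hc hn h8 hring
    have hon := reach_on hm h8 (by
      intro c hcn hcQ
      rcases E1_nb_cases hφ hcn (a1 := 9) (a2 := 7) (b1 := 10) (b2 := 8) (by norm_num)
        (by norm_num) (by norm_num) (by norm_num) with rfl | rfl | rfl | rfl
      · exact absurd hc1 hcQ
      · exact hr7 hcQ
      · exact absurd h810 hcQ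
      · exact h88)
    have hne : ∀ a b : ℤ, a ≠ 8 ∨ b ≠ 9 → φ a b ≠ φ 8 9 := by
      intro a b hab h
      have := (hφ.inj _ _ _ _).mp h
      omega
    have hin : ∀ a b : ℤ, a ≠ 8 ∨ b ≠ 9 → φ a b ∈ Q → φ a b ∈ Q \ {φ 8 9} := by
      intro a b hab h
      exact ⟨h, by simpa using hne a b hab⟩
    have hout : ∀ a b : ℤ, a ≠ 8 ∨ b ≠ 9 → φ a b ∉ Q \ {φ 8 9} → φ a b ∉ Q := by
      intro a b hab h h'
      exact h (hin a b hab h')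
    have hm' : m ∉ Q \ {φ 8 9} := fun h => hm h.1
    have hr88' : Reach (Q \ {φ 8 9})ᶜ m (φ 8 8) := reach_sub Set.sdiff_subset h88
    have hr89' : Reach (Q \ {φ 8 9})ᶜ m (φ 8 9) := by
      refine hr88'.tail (E1_nb hφ (by right; right; left; norm_num)) ?_ ?_
      · exact fun h => h88n h.1
      · exact fun h => h.2 rfl
    have hK' : (φ 11 9 ∉ Q \ {φ 8 9} ∧ ¬ Reach (Q \ {φ 8 9})ᶜ m (φ 11 9) ∧
        (φ 10 10 ∉ Q \ {φ 8 9} → ¬ Reach (Q \ {φ 8 9})ᶜ m (φ 10 10))) ∨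
      (φ 11 9 ∈ Q \ {φ 8 9} ∧ φ 11 8 ∈ Q \ {φ 8 9} ∧ φ 10 10 ∉ Q \ {φ 8 9} ∧
        ¬ Reach (Q \ {φ 8 9})ᶜ m (φ 10 10)) := by
      rcases hK with ⟨k1, k2, k3⟩ | ⟨k1, k2, k3, k4⟩
      · left
        refine ⟨fun h => k1 h.1, fun h => ?_, fun h h' => ?_⟩
        · rcases hon _ h with h1 | h1
          · exact hne _ _ (by norm_num) h1
          · exact k2 h1
        · rcases hon _ h' with h1 | h1
          · exact hne _ _ (by norm_num) h1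
          · exact k3 (hout _ _ (by norm_num) h) h1
      · right
        refine ⟨hin _ _ (by norm_num) k1, hin _ _ (by norm_num) k2, fun h => k3 h.1,
          fun h => ?_⟩
        rcases hon _ h with h1 | h1
        · exact hne _ _ (by norm_num) h1
        · exact k4 h1
    obtain ⟨g1, g2, g3, g4, g5⟩ := E1_core hφ (hf.subset Set.sdiff_subset) hc' hn' hm'
      (hin _ _ (by norm_num) hv) (hin _ _ (by norm_num) hu) (hin _ _ (by norm_num) hc1)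
      (hin _ _ (by norm_num) hv') (hin _ _ (by norm_num) hc2') hr89' hK'
    have hD : Q \ {φ 8 9, φ 10 9, φ 9 9} = ((Q \ {φ 8 9}) \ {φ 10 9}) \ {φ 9 9} := by
      ext c
      simp only [Set.mem_sdiff, Set.mem_insert_iff, Set.mem_singleton_iff]
      tauto
    refine ⟨{φ 8 9, φ 10 9, φ 9 9}, subset_rfl, by simp, by simp, ?_, ?_, ?_⟩
    · rw [hD]; exact g1
    · rw [hD]; exact g2
    · intro c hcD
      rw [hD]
      simp only [Set.mem_insert_iff, Set.mem_singleton_iff] at hcD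
      rcases hcD with rfl | rfl | rfl
      · exact g3
      · exact g5
      · exact g4
  · obtain ⟨g1, g2, g3, g4, g5⟩ := E1_core hφ hf hc hn hm hv hu hc1 hv' hc2' (hr8 h8) hK
    have hD : Q \ {φ 10 9, φ 9 9} = (Q \ {φ 10 9}) \ {φ 9 9} := by
      ext c
      simp only [Set.mem_sdiff, Set.mem_insert_iff, Set.mem_singleton_iff]
      tauto
    refine ⟨{φ 10 9, φ 9 9}, Set.subset_insert _ _, by simp, by simp, ?_, ?_, ?_⟩
    · rw [hD]; exact g1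
    · rw [hD]; exact g2
    · intro c hcD
      rw [hD]
      simp only [Set.mem_insert_iff, Set.mem_singleton_iff] at hcD
      rcases hcD with rfl | rfl
      · exact g5
      · exact g4

end Pool.Agent.Lib.MP_dcf1eb_pr
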