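import Pool.Agent.Lib.MP_dcf1eb_pr.E0
import Pool.Agent.Lib.MP_dcf1eb_pr.E1

/-!
# Fixed area polygons: corner, first case (E2a)
-/

set_option autoImplicit false

namespace Pool.Agent.Lib.MP_dcf1eb_pr

/-- First case: the outer cell `φ 11 9` is in the complement and not joined to `m`.

PROOF. (joined means `Reach _ᶜ m`.) `φ 11 8 ∈ Q` (otherwise joined by `oa8`, and it is a neighbour of
`φ 11 9`), so `φ 10 8 ∈ Q` (`qa8`), `φ 9 8 ∈ Q` (`pa8`). If `φ 10 10 ∉ Q` then `φ 11 10 ∉ Q` (`x`) and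
`φ 10 10 - φ 11 10 - φ 11 9` is a path in `Qᶜ`, so `φ 10 10` is not joined. Apply `channel` (case A):
`D1 ⊆ {φ 8 9, φ 10 9, φ 9 9}`, `Q1 = Q \ D1`, good, `φ 10 9, φ 9 9 ∈ D1` joined in `Q1ᶜ`, so `φ 11 9`
joined (neighbour of `φ 10 9`).
Second: if `φ 9 11 ∉ Q` is not joined in `Q1ᶜ`: `merge` at `φ 9 10 ∈ Q1` with the neighbours `φ 9 11` (not
joined) and `φ 9 9` (joined). `Q2 = Q1 \ {φ 9 10}`; otherwise `Q2 = Q1`. In `Q2ᶜ` `φ 9 11` is joined
if it is not in `Q`; if `φ 9 10` was removed it is joined too.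
Third: `φ 11 10 ∉ Q` implies joined in `Q2ᶜ` (neighbour of `φ 11 9`). If `φ 10 11 ∉ Q` is not joined in
`Q2ᶜ`: then `φ 11 10 ∈ Q`: [otherwise `φ 11 10` is joined; `φ 11 11 ∉ Q` gives the path
`φ 11 10 - φ 11 11 - φ 10 11`; if `φ 11 11 ∈ Q` then `φ 10 10 ∉ Q2` by `Fr.ncb` for `NoCB Q2` at
`(10, 10)` (`φ 11 11 ∈ Q2` since it is not removed), and `φ 11 10 - φ 10 10 - φ 10 11` is a path in
`Q2ᶜ`]. So `φ 10 10 ∈ Q` by `x`, hence in `Q2`; `merge` at `φ 10 10` with the neighbours `φ 10 11` (not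
joined) and `φ 10 9 ∉ Q2` (joined). `Q3 = Q2 \ {φ 10 10}`.
`D` = all removed cells. Use `(hφ.inj ..)` to distinguish cells, `reach_sub` to transport. -/
theorem corner_a {φ : ℤ → ℤ → Cell} {Q : Set Cell} {m : Cell} (h : Loc φ Q m)
    (he : φ 11 9 ∉ Q) (hn : ¬ Reach Qᶜ m (φ 11 9)) : Done φ Q m := by
  have hF := h.fr
  have hE : ∀ a b a' : ℤ, a' = a + 1 → Nb (φ a b) (φ a' b) := fun a b a' ha => by
    rw [ha]
    exact (hF.nb a b _).2 (Or.inl rfl)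
  have hW : ∀ a b a' : ℤ, a' = a - 1 → Nb (φ a b) (φ a' b) := fun a b a' ha => by
    rw [ha]
    exact (hF.nb a b _).2 (Or.inr (Or.inl rfl))
  have hN : ∀ a b b' : ℤ, b' = b + 1 → Nb (φ a b) (φ a b') := fun a b b' hb => by
    rw [hb]
    exact (hF.nb a b _).2 (Or.inr (Or.inr (Or.inl rfl)))
  have hS : ∀ a b b' : ℤ, b' = b - 1 → Nb (φ a b) (φ a b') := fun a b b' hb => by
    rw [hb]
    exact (hF.nb a b _).2 (Or.inr (Or.inr (Or.inr rfl)))
  -- a step inside the complement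
  have step : ∀ (S : Set Cell) (a b : Cell), m ∉ S → Reach Sᶜ m a → Nb a b → b ∉ S →
      Reach Sᶜ m b := fun S a b hmS h1 h2 h3 => h1.tail h2 (h1.mem hmS) h3
  -- the cells on the side
  have h118 : φ 11 8 ∈ Q := by
    by_contra h1
    exact hn (step Q _ _ h.hm (h.oa8 h1) (hN 11 8 9 (by norm_num)) he)
  have h108 : φ 10 8 ∈ Q := by
    by_contra h1
    exact h.qa8 h1 h118
  have h98 : φ 9 8 ∈ Q := h.pa8.1 h108
  have h1010 : φ 10 10 ∉ Q → ¬ Reach Qᶜ m (φ 10 10) := by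
    intro h1 h2
    have h3 := (h.x h1).1
    exact hn (step Q _ _ h.hm (step Q _ _ h.hm h2 (hE 10 10 11 (by norm_num)) h3)
      (hS 11 10 9 (by norm_num)) he)
  obtain ⟨D1, hD1, hD1a, hD1b, hQ1c, hQ1n, hD1r⟩ := channel hF h.fin h.conn h.ncb h.hm h.v h.u h.c1
    h108 h98 h.r88 h.pb8.2 h.rb8 h.pb7.2 h.rb7 (Or.inl ⟨he, hn, h1010⟩)
  have hQ1m : m ∉ Q \ D1 := fun h1 => h.hm h1.1
  have h1b := hD1r _ hD1b
  have h1a := hD1r _ hD1a
  have h1e : Reach (Q \ D1)ᶜ m (φ 11 9) :=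
    step _ _ _ hQ1m h1a (hE 10 9 11 (by norm_num)) (fun h1 => he h1.1)
  have hnot : ∀ a b : ℤ, ¬ (a = 8 ∧ b = 9) → ¬ (a = 10 ∧ b = 9) → ¬ (a = 9 ∧ b = 9) →
      φ a b ∉ D1 := by
    intro a b h1 h2 h3 h4
    rcases hD1 h4 with h5 | h5 | h5
    · exact h1 ((hF.inj _ _ _ _).1 h5)
    · exact h2 ((hF.inj _ _ _ _).1 h5)
    · exact h3 ((hF.inj _ _ _ _).1 h5)
  -- second step
  have second : ∃ E2 : Set Cell, E2 ⊆ {φ 9 10} ∧ Conn ((Q \ D1) \ E2) ∧ NoCB ((Q \ D1) \ E2) ∧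
      (∀ c ∈ E2, Reach ((Q \ D1) \ E2)ᶜ m c) ∧
      (φ 9 11 ∉ Q → Reach ((Q \ D1) \ E2)ᶜ m (φ 9 11)) := by
    by_cases hc : φ 9 11 ∉ Q ∧ ¬ Reach (Q \ D1)ᶜ m (φ 9 11)
    · obtain ⟨hc1, hc2⟩ := hc
      have h910 : φ 9 10 ∈ Q \ D1 := ⟨h.u, hnot 9 10 (by norm_num) (by norm_num) (by norm_num)⟩
      obtain ⟨g1, g2⟩ := merge (h.fin.subset Set.sdiff_subset) hQ1c hQ1n (p := φ 9 10) (a := φ 9 11)
        (b := φ 9 9) h910 (fun h1 => hc1 h1.1) (h1b.mem hQ1m) (hN 9 10 11 (by norm_num))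
        (hS 9 10 9 (by norm_num)) (fun h1 => hc2 (h1b.trans h1.symm))
      have hm2 : m ∉ (Q \ D1) \ {φ 9 10} := fun h1 => hQ1m h1.1
      have h2b : Reach ((Q \ D1) \ {φ 9 10})ᶜ m (φ 9 9) := reach_sub Set.sdiff_subset h1b
      have h2u : Reach ((Q \ D1) \ {φ 9 10})ᶜ m (φ 9 10) :=
        step _ _ _ hm2 h2b (hN 9 9 10 (by norm_num)) (fun h1 => h1.2 rfl)
      refine ⟨{φ 9 10}, Set.Subset.refl _, g1, g2, ?_, fun _ => ?_⟩
      · intro c hc
        rw [Set.mem_singleton_iff.1 hc]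
        exact h2u
      · exact step _ _ _ hm2 h2u (hN 9 10 11 (by norm_num)) (fun h1 => hc1 h1.1.1)
    · refine ⟨∅, Set.empty_subset _, ?_, ?_, fun c hc' => absurd hc' (Set.notMem_empty c), ?_⟩
      · rw [Set.sdiff_empty]
        exact hQ1c
      · rw [Set.sdiff_empty]
        exact hQ1n
      · rw [Set.sdiff_empty]
        intro h1
        by_contra h2
        exact hc ⟨h1, h2⟩
  obtain ⟨E2, hE2, hQ2c, hQ2n, hE2r, h911⟩ := second
  have hm2 : m ∉ (Q \ D1) \ E2 := fun h1 => hQ1m h1.1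
  have h2a : Reach ((Q \ D1) \ E2)ᶜ m (φ 10 9) := reach_sub Set.sdiff_subset h1a
  have h2e : Reach ((Q \ D1) \ E2)ᶜ m (φ 11 9) := reach_sub Set.sdiff_subset h1e
  have hnot2 : ∀ a b : ℤ, ¬ (a = 9 ∧ b = 10) → φ a b ∉ E2 := by
    intro a b h1 h4
    exact h1 ((hF.inj _ _ _ _).1 (hE2 h4))
  have h2x : φ 11 10 ∉ Q → Reach ((Q \ D1) \ E2)ᶜ m (φ 11 10) := fun h1 =>
    step _ _ _ hm2 h2e (hN 11 9 10 (by norm_num)) (fun h2 => h1 h2.1.1)
  -- third step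
  have third : ∃ E3 : Set Cell, E3 ⊆ {φ 10 10} ∧ Conn (((Q \ D1) \ E2) \ E3) ∧
      NoCB (((Q \ D1) \ E2) \ E3) ∧ (∀ c ∈ E3, Reach (((Q \ D1) \ E2) \ E3)ᶜ m c) ∧
      (φ 10 11 ∉ Q → Reach (((Q \ D1) \ E2) \ E3)ᶜ m (φ 10 11)) := by
    by_cases hc : φ 10 11 ∉ Q ∧ ¬ Reach ((Q \ D1) \ E2)ᶜ m (φ 10 11)
    · obtain ⟨hc1, hc2⟩ := hc
      have h1110 : φ 11 10 ∈ Q := by
        by_contra h1
        have h3 := h2x h1
        by_cases h4 : φ 11 11 ∈ Q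
        · have h5 : φ 11 11 ∈ (Q \ D1) \ E2 :=
            ⟨⟨h4, hnot 11 11 (by norm_num) (by norm_num) (by norm_num)⟩, hnot2 11 11 (by norm_num)⟩
          have h6 : φ 10 10 ∉ (Q \ D1) \ E2 := by
            intro h7
            have h8 := (hF.ncb _ hQ2n 10 10).1
            exact h8 ⟨h7, h5, fun h9 => h1 h9.1.1, fun h9 => hc1 h9.1.1⟩
          exact hc2 (step _ _ _ hm2 (step _ _ _ hm2 h3 (hW 11 10 10 (by norm_num)) h6)
            (hN 10 10 11 (by norm_num)) (fun h9 => hc1 h9.1.1))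
        · exact hc2 (step _ _ _ hm2 (step _ _ _ hm2 h3 (hN 11 10 11 (by norm_num))
            (fun h9 => h4 h9.1.1)) (hW 11 11 10 (by norm_num)) (fun h9 => hc1 h9.1.1))
      have h1010' : φ 10 10 ∈ Q := by
        by_contra h1
        exact (h.x h1).1 h1110
      have hp : φ 10 10 ∈ (Q \ D1) \ E2 :=
        ⟨⟨h1010', hnot 10 10 (by norm_num) (by norm_num) (by norm_num)⟩, hnot2 10 10 (by norm_num)⟩
      obtain ⟨g1, g2⟩ := merge ((h.fin.subset Set.sdiff_subset).subset Set.sdiff_subset) hQ2c hQ2n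
        (p := φ 10 10) (a := φ 10 11) (b := φ 10 9) hp (fun h1 => hc1 h1.1.1) (h2a.mem hm2)
        (hN 10 10 11 (by norm_num)) (hS 10 10 9 (by norm_num)) (fun h1 => hc2 (h2a.trans h1.symm))
      have hm3 : m ∉ ((Q \ D1) \ E2) \ {φ 10 10} := fun h1 => hm2 h1.1
      have h3a : Reach (((Q \ D1) \ E2) \ {φ 10 10})ᶜ m (φ 10 9) := reach_sub Set.sdiff_subset h2a
      have h3p : Reach (((Q \ D1) \ E2) \ {φ 10 10})ᶜ m (φ 10 10) :=
        step _ _ _ hm3 h3a (hN 10 9 10 (by norm_num)) (fun h1 => h1.2 rfl)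
      refine ⟨{φ 10 10}, Set.Subset.refl _, g1, g2, ?_, fun _ => ?_⟩
      · intro c hc
        rw [Set.mem_singleton_iff.1 hc]
        exact h3p
      · exact step _ _ _ hm3 h3p (hN 10 10 11 (by norm_num)) (fun h1 => hc1 h1.1.1.1)
    · refine ⟨∅, Set.empty_subset _, ?_, ?_, fun c hc' => absurd hc' (Set.notMem_empty c), ?_⟩
      · rw [Set.sdiff_empty]
        exact hQ2c
      · rw [Set.sdiff_empty]
        exact hQ2n
      · rw [Set.sdiff_empty]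
        intro h1
        by_contra h2
        exact hc ⟨h1, h2⟩
  obtain ⟨E3, hE3, hQ3c, hQ3n, hE3r, h1011⟩ := third
  have hD : Q \ (D1 ∪ E2 ∪ E3) = ((Q \ D1) \ E2) \ E3 := by
    ext c
    simp only [Set.mem_sdiff, Set.mem_union]
    tauto
  refine ⟨D1 ∪ E2 ∪ E3, ?_, ?_, ?_, ?_, ?_⟩
  · rintro c ((hc | hc) | hc)
    · simp only [Cn, Set.mem_insert_iff, Set.mem_singleton_iff]
      rcases hD1 hc with h1 | h1 | h1
      · rw [h1]
        tauto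
      · rw [h1]
        tauto
      · rw [Set.mem_singleton_iff.1 h1]
        tauto
    · rw [Set.mem_singleton_iff.1 (hE2 hc)]
      simp only [Cn, Set.mem_insert_iff, Set.mem_singleton_iff]
      tauto
    · rw [Set.mem_singleton_iff.1 (hE3 hc)]
      simp only [Cn, Set.mem_insert_iff, Set.mem_singleton_iff]
      tauto
  · rw [hD]
    exact hQ3c
  · rw [hD]
    exact hQ3n
  · rw [hD]
    rintro c ((hc | hc) | hc)
    · exact reach_sub Set.sdiff_subset (reach_sub Set.sdiff_subset (hD1r c hc))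
    · exact reach_sub Set.sdiff_subset (hE2r c hc)
    · exact hE3r c hc
  · rw [hD]
    intro o ho hoQ
    simp only [On, Set.mem_insert_iff, Set.mem_singleton_iff] at ho
    rcases ho with ho | ho | ho | ho
    · rw [ho]
      exact reach_sub Set.sdiff_subset h2e
    · rw [ho] at hoQ ⊢
      exact reach_sub Set.sdiff_subset (h2x hoQ)
    · rw [ho] at hoQ ⊢
      exact h1011 hoQ
    · rw [ho] at hoQ ⊢
      exact reach_sub Set.sdiff_subset (h911 hoQ)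

end Pool.Agent.Lib.MP_dcf1eb_pr
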