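import Pool.Agent.Lib.MP_dcf1eb_pr.E0
import Pool.Agent.Lib.MP_dcf1eb_pr.E1

/-!
# Fixed area polygons: corner, second case (E2c)
-/

set_option autoImplicit false

namespace Pool.Agent.Lib.MP_dcf1eb_pr

private theorem E2c_nb {φ : ℤ → ℤ → Cell} (fr : Fr φ) {a b a' b' : ℤ}
    (h : (a' = a + 1 ∧ b' = b) ∨ (a' = a - 1 ∧ b' = b) ∨ (a' = a ∧ b' = b + 1) ∨ (a' = a ∧ b' = b - 1)) :
    Nb (φ a b) (φ a' b') := by
  rw [fr.nb]
  rcases h with ⟨h1, h2⟩ | ⟨h1, h2⟩ | ⟨h1, h2⟩ | ⟨h1, h2⟩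
  · exact Or.inl (by rw [h1, h2])
  · exact Or.inr (Or.inl (by rw [h1, h2]))
  · exact Or.inr (Or.inr (Or.inl (by rw [h1, h2])))
  · exact Or.inr (Or.inr (Or.inr (by rw [h1, h2])))

private theorem E2c_ne {φ : ℤ → ℤ → Cell} (fr : Fr φ) {a b a' b' : ℤ} (h : a ≠ a' ∨ b ≠ b') :
    φ a b ≠ φ a' b' := by
  intro h'
  rw [fr.inj] at h'
  omega

private theorem E2c_step {Q : Set Cell} {m c d : Cell} (hm : m ∉ Q) (hc : Reach Qᶜ m c) (hn : Nb c d)
    (hd : d ∉ Q) : Reach Qᶜ m d := hc.tail hn (hc.mem hm) hd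

private theorem E2c_ii1 {φ : ℤ → ℤ → Cell} {Q : Set Cell} {m : Cell} (h : Loc φ Q m)
    (h2 : φ 9 11 ∉ Q → Reach Qᶜ m (φ 9 11)) (he : φ 11 10 ∉ Q) (hn : ¬ Reach Qᶜ m (φ 11 10))
    (h119 : φ 11 9 ∈ Q) (h911 : φ 9 11 ∉ Q) (h1011 : φ 10 11 ∈ Q) : Done φ Q m := by
  have hfr := h.fr
  have h1010 : φ 10 10 ∈ Q := by
    by_contra h0
    exact (h.x h0).2 h1011
  have hR : RingF φ Q 9 10 := by
    refine ⟨Or.inl ?_, fun h3 => absurd h3 ?_, fun _ _ => ?_, fun _ h4 => ?_, fun _ h4 => absurd h4 ?_,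
      fun h3 => absurd h3.1 ?_, fun h3 => h3.2.2.2 ?_⟩
    · exact h911
    · exact h911
    · exact h.v
    · exact h.pb8.1 h4
    · exact h911
    · exact h911
    · exact h.c1
  obtain ⟨hc1, hn1⟩ := hfr.bump Q 9 10 h.conn h.ncb h.u hR
  obtain ⟨Q1, hQ1⟩ : ∃ Q1, Q1 = Q \ {φ 9 10} := ⟨_, rfl⟩
  rw [← hQ1] at hc1 hn1
  have hsub1 : Q1 ⊆ Q := by
    rw [hQ1]
    exact Set.diff_subset
  have hm1 : m ∉ Q1 := fun h3 => h.hm (hsub1 h3)
  have hoff : ∀ c, Reach Q1ᶜ m c → c = φ 9 10 ∨ Reach Qᶜ m c := by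
    rw [hQ1]
    refine reach_on h.hm h.u fun c hc hcQ => ?_
    rw [hfr.nb] at hc
    rcases hc with hc | hc | hc | hc
    · exfalso
      apply hcQ
      rw [hc]
      exact h1010
    · have h810 : φ 8 10 ∉ Q := by
        intro h3
        apply hcQ
        rw [hc]
        exact h3
      have h89 : φ 8 9 ∉ Q := fun h3 => h810 (h.pb8.2 h3)
      have h5 := E2c_step h.hm (h.rb8 h89) (E2c_nb hfr (a' := 8) (b' := 10) (by omega)) h810
      rw [hc]
      exact h5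
    · rw [hc]
      exact h2 h911
    · exfalso
      apply hcQ
      rw [hc]
      exact h.c1
  have hn' : ¬ Reach Q1ᶜ m (φ 11 10) := by
    intro h3
    rcases hoff _ h3 with h4 | h4
    · exact E2c_ne hfr (by omega) h4
    · exact hn h4
  have h910' : φ 9 10 ∉ Q1 := by
    rw [hQ1]
    exact fun h3 => h3.2 rfl
  have hj910 : Reach Q1ᶜ m (φ 9 10) :=
    E2c_step hm1 (reach_sub hsub1 (h2 h911)) (E2c_nb hfr (by omega)) h910'
  have h1010' : φ 10 10 ∈ Q1 := by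
    rw [hQ1]
    exact ⟨h1010, E2c_ne hfr (by omega)⟩
  have he1 : φ 11 10 ∉ Q1 := fun h3 => he (hsub1 h3)
  obtain ⟨hc2, hn2⟩ := merge (h.fin.subset hsub1) hc1 hn1 h1010' h910' he1
    (E2c_nb hfr (by omega)) (E2c_nb hfr (by omega)) (fun h3 => hn' (hj910.trans h3))
  have hD : Q \ {φ 9 10, φ 10 10} = Q1 \ {φ 10 10} := by
    rw [hQ1]
    ext c
    simp only [Set.mem_diff, Set.mem_insert_iff, Set.mem_singleton_iff]
    tauto
  have hsub2 : Q1 \ {φ 10 10} ⊆ Q1 := Set.diff_subset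
  have hm2 : m ∉ Q1 \ {φ 10 10} := fun h3 => hm1 h3.1
  have hj910b : Reach (Q1 \ {φ 10 10})ᶜ m (φ 9 10) := reach_sub hsub2 hj910
  have hj1010 : Reach (Q1 \ {φ 10 10})ᶜ m (φ 10 10) :=
    E2c_step hm2 hj910b (E2c_nb hfr (by omega)) (fun h3 => h3.2 rfl)
  have hj1110 : Reach (Q1 \ {φ 10 10})ᶜ m (φ 11 10) :=
    E2c_step hm2 hj1010 (E2c_nb hfr (by omega)) (fun h3 => he1 h3.1)
  refine ⟨{φ 9 10, φ 10 10}, ?_, ?_, ?_, ?_, ?_⟩
  · intro c hc
    simp only [Cn, Set.mem_insert_iff, Set.mem_singleton_iff] at hc ⊢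
    tauto
  · rw [hD]
    exact hc2
  · rw [hD]
    exact hn2
  · rw [hD]
    intro c hc
    rcases hc with hc | hc
    · rw [hc]
      exact hj910b
    · rw [Set.mem_singleton_iff] at hc
      rw [hc]
      exact hj1010
  · rw [hD]
    intro o ho hoQ
    simp only [On, Set.mem_insert_iff, Set.mem_singleton_iff] at ho
    rcases ho with ho | ho | ho | ho
    · exact absurd (ho ▸ h119) hoQ
    · rw [ho]
      exact hj1110
    · exact absurd (ho ▸ h1011) hoQ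
    · rw [ho]
      exact reach_sub (hsub2.trans hsub1) (h2 h911)

private theorem E2c_ii2 {φ : ℤ → ℤ → Cell} {Q : Set Cell} {m : Cell} (h : Loc φ Q m)
    (he : φ 11 10 ∉ Q) (hn : ¬ Reach Qᶜ m (φ 11 10))
    (h119 : φ 11 9 ∈ Q) (h118 : φ 11 8 ∈ Q) (h108 : φ 10 8 ∈ Q) (h98 : φ 9 8 ∈ Q) (h911 : φ 9 11 ∈ Q)
    (hn1011 : φ 10 11 ∉ Q → ¬ Reach Qᶜ m (φ 10 11)) : Done φ Q m := by
  have hfr := h.fr
  obtain ⟨Q1, hQ1⟩ : ∃ Q1, Q1 = Q \ {φ 10 10} := ⟨_, rfl⟩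
  have hsub1 : Q1 ⊆ Q := by
    rw [hQ1]
    exact Set.diff_subset
  have hm1 : m ∉ Q1 := fun h3 => h.hm (hsub1 h3)
  have h1010' : φ 10 10 ∉ Q1 := by
    rw [hQ1]
    exact fun h3 => h3.2 rfl
  have hin : ∀ a b : ℤ, (a ≠ 10 ∨ b ≠ 10) → φ a b ∈ Q → φ a b ∈ Q1 := by
    intro a b hab h3
    rw [hQ1]
    exact ⟨h3, E2c_ne hfr hab⟩
  have key : Conn Q1 ∧ NoCB Q1 ∧ ¬ Reach Q1ᶜ m (φ 10 10) := by
    by_cases h1010 : φ 10 10 ∈ Q
    · have hR : RingF φ Q 10 10 := by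
        refine ⟨Or.inr (Or.inl ?_), fun _ h3 => absurd h3 ?_, fun h3 => absurd h3 ?_, fun _ _ => ?_,
          fun _ _ => ?_, fun h3 => h3.2.2.2 ?_, fun h3 => absurd h3.1 ?_⟩
        · exact he
        · exact he
        · exact he
        · exact h.c1
        · exact h911
        · exact h.u
        · exact he
      obtain ⟨hc1, hn1⟩ := hfr.bump Q 10 10 h.conn h.ncb h1010 hR
      rw [← hQ1] at hc1 hn1
      refine ⟨hc1, hn1, fun h3 => ?_⟩
      have hoff : ∀ c, Reach Q1ᶜ m c → Reach Qᶜ m c := by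
        rw [hQ1]
        refine reach_off h.hm h1010 fun c hc hcQ => ?_
        rw [hfr.nb] at hc
        rcases hc with hc | hc | hc | hc
        · rw [hc]
          exact hn
        · exfalso
          apply hcQ
          rw [hc]
          exact h.u
        · rw [hc] at hcQ ⊢
          exact hn1011 hcQ
        · exfalso
          apply hcQ
          rw [hc]
          exact h.v
      exact (hoff _ h3).mem h.hm h1010
    · have hQQ : Q1 = Q := by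
        rw [hQ1]
        exact Set.diff_singleton_eq_self h1010
      rw [hQQ]
      refine ⟨h.conn, h.ncb, fun h3 => hn ?_⟩
      exact E2c_step h.hm h3 (E2c_nb hfr (by omega)) he
  obtain ⟨hc1, hn1, hno⟩ := key
  have hlift : ∀ a b : ℤ, (a ≠ 10 ∨ b ≠ 10) → (φ a b ∉ Q → Reach Qᶜ m (φ a b)) →
      φ a b ∉ Q1 → Reach Q1ᶜ m (φ a b) := by
    intro a b hab h3 h4
    exact reach_sub hsub1 (h3 fun h5 => h4 (hin a b hab h5))
  obtain ⟨D1, hD1, hD109, hD99, hc2, hn2, hj⟩ := channel hfr (h.fin.subset hsub1) hc1 hn1 hm1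
    (hin 10 9 (by omega) h.v) (hin 9 10 (by omega) h.u) (hin 9 9 (by omega) h.c1)
    (hin 10 8 (by omega) h108) (hin 9 8 (by omega) h98) (reach_sub hsub1 h.r88)
    (fun h3 => hin 8 10 (by omega) (h.pb8.2 (hsub1 h3))) (hlift 8 9 (by omega) h.rb8)
    (fun h3 => hin 7 10 (by omega) (h.pb7.2 (hsub1 h3))) (hlift 7 9 (by omega) h.rb7)
    (Or.inr ⟨hin 11 9 (by omega) h119, hin 11 8 (by omega) h118, h1010', hno⟩)
  have hD : Q \ (D1 ∪ {φ 10 10}) = Q1 \ D1 := by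
    rw [hQ1]
    ext c
    simp only [Set.mem_diff, Set.mem_union, Set.mem_singleton_iff]
    tauto
  have hm2 : m ∉ Q1 \ D1 := fun h3 => hm1 h3.1
  have hj1010 : Reach (Q1 \ D1)ᶜ m (φ 10 10) :=
    E2c_step hm2 (hj _ hD109) (E2c_nb hfr (by omega)) (fun h3 => h1010' h3.1)
  refine ⟨D1 ∪ {φ 10 10}, ?_, ?_, ?_, ?_, ?_⟩
  · rintro c (hc | hc)
    · have h3 := hD1 hc
      simp only [Cn, Set.mem_insert_iff, Set.mem_singleton_iff] at h3 ⊢
      tauto
    · rw [Set.mem_singleton_iff] at hc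
      simp only [Cn, Set.mem_insert_iff, Set.mem_singleton_iff]
      tauto
  · rw [hD]
    exact hc2
  · rw [hD]
    exact hn2
  · rw [hD]
    rintro c (hc | hc)
    · exact hj c hc
    · rw [Set.mem_singleton_iff] at hc
      rw [hc]
      exact hj1010
  · rw [hD]
    intro o ho hoQ
    simp only [On, Set.mem_insert_iff, Set.mem_singleton_iff] at ho
    rcases ho with ho | ho | ho | ho
    · exact absurd (ho ▸ h119) hoQ
    · rw [ho] at hoQ ⊢
      exact E2c_step hm2 hj1010 (E2c_nb hfr (by omega)) (fun h3 => hoQ (hsub1 h3.1))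
    · rw [ho] at hoQ ⊢
      exact E2c_step hm2 hj1010 (E2c_nb hfr (by omega)) (fun h3 => hoQ (hsub1 h3.1))
    · exact absurd (ho ▸ h911) hoQ

/-- Second case: `φ 11 9` and `φ 9 11` are in `Q` or joined to `m`, and `φ 11 10` is in the
complement and not joined to `m`.

PROOF. (joined = `Reach _ᶜ m`.) (0) `φ 11 9 ∈ Q` (otherwise it is joined, and it is a neighbour of
`φ 11 10`). If `φ 10 11 ∉ Q` then `φ 11 10` and `φ 10 11` are joined to each other in `Qᶜ`: via `φ 11 11` if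
`φ 11 11 ∉ Q`; if `φ 11 11 ∈ Q` then `φ 10 10 ∉ Q` by `fr.ncb` at `(10, 10)`, via `φ 10 10`.
(i) `φ 11 8 ∉ Q`: joined (`oa8`). `merge` at `φ 11 9` with the neighbours `φ 11 8` (joined) and
`φ 11 10` (not joined). `D = {φ 11 9}`. Then `φ 11 10` is joined; `φ 10 11 ∉ Q` is joined by (0);
`φ 9 11 ∉ Q` by hypothesis.
(ii) `φ 11 8 ∈ Q`, so `φ 10 8 ∈ Q` (`qa8`), `φ 9 8 ∈ Q` (`pa8`).
(ii-1) `φ 9 11 ∉ Q` and `φ 10 11 ∈ Q`. `φ 10 10 ∈ Q` (`x`). Bump at `φ 9 10` (`fr.bump Q 9 10`): `RingF`: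
`N = φ 9 11 ∉ Q`, `E = φ 10 10 ∈ Q`, `S = φ 9 9 ∈ Q`, `SE = φ 10 9 ∈ Q`, `W = φ 8 10 ∈ Q → SW = φ 8 9 ∈ Q`
(`pb8`). Its neighbours outside `Q`: `φ 9 11` joined (hypothesis), `φ 8 10` (if not in `Q`: then
`φ 8 9 ∉ Q` joined by `rb8`, and it is a neighbour). So by `reach_on` `φ 11 10` is still not joined in
`Q1ᶜ`, `Q1 = Q \ {φ 9 10}`, while `φ 9 10` is. `merge` at `φ 10 10` with the neighbours `φ 9 10` and
`φ 11 10`. `D = {φ 9 10, φ 10 10}`.
(ii-2) otherwise: then `φ 9 11 ∈ Q` [if not, it is joined by hypothesis, `φ 10 11 ∉ Q` is its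
neighbour, so joined, so `φ 11 10` joined by (0), contradiction], and if `φ 10 11 ∉ Q` it is not
joined (by (0)). If `φ 10 10 ∈ Q`: bump at `φ 10 10`: `RingF`: `E = φ 11 10 ∉ Q`, `W = φ 9 10 ∈ Q`,
`S = φ 10 9 ∈ Q`, `SW = φ 9 9 ∈ Q`, `NW = φ 9 11 ∈ Q`; its neighbours outside `Q` (`φ 11 10`, `φ 10 11`) are
not joined, so `reach_off`. `Q1 = Q \ {φ 10 10}` (or `Q` if `φ 10 10 ∉ Q`; then `φ 10 10` is not joined
because it is a neighbour of `φ 11 10`, `x`). In `Q1ᶜ` the cell `φ 10 10` is not joined. `channel` (case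
B) for `Q1` gives `D1`; `D = D1 ∪ {φ 10 10}` (or `D1`). `φ 10 9 ∈ D1` is joined, its neighbour `φ 10 10`
too, and its neighbours `φ 11 10`, `φ 10 11` (if not in `Q`). -/
theorem corner_c {φ : ℤ → ℤ → Cell} {Q : Set Cell} {m : Cell} (h : Loc φ Q m)
    (h1 : φ 11 9 ∉ Q → Reach Qᶜ m (φ 11 9)) (h2 : φ 9 11 ∉ Q → Reach Qᶜ m (φ 9 11))
    (he : φ 11 10 ∉ Q) (hn : ¬ Reach Qᶜ m (φ 11 10)) : Done φ Q m := by
  have hfr := h.fr
  have h119 : φ 11 9 ∈ Q := by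
    by_contra h0
    exact hn (E2c_step h.hm (h1 h0) (E2c_nb hfr (by omega)) he)
  have h0b : φ 10 11 ∉ Q → Reach Qᶜ (φ 11 10) (φ 10 11) := by
    intro h3
    by_cases h4 : φ 11 11 ∈ Q
    · have h5 : φ 10 10 ∉ Q := by
        intro h6
        exact (hfr.ncb Q h.ncb 10 10).1 ⟨h6, h4, he, h3⟩
      exact (Reach.step (S := Qᶜ) (E2c_nb hfr (by omega)) he h5).tail (E2c_nb hfr (by omega)) h5 h3
    · exact (Reach.step (S := Qᶜ) (E2c_nb hfr (by omega)) he h4).tail (E2c_nb hfr (by omega)) h4 h3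
  by_cases h118 : φ 11 8 ∈ Q
  · have h108 : φ 10 8 ∈ Q := by
      by_contra h3
      exact h.qa8 h3 h118
    have h98 : φ 9 8 ∈ Q := h.pa8.1 h108
    by_cases h911 : φ 9 11 ∈ Q
    · exact E2c_ii2 h he hn h119 h118 h108 h98 h911 fun h3 h4 => hn (h4.trans (h0b h3).symm)
    · by_cases h1011 : φ 10 11 ∈ Q
      · exact E2c_ii1 h h2 he hn h119 h911 h1011
      · exfalso
        have h3 := E2c_step h.hm (h2 h911) (E2c_nb hfr (a' := 10) (b' := 11) (by omega)) h1011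
        exact hn (h3.trans (h0b h1011).symm)
  · have hj118 := h.oa8 h118
    obtain ⟨hc1, hn1⟩ := merge h.fin h.conn h.ncb h119 h118 he (E2c_nb hfr (by omega)) (E2c_nb hfr (by omega))
      (fun h3 => hn (hj118.trans h3))
    have hsub : Q \ {φ 11 9} ⊆ Q := Set.diff_subset
    have hm1 : m ∉ Q \ {φ 11 9} := fun h3 => h.hm h3.1
    have hj119 : Reach (Q \ {φ 11 9})ᶜ m (φ 11 9) :=
      E2c_step hm1 (reach_sub hsub hj118) (E2c_nb hfr (by omega)) (fun h3 => h3.2 rfl)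
    have hj1110 : Reach (Q \ {φ 11 9})ᶜ m (φ 11 10) :=
      E2c_step hm1 hj119 (E2c_nb hfr (by omega)) (fun h3 => he h3.1)
    refine ⟨{φ 11 9}, ?_, hc1, hn1, ?_, ?_⟩
    · intro c hc
      rw [Set.mem_singleton_iff] at hc
      simp only [Cn, Set.mem_insert_iff, Set.mem_singleton_iff]
      tauto
    · intro c hc
      rw [Set.mem_singleton_iff] at hc
      rw [hc]
      exact hj119
    · intro o ho hoQ
      simp only [On, Set.mem_insert_iff, Set.mem_singleton_iff] at ho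
      rcases ho with ho | ho | ho | ho
      · exact absurd (ho ▸ h119) hoQ
      · rw [ho]
        exact hj1110
      · rw [ho] at hoQ ⊢
        exact hj1110.trans (reach_sub hsub (h0b hoQ))
      · rw [ho] at hoQ ⊢
        exact reach_sub hsub (h2 hoQ)

end Pool.Agent.Lib.MP_dcf1eb_pr
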