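import Pool.Agent.Lib.MP_dcf1eb_pr.E2a
import Pool.Agent.Lib.MP_dcf1eb_pr.E2c
import Pool.Agent.Lib.MP_dcf1eb_pr.D1

/-!
# Fixed area polygons: the four corners (E3)
-/

set_option autoImplicit false

namespace Pool.Agent.Lib.MP_dcf1eb_pr

/-- The corner lemma. -/
theorem corner {φ : ℤ → ℤ → Cell} {Q : Set Cell} {m : Cell} (h : Loc φ Q m) : Done φ Q m := by
  by_cases h1 : φ 11 9 ∉ Q → Reach Qᶜ m (φ 11 9)
  · by_cases h2 : φ 9 11 ∉ Q → Reach Qᶜ m (φ 9 11)
    · by_cases h3 : φ 11 10 ∉ Q → Reach Qᶜ m (φ 11 10)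
      · by_cases h4 : φ 10 11 ∉ Q → Reach Qᶜ m (φ 10 11)
        · refine ⟨∅, Set.empty_subset _, ?_, ?_, ?_, ?_⟩
          · simpa using h.conn
          · simpa using h.ncb
          · intro c hc; exact absurd hc (Set.notMem_empty c)
          · intro o ho hoQ
            simp only [On, Set.mem_insert_iff, Set.mem_singleton_iff] at ho
            rw [Set.diff_empty]
            rcases ho with rfl | rfl | rfl | rfl
            · exact h1 hoQ
            · exact h3 hoQ
            · exact h4 hoQ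
            · exact h2 hoQ
        · push Not at h4
          exact (corner_c h.swap h2 h1 h4.1 h4.2).swap
      · push Not at h3
        exact corner_c h h1 h2 h3.1 h3.2
    · push Not at h2
      exact (corner_a h.swap h2.1 h2.2).swap
  · push Not at h1
    exact corner_a h h1.1 h1.2

/-- State after the corners in the list `L` are done. -/
structure St4 (P : Set Cell) (g : ℤ) (Q0 Q : Set Cell) (L : Finset (Fin 4)) : Prop where
  sub : Q ⊆ Q0
  conn : Conn Q
  ncb : NoCB Q
  rem : ∀ c ∈ Q0, c ∉ Q → ∃ k ∈ L, c ∈ Cn (rot k)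
  inM : ∀ c ∈ Q0, c ∉ Q → Reach Qᶜ (8, 8) c
  out : ∀ k ∈ L, ∀ o ∈ On (rot k), o ∉ P → Reach Qᶜ (8, 8) o

private theorem E3_notCn (k k' : Fin 4) (hk : k' ≠ k) (a b : ℤ) (ha : 7 ≤ a) (hb : 7 ≤ b) :
    rot k a b ∉ Cn (rot k') := by
  fin_cases k <;> fin_cases k' <;>
    first
    | exact absurd rfl hk
    | (simp [Cn, rot, Prod.ext_iff]; omega)

private theorem E3_notmid (k k' : Fin 4) (a b j : ℤ) (hj : 3 ≤ j) (hj' : j ≤ 8) (ha : 9 ≤ a)
    (hb : 9 ≤ b) : ¬ (rot k a b = rot k' 10 j ∨ rot k a b = rot k' 9 j) := by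
  fin_cases k <;> fin_cases k' <;> (simp [rot, Prod.ext_iff]; omega)

private theorem E3_notmid' (k k' : Fin 4) (a b j : ℤ) (hj : 3 ≤ j) (hj' : j ≤ 8)
    (hab : 11 ≤ a ∨ 11 ≤ b) : ¬ (rot k a b = rot k' 10 j ∨ rot k a b = rot k' 9 j) := by
  fin_cases k <;> fin_cases k' <;> (simp [rot, Prod.ext_iff]; omega)

private theorem E3_notBx (k : Fin 4) (a b : ℤ) (hab : 11 ≤ a ∨ 11 ≤ b) : rot k a b ∉ Bx := by
  fin_cases k <;> (simp [rot, Bx]; omega)

private theorem E3_notR3 {g : ℤ} (k : Fin 4) (a b : ℤ) (hab : 9 ≤ a ∨ 9 ≤ b) :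
    rot k a b ∉ R3 g := by
  fin_cases k <;> (simp [rot, R3]; omega)

private theorem E3_memBx (k : Fin 4) (a b : ℤ) (h1 : 1 ≤ a) (h2 : a ≤ 10) (h3 : 1 ≤ b)
    (h4 : b ≤ 10) : rot k a b ∈ Bx := by
  fin_cases k <;> (simp [rot, Bx]; omega)

private theorem E3_XX {P : Set Cell} (k : Fin 4) (a b : ℤ) (ha : 7 ≤ a) (hb : 7 ≤ b)
    (h : rot k a b ∈ XX P) : a = 10 ∧ b = 10 ∧ rot k 11 10 ∉ P ∧ rot k 10 11 ∉ P := by
  obtain ⟨k', h1, h2, h3, -⟩ := h
  have e : k' = k ∧ a = 10 ∧ b = 10 := by
    revert h1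
    fin_cases k <;> fin_cases k' <;> (simp [rot, Prod.ext_iff]; try omega)
  obtain ⟨rfl, h5, h6⟩ := e
  exact ⟨h5, h6, h2, h3⟩

private theorem E3_memP2 {P : Set Cell} {g : ℤ} (k : Fin 4) (a b : ℤ) (ha : 7 ≤ a) (hb : 7 ≤ b)
    (ha' : a ≤ 10) (hb' : b ≤ 10) (hab : 9 ≤ a ∨ 9 ≤ b) (hc : ¬ (a = 10 ∧ b = 10)) :
    rot k a b ∈ P2 P g := by
  rw [mem_P2]
  refine ⟨Or.inr ⟨E3_memBx k a b (by omega) ha' (by omega) hb', fun h => ?_⟩, E3_notR3 k a b hab⟩
  have := E3_XX k a b ha hb h
  exact hc ⟨this.1, this.2.1⟩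

private theorem E3_fin {P : Set Cell} (hP : P.Finite) (g : ℤ) : (P2 P g).Finite := by
  have hB : Bx.Finite := by
    refine (Set.finite_Icc ((1, 1) : Cell) (10, 10)).subset fun c hc => ?_
    simp only [Bx, Set.mem_setOf_eq] at hc
    simp only [Set.mem_Icc, Prod.le_def]
    omega
  refine (hP.union hB).subset fun c hc => ?_
  rw [mem_P2] at hc
  rcases hc.1 with h | h
  · exact Or.inl h
  · exact Or.inr h.1

private theorem E3_rot (k : Fin 4) (a b : ℤ) : rot k (11 - b) a = rot (k + 1) a b := by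
  fin_cases k
  · simp [rot]
  · simp [rot]
  · have : ((2 : Fin 4) + 1) = 3 := rfl
    simp [rot, this]
  · have : ((3 : Fin 4) + 1) = 0 := rfl
    simp [rot, this]

/-- One more corner. PROOF. `Q0` is the state after the sides (`St P g Q0` and all mid outer cells
joined to `(8,8)`). Show `Loc (rot k) Q (8, 8)`: the cells occurring in `Loc` are of the form
`rot k a b` with `7 ≤ a, b ≤ 11`; none of them is in `Cn (rot k')` for `k' ≠ k` (compare
coordinates), so for them `Q` and `Q0` agree (`rem`). For `Q0`: `rot k 10 9, rot k 9 10, rot k 9 9` are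
in `P2 P g` (in `Bx`, no corners, not in `R3 g`) and not removed, by `St.mid` (they are not of the form
`rot k' 10 j'`, `rot k' 9 j'`, `3 ≤ j' ≤ 8`). `rot k 8 8 ∈ R3 g` (`reach_ring`, `reach_sub`).
`pa8, pa7`: `St.pair k 8`, `St.pair k 7`. `pb8, pb7`: `rot k 8 10 = rot (k + 1) 10 3`,
`rot k 8 9 = rot (k+1) 9 3`, `rot k 7 10 = rot (k+1) 10 4`, `rot k 7 9 = rot (k+1) 9 4` and `St.pair`.
`ra8` etc: these cells are in `P2 P g`; `St.inM`, `reach_sub`. `oa8, ob8`: `rot k 11 8`, and
`rot k 8 11 = rot (k+1) 11 3`: hypothesis `hout`; they are outside `Bx`, so membership in `Q0` is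
membership in `P` (`St.sub`, `mem_P2`, and `St.mid`: not removed). `qa8, qb8`: `St.port`. `x`:
`rot k 10 10 ∉ Q` implies `∉ Q0`; it is not removed by `St.mid`, so not in `P2 P g`, so in `XX P`, which
gives `rot k 11 10, rot k 10 11 ∉ P` (`XX` with the same `k`: compare corners).
Then `corner` gives `D`; `Q' = Q \ D`. -/
theorem one_corner {P : Set Cell} {g : ℤ} (hP : P.Finite) (hg : g = 5 ∨ g = 6) {Q0 Q : Set Cell}
    (h0 : St P g Q0)
    (hout : ∀ (k : Fin 4) (j : ℤ), 3 ≤ j → j ≤ 8 → rot k 11 j ∉ P →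
      Reach Q0ᶜ (8, 8) (rot k 11 j)) {L : Finset (Fin 4)} (h : St4 P g Q0 Q L) {k : Fin 4}
    (hk : k ∉ L) : ∃ Q', St4 P g Q0 Q' (insert k L) := by
  have agree : ∀ a b : ℤ, 7 ≤ a → 7 ≤ b → (rot k a b ∈ Q ↔ rot k a b ∈ Q0) := by
    intro a b ha hb
    refine ⟨fun hh => h.sub hh, fun hh => ?_⟩
    by_contra hq
    obtain ⟨k', hk', hc⟩ := h.rem _ hh hq
    exact E3_notCn k k' (fun e => hk (e ▸ hk')) a b ha hb hc
  have outer : ∀ (k' : Fin 4) (a b : ℤ), (11 ≤ a ∨ 11 ≤ b) → (rot k' a b ∈ Q0 ↔ rot k' a b ∈ P) := by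
    intro k' a b hab
    constructor
    · intro hh
      have h2 := h0.sub hh
      rw [mem_P2] at h2
      rcases h2.1 with h3 | h3
      · exact h3
      · exact absurd h3.1 (E3_notBx k' a b hab)
    · intro hh
      by_contra hq
      have h2 : rot k' a b ∈ P2 P g := by
        rw [mem_P2]
        exact ⟨Or.inl hh, E3_notR3 k' a b (by omega)⟩
      obtain ⟨k'', j, hj, hj', he⟩ := h0.mid _ h2 hq
      exact E3_notmid' k' k'' a b j hj hj' hab he
  have outk : ∀ a b : ℤ, 7 ≤ a → 7 ≤ b → (11 ≤ a ∨ 11 ≤ b) → (rot k a b ∈ Q ↔ rot k a b ∈ P) :=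
    fun a b ha hb hab => (agree a b ha hb).trans (outer k a b hab)
  have inn : ∀ a b : ℤ, 9 ≤ a → a ≤ 10 → 9 ≤ b → b ≤ 10 → ¬ (a = 10 ∧ b = 10) →
      rot k a b ∈ Q := by
    intro a b ha ha' hb hb' hc
    rw [agree a b (by omega) (by omega)]
    by_contra hq
    obtain ⟨k', j, hj, hj', he⟩ := h0.mid _
      (E3_memP2 k a b (by omega) (by omega) ha' hb' (Or.inl ha) hc) hq
    exact E3_notmid k k' a b j hj hj' ha hb he
  have jn : ∀ a b : ℤ, 7 ≤ a → 7 ≤ b → a ≤ 10 → b ≤ 10 → (9 ≤ a ∨ 9 ≤ b) → ¬ (a = 10 ∧ b = 10) →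
      rot k a b ∉ Q → Reach Qᶜ (8, 8) (rot k a b) := by
    intro a b ha hb ha' hb' hab hc hq
    rw [agree a b ha hb] at hq
    exact reach_sub h.sub (h0.inM _ (E3_memP2 k a b ha hb ha' hb' hab hc) hq)
  have hsub : Q ⊆ P2 P g := h.sub.trans h0.sub
  have h88 : ((8, 8) : Cell) ∈ R3 g := mem_R3_88
  have hloc : Loc (rot k) Q (8, 8) :=
    { fr := fr_rot k
      fin := (E3_fin hP g).subset hsub
      conn := h.conn
      ncb := h.ncb
      hm := fun hh => (hsub hh).2 h88
      v := inn 10 9 (by norm_num) (by norm_num) (by norm_num) (by norm_num) (by norm_num)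
      u := inn 9 10 (by norm_num) (by norm_num) (by norm_num) (by norm_num) (by norm_num)
      c1 := inn 9 9 (by norm_num) (by norm_num) (by norm_num) (by norm_num) (by norm_num)
      r88 := by
        refine reach_sub hsub (reach_ring hg _ ?_)
        fin_cases k <;> (simp [rot, R3]; try omega)
      pa8 := by
        rw [agree 10 8 (by norm_num) (by norm_num), agree 9 8 (by norm_num) (by norm_num)]
        exact h0.pair k 8 (by norm_num) (by norm_num)
      pa7 := by
        rw [agree 10 7 (by norm_num) (by norm_num), agree 9 7 (by norm_num) (by norm_num)]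
        exact h0.pair k 7 (by norm_num) (by norm_num)
      pb8 := by
        rw [agree 8 10 (by norm_num) (by norm_num), agree 8 9 (by norm_num) (by norm_num)]
        have := h0.pair (k + 1) 3 (by norm_num) (by norm_num)
        rwa [← E3_rot k 10 3, ← E3_rot k 9 3] at this
      pb7 := by
        rw [agree 7 10 (by norm_num) (by norm_num), agree 7 9 (by norm_num) (by norm_num)]
        have := h0.pair (k + 1) 4 (by norm_num) (by norm_num)
        rwa [← E3_rot k 10 4, ← E3_rot k 9 4] at this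
      ra8 := jn 9 8 (by norm_num) (by norm_num) (by norm_num) (by norm_num) (by norm_num) (by norm_num)
      ra7 := jn 9 7 (by norm_num) (by norm_num) (by norm_num) (by norm_num) (by norm_num) (by norm_num)
      rb8 := jn 8 9 (by norm_num) (by norm_num) (by norm_num) (by norm_num) (by norm_num) (by norm_num)
      rb7 := jn 7 9 (by norm_num) (by norm_num) (by norm_num) (by norm_num) (by norm_num) (by norm_num)
      oa8 := by
        intro hq
        rw [outk 11 8 (by norm_num) (by norm_num) (by norm_num)] at hq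
        exact reach_sub h.sub (hout k 8 (by norm_num) (by norm_num) hq)
      ob8 := by
        intro hq
        rw [outk 8 11 (by norm_num) (by norm_num) (by norm_num)] at hq
        have := E3_rot k 11 3
        norm_num at this
        rw [this] at hq ⊢
        exact reach_sub h.sub (hout (k + 1) 3 (by norm_num) (by norm_num) hq)
      qa8 := by
        intro hq
        rw [agree 10 8 (by norm_num) (by norm_num)] at hq
        rw [outk 11 8 (by norm_num) (by norm_num) (by norm_num)]
        exact h0.port k 8 (by norm_num) (by norm_num) hq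
      qb8 := by
        intro hq
        rw [agree 8 10 (by norm_num) (by norm_num)] at hq
        rw [outk 8 11 (by norm_num) (by norm_num) (by norm_num)]
        have h2 := h0.port (k + 1) 3 (by norm_num) (by norm_num)
        rw [← E3_rot k 10 3, ← E3_rot k 11 3] at h2
        exact h2 hq
      x := by
        intro hq
        rw [agree 10 10 (by norm_num) (by norm_num)] at hq
        rw [outk 11 10 (by norm_num) (by norm_num) (by norm_num),
          outk 10 11 (by norm_num) (by norm_num) (by norm_num)]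
        have h2 : rot k 10 10 ∉ P2 P g := by
          intro hh
          obtain ⟨k', j, hj, hj', he⟩ := h0.mid _ hh hq
          exact E3_notmid k k' 10 10 j hj hj' (by norm_num) (by norm_num) he
        have h3 : rot k 10 10 ∈ XX P := by
          by_contra h4
          refine h2 ?_
          rw [mem_P2]
          exact ⟨Or.inr ⟨E3_memBx k 10 10 (by norm_num) (by norm_num) (by norm_num) (by norm_num), h4⟩,
            E3_notR3 k 10 10 (by norm_num)⟩
        exact (E3_XX k 10 10 (by norm_num) (by norm_num) h3).2.2 }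
  obtain ⟨D, hD, hDc, hDn, hDj, hDo⟩ := corner hloc
  refine ⟨Q \ D, ?_, hDc, hDn, ?_, ?_, ?_⟩
  · exact Set.diff_subset.trans h.sub
  · intro c hc hcq
    by_cases hq : c ∈ Q
    · have hcD : c ∈ D := by
        by_contra hh
        exact hcq ⟨hq, hh⟩
      exact ⟨k, Finset.mem_insert_self k L, hD hcD⟩
    · obtain ⟨k', hk', hh⟩ := h.rem c hc hq
      exact ⟨k', Finset.mem_insert_of_mem hk', hh⟩
  · intro c hc hcq
    by_cases hq : c ∈ Q
    · have hcD : c ∈ D := by
        by_contra hh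
        exact hcq ⟨hq, hh⟩
      exact hDj c hcD
    · exact reach_sub Set.diff_subset (h.inM c hc hq)
  · intro k' hk' o ho hoP
    rcases Finset.mem_insert.mp hk' with rfl | hk'
    · refine hDo o ho ?_
      simp only [On, Set.mem_insert_iff, Set.mem_singleton_iff] at ho
      rcases ho with rfl | rfl | rfl | rfl
      · rwa [outk 11 9 (by norm_num) (by norm_num) (by norm_num)]
      · rwa [outk 11 10 (by norm_num) (by norm_num) (by norm_num)]
      · rwa [outk 10 11 (by norm_num) (by norm_num) (by norm_num)]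
      · rwa [outk 9 11 (by norm_num) (by norm_num) (by norm_num)]
    · exact reach_sub Set.diff_subset (h.out k' hk' o ho hoP)

end Pool.Agent.Lib.MP_dcf1eb_pr
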