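import Pool.Agent.Lib.MP_dcf1eb_pr.E3
import Pool.Agent.Lib.MP_dcf1eb_pr.C1
import Pool.Agent.Lib.MP_dcf1eb_pr.C2
import Pool.Agent.Lib.MP_dcf1eb_pr.C4
import Pool.Agent.Lib.MP_dcf1eb_pr.D2

/-!
# Fixed area polygons: the surgery in the box (E5)
-/

set_option autoImplicit false

namespace Pool.Agent.Lib.MP_dcf1eb_pr

private theorem E5_cn (k : Fin 4) {c : Cell} (h : c ∈ Cn (rot k)) :
    (0 ≤ c.1 ∧ c.1 ≤ 11 ∧ 0 ≤ c.2 ∧ c.2 ≤ 11) ∧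
      ¬ (4 ≤ c.1 ∧ c.1 ≤ 7 ∧ 3 ≤ c.2 ∧ c.2 ≤ 7) := by
  simp only [Cn, Set.mem_insert_iff, Set.mem_singleton_iff] at h
  rcases h with rfl | rfl | rfl | rfl | rfl | rfl | rfl | rfl <;> fin_cases k <;> simp [rot]

private theorem E5_mid (k : Fin 4) {j : ℤ} (h3 : 3 ≤ j) (h8 : j ≤ 8) {c : Cell}
    (h : c = rot k 10 j ∨ c = rot k 9 j) :
    (0 ≤ c.1 ∧ c.1 ≤ 11 ∧ 0 ≤ c.2 ∧ c.2 ≤ 11) ∧
      ¬ (4 ≤ c.1 ∧ c.1 ≤ 7 ∧ 3 ≤ c.2 ∧ c.2 ≤ 7) := by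
  rcases h with rfl | rfl <;> fin_cases k <;> simp [rot] <;> omega

/-- The local surgery, in the box. PROOF. `g = 5` if `(5, 0) ∈ P`, otherwise `g = 6`.
`conn_P2`, `ncb_P2`, `side_phase` give `Q0`; `St4 P g Q0 Q0 ∅` holds; four times `one_corner`
(`k = 0, 1, 2, 3`) gives `Q` with `St4 P g Q0 Q {0,1,2,3}`.
Complement: every `c ∉ Q` is joined to `(8, 8)` in `Qᶜ`: if `c ∈ Q0`: `inM`. If `c ∉ Q0`, `c ∈ P2 P g`:
`St.inM` and `reach_sub`. If `c ∉ P2 P g`: `comp_P2`: joined, or joined to some `rot k 11 j ∉ P`,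
`1 ≤ j ≤ 10`; for `3 ≤ j ≤ 8` this is joined by the side phase; `j = 9, 10`: `On (rot k)`; `j = 1, 2`:
`rot k 11 j = rot (k + 3) (11 - j) 11 ∈ On (rot (k + 3))`.
Finite: `Q ⊆ P2 P g ⊆ P ∪ Bx`. Nonempty: contains `(4,4)`. Last three properties: coordinates
(`St.mid`, `rem`: removed cells are in `[0, 11]^2` and not in `[4, 7]^2`). -/
theorem surg_core2 {P : Set Cell} (hP : IsPoly P) (h5 : ((5, 5) : Cell) ∈ P) {z : Cell}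
    (hz : z ∉ P) (hzn : Nb (5, 5) z) :
    ∃ Q : Set Cell, IsPoly Q ∧
      (∀ c : Cell, ¬ (0 ≤ c.1 ∧ c.1 ≤ 11 ∧ 0 ≤ c.2 ∧ c.2 ≤ 11) → (c ∈ Q ↔ c ∈ P)) ∧
      (∀ c : Cell, 4 ≤ c.1 → c.1 ≤ 7 → 4 ≤ c.2 → c.2 ≤ 7 → c ∈ Q) ∧
      ∃ g : ℤ, (g = 5 ∨ g = 6) ∧ (∀ c ∈ R3 g, c ∉ Q) ∧ ((g, 3) : Cell) ∈ Q := by
  have hz1 : 4 ≤ z.1 ∧ z.1 ≤ 7 ∧ 4 ≤ z.2 ∧ z.2 ≤ 7 := by
    rcases z with ⟨z1, z2⟩
    simp only [Nb, Prod.mk.injEq] at hzn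
    refine ⟨?_, ?_, ?_, ?_⟩ <;> simp only <;> omega
  obtain ⟨g, hg, hgg⟩ : ∃ g : ℤ, (g = 5 ∨ g = 6) ∧
      ((g = 5 ∧ ((5, 0) : Cell) ∈ P) ∨ (g = 6 ∧ ((5, 0) : Cell) ∉ P)) := by
    by_cases h : ((5, 0) : Cell) ∈ P
    · exact ⟨5, Or.inl rfl, Or.inl ⟨rfl, h⟩⟩
    · exact ⟨6, Or.inr rfl, Or.inr ⟨rfl, h⟩⟩
  obtain ⟨Q0, h0, hout⟩ := side_phase (g := g) hP.fin hgg (conn_P2 hg hP.conn h5)
    (ncb_P2 hg hP.ncb)
  have hs0 : St4 P g Q0 Q0 ∅ := by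
    refine ⟨subset_rfl, h0.conn, h0.ncb, ?_, ?_, ?_⟩
    · intro c hc hc'
      exact absurd hc hc'
    · intro c hc hc'
      exact absurd hc hc'
    · intro k hk
      exact absurd hk (Finset.notMem_empty k)
  obtain ⟨Q1, hs1⟩ := one_corner hP.fin hg h0 hout hs0 (k := 0) (by decide)
  obtain ⟨Q2, hs2⟩ := one_corner hP.fin hg h0 hout hs1 (k := 1) (by decide)
  obtain ⟨Q3, hs3⟩ := one_corner hP.fin hg h0 hout hs2 (k := 2) (by decide)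
  obtain ⟨Q, hs⟩ := one_corner hP.fin hg h0 hout hs3 (k := 3) (by decide)
  have hall : ∀ k : Fin 4, k ∈ insert (3 : Fin 4) (insert 2 (insert 1 (insert 0 (∅ : Finset (Fin 4))))) := by
    decide
  have hQP : Q ⊆ P2 P g := hs.sub.trans h0.sub
  have hrem : ∀ c ∈ P2 P g, c ∉ Q → (0 ≤ c.1 ∧ c.1 ≤ 11 ∧ 0 ≤ c.2 ∧ c.2 ≤ 11) ∧
      ¬ (4 ≤ c.1 ∧ c.1 ≤ 7 ∧ 3 ≤ c.2 ∧ c.2 ≤ 7) := by
    intro c hc hcQ
    by_cases hc0 : c ∈ Q0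
    · obtain ⟨k, -, hk⟩ := hs.rem c hc0 hcQ
      exact E5_cn k hk
    · obtain ⟨k, j, hj3, hj8, hk⟩ := h0.mid c hc hc0
      exact E5_mid k hj3 hj8 hk
  have hBx : ∀ c : Cell, 4 ≤ c.1 → c.1 ≤ 7 → 4 ≤ c.2 → c.2 ≤ 7 → c ∈ P2 P g := by
    intro c h1 h2 h3 h4
    rw [mem_P2, mem_XX]
    refine ⟨Or.inr ⟨⟨by omega, by omega, by omega, by omega⟩, ?_⟩, ?_⟩
    · rcases c with ⟨c1, c2⟩
      simp only [Prod.mk.injEq] at h1 h2 h3 h4 ⊢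
      rintro (⟨⟨h, h'⟩, -⟩ | ⟨⟨h, h'⟩, -⟩ | ⟨⟨h, h'⟩, -⟩ | ⟨⟨h, h'⟩, -⟩) <;> omega
    · rintro ⟨-, -, -, -, h, -⟩
      omega
  have hmid : ∀ c : Cell, 4 ≤ c.1 → c.1 ≤ 7 → 4 ≤ c.2 → c.2 ≤ 7 → c ∈ Q := by
    intro c h1 h2 h3 h4
    by_contra hcQ
    exact (hrem c (hBx c h1 h2 h3 h4) hcQ).2 ⟨h1, h2, by omega, h4⟩
  have hgap : ((g, 3) : Cell) ∈ Q := by
    by_contra hcQ
    have hgP : ((g, 3) : Cell) ∈ P2 P g := by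
      rw [mem_P2, mem_XX]
      refine ⟨Or.inr ⟨⟨?_, ?_, ?_, ?_⟩, ?_⟩, ?_⟩
      · simp only; omega
      · simp only; omega
      · simp only; omega
      · simp only; omega
      · simp only [Prod.mk.injEq]
        rintro (⟨⟨h, h'⟩, -⟩ | ⟨⟨h, h'⟩, -⟩ | ⟨⟨h, h'⟩, -⟩ | ⟨⟨h, h'⟩, -⟩) <;> omega
      · rintro ⟨-, -, -, -, -, h⟩
        exact h rfl
    refine (hrem _ hgP hcQ).2 ⟨?_, ?_, ?_, ?_⟩ <;> simp only <;> omega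
  have hr : ∀ c, c ∉ Q → Reach Qᶜ (8, 8) c := by
    intro c hc
    by_cases hc0 : c ∈ Q0
    · exact hs.inM c hc0 hc
    · by_cases hc2 : c ∈ P2 P g
      · exact reach_sub hs.sub (h0.inM c hc2 hc0)
      · rcases comp_P2 hg hP.cconn hz hz1 c hc2 with h | ⟨k, j, hj1, hj10, ho, h⟩
        · exact reach_sub hQP h
        · refine Reach.trans ?_ (reach_sub hQP h)
          rcases (by omega : j = 1 ∨ j = 2 ∨ (3 ≤ j ∧ j ≤ 8) ∨ j = 9 ∨ j = 10) with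
            rfl | rfl | ⟨hj3, hj8⟩ | rfl | rfl
          · have e : rot k 11 1 = rot (k + 3) 10 11 := by
              fin_cases k <;> simp [rot]
            exact hs.out (k + 3) (hall _) _ (by rw [e]; simp [On]) ho
          · have e : rot k 11 2 = rot (k + 3) 9 11 := by
              fin_cases k <;> simp [rot]
            exact hs.out (k + 3) (hall _) _ (by rw [e]; simp [On]) ho
          · exact reach_sub hs.sub (hout k j hj3 hj8 ho)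
          · exact hs.out k (hall _) _ (by simp [On]) ho
          · exact hs.out k (hall _) _ (by simp [On]) ho
  refine ⟨Q, ⟨?_, ⟨(4, 4), hmid (4, 4) (by norm_num) (by norm_num) (by norm_num) (by norm_num)⟩,
    hs.conn, ?_, hs.ncb⟩, ?_, hmid, ?_⟩
  · have hBxf : Bx.Finite := by
      refine Set.Finite.subset ((Set.finite_Icc (1 : ℤ) 10).prod (Set.finite_Icc (1 : ℤ) 10)) ?_
      rintro c ⟨h1, h2, h3, h4⟩
      exact ⟨⟨h1, h2⟩, ⟨h3, h4⟩⟩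
    refine (hP.fin.union hBxf).subset ?_
    intro c hc
    rcases (mem_P2.1 (hQP hc)).1 with h | h
    · exact Or.inl h
    · exact Or.inr h.1
  · intro a ha b hb
    exact (hr a ha).symm.trans (hr b hb)
  · intro c hc
    constructor
    · intro hcQ
      rcases (mem_P2.1 (hQP hcQ)).1 with h | h
      · exact h
      · obtain ⟨h1, h2, h3, h4⟩ := h.1
        exact absurd ⟨by omega, by omega, by omega, by omega⟩ hc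
    · intro hcP
      by_contra hcQ
      refine hc (hrem c (mem_P2.2 ⟨Or.inl hcP, ?_⟩) hcQ).1
      rintro ⟨h1, h2, h3, h4, -⟩
      exact hc ⟨by omega, by omega, by omega, by omega⟩
  · exact ⟨g, hg, fun c hc hcQ => (hQP hcQ).2 hc, hgap⟩

end Pool.Agent.Lib.MP_dcf1eb_pr
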