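import Pool.Agent.Lib.MP_dcf1eb_pr.A1

/-!
# Fixed area polygons: the pattern (F0)
-/

set_option autoImplicit false

namespace Pool.Agent.Lib.MP_dcf1eb_pr

/-- The common part of the two states of the pattern at `z`. -/
def PC (S : Set Cell) (z : Cell) : Prop :=
  (z.1, z.2) ∈ S ∧ (z.1 + 1, z.2) ∈ S ∧ (z.1 + 2, z.2) ∈ S ∧ (z.1 + 3, z.2) ∈ S ∧
  (z.1, z.2 + 1) ∈ S ∧ (z.1 + 2, z.2 + 1) ∈ S ∧
  (z.1, z.2 + 2) ∉ S ∧ (z.1 + 1, z.2 + 2) ∉ S ∧ (z.1 + 2, z.2 + 2) ∉ S ∧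
  (z.1 + 3, z.2 + 2) ∉ S ∧ (z.1 + 4, z.2 + 2) ∉ S ∧ (z.1 + 4, z.2 + 1) ∉ S

/-- The two cells which are exchanged. -/
def cy (z : Cell) : Cell := (z.1 + 1, z.2 + 1)
def cx (z : Cell) : Cell := (z.1 + 3, z.2 + 1)

/-- First state: `cy z` in, `cx z` out. -/
def PA (S : Set Cell) (z : Cell) : Prop := PC S z ∧ cy z ∈ S ∧ cx z ∉ S

/-- Second state: `cy z` out, `cx z` in. -/
def PB (S : Set Cell) (z : Cell) : Prop := PC S z ∧ cy z ∉ S ∧ cx z ∈ S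

/-- Exchange of the two states at `z`. -/
noncomputable def tog (S : Finset (ℤ × ℤ)) (z : Cell) : Finset (ℤ × ℤ) := symmDiff S {cy z, cx z}

open Classical in
/-- The occurrences of the pattern in the residue class `ρ` modulo 12. -/
noncomputable def occ (ρ : ℤ × ℤ) (S : Finset (ℤ × ℤ)) : Finset (ℤ × ℤ) :=
  S.filter (fun z => z.1 % 12 = ρ.1 ∧ z.2 % 12 = ρ.2 ∧
    (PA (↑S : Set Cell) z ∨ PB (↑S : Set Cell) z))

open Classical in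
/-- The boundary cells `x` of `S` with `(x.1 - 1, x.2 + 1)` in the residue class `ρ`. -/
noncomputable def bd (ρ : ℤ × ℤ) (S : Finset (ℤ × ℤ)) : Finset (ℤ × ℤ) :=
  S.filter (fun x => (x.1 - 1) % 12 = ρ.1 ∧ (x.2 + 1) % 12 = ρ.2 ∧ ∃ w, w ∉ S ∧ Nb x w)

/-- The window of `x`: 144 cells. -/
noncomputable def win (x : ℤ × ℤ) : Finset (ℤ × ℤ) :=
  Finset.Icc (x.1 - 5) (x.1 + 6) ×ˢ Finset.Icc (x.2 - 5) (x.2 + 6)

/-- The residue classes. -/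
noncomputable def cls : Finset (ℤ × ℤ) := Finset.Ico 0 12 ×ˢ Finset.Ico 0 12

end Pool.Agent.Lib.MP_dcf1eb_pr
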