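import Pool.Agent.Lib.MP_dcf1eb_pr.F0

/-!
# Fixed area polygons: windows of the same class are disjoint (G3)
-/

set_option autoImplicit false

namespace Pool.Agent.Lib.MP_dcf1eb_pr

/-- Windows of the same class are disjoint. PROOF. Coordinates differ by a multiple of 12. -/
theorem win_disj {ρ x x' : ℤ × ℤ} (h1 : (x.1 - 1) % 12 = ρ.1) (h2 : (x.2 + 1) % 12 = ρ.2)
    (h1' : (x'.1 - 1) % 12 = ρ.1) (h2' : (x'.2 + 1) % 12 = ρ.2) (hne : x ≠ x') :
    Disjoint (win x) (win x') := by
  rw [Finset.disjoint_left]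
  intro c hc hc'
  simp only [win, Finset.mem_product, Finset.mem_Icc] at hc hc'
  apply hne
  ext
  · omega
  · omega

end Pool.Agent.Lib.MP_dcf1eb_pr
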