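import Pool.Agent.Lib.MP_dcf1eb_pr.F0
import Pool.Agent.Lib.MP_dcf1eb_pr.A2

/-!
# Fixed area polygons: weights (W0)
-/

set_option autoImplicit false

namespace Pool.Agent.Lib.MP_dcf1eb_pr

/-- The weight `exp (t * half-perimeter)`. -/
noncomputable def wt (t : ℝ) (S : Finset (ℤ × ℤ)) : ℝ := Real.exp (t * ((perim S : ℝ) / 2))

/-- The partition function of the fixed area ensemble. -/
noncomputable def ZZ (n : ℕ) (t : ℝ) : ℝ := ∑ S ∈ polys n, wt t S

theorem wt_pos (t : ℝ) (S : Finset (ℤ × ℤ)) : 0 < wt t S := Real.exp_pos _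

theorem wt_zero (S : Finset (ℤ × ℤ)) : wt 0 S = 1 := by simp [wt]

theorem ZZ_zero (n : ℕ) : ZZ n 0 = ((polys n).card : ℝ) := by simp [ZZ, wt_zero]

theorem ZZ_nonneg (n : ℕ) (t : ℝ) : 0 ≤ ZZ n t := Finset.sum_nonneg (fun S _ => (wt_pos t S).le)

theorem wt_add (s t : ℝ) (S : Finset (ℤ × ℤ)) : wt (s + t) S = wt s S * wt t S := by
  simp only [wt]
  rw [← Real.exp_add]
  ring_nf

end Pool.Agent.Lib.MP_dcf1eb_pr
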