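import Pool.Agent.Lib.MP_dcf1eb_pr.A2
import Pool.Agent.Lib.MP_dcf1eb_pr.W0

/-!
# Fixed area polygons: polygons not in normalised position (G4)
-/

set_option autoImplicit false

namespace Pool.Agent.Lib.MP_dcf1eb_pr

/-- translation by `-v` -/
private def G4_g (v : ℤ × ℤ) : (ℤ × ℤ) ↪ (ℤ × ℤ) :=
  ⟨fun c => (c.1 - v.1, c.2 - v.2), fun a b hab => by
    have h1 : a.1 - v.1 = b.1 - v.1 := congrArg Prod.fst hab
    have h2 : a.2 - v.2 = b.2 - v.2 := congrArg Prod.snd hab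
    exact Prod.ext (by omega) (by omega)⟩

/-- the translate of a set of cells by `-v` -/
private def G4_sh (v : ℤ × ℤ) (S : Finset (ℤ × ℤ)) : Finset (ℤ × ℤ) := S.map (G4_g v)

private theorem G4_mem {v : ℤ × ℤ} {S : Finset (ℤ × ℤ)} {c : ℤ × ℤ} :
    c ∈ G4_sh v S ↔ (c.1 + v.1, c.2 + v.2) ∈ S := by
  unfold G4_sh
  rw [Finset.mem_map]
  constructor
  · rintro ⟨d, hd, hdc⟩
    have h1 : d.1 - v.1 = c.1 := congrArg Prod.fst hdc
    have h2 : d.2 - v.2 = c.2 := congrArg Prod.snd hdc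
    have h3 : (c.1 + v.1, c.2 + v.2) = d := Prod.ext (by omega) (by omega)
    rw [h3]
    exact hd
  · intro h
    refine ⟨_, h, ?_⟩
    exact Prod.ext (by show c.1 + v.1 - v.1 = c.1; omega) (by show c.2 + v.2 - v.2 = c.2; omega)

private theorem G4_nb {v x y : ℤ × ℤ} (h : Nb x y) : Nb (x.1 - v.1, x.2 - v.2) (y.1 - v.1, y.2 - v.2) := by
  rcases x with ⟨x1, x2⟩
  rcases y with ⟨y1, y2⟩
  simp only [Nb, Prod.mk.injEq] at h ⊢
  omega

private theorem G4_reach {v : ℤ × ℤ} {S T : Set Cell} (hT : ∀ c : Cell, c ∈ S → (c.1 - v.1, c.2 - v.2) ∈ T)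
    {a b : Cell} (h : Reach S a b) : Reach T (a.1 - v.1, a.2 - v.2) (b.1 - v.1, b.2 - v.2) := by
  induction h with
  | refl => exact Reach.refl _ _
  | tail _ h ih => exact Reach.tail ih (G4_nb h.1) (hT _ h.2.1) (hT _ h.2.2)

private theorem G4_conn {v : ℤ × ℤ} {S T : Set Cell} (hT : ∀ c : Cell, c ∈ T ↔ (c.1 + v.1, c.2 + v.2) ∈ S)
    (hS : Conn S) : Conn T := by
  have h1 : ∀ c : Cell, c ∈ S → (c.1 - v.1, c.2 - v.2) ∈ T := by
    intro c hc
    rw [hT]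
    have h2 : ((c.1 - v.1 + v.1, c.2 - v.2 + v.2) : Cell) = c := Prod.ext (by simp) (by simp)
    show ((c.1 - v.1 + v.1, c.2 - v.2 + v.2) : Cell) ∈ S
    rw [h2]
    exact hc
  intro a ha b hb
  have h3 := G4_reach h1 (hS _ ((hT a).1 ha) _ ((hT b).1 hb))
  have e1 : ((a.1 + v.1 - v.1, a.2 + v.2 - v.2) : Cell) = a := Prod.ext (by simp) (by simp)
  have e2 : ((b.1 + v.1 - v.1, b.2 + v.2 - v.2) : Cell) = b := Prod.ext (by simp) (by simp)
  have h4 : Reach T (a.1 + v.1 - v.1, a.2 + v.2 - v.2) (b.1 + v.1 - v.1, b.2 + v.2 - v.2) := h3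
  rw [e1, e2] at h4
  exact h4

private theorem G4_poly {v : ℤ × ℤ} {S : Finset (ℤ × ℤ)} (h : IsPoly (↑S : Set Cell)) :
    IsPoly (↑(G4_sh v S) : Set Cell) := by
  have hm : ∀ c : Cell, c ∈ (↑(G4_sh v S) : Set Cell) ↔ (c.1 + v.1, c.2 + v.2) ∈ (↑S : Set Cell) := by
    intro c
    rw [Finset.mem_coe, Finset.mem_coe]
    exact G4_mem
  refine ⟨Finset.finite_toSet _, ?_, G4_conn hm h.conn, G4_conn (v := v) (fun c => ?_) h.cconn, ?_⟩
  · obtain ⟨c, hc⟩ := h.ne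
    refine ⟨(c.1 - v.1, c.2 - v.2), ?_⟩
    rw [hm]
    have e1 : ((c.1 - v.1 + v.1, c.2 - v.2 + v.2) : Cell) = c := Prod.ext (by simp) (by simp)
    show ((c.1 - v.1 + v.1, c.2 - v.2 + v.2) : Cell) ∈ (↑S : Set Cell)
    rw [e1]
    exact hc
  · rw [Set.mem_compl_iff, Set.mem_compl_iff, hm]
  · intro x y
    have h1 := h.ncb (x + v.1) (y + v.2)
    have e1 : x + 1 + v.1 = x + v.1 + 1 := by ring
    have e2 : y + 1 + v.2 = y + v.2 + 1 := by ring
    simp only [hm, e1, e2]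
    exact h1

private theorem G4_card (v : ℤ × ℤ) (S : Finset (ℤ × ℤ)) : (G4_sh v S).card = S.card :=
  Finset.card_map _

private theorem G4_perim (v : ℤ × ℤ) (S : Finset (ℤ × ℤ)) : perim (G4_sh v S) = perim S := by
  unfold perim
  have h0 : G4_sh v S = S.map (G4_g v) := rfl
  conv_lhs => rw [h0]
  rw [Finset.sum_map]
  refine Finset.sum_congr rfl fun a _ => ?_
  refine Finset.card_nbij' (fun b => (b.1 + v.1, b.2 + v.2)) (fun b => (b.1 - v.1, b.2 - v.2)) ?_ ?_ ?_ ?_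
  · intro b hb
    rw [Finset.mem_coe, Finset.mem_filter] at hb
    obtain ⟨hb1, hb2⟩ := hb
    rw [Finset.mem_coe, Finset.mem_filter]
    refine ⟨?_, fun hh => hb2 (G4_mem.2 hh)⟩
    simp only [G4_g, Function.Embedding.coeFn_mk, Finset.mem_insert, Finset.mem_singleton] at hb1 ⊢
    rcases b with ⟨b1, b2⟩
    simp only [Prod.mk.injEq] at hb1 ⊢
    omega
  · intro b hb
    rw [Finset.mem_coe, Finset.mem_filter] at hb
    obtain ⟨hb1, hb2⟩ := hb
    rw [Finset.mem_coe, Finset.mem_filter]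
    refine ⟨?_, fun hh => hb2 ?_⟩
    · simp only [G4_g, Function.Embedding.coeFn_mk, Finset.mem_insert, Finset.mem_singleton] at hb1 ⊢
      rcases b with ⟨b1, b2⟩
      simp only [Prod.mk.injEq] at hb1 ⊢
      omega
    · have h1 := G4_mem.1 hh
      have e1 : ((b.1 - v.1 + v.1, b.2 - v.2 + v.2) : ℤ × ℤ) = b := Prod.ext (by simp) (by simp)
      have h2 : ((b.1 - v.1 + v.1, b.2 - v.2 + v.2) : ℤ × ℤ) ∈ S := h1
      rw [e1] at h2
      exact h2
  · intro b _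
    exact Prod.ext (by simp) (by simp)
  · intro b _
    exact Prod.ext (by simp) (by simp)

private theorem G4_inj {v : ℤ × ℤ} {S T : Finset (ℤ × ℤ)} (h : G4_sh v S = G4_sh v T) : S = T :=
  Finset.map_injective (G4_g v) h

/-- PROOF. The map `S ↦ ((a, b), S translated by (-a, -b))` is injective from `F` to
`(Icc (-6) 6 ×ˢ Icc (-6) 6) × ⋃ n' ≤ M, polys n'`: the translate is a polygon (translation
invariance of `IsPoly`, `perim`, `card`: prove it here, private), `Norm`. `13 * 13 = 169`. Use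
`mem_polys`. (E.g. group `F` by `(a, b)`; for fixed `(a, b)` the translation is injective into
`(range (M+1)).sigma polys` or the disjoint union, and preserves `wt`.) -/
theorem count_shift (M : ℕ) (t : ℝ) (F : Finset (Finset (ℤ × ℤ)))
    (h : ∀ S ∈ F, IsPoly (↑S : Set Cell) ∧ S.card ≤ M ∧ ∃ a b : ℤ, -6 ≤ a ∧ a ≤ 6 ∧ -6 ≤ b ∧
      b ≤ 6 ∧ (∀ c ∈ S, a ≤ c.1 ∧ b ≤ c.2) ∧ (∃ c ∈ S, c.1 = a) ∧ ∃ c ∈ S, c.2 = b) :
    ∑ S ∈ F, wt t S ≤ 169 * ∑ n' ∈ Finset.range (M + 1), ZZ n' t := by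
  classical
  have h' : ∀ S : Finset (ℤ × ℤ), ∃ v : ℤ × ℤ, S ∈ F → (-6 ≤ v.1 ∧ v.1 ≤ 6 ∧ -6 ≤ v.2 ∧ v.2 ≤ 6 ∧
      Norm (G4_sh v S)) := by
    intro S
    by_cases hS : S ∈ F
    · obtain ⟨_, _, a, b, h1, h2, h3, h4, h5, ⟨c, hc, hca⟩, d, hd, hdb⟩ := h S hS
      refine ⟨(a, b), fun _ => ⟨h1, h2, h3, h4, ?_, ?_, ?_⟩⟩
      · intro x hx
        have h6 := h5 _ (G4_mem.1 hx)
        have h7 : a ≤ x.1 + a ∧ b ≤ x.2 + b := h6
        omega
      · refine ⟨(c.1 - a, c.2 - b), G4_mem.2 ?_, ?_⟩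
        · show (c.1 - a + a, c.2 - b + b) ∈ S
          have e1 : ((c.1 - a + a, c.2 - b + b) : ℤ × ℤ) = c := Prod.ext (by simp) (by simp)
          rw [e1]
          exact hc
        · show c.1 - a = 0
          omega
      · refine ⟨(d.1 - a, d.2 - b), G4_mem.2 ?_, ?_⟩
        · show (d.1 - a + a, d.2 - b + b) ∈ S
          have e1 : ((d.1 - a + a, d.2 - b + b) : ℤ × ℤ) = d := Prod.ext (by simp) (by simp)
          rw [e1]
          exact hd
        · show d.2 - b = 0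
          omega
    · exact ⟨0, fun hh => absurd hh hS⟩
  choose V hV using h'
  set B : Finset (ℤ × ℤ) := Finset.Icc (-6 : ℤ) 6 ×ˢ Finset.Icc (-6 : ℤ) 6 with hB
  set U : Finset (Finset (ℤ × ℤ)) := (Finset.range (M + 1)).biUnion polys with hU
  have hinj : Set.InjOn (fun S => (V S, G4_sh (V S) S)) (↑F : Set (Finset (ℤ × ℤ))) := by
    intro S _ T _ hST
    have h1 : V S = V T := congrArg Prod.fst hST
    have h2 : G4_sh (V S) S = G4_sh (V T) T := congrArg Prod.snd hST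
    rw [h1] at h2
    exact G4_inj h2
  have hmaps : F.image (fun S => (V S, G4_sh (V S) S)) ⊆ B ×ˢ U := by
    intro p hp
    obtain ⟨S, hS, rfl⟩ := Finset.mem_image.1 hp
    obtain ⟨h1, h2, h3, h4, h5⟩ := hV S hS
    obtain ⟨hp, hc, _⟩ := h S hS
    rw [Finset.mem_product]
    refine ⟨?_, ?_⟩
    · rw [hB, Finset.mem_product, Finset.mem_Icc, Finset.mem_Icc]
      exact ⟨⟨h1, h2⟩, h3, h4⟩
    · rw [hU, Finset.mem_biUnion]
      refine ⟨S.card, Finset.mem_range.2 (Nat.lt_succ_of_le hc), mem_polys.2 ⟨G4_poly hp, G4_card _ _, h5⟩⟩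
  have e1 : ∑ S ∈ F, wt t S = ∑ p ∈ F.image (fun S => (V S, G4_sh (V S) S)), wt t p.2 := by
    rw [Finset.sum_image hinj]
    refine Finset.sum_congr rfl fun S _ => ?_
    unfold wt
    rw [G4_perim]
  have e2 : ∑ p ∈ F.image (fun S => (V S, G4_sh (V S) S)), wt t p.2 ≤ ∑ p ∈ B ×ˢ U, wt t p.2 :=
    Finset.sum_le_sum_of_subset_of_nonneg hmaps fun p _ _ => (wt_pos t p.2).le
  have hBc : B.card = 169 := by
    rw [hB, Finset.card_product, Int.card_Icc]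
    rfl
  have e3 : ∑ p ∈ B ×ˢ U, wt t p.2 = 169 * ∑ R ∈ U, wt t R := by
    rw [Finset.sum_product]
    show ∑ _x ∈ B, ∑ y ∈ U, wt t y = _
    rw [Finset.sum_const, hBc, nsmul_eq_mul]
    norm_num
  have hdis : (↑(Finset.range (M + 1)) : Set ℕ).PairwiseDisjoint polys := by
    intro m _ n _ hmn
    rw [Function.onFun, Finset.disjoint_left]
    intro S hS hS'
    exact hmn ((mem_polys.1 hS).2.1.symm.trans (mem_polys.1 hS').2.1)
  have e4 : ∑ R ∈ U, wt t R = ∑ n' ∈ Finset.range (M + 1), ZZ n' t := by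
    rw [hU, Finset.sum_biUnion hdis]
    rfl
  rw [e1, ← e4, ← e3]
  exact e2

end Pool.Agent.Lib.MP_dcf1eb_pr
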