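import Pool.Agent.Lib.MP_dcf1eb_pr.A1

/-!
# Fixed area polygons: stacking two polygons (K1)
-/

set_option autoImplicit false

namespace Pool.Agent.Lib.MP_dcf1eb_pr

private theorem K1_seg_h {U : Set Cell} {a b y : ℤ} (hab : a ≤ b)
    (hU : ∀ t, a ≤ t → t ≤ b → ((t, y) : Cell) ∈ U) : Reach U (a, y) (b, y) := by
  obtain ⟨n, rfl⟩ := Int.le.dest hab
  clear hab
  induction n with
  | zero =>
    rw [Nat.cast_zero, add_zero]
    exact Reach.refl _ _
  | succ n ih =>
    have h0 : (a + ((n + 1 : ℕ) : ℤ)) = a + (n : ℤ) + 1 := by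
      push_cast
      ring
    rw [h0] at hU ⊢
    refine (ih (fun t h1 h2 => hU t h1 (by omega))).tail (Or.inl rfl) ?_ ?_
    · exact hU (a + (n : ℤ)) (by omega) (by omega)
    · exact hU (a + (n : ℤ) + 1) (by omega) le_rfl

private theorem K1_seg_v {U : Set Cell} {a b x : ℤ} (hab : a ≤ b)
    (hU : ∀ t, a ≤ t → t ≤ b → ((x, t) : Cell) ∈ U) : Reach U (x, a) (x, b) := by
  obtain ⟨n, rfl⟩ := Int.le.dest hab
  clear hab
  induction n with
  | zero =>
    rw [Nat.cast_zero, add_zero]
    exact Reach.refl _ _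
  | succ n ih =>
    have h0 : (a + ((n + 1 : ℕ) : ℤ)) = a + (n : ℤ) + 1 := by
      push_cast
      ring
    rw [h0] at hU ⊢
    refine (ih (fun t h1 h2 => hU t h1 (by omega))).tail (Or.inr (Or.inr (Or.inl rfl))) ?_ ?_
    · exact hU (a + (n : ℤ)) (by omega) (by omega)
    · exact hU (a + (n : ℤ) + 1) (by omega) le_rfl

private theorem K1_line_h {U : Set Cell} (a b y : ℤ) (hU : ∀ t, ((t, y) : Cell) ∈ U) :
    Reach U (a, y) (b, y) := by
  rcases le_total a b with hab | hab
  · exact K1_seg_h hab (fun t _ _ => hU t)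
  · exact (K1_seg_h hab (fun t _ _ => hU t)).symm

private theorem K1_line_v {U : Set Cell} (a b x : ℤ) (hU : ∀ t, ((x, t) : Cell) ∈ U) :
    Reach U (x, a) (x, b) := by
  rcases le_total a b with hab | hab
  · exact K1_seg_v hab (fun t _ _ => hU t)
  · exact (K1_seg_v hab (fun t _ _ => hU t)).symm

private theorem K1_far {U : Set Cell} {L : ℤ} (_hL : 0 ≤ L)
    (hU : ∀ c : Cell, (L ≤ |c.1| ∨ L ≤ |c.2|) → c ∈ U) (c : Cell)
    (hc : L ≤ |c.1| ∨ L ≤ |c.2|) : Reach U c (L, L) := by
  rcases c with ⟨x, y⟩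
  have hLa : L ≤ |L| := le_abs_self L
  rcases hc with hc | hc
  · have h1 : Reach U (x, y) (x, L) := K1_line_v y L x (fun t => hU (x, t) (Or.inl hc))
    have h2 : Reach U (x, L) (L, L) := K1_line_h x L L (fun t => hU (t, L) (Or.inr hLa))
    exact h1.trans h2
  · have h1 : Reach U (x, y) (L, y) := K1_line_h x L y (fun t => hU (t, y) (Or.inr hc))
    have h2 : Reach U (L, y) (L, L) := K1_line_v y L L (fun t => hU (L, t) (Or.inl hLa))
    exact h1.trans h2

private theorem K1_right {U : Set Cell} {L : ℤ} (hL : 0 ≤ L)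
    (hU : ∀ c : Cell, (L ≤ |c.1| ∨ L ≤ |c.2|) → c ∈ U) {x y : ℤ}
    (hr : ∀ t, x ≤ t → ((t, y) : Cell) ∈ U) : Reach U (x, y) (L, L) := by
  have h0 : x ≤ |x| := le_abs_self x
  have h0' : 0 ≤ |x| := abs_nonneg x
  have h1 : Reach U (x, y) (|x| + L, y) := K1_seg_h (by omega) (fun t ht _ => hr t ht)
  refine h1.trans (K1_far hL hU _ (Or.inl ?_))
  show L ≤ |(|x| + L)|
  rw [abs_of_nonneg (by omega)]
  omega

private theorem K1_left {U : Set Cell} {L : ℤ} (hL : 0 ≤ L)
    (hU : ∀ c : Cell, (L ≤ |c.1| ∨ L ≤ |c.2|) → c ∈ U) {x y : ℤ}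
    (hr : ∀ t, t ≤ x → ((t, y) : Cell) ∈ U) : Reach U (x, y) (L, L) := by
  have h0 : -x ≤ |x| := neg_le_abs x
  have h0' : 0 ≤ |x| := abs_nonneg x
  have h1 : Reach U (-(|x| + L), y) (x, y) := K1_seg_h (by omega) (fun t _ ht => hr t ht)
  refine h1.symm.trans (K1_far hL hU _ (Or.inl ?_))
  show L ≤ |(-(|x| + L))|
  rw [abs_neg, abs_of_nonneg (by omega)]
  omega

/-- Stacking. `S` lies below the line, `R` above, they touch only in the column `x0`.

PROOF. Finite, nonempty: clear. `Conn`: every cell of `S` is joined to `(x0, h)`, every cell of `R`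
to `(x0, h + 1)`, and these are neighbours.
`Conn` of the complement: choose `L` with `|c.1|, |c.2| < L` for all `c ∈ S ∪ R` and `|h| + 1 < L`; every
cell with `|c.1| ≥ L` or `|c.2| ≥ L` is joined in the complement to `(L, L)` (straight segments;
prove this once). Claim: every `c ∉ S ∪ R` is joined in `(S ∪ R)ᶜ` to such a far cell.
Case `c.2 ≤ h`: `Sᶜ` is connected; induct along a path in `Sᶜ` from `c` to the far cell `(0, -L)`
(`Relation.ReflTransGen.head_induction_on`) for the statement: if `c.2 ≤ h` then `c` is joined to a far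
cell in `(S ∪ R)ᶜ`. Step `c → c'`: if `c'.2 ≤ h` use the induction hypothesis (`c, c'` are not in `R`
because of `h2`). If `c'.2 > h` then `c = (x, h)`, `c' = (x, h + 1)`, `x ≠ x0` (as `(x0, h) ∈ S`). If
`x > x0`: the ray `(x', h)`, `x' ≥ x`, avoids `S` (`h5`) and `R` (`h2`). If `x < x0`: `c' ∉ R` by `h6`, and
the ray `(x', h + 1)`, `x' ≤ x`, avoids `R` (`h6`) and `S` (`h1`). Case `c.2 ≥ h + 1`: the same with a path
in `Rᶜ` to `(0, L)`: when it goes down from `(x, h + 1) ∉ R` to `(x, h)`: `x ≠ x0`; `x < x0`: ray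
`(x', h + 1)`, `x' ≤ x`; `x > x0`: `(x, h) ∉ S` by `h5`, ray `(x', h)`, `x' ≥ x`.
`NoCB`: block at `(x, y)`: if `y + 1 ≤ h` only `S` matters, if `y ≥ h + 1` only `R`. If `y = h`: lower cells
`(x, h), (x+1, h)` only in `S`, upper cells only in `R`. A checkerboard would have one lower cell
`(a, h) ∈ S`, so `a ≤ x0`, and the upper cell `(b, h + 1) ∈ R`, so `b ≥ x0`, with `{a, b} = {x, x + 1}`,
and `(b, h) ∉ S`, `(a, h + 1) ∉ R`: so `a ≠ x0`, `b ≠ x0`, `a < x0 < b`, impossible for `|a - b| = 1`. -/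
theorem poly_stack {S R : Set Cell} {x0 h : ℤ} (hS : IsPoly S) (hR : IsPoly R)
    (h1 : ∀ c ∈ S, c.2 ≤ h) (h2 : ∀ c ∈ R, h + 1 ≤ c.2) (h3 : ((x0, h) : Cell) ∈ S)
    (h4 : ((x0, h + 1) : Cell) ∈ R) (h5 : ∀ c ∈ S, c.2 = h → c.1 ≤ x0)
    (h6 : ∀ c ∈ R, c.2 = h + 1 → x0 ≤ c.1) : IsPoly (S ∪ R) := by
  have hfin : (S ∪ R).Finite := hS.fin.union hR.fin
  refine ⟨hfin, hS.ne.inl, ?_, ?_, ?_⟩
  · have hall : ∀ a ∈ S ∪ R, Reach (S ∪ R) a (x0, h) := by
      rintro a (ha | ha)
      · exact Reach.mono Set.subset_union_left (hS.conn a ha _ h3)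
      · refine (Reach.mono Set.subset_union_right (hR.conn a ha _ h4)).tail ?_ (Or.inr h4)
          (Or.inl h3)
        right; right; right
        show ((x0, h) : Cell) = (x0, h + 1 - 1)
        rw [add_sub_cancel_right]
    intro a ha b hb
    exact (hall a ha).trans (hall b hb).symm
  · obtain ⟨M, hM⟩ := (hfin.image (fun c : Cell => |c.1| + |c.2|)).bddAbove
    have hM' : ∀ c ∈ S ∪ R, |c.1| + |c.2| ≤ M := fun c hc => hM (Set.mem_image_of_mem _ hc)
    obtain ⟨L, hLM, hLh, hL0⟩ : ∃ L : ℤ, M < L ∧ |h| + 1 < L ∧ 0 ≤ L := by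
      refine ⟨|M| + |h| + 2, ?_, ?_, ?_⟩
      · have := le_abs_self M
        have := abs_nonneg h
        omega
      · have := abs_nonneg M
        omega
      · have := abs_nonneg M
        have := abs_nonneg h
        omega
    have hU : ∀ c : Cell, (L ≤ |c.1| ∨ L ≤ |c.2|) → c ∈ (S ∪ R)ᶜ := by
      intro c hc hc'
      have h7 := hM' c hc'
      have h8 := abs_nonneg c.1
      have h9 := abs_nonneg c.2
      omega
    have hUS : ∀ c : Cell, c ∈ (S ∪ R)ᶜ → c ∈ Sᶜ := fun c hc hc' => hc (Or.inl hc')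
    have hUR : ∀ c : Cell, c ∈ (S ∪ R)ᶜ → c ∈ Rᶜ := fun c hc hc' => hc (Or.inr hc')
    have hlow : ∀ c : Cell, c ∈ Sᶜ → c.2 ≤ h → c ∈ (S ∪ R)ᶜ := by
      rintro c hc hch (hc' | hc')
      · exact hc hc'
      · have := h2 c hc'
        omega
    have hhigh : ∀ c : Cell, c ∈ Rᶜ → h + 1 ≤ c.2 → c ∈ (S ∪ R)ᶜ := by
      rintro c hc hch (hc' | hc')
      · have := h1 c hc'
        omega
      · exact hc hc'
    have hrayR : ∀ x : ℤ, x0 < x → Reach (S ∪ R)ᶜ (x, h) (L, L) := by
      intro x hx
      refine K1_right hL0 hU ?_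
      intro t ht
      refine hlow _ ?_ le_rfl
      intro ht'
      have := h5 _ ht' rfl
      change t ≤ x0 at this
      omega
    have hrayL : ∀ x : ℤ, x < x0 → Reach (S ∪ R)ᶜ (x, h + 1) (L, L) := by
      intro x hx
      refine K1_left hL0 hU ?_
      intro t ht
      refine hhigh _ ?_ le_rfl
      intro ht'
      have := h6 _ ht' rfl
      change x0 ≤ t at this
      omega
    have hA : ∀ c : Cell, Reach Sᶜ c (0, -L) → c.2 ≤ h → Reach (S ∪ R)ᶜ c (L, L) := by
      intro c hc
      unfold Reach at hc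
      induction hc using Relation.ReflTransGen.head_induction_on with
      | refl =>
        intro _
        refine K1_far hL0 hU _ (Or.inr ?_)
        show L ≤ |(-L)|
        rw [abs_neg]
        exact le_abs_self L
      | head h' h'' ih =>
        rename_i a c'
        intro ha
        obtain ⟨hn, ha1, hc1⟩ := h'
        have haU : a ∈ (S ∪ R)ᶜ := hlow a ha1 ha
        by_cases hc2 : c'.2 ≤ h
        · exact (Reach.step hn haU (hlow c' hc1 hc2)).trans (ih hc2)
        · obtain ⟨x, y⟩ := a
          obtain ⟨x', y'⟩ := c'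
          simp only [Nb, Prod.mk.injEq] at hn ha hc2
          have hy : y = h := by omega
          have hy' : y' = h + 1 := by omega
          have hx' : x' = x := by omega
          subst hy
          subst hy'
          subst hx'
          rcases lt_trichotomy x' x0 with hlt | heq | hgt
          · have hc3 : ((x', y + 1) : Cell) ∈ (S ∪ R)ᶜ := (hrayL x' hlt).mem'
              (hU _ (Or.inl (le_abs_self L)))
            exact (Reach.step (Or.inr (Or.inr (Or.inl rfl))) haU hc3).trans (hrayL x' hlt)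
          · rw [heq] at ha1
            exact absurd h3 ha1
          · exact hrayR x' hgt
    have hB : ∀ c : Cell, Reach Rᶜ c (0, L) → h + 1 ≤ c.2 → Reach (S ∪ R)ᶜ c (L, L) := by
      intro c hc
      unfold Reach at hc
      induction hc using Relation.ReflTransGen.head_induction_on with
      | refl =>
        intro _
        exact K1_far hL0 hU _ (Or.inr (le_abs_self L))
      | head h' h'' ih =>
        rename_i a c'
        intro ha
        obtain ⟨hn, ha1, hc1⟩ := h'
        have haU : a ∈ (S ∪ R)ᶜ := hhigh a ha1 ha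
        by_cases hc2 : h + 1 ≤ c'.2
        · exact (Reach.step hn haU (hhigh c' hc1 hc2)).trans (ih hc2)
        · obtain ⟨x, y⟩ := a
          obtain ⟨x', y'⟩ := c'
          simp only [Nb, Prod.mk.injEq] at hn ha hc2
          have hy : y = h + 1 := by omega
          have hy' : y' = h := by omega
          have hx' : x' = x := by omega
          subst hy
          subst hy'
          subst hx'
          rcases lt_trichotomy x' x0 with hlt | heq | hgt
          · exact hrayL x' hlt
          · rw [heq] at ha1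
            exact absurd h4 ha1
          · have hc3 : ((x', y') : Cell) ∈ (S ∪ R)ᶜ := (hrayR x' hgt).mem'
              (hU _ (Or.inl (le_abs_self L)))
            refine (Reach.step ?_ haU hc3).trans (hrayR x' hgt)
            right; right; right
            show ((x', y') : Cell) = (x', y' + 1 - 1)
            rw [add_sub_cancel_right]
    have hall : ∀ c ∈ (S ∪ R)ᶜ, Reach (S ∪ R)ᶜ c (L, L) := by
      intro c hc
      rcases le_or_gt c.2 h with h7 | h7
      · refine hA c (hS.cconn c (hUS c hc) _ (hUS _ (hU _ (Or.inr ?_)))) h7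
        show L ≤ |(-L)|
        rw [abs_neg]
        exact le_abs_self L
      · exact hB c (hR.cconn c (hUR c hc) _ (hUR _ (hU _ (Or.inr (le_abs_self L))))) (by omega)
    intro a ha b hb
    exact (hall a ha).trans (hall b hb).symm
  · intro x y
    constructor
    · rintro ⟨ha | ha, hb | hb, hc, hd⟩
      · exact (hS.ncb x y).1 ⟨ha, hb, fun h7 => hc (Or.inl h7), fun h7 => hd (Or.inl h7)⟩
      · have e1 := h1 _ ha
        have e2 := h2 _ hb
        change y ≤ h at e1
        change h + 1 ≤ y + 1 at e2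
        have e3 : y = h := by omega
        subst e3
        have e4 := h5 _ ha rfl
        have e5 := h6 _ hb rfl
        change x ≤ x0 at e4
        change x0 ≤ x + 1 at e5
        rcases (by omega : x0 = x ∨ x0 = x + 1) with e6 | e6
        · subst e6
          exact hd (Or.inr h4)
        · subst e6
          exact hc (Or.inl h3)
      · have e1 := h1 _ hb
        have e2 := h2 _ ha
        change y + 1 ≤ h at e1
        change h + 1 ≤ y at e2
        omega
      · exact (hR.ncb x y).1 ⟨ha, hb, fun h7 => hc (Or.inr h7), fun h7 => hd (Or.inr h7)⟩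
    · rintro ⟨ha | ha, hb | hb, hc, hd⟩
      · exact (hS.ncb x y).2 ⟨ha, hb, fun h7 => hc (Or.inl h7), fun h7 => hd (Or.inl h7)⟩
      · have e1 := h1 _ ha
        have e2 := h2 _ hb
        change y ≤ h at e1
        change h + 1 ≤ y + 1 at e2
        have e3 : y = h := by omega
        subst e3
        have e4 := h5 _ ha rfl
        have e5 := h6 _ hb rfl
        change x + 1 ≤ x0 at e4
        change x0 ≤ x at e5
        omega
      · have e1 := h1 _ hb
        have e2 := h2 _ ha
        change y + 1 ≤ h at e1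
        change h + 1 ≤ y at e2
        omega
      · exact (hR.ncb x y).2 ⟨ha, hb, fun h7 => hc (Or.inr h7), fun h7 => hd (Or.inr h7)⟩

end Pool.Agent.Lib.MP_dcf1eb_pr
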