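import Pool.Agent.Lib.MP_dcf1eb_pr.A2
import Pool.Agent.Lib.MP_dcf1eb_pr.K1

/-!
# Fixed area polygons: supermultiplicativity (K2)
-/

set_option autoImplicit false

namespace Pool.Agent.Lib.MP_dcf1eb_pr

private def K2_N (a : ℤ × ℤ) : Finset (ℤ × ℤ) :=
  {(a.1 + 1, a.2), (a.1 - 1, a.2), (a.1, a.2 + 1), (a.1, a.2 - 1)}

private theorem K2_mem (a b : ℤ × ℤ) : b ∈ K2_N a ↔ Nb a b := by
  simp only [K2_N, Nb, Finset.mem_insert, Finset.mem_singleton]

private theorem K2_perim (S : Finset (ℤ × ℤ)) :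
    perim S = ∑ a ∈ S, (Finset.filter (fun b => b ∉ S) (K2_N a)).card := rfl

private theorem K2_half {S R : Finset (ℤ × ℤ)} (hd : Disjoint S R) {p q : Cell} (hp : p ∈ S)
    (hq : q ∈ R) (hpq : Nb p q) (hu : ∀ a ∈ S, ∀ b ∈ R, Nb a b → a = p ∧ b = q) :
    ∑ a ∈ S, (Finset.filter (fun b => b ∉ S) (K2_N a)).card =
      ∑ a ∈ S, (Finset.filter (fun b => b ∉ S ∪ R) (K2_N a)).card + 1 := by
  classical
  have h1 : ∀ a ∈ S, (Finset.filter (fun b => b ∉ S) (K2_N a)).card =
      (Finset.filter (fun b => b ∉ S ∪ R) (K2_N a)).card + (if a = p then 1 else 0) := by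
    intro a ha
    have hsplit : Finset.filter (fun b => b ∉ S) (K2_N a) =
        Finset.filter (fun b => b ∉ S ∪ R) (K2_N a) ∪
          Finset.filter (fun b => b ∈ R) (K2_N a) := by
      ext b
      simp only [Finset.mem_filter, Finset.mem_union]
      have hdb : b ∈ R → b ∉ S := fun hb hbS => Finset.disjoint_left.1 hd hbS hb
      tauto
    have hdis : Disjoint (Finset.filter (fun b => b ∉ S ∪ R) (K2_N a))
        (Finset.filter (fun b => b ∈ R) (K2_N a)) := by
      rw [Finset.disjoint_left]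
      intro b hb hb'
      simp only [Finset.mem_filter, Finset.mem_union] at hb hb'
      tauto
    rw [hsplit, Finset.card_union_of_disjoint hdis]
    congr 1
    by_cases hap : a = p
    · rw [if_pos hap]
      rw [Finset.card_eq_one]
      refine ⟨q, ?_⟩
      ext b
      simp only [Finset.mem_filter, Finset.mem_singleton, K2_mem]
      constructor
      · rintro ⟨hab, hbR⟩
        exact (hu a ha b hbR hab).2
      · rintro rfl
        subst hap
        exact ⟨hpq, hq⟩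
    · rw [if_neg hap]
      rw [Finset.card_eq_zero, Finset.filter_eq_empty_iff]
      intro b hb hbR
      exact hap (hu a ha b hbR ((K2_mem a b).1 hb)).1
  rw [Finset.sum_congr rfl h1, Finset.sum_add_distrib, Finset.sum_ite_eq' S p, if_pos hp]

/-- PROOF. `perim S = ∑ a ∈ S, (4 - #{neighbours of a in S})`. For disjoint `S, R` such that the only
pair of neighbours `a ∈ S`, `b ∈ R` is `a = p`, `b = q`: `perim (S ∪ R) = perim S + perim R - 2`: for
`a ∈ S`, `a ≠ p` the filter is unchanged, for `a = p` exactly the neighbour `q` is lost. -/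
theorem perim_union {S R : Finset (ℤ × ℤ)} (hd : Disjoint S R) {p q : Cell} (hp : p ∈ S)
    (hq : q ∈ R) (hpq : Nb p q) (hu : ∀ a ∈ S, ∀ b ∈ R, Nb a b → a = p ∧ b = q) :
    perim (S ∪ R) + 2 = perim S + perim R := by
  rw [K2_perim, K2_perim, K2_perim, Finset.sum_union hd, K2_half hd hp hq hpq hu,
    K2_half hd.symm hq hp hpq.symm (fun a ha b hb hab => (hu b hb a ha hab.symm).symm)]
  rw [Finset.union_comm R S]
  omega

/-! ### Translations -/

private def K2_e (u v : ℤ) : (ℤ × ℤ) ↪ (ℤ × ℤ) :=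
  ⟨fun c => (c.1 + u, c.2 + v), by
    rintro ⟨x, y⟩ ⟨x', y'⟩ h
    simp only [Prod.mk.injEq] at h
    rw [Prod.mk.injEq]
    omega⟩

private def K2_tr (u v : ℤ) (S : Finset (ℤ × ℤ)) : Finset (ℤ × ℤ) := S.map (K2_e u v)

private theorem K2_mem_tr (u v : ℤ) (S : Finset (ℤ × ℤ)) (c : ℤ × ℤ) :
    c ∈ K2_tr u v S ↔ (c.1 - u, c.2 - v) ∈ S := by
  simp only [K2_tr, Finset.mem_map, K2_e, Function.Embedding.coeFn_mk]
  constructor
  · rintro ⟨b, hb, rfl⟩
    have : ((b.1 + u, b.2 + v).1 - u, (b.1 + u, b.2 + v).2 - v) = b := by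
      ext <;> simp
    rw [this]
    exact hb
  · intro h
    refine ⟨_, h, ?_⟩
    ext <;> simp

private theorem K2_card_tr (u v : ℤ) (S : Finset (ℤ × ℤ)) : (K2_tr u v S).card = S.card :=
  Finset.card_map _

private theorem K2_nbtr {u v : ℤ} {a b : Cell} (h : Nb a b) :
    Nb (a.1 + u, a.2 + v) (b.1 + u, b.2 + v) := by
  rcases a with ⟨x, y⟩
  rcases b with ⟨x', y'⟩
  simp only [Nb, Prod.mk.injEq] at h ⊢
  omega

private theorem K2_reach {S T : Set Cell} {u v : ℤ}
    (hT : ∀ c : Cell, c ∈ S → ((c.1 + u, c.2 + v) : Cell) ∈ T) {a b : Cell} (h : Reach S a b) :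
    Reach T (a.1 + u, a.2 + v) (b.1 + u, b.2 + v) := by
  induction h with
  | refl => exact Reach.refl _ _
  | tail _ h ih => exact ih.tail (K2_nbtr h.1) (hT _ h.2.1) (hT _ h.2.2)

private theorem K2_conn {S T : Set Cell} {u v : ℤ}
    (hT : ∀ c : Cell, c ∈ T ↔ ((c.1 - u, c.2 - v) : Cell) ∈ S) (h : Conn S) : Conn T := by
  intro a ha b hb
  have h1 := h _ ((hT a).1 ha) _ ((hT b).1 hb)
  have h2 := K2_reach (T := T) (u := u) (v := v) (fun c hc => by
    rw [hT]
    have : (((c.1 + u, c.2 + v) : Cell).1 - u, ((c.1 + u, c.2 + v) : Cell).2 - v) = c := by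
      ext <;> simp
    rw [this]
    exact hc) h1
  have ea : (((a.1 - u, a.2 - v) : Cell).1 + u, ((a.1 - u, a.2 - v) : Cell).2 + v) = a := by
    ext <;> simp
  have eb : (((b.1 - u, b.2 - v) : Cell).1 + u, ((b.1 - u, b.2 - v) : Cell).2 + v) = b := by
    ext <;> simp
  rw [ea, eb] at h2
  exact h2

private theorem K2_poly_tr {u v : ℤ} {S : Finset (ℤ × ℤ)} (h : IsPoly (↑S : Set Cell)) :
    IsPoly (↑(K2_tr u v S) : Set Cell) := by
  have hm : ∀ c : Cell, c ∈ (↑(K2_tr u v S) : Set Cell) ↔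
      ((c.1 - u, c.2 - v) : Cell) ∈ (↑S : Set Cell) := by
    intro c
    rw [Finset.mem_coe, Finset.mem_coe]
    exact K2_mem_tr u v S c
  refine ⟨Finset.finite_toSet _, ?_, K2_conn hm h.conn, ?_, ?_⟩
  · obtain ⟨c, hc⟩ := h.ne
    refine ⟨(c.1 + u, c.2 + v), ?_⟩
    rw [hm]
    have : (((c.1 + u, c.2 + v) : Cell).1 - u, ((c.1 + u, c.2 + v) : Cell).2 - v) = c := by
      ext <;> simp
    rw [this]
    exact hc
  · refine K2_conn (u := u) (v := v) ?_ h.cconn
    intro c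
    rw [Set.mem_compl_iff, Set.mem_compl_iff, hm]
  · intro x y
    have h0 := h.ncb (x - u) (y - v)
    have e1 : x + 1 - u = x - u + 1 := by ring
    have e2 : y + 1 - v = y - v + 1 := by ring
    simp only [hm, e1, e2]
    exact h0

private theorem K2_perim_tr (u v : ℤ) (S : Finset (ℤ × ℤ)) :
    perim (K2_tr u v S) = perim S := by
  classical
  rw [K2_perim, K2_perim, K2_tr, Finset.sum_map]
  refine Finset.sum_congr rfl ?_
  intro a _
  have hN : K2_N (K2_e u v a) = (K2_N a).map (K2_e u v) := by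
    ext ⟨x, y⟩
    simp only [K2_N, K2_e, Function.Embedding.coeFn_mk, Finset.map_insert, Finset.map_singleton,
      Finset.mem_insert, Finset.mem_singleton, Prod.mk.injEq]
    omega
  rw [hN, Finset.filter_map, Finset.card_map]
  congr 1
  ext b
  simp only [Finset.mem_filter, Function.comp_apply, Finset.mem_map']

/-! ### The gluing map -/

private theorem K2_ex (a b : ℕ) (S R : Finset (ℤ × ℤ)) (hS : S ∈ polys a) (hR : R ∈ polys b) :
    ∃ V : Finset (ℤ × ℤ), V ∈ polys (a + b) ∧ perim V + 2 = perim S + perim R ∧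
      ∃ h d e : ℤ, (∀ c : ℤ × ℤ, c ∈ S ↔ (c.1 + d, c.2) ∈ V ∧ c.2 ≤ h) ∧
        (∀ c : ℤ × ℤ, c ∈ R ↔ (c.1 + e, c.2 + (h + 1)) ∈ V ∧ 0 ≤ c.2) ∧
        (∃ c ∈ V, c.2 = h + 1) := by
  classical
  obtain ⟨pS, cS, nS1, ⟨s1, hs1, hs10⟩, ⟨s2, hs2, hs20⟩⟩ := mem_polys.1 hS
  obtain ⟨pR, cR, nR1, ⟨r1, hr1, hr10⟩, ⟨r2, hr2, hr20⟩⟩ := mem_polys.1 hR
  obtain ⟨t, htS, htmax⟩ := Finset.exists_max_image S (fun c : ℤ × ℤ => c.2) ⟨s1, hs1⟩
  obtain ⟨p, hpF, hpmax⟩ := Finset.exists_max_image (S.filter (fun c : ℤ × ℤ => c.2 = t.2))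
    (fun c : ℤ × ℤ => c.1) ⟨t, Finset.mem_filter.2 ⟨htS, rfl⟩⟩
  obtain ⟨q, hqF, hqmin⟩ := Finset.exists_min_image (R.filter (fun c : ℤ × ℤ => c.2 = 0))
    (fun c : ℤ × ℤ => c.1) ⟨r2, Finset.mem_filter.2 ⟨hr2, hr20⟩⟩
  obtain ⟨hpS, hp2⟩ := Finset.mem_filter.1 hpF
  obtain ⟨hqR, hq2⟩ := Finset.mem_filter.1 hqF
  obtain ⟨x0, y0⟩ := p
  obtain ⟨x1, y1⟩ := q
  simp only at hp2 hq2
  subst hp2
  subst hq2
  generalize hh : t.2 = h at *
  have hS1 : ∀ c ∈ S, c.2 ≤ h := fun c hc => htmax c hc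
  have hS2 : ∀ c ∈ S, c.2 = h → c.1 ≤ x0 := fun c hc hc2 =>
    hpmax c (Finset.mem_filter.2 ⟨hc, hc2⟩)
  have hR2 : ∀ c ∈ R, c.2 = 0 → x1 ≤ c.1 := fun c hc hc2 =>
    hqmin c (Finset.mem_filter.2 ⟨hc, hc2⟩)
  have hh0 : 0 ≤ h := (nS1 _ hpS).2
  set R' : Finset (ℤ × ℤ) := K2_tr (x0 - x1) (h + 1) R with hR'
  have hmR' : ∀ c : ℤ × ℤ, c ∈ R' ↔ (c.1 - (x0 - x1), c.2 - (h + 1)) ∈ R := by
    intro c
    rw [hR', K2_mem_tr]
  have hR1' : ∀ c ∈ R', h + 1 ≤ c.2 := by
    intro c hc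
    have := (nR1 _ ((hmR' c).1 hc)).2
    simp only at this
    omega
  have hdis : Disjoint S R' := by
    rw [Finset.disjoint_left]
    intro c hc hc'
    have h1 := hS1 c hc
    have h2 := hR1' c hc'
    omega
  have hqR' : ((x0, h + 1) : ℤ × ℤ) ∈ R' := by
    rw [hmR']
    have e : (((x0, h + 1) : ℤ × ℤ).1 - (x0 - x1), ((x0, h + 1) : ℤ × ℤ).2 - (h + 1)) =
        (x1, 0) := by
      ext <;> simp
    rw [e]
    exact hqR
  have hR6 : ∀ c ∈ R', c.2 = h + 1 → x0 ≤ c.1 := by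
    intro c hc hc2
    have := hR2 _ ((hmR' c).1 hc) (by simp only; omega)
    simp only at this
    omega
  have hpoly : IsPoly (↑(S ∪ R') : Set Cell) := by
    rw [Finset.coe_union]
    exact poly_stack (x0 := x0) (h := h) pS (K2_poly_tr pR) (fun c hc => hS1 c hc)
      (fun c hc => hR1' c hc) hpS hqR' (fun c hc => hS2 c hc) (fun c hc => hR6 c hc)
  have hperim : perim (S ∪ R') + 2 = perim S + perim R' := by
    refine perim_union hdis hpS hqR' ?_ ?_
    · right; right; left; rfl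
    · rintro ⟨x, y⟩ ha ⟨x', y'⟩ hb hab
      have g1 := hS1 _ ha
      have g2 := hR1' _ hb
      have g3 := hS2 _ ha
      have g4 := hR6 _ hb
      simp only [Nb, Prod.mk.injEq] at hab g1 g2 g3 g4 ⊢
      omega
  have hcard : (S ∪ R').card = a + b := by
    rw [Finset.card_union_of_disjoint hdis, hR', K2_card_tr, cS, cR]
  set d : ℤ := max 0 (x1 - x0) with hd
  have hd0 : 0 ≤ d := le_max_left _ _
  have hd1 : x1 - x0 ≤ d := le_max_right _ _
  have hmV : ∀ c : ℤ × ℤ, c ∈ K2_tr d 0 (S ∪ R') ↔ (c.1 - d, c.2) ∈ S ∪ R' := by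
    intro c
    rw [K2_mem_tr, sub_zero]
  refine ⟨K2_tr d 0 (S ∪ R'), ?_, ?_, h, d, x0 - x1 + d, ?_, ?_, ?_⟩
  · rw [mem_polys]
    refine ⟨K2_poly_tr hpoly, by rw [K2_card_tr, hcard], ?_, ?_, ?_⟩
    · intro c hc
      rw [hmV, Finset.mem_union, hmR'] at hc
      rcases hc with hc | hc
      · have := nS1 _ hc
        simp only at this
        omega
      · have := nR1 _ hc
        simp only at this
        omega
    · rcases le_total (x1 - x0) 0 with hle | hle
      · have hd' : d = 0 := max_eq_left hle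
        refine ⟨s1, ?_, hs10⟩
        rw [hmV, hd', sub_zero]
        exact Finset.mem_union_left _ hs1
      · have hd' : d = x1 - x0 := max_eq_right hle
        refine ⟨(0, r1.2 + (h + 1)), ?_, rfl⟩
        rw [hmV, Finset.mem_union, hmR']
        right
        have e : ((((0, r1.2 + (h + 1)) : ℤ × ℤ).1 - d, ((0, r1.2 + (h + 1)) : ℤ × ℤ).2) :
            ℤ × ℤ).1 - (x0 - x1) = r1.1 := by
          simp only
          omega
        rw [e]
        have e2 : ((((0, r1.2 + (h + 1)) : ℤ × ℤ).1 - d, ((0, r1.2 + (h + 1)) : ℤ × ℤ).2) :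
            ℤ × ℤ).2 - (h + 1) = r1.2 := by
          simp only
          omega
        rw [e2]
        exact hr1
    · refine ⟨(s2.1 + d, s2.2), ?_, hs20⟩
      rw [hmV]
      have e : (((s2.1 + d, s2.2) : ℤ × ℤ).1 - d, ((s2.1 + d, s2.2) : ℤ × ℤ).2) = s2 := by
        ext <;> simp
      rw [e]
      exact Finset.mem_union_left _ hs2
  · rw [K2_perim_tr, hperim, hR', K2_perim_tr]
  · rintro ⟨x, y⟩
    rw [hmV, Finset.mem_union]
    simp only [add_sub_cancel_right]
    constructor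
    · intro hc
      exact ⟨Or.inl hc, hS1 _ hc⟩
    · rintro ⟨hc | hc, hy⟩
      · exact hc
      · have := hR1' _ hc
        simp only at this
        omega
  · rintro ⟨x, y⟩
    rw [hmV, Finset.mem_union, hmR']
    have e1 : ((((x, y) : ℤ × ℤ).1 + (x0 - x1 + d), ((x, y) : ℤ × ℤ).2 + (h + 1)) : ℤ × ℤ).1 - d
        - (x0 - x1) = x := by
      simp only
      ring
    have e2 : ((((x, y) : ℤ × ℤ).1 + (x0 - x1 + d), ((x, y) : ℤ × ℤ).2 + (h + 1)) : ℤ × ℤ).2
        - (h + 1) = y := by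
      simp only
      ring
    constructor
    · intro hc
      refine ⟨Or.inr ?_, (nR1 _ hc).2⟩
      simp only at e1 e2 ⊢
      rw [e1, e2]
      exact hc
    · rintro ⟨hc | hc, hy⟩
      · have := hS1 _ hc
        simp only at this hy
        omega
      · simp only at e1 e2 hc
        rw [e1, e2] at hc
        exact hc
  · refine ⟨(x0 + d, h + 1), ?_, rfl⟩
    rw [hmV]
    have e : (((x0 + d, h + 1) : ℤ × ℤ).1 - d, ((x0 + d, h + 1) : ℤ × ℤ).2) = (x0, h + 1) := by
      ext <;> simp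
    rw [e]
    exact Finset.mem_union_right _ hqR'

private theorem K2_card_le {S V : Finset (ℤ × ℤ)} {h d : ℤ}
    (hS : ∀ c : ℤ × ℤ, c ∈ S ↔ (c.1 + d, c.2) ∈ V ∧ c.2 ≤ h) :
    S.card = (V.filter (fun c : ℤ × ℤ => c.2 ≤ h)).card := by
  classical
  rw [← K2_card_tr d 0 S]
  congr 1
  ext c
  rw [K2_mem_tr, hS, Finset.mem_filter]
  simp only [sub_zero, sub_add_cancel]

private theorem K2_hle {a : ℕ} {S S2 V : Finset (ℤ × ℤ)} {h d h2 d2 : ℤ} (cS : S.card = a)
    (cS2 : S2.card = a)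
    (hS : ∀ c : ℤ × ℤ, c ∈ S ↔ (c.1 + d, c.2) ∈ V ∧ c.2 ≤ h)
    (hS2 : ∀ c : ℤ × ℤ, c ∈ S2 ↔ (c.1 + d2, c.2) ∈ V ∧ c.2 ≤ h2)
    (ht : ∃ c ∈ V, c.2 = h + 1) : h2 ≤ h := by
  classical
  by_contra hlt
  rw [not_le] at hlt
  have h1 := K2_card_le hS
  have h2' := K2_card_le hS2
  have hss : V.filter (fun c : ℤ × ℤ => c.2 ≤ h) ⊂ V.filter (fun c : ℤ × ℤ => c.2 ≤ h2) := by
    rw [Finset.ssubset_iff_of_subset]
    · obtain ⟨c, hc, hc2⟩ := ht
      refine ⟨c, Finset.mem_filter.2 ⟨hc, by omega⟩, ?_⟩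
      intro hc'
      have := (Finset.mem_filter.1 hc').2
      omega
    · intro c hc
      obtain ⟨hc1, hc2⟩ := Finset.mem_filter.1 hc
      exact Finset.mem_filter.2 ⟨hc1, by omega⟩
  have := Finset.card_lt_card hss
  omega

/-- Gluing. PROOF. Let `h` be the largest second coordinate of a cell of `S`, `x0` the largest `x` with
`(x, h) ∈ S`; `x1` the smallest `x` with `(x, 0) ∈ R` (exists by `Norm R`). `R'` = `R` translated by
`(x0 - x1, h + 1)`. `S ∪ R'` is a polygon by `poly_stack`, with `perim_union`. Let `d = max 0 (x1 - x0)`;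
`G S R` = translate of `S ∪ R'` by `(d, 0)`: all first coordinates are `≥ 0` [cells of `R'` have first
coordinate `≥ x0 - x1 ≥ - d`], one is `0` [if `d = 0`: a cell of `S`; if `d = x1 - x0 > 0`: the cell of `R`
with first coordinate `0`]; second coordinates `≥ 0` and a cell of `S` with second coordinate `0`.
Translation invariance of `IsPoly`, `perim`, `card`: prove here (private).
Injectivity: let `V = G S R = G S2 R2`, heights `h, h2`. `S` translated by `(d, 0)` is
`V ∩ {y ≤ h}`. If `h < h2`: `V ∩ {y ≤ h}` is a proper subset of `V ∩ {y ≤ h2}` (`V` has a cell in the row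
`h + 1`), but both have `a` elements, contradiction. So `h = h2`, and `S`, `S2` are translates of
the same set in the first coordinate, both normalised, so equal (and `d = d2`); `R` and `R2` are
translates of `V ∩ {y > h}` and both normalised, so equal. -/
theorem glue (a b : ℕ) : ∃ G : Finset (ℤ × ℤ) → Finset (ℤ × ℤ) → Finset (ℤ × ℤ),
    (∀ S ∈ polys a, ∀ R ∈ polys b, G S R ∈ polys (a + b) ∧
      perim (G S R) + 2 = perim S + perim R) ∧
    (∀ S ∈ polys a, ∀ R ∈ polys b, ∀ S2 ∈ polys a, ∀ R2 ∈ polys b,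
      G S R = G S2 R2 → S = S2 ∧ R = R2) := by
  classical
  refine ⟨fun S R => if hSR : S ∈ polys a ∧ R ∈ polys b then
    Classical.choose (K2_ex a b S R hSR.1 hSR.2) else ∅, ?_, ?_⟩
  · intro S hS R hR
    simp only [dif_pos (And.intro hS hR)]
    have hsp := Classical.choose_spec (K2_ex a b S R hS hR)
    exact ⟨hsp.1, hsp.2.1⟩
  · intro S hS R hR S2 hS2 R2 hR2 heq
    simp only [dif_pos (And.intro hS hR), dif_pos (And.intro hS2 hR2)] at heq
    obtain ⟨-, -, h, d, e, hSc, hRc, ht⟩ := Classical.choose_spec (K2_ex a b S R hS hR)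
    obtain ⟨-, -, h', d', e', hSc', hRc', ht'⟩ :=
      Classical.choose_spec (K2_ex a b S2 R2 hS2 hR2)
    rw [← heq] at hSc' hRc' ht'
    generalize Classical.choose (K2_ex a b S R hS hR) = V at *
    obtain ⟨-, cS, nS1, ⟨s1, hs1, hs10⟩, -⟩ := mem_polys.1 hS
    obtain ⟨-, cS2, nS1', ⟨s1', hs1', hs10'⟩, -⟩ := mem_polys.1 hS2
    obtain ⟨-, -, nR1, ⟨r1, hr1, hr10⟩, -⟩ := mem_polys.1 hR
    obtain ⟨-, -, nR1', ⟨r1', hr1', hr10'⟩, -⟩ := mem_polys.1 hR2
    have hh : h = h' := le_antisymm (K2_hle cS2 cS hSc' hSc ht') (K2_hle cS cS2 hSc hSc' ht)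
    subst hh
    have hdd : d = d' := by
      obtain ⟨x, y⟩ := s1
      obtain ⟨x', y'⟩ := s1'
      simp only at hs10 hs10'
      subst hs10
      subst hs10'
      have k1 := (hSc _).1 hs1
      have k2 := (hSc' _).1 hs1'
      simp only [zero_add] at k1 k2
      have l1 : ((d - d', y) : ℤ × ℤ) ∈ S2 := by
        rw [hSc']
        simp only [sub_add_cancel]
        exact k1
      have l2 : ((d' - d, y') : ℤ × ℤ) ∈ S := by
        rw [hSc]
        simp only [sub_add_cancel]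
        exact k2
      have m1 := (nS1' _ l1).1
      have m2 := (nS1 _ l2).1
      simp only at m1 m2
      omega
    subst hdd
    have hee : e = e' := by
      obtain ⟨x, y⟩ := r1
      obtain ⟨x', y'⟩ := r1'
      simp only at hr10 hr10'
      subst hr10
      subst hr10'
      have k1 := (hRc _).1 hr1
      have k2 := (hRc' _).1 hr1'
      simp only [zero_add] at k1 k2
      have l1 : ((e - e', y) : ℤ × ℤ) ∈ R2 := by
        rw [hRc']
        simp only [sub_add_cancel]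
        exact k1
      have l2 : ((e' - e, y') : ℤ × ℤ) ∈ R := by
        rw [hRc]
        simp only [sub_add_cancel]
        exact k2
      have m1 := (nR1' _ l1).1
      have m2 := (nR1 _ l2).1
      simp only at m1 m2
      omega
    subst hee
    constructor
    · ext c
      rw [hSc, hSc']
    · ext c
      rw [hRc, hRc']

theorem card_supermul (a b : ℕ) :
    (polys a).card * (polys b).card ≤ (polys (a + b)).card := by
  obtain ⟨G, h1, h2⟩ := glue a b
  rw [← Finset.card_product]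
  refine Finset.card_le_card_of_injOn (fun p => G p.1 p.2) ?_ ?_
  · rintro ⟨S, R⟩ hSR
    rw [Finset.mem_coe, Finset.mem_product] at hSR
    exact Finset.mem_coe.2 (h1 S hSR.1 R hSR.2).1
  · rintro ⟨S, R⟩ hSR ⟨S2, R2⟩ hSR2 heq
    rw [Finset.mem_coe, Finset.mem_product] at hSR hSR2
    obtain ⟨e1, e2⟩ := h2 S hSR.1 R hSR.2 S2 hSR2.1 R2 hSR2.2 heq
    rw [Prod.mk.injEq]
    exact ⟨e1, e2⟩

end Pool.Agent.Lib.MP_dcf1eb_pr
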