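import Mathlib

/-!
# Fixed area polygons: counting connected sets by walks (K3)
-/

set_option autoImplicit false

namespace Pool.Agent.Lib.MP_dcf1eb_pr

/-- `S` is connected for the relation: `y = st d x` for some generator `d`. -/
def StConn {α : Type*} {D : ℕ} (st : Fin D → α → α) (S : Finset α) : Prop :=
  ∀ a ∈ S, ∀ b ∈ S, Relation.ReflTransGen (fun x y => (∃ d, y = st d x) ∧ x ∈ S ∧ y ∈ S) a b

/-- The vertices visited by a word of generators started at `v`. -/
def visit {α : Type*} {D : ℕ} (st : Fin D → α → α) : α → List (Fin D) → List α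
  | v, [] => [v]
  | v, d :: w => v :: visit st (st d v) w

private theorem K3_mem {α : Type*} {D : ℕ} (st : Fin D → α → α) (v : α) (w : List (Fin D)) :
    v ∈ visit st v w := by
  cases w with
  | nil => simp [visit]
  | cons c w => simp [visit]

private theorem K3_insert {α : Type*} {D : ℕ} (st : Fin D → α → α) {x y : α} {d d' : Fin D}
    (hy : y = st d x) (hx : x = st d' y) : ∀ (w : List (Fin D)) (v : α), x ∈ visit st v w →
    ∃ w' : List (Fin D), w'.length = w.length + 2 ∧
      ∀ z, z ∈ visit st v w' ↔ z = y ∨ z ∈ visit st v w := by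
  have base : ∀ w : List (Fin D), ∃ w' : List (Fin D), w'.length = w.length + 2 ∧
      ∀ z, z ∈ visit st x w' ↔ z = y ∨ z ∈ visit st x w := by
    intro w
    refine ⟨d :: d' :: w, by simp, fun z => ?_⟩
    have h1 : visit st x (d :: d' :: w) = x :: y :: visit st x w := by
      simp only [visit]
      rw [← hy, ← hx]
    rw [h1, List.mem_cons, List.mem_cons]
    constructor
    · rintro (h | h | h)
      · exact Or.inr (h ▸ K3_mem st x w)
      · exact Or.inl h
      · exact Or.inr h
    · rintro (h | h)
      · exact Or.inr (Or.inl h)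
      · exact Or.inr (Or.inr h)
  intro w
  induction w with
  | nil =>
    intro v hv
    have : x = v := by simpa [visit] using hv
    subst this
    exact base []
  | cons c w ih =>
    intro v hv
    simp only [visit, List.mem_cons] at hv
    rcases hv with hv | hv
    · subst hv
      exact base (c :: w)
    · obtain ⟨w', h1, h2⟩ := ih (st c v) hv
      refine ⟨c :: w', by simp [h1], fun z => ?_⟩
      simp only [visit, List.mem_cons, h2]
      tauto

/-- PROOF. Show by induction on `j` for `1 ≤ j ≤ S.card`: there are `T ⊆ S` with `v ∈ T`, `T.card = j`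
and a word `w` with `w.length = 2 * (j - 1)` and `(visit st v w).toFinset = T`. Start: `T = {v}`, `w = []`.
Step `j < S.card`: there is `y0 ∈ S \ T`; along the path from `v ∈ T` to `y0 ∉ T` given by `StConn` there
are `x ∈ T`, `y ∈ S \ T`, `y = st d x` (`Relation.ReflTransGen` induction: otherwise everything reachable
stays in `T`). By `hs` there is `d'` with `x = st d' y`. Since `x ∈ visit st v w` we can write
`w = w1 ++ w2` where the walk `w1` ends at `x` (define the end point
`endp st v w = (visit st v w).getLast`, or by `List.foldl`), and the word `w1 ++ d :: d' :: w2` visits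
exactly `T ∪ {y}`. -/
theorem exists_word {α : Type*} [DecidableEq α] {D : ℕ} (st : Fin D → α → α)
    (hs : ∀ d x, ∃ d', x = st d' (st d x)) {S : Finset α} (hS : StConn st S) {v : α}
    (hv : v ∈ S) :
    ∃ w : List (Fin D), w.length = 2 * (S.card - 1) ∧ (visit st v w).toFinset = S := by
  have key : ∀ j : ℕ, j + 1 ≤ S.card → ∃ w : List (Fin D), w.length = 2 * j ∧
      (visit st v w).toFinset ⊆ S ∧ (visit st v w).toFinset.card = j + 1 := by
    intro j
    induction j with
    | zero =>
      intro _
      refine ⟨[], rfl, ?_, ?_⟩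
      · simpa [visit] using hv
      · simp [visit]
    | succ j ih =>
      intro hj
      obtain ⟨w, h1, h2, h3⟩ := ih (by omega)
      set T := (visit st v w).toFinset with hT
      have hvT : v ∈ T := List.mem_toFinset.mpr (K3_mem st v w)
      obtain ⟨y0, hy0, hy0T⟩ : ∃ y0 ∈ S, y0 ∉ T := by
        by_contra hcon
        push Not at hcon
        have := Finset.card_le_card (show S ⊆ T from hcon)
        omega
      obtain ⟨x, y, d, hxT, hyS, hyT, hy⟩ : ∃ x y d, x ∈ T ∧ y ∈ S ∧ y ∉ T ∧ y = st d x := by
        by_contra hcon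
        push Not at hcon
        refine hy0T ?_
        have hpath := hS v hv y0 hy0
        clear hy0 hy0T
        induction hpath with
        | refl => exact hvT
        | tail _ hstep ih2 =>
          obtain ⟨⟨d, hd⟩, -, hc⟩ := hstep
          by_contra hcT
          exact hcon _ _ d ih2 hc hcT hd
      obtain ⟨d', hd'⟩ := hs d x
      rw [← hy] at hd'
      obtain ⟨w', h4, h5⟩ := K3_insert st hy hd' w v (List.mem_toFinset.mp hxT)
      have h6 : (visit st v w').toFinset = insert y T := by
        ext z
        rw [List.mem_toFinset, h5, Finset.mem_insert, hT, List.mem_toFinset]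
      refine ⟨w', by omega, ?_, ?_⟩
      · rw [h6]
        exact Finset.insert_subset hyS h2
      · rw [h6, Finset.card_insert_of_notMem hyT, h3]
  have hpos : 0 < S.card := Finset.card_pos.mpr ⟨v, hv⟩
  obtain ⟨w, h1, h2, h3⟩ := key (S.card - 1) (by omega)
  exact ⟨w, h1, Finset.eq_of_subset_of_card_le h2 (by omega)⟩

/-- PROOF. `S ↦` word of `exists_word` is injective from `F` to the words of length `2 * (k - 1)`
(`List.Vector` or `Fin (2 * (k-1)) → Fin D`), of which there are `D ^ (2 * (k - 1)) ≤ D ^ (2 * k)` (if
`D = 0`: then `S = {v}` since nothing can be reached, so `k = 1`, and the bound `0 ^ 2 = 0` would be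
wrong: therefore `0 < D` is assumed). -/
theorem count_conn {α : Type*} [DecidableEq α] {D : ℕ} (hD : 0 < D) (st : Fin D → α → α)
    (hs : ∀ d x, ∃ d', x = st d' (st d x)) (v : α) (k : ℕ) (F : Finset (Finset α))
    (hF : ∀ S ∈ F, v ∈ S ∧ S.card = k ∧ StConn st S) : F.card ≤ D ^ (2 * k) := by
  have h : ∀ S : {S // S ∈ F}, ∃ w : List (Fin D), w.length = 2 * (k - 1) ∧
      (visit st v w).toFinset = (S : Finset α) := by
    intro S
    obtain ⟨h1, h2, h3⟩ := hF S.1 S.2
    obtain ⟨w, h4, h5⟩ := exists_word st hs h3 h1
    exact ⟨w, by rw [h4, h2], h5⟩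
  choose w hw1 hw2 using h
  let f : {S // S ∈ F} → List.Vector (Fin D) (2 * (k - 1)) := fun S => ⟨w S, hw1 S⟩
  have hf : Function.Injective f := by
    intro S S' hSS
    have h1 : w S = w S' := congrArg Subtype.val hSS
    have h2 := hw2 S
    rw [h1, hw2 S'] at h2
    exact Subtype.ext h2.symm
  have h1 := Fintype.card_le_of_injective f hf
  rw [Fintype.card_coe, card_vector, Fintype.card_fin] at h1
  exact h1.trans (Nat.pow_le_pow_right hD (by omega))

end Pool.Agent.Lib.MP_dcf1eb_pr
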