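import Pool.Agent.Lib.MP_dcf1eb_pr.A2
import Pool.Agent.Lib.MP_dcf1eb_pr.K3

/-!
# Fixed area polygons: the number of polygons of area n (K4)
-/

set_option autoImplicit false

namespace Pool.Agent.Lib.MP_dcf1eb_pr

private def K4_st (d : Fin 4) (a : ℤ × ℤ) : ℤ × ℤ :=
  (![(a.1 + 1, a.2), (a.1 - 1, a.2), (a.1, a.2 + 1), (a.1, a.2 - 1)] : Fin 4 → ℤ × ℤ) d

private theorem K4_inv : ∀ (d : Fin 4) (x : ℤ × ℤ), ∃ d', x = K4_st d' (K4_st d x) := by
  intro d x
  rcases x with ⟨x, y⟩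
  fin_cases d
  · exact ⟨1, by simp [K4_st]⟩
  · exact ⟨0, by simp [K4_st]⟩
  · exact ⟨3, by simp [K4_st]⟩
  · exact ⟨2, by simp [K4_st]⟩

private theorem K4_nb {a b : ℤ × ℤ} (h : Nb a b) : ∃ d, b = K4_st d a := by
  rcases h with h | h | h | h
  · exact ⟨0, by simp [K4_st, h]⟩
  · exact ⟨1, by simp [K4_st, h]⟩
  · exact ⟨2, by simp [K4_st, h]⟩
  · exact ⟨3, by simp [K4_st, h]⟩

private theorem K4_conn {S : Finset (ℤ × ℤ)} (hS : Conn (↑S : Set Cell)) : StConn K4_st S := by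
  intro a ha b hb
  have h := hS a (Finset.mem_coe.2 ha) b (Finset.mem_coe.2 hb)
  induction h with
  | refl => exact Relation.ReflTransGen.refl
  | tail h1 h2 ih =>
    exact Relation.ReflTransGen.tail (ih (Finset.mem_coe.1 h2.2.1))
      ⟨K4_nb h2.1, Finset.mem_coe.1 h2.2.1, Finset.mem_coe.1 h2.2.2⟩

/-- PROOF. Every `S ∈ polys n` contains a cell `(0, y)` with `0 ≤ y < n` (`Norm`, and the projection to the
second coordinate is an interval containing `0`; or use `S ⊆ Icc 0 n ×ˢ Icc 0 n` from the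
definition of `polys`: `0 ≤ y ≤ n`). For fixed `y` the sets `S` containing `(0, y)` are at most
`4 ^ (2 * n)` by `count_conn` with the four generators `(±1, 0), (0, ±1)` (`Conn` gives `StConn`). So
`(polys n).card ≤ (n + 1) * 16 ^ n ≤ 32 ^ n`. -/
theorem polys_card_le (n : ℕ) : (polys n).card ≤ 32 ^ n := by
  classical
  have hsub : polys n ⊆ (Finset.Icc (0 : ℤ) n).biUnion
      (fun y => (polys n).filter (fun S => ((0 : ℤ), y) ∈ S)) := by
    intro S hS
    have hS' := hS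
    unfold polys at hS'
    rw [Finset.mem_filter, Finset.mem_powerset] at hS'
    obtain ⟨hbox, _, _, _, ⟨a, ha, ha0⟩, _⟩ := hS'
    have h1 := hbox ha
    rw [Finset.mem_product] at h1
    rw [Finset.mem_biUnion]
    refine ⟨a.2, h1.2, ?_⟩
    rw [Finset.mem_filter]
    refine ⟨hS, ?_⟩
    rw [← ha0]
    exact ha
  have hfib : ∀ y ∈ Finset.Icc (0 : ℤ) n,
      ((polys n).filter (fun S => ((0 : ℤ), y) ∈ S)).card ≤ 4 ^ (2 * n) := by
    intro y _
    apply count_conn (by norm_num) K4_st K4_inv ((0 : ℤ), y) n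
    intro S hS
    rw [Finset.mem_filter, mem_polys] at hS
    exact ⟨hS.2, hS.1.2.1, K4_conn hS.1.1.conn⟩
  have h1 : (polys n).card ≤ (n + 1) * 4 ^ (2 * n) := by
    calc (polys n).card ≤ _ := Finset.card_le_card hsub
      _ ≤ ∑ y ∈ Finset.Icc (0 : ℤ) n, ((polys n).filter (fun S => ((0 : ℤ), y) ∈ S)).card :=
        Finset.card_biUnion_le
      _ ≤ ∑ _y ∈ Finset.Icc (0 : ℤ) n, 4 ^ (2 * n) := Finset.sum_le_sum hfib
      _ = (n + 1) * 4 ^ (2 * n) := by
        rw [Finset.sum_const, smul_eq_mul, Int.card_Icc]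
        have h2 : ((n : ℤ) + 1 - 0).toNat = n + 1 := by omega
        rw [h2]
  have h3 : n + 1 ≤ 2 ^ n := Nat.lt_two_pow_self
  have h4 : (4 : ℕ) ^ (2 * n) = 16 ^ n := by
    rw [pow_mul]
    norm_num
  have h5 : (32 : ℕ) ^ n = 2 ^ n * 16 ^ n := by
    rw [← mul_pow]
    norm_num
  rw [h5]
  rw [h4] at h1
  exact h1.trans (Nat.mul_le_mul_right _ h3)

end Pool.Agent.Lib.MP_dcf1eb_pr
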