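import Pool.Agent.Lib.MP_dcf1eb_pr.B1
import Pool.Agent.Lib.MP_dcf1eb_pr.C0
import Pool.Agent.Lib.MP_dcf1eb_pr.K2
import Pool.Agent.Lib.MP_dcf1eb_pr.K4
import Pool.Agent.Lib.MP_dcf1eb_pr.A3
import Pool.Agent.Lib.MP_dcf1eb_pr.W0

/-!
# Fixed area polygons: the free energy (K7)
-/

set_option autoImplicit false

open Filter

namespace Pool.Agent.Lib.MP_dcf1eb_pr

private theorem K7_compl : Conn ({((0, 0) : Cell)} : Set Cell)ᶜ := by
  have key : ∀ a : Cell, a ∈ ({((0, 0) : Cell)} : Set Cell)ᶜ →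
      Reach ({((0, 0) : Cell)} : Set Cell)ᶜ a (1, 1) := by
    rintro ⟨x, y⟩ ha
    have ha' : ¬ (x = 0 ∧ y = 0) := by
      intro h
      apply ha
      rw [Set.mem_singleton_iff, Prod.mk.injEq]
      exact h
    have hm : ∀ u v : ℤ, ¬ (u = 0 ∧ v = 0) →
        ((u, v) : Cell) ∈ ({((0, 0) : Cell)} : Set Cell)ᶜ := by
      intro u v huv hc
      rw [Set.mem_singleton_iff, Prod.mk.injEq] at hc
      exact huv hc
    by_cases hy : y = 0
    · by_cases hx : 1 ≤ x
      · refine Reach.trans (b := (1, y)) (seg_h' (fun i h1 h2 => hm _ _ ?_))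
          (seg_v' (fun i h1 h2 => hm _ _ ?_))
        · omega
        · omega
      · refine Reach.trans (b := (x, 1)) (seg_v' (fun i h1 h2 => hm _ _ ?_))
          (seg_h' (fun i h1 h2 => hm _ _ ?_))
        · omega
        · omega
    · refine Reach.trans (b := (1, y)) (seg_h' (fun i h1 h2 => hm _ _ ?_))
        (seg_v' (fun i h1 h2 => hm _ _ ?_))
      · omega
      · omega
  intro a ha b hb
  exact (key a ha).trans (key b hb).symm

private theorem K7_one : IsPoly ({((0, 0) : Cell)} : Set Cell) := by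
  refine ⟨Set.finite_singleton _, Set.singleton_nonempty _, ?_, K7_compl, ?_⟩
  · intro a ha b hb
    rw [Set.mem_singleton_iff] at ha hb
    rw [ha, hb]
    exact Reach.refl _ _
  · intro x y
    simp only [Set.mem_singleton_iff, Prod.mk.injEq]
    constructor
    · rintro ⟨h1, h2, -, -⟩
      omega
    · rintro ⟨h1, h2, -, -⟩
      omega

private theorem K7_r10 : RingOK ({((0, 0) : Cell)} : Set Cell)ᶜ 1 0 := by
  simp [RingOK]

private theorem K7_r01 : RingOK ({((0, 0) : Cell)} : Set Cell)ᶜ 0 1 := by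
  simp [RingOK]

private theorem K7_two_a : IsPoly (↑({(0, 0), (1, 0)} : Finset (ℤ × ℤ)) : Set Cell) := by
  have h := poly_insert (x := 1) (y := 0) K7_one (by simp) K7_r10
  have e : (↑({(0, 0), (1, 0)} : Finset (ℤ × ℤ)) : Set Cell)
      = ({((0, 0) : Cell)} : Set Cell) ∪ {((1, 0) : Cell)} := by
    ext c
    simp [or_comm]
  rw [e]
  exact h

private theorem K7_two_b : IsPoly (↑({(0, 0), (0, 1)} : Finset (ℤ × ℤ)) : Set Cell) := by
  have h := poly_insert (x := 0) (y := 1) K7_one (by simp) K7_r01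
  have e : (↑({(0, 0), (0, 1)} : Finset (ℤ × ℤ)) : Set Cell)
      = ({((0, 0) : Cell)} : Set Cell) ∪ {((0, 1) : Cell)} := by
    ext c
    simp [or_comm]
  rw [e]
  exact h

/-- The dominoes. PROOF. `{(0,0)}` is a polygon (the complement of one cell is connected: go around);
then `poly_insert` for `(1, 0)` and `(0, 1)`; both sets are in `polys 2`. -/
theorem two_le_polys : 1 ≤ (polys 1).card ∧ 2 ≤ (polys 2).card := by
  constructor
  · rw [Nat.succ_le_iff, Finset.card_pos]
    refine ⟨{(0, 0)}, mem_polys.2 ⟨?_, by simp, ?_⟩⟩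
    · rw [Finset.coe_singleton]
      exact K7_one
    · simp [Norm]
  · have ha : ({(0, 0), (1, 0)} : Finset (ℤ × ℤ)) ∈ polys 2 :=
      mem_polys.2 ⟨K7_two_a, by simp, by simp [Norm]⟩
    have hb : ({(0, 0), (0, 1)} : Finset (ℤ × ℤ)) ∈ polys 2 :=
      mem_polys.2 ⟨K7_two_b, by simp, by simp [Norm]⟩
    have hne : ({(0, 0), (1, 0)} : Finset (ℤ × ℤ)) ≠ ({(0, 0), (0, 1)} : Finset (ℤ × ℤ)) := by
      intro h
      have h1 : ((1, 0) : ℤ × ℤ) ∈ ({(0, 0), (0, 1)} : Finset (ℤ × ℤ)) := by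
        rw [← h]; simp
      simp at h1
    have hsub : ({({(0, 0), (1, 0)} : Finset (ℤ × ℤ)), ({(0, 0), (0, 1)} : Finset (ℤ × ℤ))} :
        Finset (Finset (ℤ × ℤ))) ⊆ polys 2 := by
      intro S hS
      rw [Finset.mem_insert, Finset.mem_singleton] at hS
      rcases hS with rfl | rfl
      · exact ha
      · exact hb
    have h2 := Finset.card_le_card hsub
    rwa [Finset.card_pair hne] at h2

/-- PROOF. Induction with `card_supermul` and `two_le_polys`. -/
theorem polys_pos {n : ℕ} (hn : 1 ≤ n) : 1 ≤ (polys n).card := by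
  induction n, hn using Nat.le_induction with
  | base => exact two_le_polys.1
  | succ n hn ih =>
    exact le_trans (Nat.mul_le_mul ih two_le_polys.1) (card_supermul n 1)

/-- PROOF. `glue`: the injective map `(S, R) ↦ G S R` has
`wt t (G S R) = wt t S * wt t R * exp (-t)`. -/
theorem ZZ_supermul (a b : ℕ) (t : ℝ) : ZZ a t * ZZ b t * Real.exp (-t) ≤ ZZ (a + b) t := by
  obtain ⟨G, h1, h2⟩ := glue a b
  have hwt : ∀ p ∈ polys a ×ˢ polys b,
      wt t p.1 * wt t p.2 * Real.exp (-t) = wt t (G p.1 p.2) := by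
    rintro ⟨S, R⟩ hp
    rw [Finset.mem_product] at hp
    have h3 := (h1 S hp.1 R hp.2).2
    have h4 : ((perim (G S R) : ℝ)) + 2 = perim S + perim R := by exact_mod_cast h3
    simp only [wt]
    rw [← Real.exp_add, ← Real.exp_add]
    apply congrArg
    have h5 : (perim (G S R) : ℝ) = perim S + perim R - 2 := by linarith
    rw [h5]
    ring
  calc ZZ a t * ZZ b t * Real.exp (-t)
      = ∑ p ∈ polys a ×ˢ polys b, wt t p.1 * wt t p.2 * Real.exp (-t) := by
        rw [ZZ, ZZ, Finset.sum_mul_sum, ← Finset.sum_product', Finset.sum_mul]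
    _ = ∑ p ∈ polys a ×ˢ polys b, wt t (G p.1 p.2) := Finset.sum_congr rfl hwt
    _ = ∑ T ∈ (polys a ×ˢ polys b).image (fun p => G p.1 p.2), wt t T := by
        rw [Finset.sum_image]
        rintro ⟨S, R⟩ hp ⟨S2, R2⟩ hp2 heq
        rw [Finset.mem_coe, Finset.mem_product] at hp hp2
        obtain ⟨e1, e2⟩ := h2 S hp.1 R hp.2 S2 hp2.1 R2 hp2.2 heq
        rw [Prod.mk.injEq]
        exact ⟨e1, e2⟩
    _ ≤ ZZ (a + b) t := by
        refine Finset.sum_le_sum_of_subset_of_nonneg ?_ (fun S _ _ => (wt_pos t S).le)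
        intro T hT
        rw [Finset.mem_image] at hT
        obtain ⟨⟨S, R⟩, hp, rfl⟩ := hT
        rw [Finset.mem_product] at hp
        exact (h1 S hp.1 R hp.2).1

/-- PROOF. `perim S ≤ 4 n`, `polys_card_le`. -/
theorem ZZ_le (n : ℕ) (t : ℝ) : ZZ n t ≤ 32 ^ n * Real.exp (2 * |t| * n) := by
  have h1 : ∀ S ∈ polys n, wt t S ≤ Real.exp (2 * |t| * n) := by
    intro S hS
    have h2 := (mem_polys.1 hS).2.1
    have h3 := perim_le S
    rw [h2] at h3
    have h4 : (perim S : ℝ) ≤ 4 * n := by exact_mod_cast h3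
    rw [wt]
    apply Real.exp_le_exp.2
    calc t * ((perim S : ℝ) / 2) ≤ |t| * ((perim S : ℝ) / 2) :=
          mul_le_mul_of_nonneg_right (le_abs_self t) (by positivity)
      _ ≤ |t| * ((4 * n) / 2) := by
          apply mul_le_mul_of_nonneg_left _ (abs_nonneg t)
          linarith
      _ = 2 * |t| * n := by ring
  calc ZZ n t ≤ ∑ _S ∈ polys n, Real.exp (2 * |t| * n) := Finset.sum_le_sum h1
    _ = ((polys n).card : ℝ) * Real.exp (2 * |t| * n) := by
        rw [Finset.sum_const, nsmul_eq_mul]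
    _ ≤ 32 ^ n * Real.exp (2 * |t| * n) := by
        apply mul_le_mul_of_nonneg_right _ (Real.exp_pos _).le
        exact_mod_cast polys_card_le n

private theorem K7_ZZ_pos {n : ℕ} (hn : 1 ≤ n) (t : ℝ) : 0 < ZZ n t := by
  have h1 := polys_pos hn
  have h2 : (polys n).Nonempty := Finset.card_pos.1 h1
  exact Finset.sum_pos (fun S _ => wt_pos t S) h2

private theorem K7_ZZ_zero (t : ℝ) : ZZ 0 t = 0 := by
  rw [ZZ]
  apply Finset.sum_eq_zero
  intro S hS
  exfalso
  obtain ⟨h1, h2, -⟩ := mem_polys.1 hS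
  rw [Finset.card_eq_zero] at h2
  subst h2
  obtain ⟨c, hc⟩ := h1.ne
  simp at hc

/-- The free energy exists. PROOF. `u n = - log (exp (-t) * ZZ n t)` for `n ≥ 1`, `u 0 = 0`, is
subadditive (`ZZ_supermul`; `ZZ n t > 0` for `n ≥ 1` by `polys_pos`); `u n / n` is bounded below by
`ZZ_le`. `Subadditive.tendsto_lim`, `F = - lim`; `Subadditive.lim_le_div` gives the upper bound
(`ZZ 0 t = 0` because `polys 0` is empty). -/
theorem growth (t : ℝ) : ∃ F : ℝ,
    (∀ n : ℕ, ZZ n t ≤ Real.exp t * Real.exp (F * n)) ∧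
    (∀ η : ℝ, 0 < η → ∀ᶠ n : ℕ in atTop, Real.exp ((F - η) * n) ≤ ZZ n t) ∧
    Tendsto (fun n : ℕ => Real.log (ZZ n t) / n) atTop (nhds F) := by
  obtain ⟨u, hu0, hu1⟩ : ∃ u : ℕ → ℝ, u 0 = 0 ∧ ∀ n, 1 ≤ n → u n = t - Real.log (ZZ n t) := by
    refine ⟨fun n => if n = 0 then 0 else t - Real.log (ZZ n t), by simp, fun n hn => ?_⟩
    have : n ≠ 0 := by omega
    simp [this]
  have hsub : Subadditive u := by
    intro m n
    rcases Nat.eq_zero_or_pos m with hm | hm
    · subst hm
      rw [hu0, zero_add, zero_add]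
    rcases Nat.eq_zero_or_pos n with hn | hn
    · subst hn
      rw [hu0, add_zero, add_zero]
    rw [hu1 m hm, hu1 n hn, hu1 (m + n) (by omega)]
    have h1 := ZZ_supermul m n t
    have hpm := K7_ZZ_pos hm t
    have hpn := K7_ZZ_pos hn t
    have h2 := Real.log_le_log (by positivity) h1
    rw [Real.log_mul (by positivity) (by positivity), Real.log_mul hpm.ne' hpn.ne',
      Real.log_exp] at h2
    linarith
  have hlow : ∀ n : ℕ, -(3 * |t| + Real.log 32) ≤ u n / n := by
    intro n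
    rcases Nat.eq_zero_or_pos n with hn | hn
    · subst hn
      have h3 : 0 ≤ Real.log 32 := Real.log_nonneg (by norm_num)
      have h4 := abs_nonneg t
      rw [hu0]
      simp only [zero_div]
      linarith
    have hpn := K7_ZZ_pos hn t
    have h1 := Real.log_le_log hpn (ZZ_le n t)
    rw [Real.log_mul (by positivity) (by positivity), Real.log_exp, Real.log_pow] at h1
    have hn' : (1 : ℝ) ≤ n := by exact_mod_cast hn
    rw [le_div_iff₀ (by linarith), hu1 n hn]
    have h5 := neg_abs_le t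
    have h6 : |t| ≤ |t| * n := by nlinarith [abs_nonneg t]
    nlinarith
  have hbdd : BddBelow (Set.range fun n : ℕ => u n / n) := by
    refine ⟨-(3 * |t| + Real.log 32), ?_⟩
    rintro _ ⟨n, rfl⟩
    exact hlow n
  have hlim := hsub.tendsto_lim hbdd
  have hT : Tendsto (fun n : ℕ => Real.log (ZZ n t) / n) atTop (nhds (-hsub.lim)) := by
    have h1 : Tendsto (fun n : ℕ => t / (n : ℝ) - u n / n) atTop (nhds (0 - hsub.lim)) :=
      (tendsto_const_div_atTop_nhds_zero_nat t).sub hlim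
    rw [zero_sub] at h1
    refine h1.congr' ?_
    filter_upwards [eventually_ge_atTop 1] with n hn
    rw [hu1 n hn]
    ring
  refine ⟨-hsub.lim, ?_, ?_, hT⟩
  · intro n
    rcases Nat.eq_zero_or_pos n with hn | hn
    · subst hn
      rw [K7_ZZ_zero]
      positivity
    have h1 := hsub.lim_le_div hbdd (n := n) (by omega)
    have hn' : (0 : ℝ) < n := by exact_mod_cast hn
    rw [le_div_iff₀ hn', hu1 n hn] at h1
    have hpn := K7_ZZ_pos hn t
    rw [← Real.exp_add, ← Real.log_le_iff_le_exp hpn]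
    linarith
  · intro η hη
    have h1 : ∀ᶠ n : ℕ in atTop, -hsub.lim - η < Real.log (ZZ n t) / n :=
      hT.eventually (lt_mem_nhds (by linarith))
    filter_upwards [h1, eventually_ge_atTop 1] with n h2 hn
    have hn' : (0 : ℝ) < n := by exact_mod_cast hn
    rw [lt_div_iff₀ hn'] at h2
    have hpn := K7_ZZ_pos hn t
    rw [← Real.le_log_iff_exp_le hpn]
    exact h2.le

/-- The free energy. -/
noncomputable def FE (t : ℝ) : ℝ := Classical.choose (growth t)

theorem ZZ_le_FE (n : ℕ) (t : ℝ) : ZZ n t ≤ Real.exp t * Real.exp (FE t * n) :=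
  (Classical.choose_spec (growth t)).1 n

theorem FE_le_ZZ (t : ℝ) {η : ℝ} (hη : 0 < η) :
    ∀ᶠ n : ℕ in atTop, Real.exp ((FE t - η) * n) ≤ ZZ n t :=
  (Classical.choose_spec (growth t)).2.1 η hη

theorem tendsto_FE (t : ℝ) :
    Tendsto (fun n : ℕ => Real.log (ZZ n t) / n) atTop (nhds (FE t)) :=
  (Classical.choose_spec (growth t)).2.2

private theorem K7_two_pow {k : ℕ} (hk : 1 ≤ k) : 2 ^ k ≤ (polys (2 * k)).card := by
  induction k, hk using Nat.le_induction with
  | base => exact two_le_polys.2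
  | succ k hk ih =>
    calc 2 ^ (k + 1) = 2 ^ k * 2 := pow_succ 2 k
      _ ≤ (polys (2 * k)).card * (polys 2).card := Nat.mul_le_mul ih two_le_polys.2
      _ ≤ (polys (2 * k + 2)).card := card_supermul _ _

/-- PROOF. `(polys (2 k)).card ≥ 2 ^ k` by `card_supermul`, `two_le_polys`; so along the even numbers
`log (ZZ (2k) 0) / (2k) ≥ log 2 / 2`, and the limit is `≥ log 2 / 2 > 0`. -/
theorem FE_zero_pos : 0 < FE 0 := by
  have h1 : Tendsto (fun k : ℕ => 2 * k) atTop atTop :=
    tendsto_id.const_mul_atTop' (by norm_num)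
  have h2 := (tendsto_FE 0).comp h1
  have h3 : Real.log 2 / 2 ≤ FE 0 := by
    refine ge_of_tendsto h2 ?_
    filter_upwards [eventually_ge_atTop 1] with k hk
    have hk' : (0 : ℝ) < k := by exact_mod_cast hk
    have h4 : ((2 : ℝ)) ^ k ≤ ZZ (2 * k) 0 := by
      rw [ZZ_zero]
      exact_mod_cast K7_two_pow hk
    have h5 := Real.log_le_log (by positivity) h4
    rw [Real.log_pow] at h5
    show Real.log 2 / 2 ≤ Real.log (ZZ (2 * k) 0) / ((2 * k : ℕ) : ℝ)
    push_cast
    rw [div_le_div_iff₀ (by norm_num) (by positivity)]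
    nlinarith
  have h6 : 0 < Real.log 2 := Real.log_pos (by norm_num)
  linarith

end Pool.Agent.Lib.MP_dcf1eb_pr
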