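import Pool.Agent.Lib.MP_dcf1eb_pr.G4
import Pool.Agent.Lib.MP_dcf1eb_pr.K7

/-!
# Fixed area polygons: a lower bound for binomial coefficients (G7)
-/

set_option autoImplicit false

namespace Pool.Agent.Lib.MP_dcf1eb_pr

/-- PROOF. `(b : ℝ).choose k = ∏_{i < k} (b - i) / (k - i)` and `(b - i) / (k - i) ≥ b / k` for
`i < k ≤ b`. (Or induction on `k` via `Nat.choose_succ_right_eq`, or Mathlib, if it has it.) -/
theorem div_pow_le_choose {b k : ℕ} (hk : k ≤ b) (hk0 : 0 < k) :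
    ((b : ℝ) / k) ^ k ≤ (b.choose k : ℝ) := by
  induction k generalizing b with
  | zero => exact absurd hk0 (lt_irrefl 0)
  | succ k ih =>
    obtain ⟨b, rfl⟩ : ∃ b', b = b' + 1 := ⟨b - 1, by lia⟩
    have hkb : k ≤ b := by lia
    have hk1 : (0 : ℝ) < ((k + 1 : ℕ) : ℝ) := by exact_mod_cast Nat.succ_pos k
    have h1 : ((b + 1).choose (k + 1) : ℝ) = ((b + 1 : ℕ) : ℝ) / ((k + 1 : ℕ) : ℝ) * (b.choose k : ℝ) := by
      rw [div_mul_eq_mul_div, eq_div_iff hk1.ne']
      exact_mod_cast (Nat.add_one_mul_choose_eq b k).symm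
    rw [h1, pow_succ, mul_comm]
    refine mul_le_mul_of_nonneg_left ?_ (by positivity)
    rcases Nat.eq_zero_or_pos k with h2 | h2
    · subst h2
      simp
    · refine le_trans ?_ (ih hkb h2)
      refine pow_le_pow_left₀ (by positivity) ?_ k
      have h3 : (0 : ℝ) < (k : ℝ) := by exact_mod_cast h2
      rw [div_le_div_iff₀ hk1 h3]
      have h4 : (k : ℝ) ≤ (b : ℝ) := by exact_mod_cast hkb
      push_cast
      nlinarith

end Pool.Agent.Lib.MP_dcf1eb_pr
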