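import Pool.Agent.Lib.MP_dcf1eb_pr.F0

/-!
# Fixed area polygons: deterministic facts about boundary cells and patterns (G8)
-/

set_option autoImplicit false

namespace Pool.Agent.Lib.MP_dcf1eb_pr

private theorem G8_term_le (S : Finset (ℤ × ℤ)) (a : ℤ × ℤ) :
    (Finset.filter (fun b => b ∉ S)
      ({(a.1 + 1, a.2), (a.1 - 1, a.2), (a.1, a.2 + 1), (a.1, a.2 - 1)} : Finset (ℤ × ℤ))).card ≤ 4 := by
  refine (Finset.card_filter_le _ _).trans ?_
  exact Finset.card_le_four

private theorem G8_term_zero (S : Finset (ℤ × ℤ)) (a : ℤ × ℤ) (h : ¬ ∃ w, w ∉ S ∧ Nb a w) :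
    (Finset.filter (fun b => b ∉ S)
      ({(a.1 + 1, a.2), (a.1 - 1, a.2), (a.1, a.2 + 1), (a.1, a.2 - 1)} : Finset (ℤ × ℤ))).card = 0 := by
  rw [Finset.card_eq_zero, Finset.filter_eq_empty_iff]
  intro b hb hbS
  apply h
  refine ⟨b, hbS, ?_⟩
  simp only [Finset.mem_insert, Finset.mem_singleton] at hb
  exact hb

/-- PROOF. `perim S ≤ 4 * #{x ∈ S with a neighbour outside}` and these cells are distributed over the
144 classes `ρ ∈ cls` (`ρ = ((x.1 - 1) % 12, (x.2 + 1) % 12)`); pigeonhole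
(`Finset.exists_le_card_fiber_of_mul_le_card_of_maps_to` or a sum). -/
theorem exists_class (S : Finset (ℤ × ℤ)) :
    ∃ ρ ∈ cls, perim S ≤ 576 * (bd ρ S).card := by
  classical
  obtain ⟨B, hB⟩ : ∃ B, B = S.filter (fun x => ∃ w, w ∉ S ∧ Nb x w) := ⟨_, rfl⟩
  have h1 : perim S ≤ 4 * B.card := by
    unfold perim
    rw [hB, Finset.card_filter, Finset.mul_sum]
    refine Finset.sum_le_sum fun a _ => ?_
    split_ifs with h
    · exact G8_term_le S a
    · rw [G8_term_zero S a h]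
      exact Nat.zero_le _
  have hcard : (cls).card = 144 := by
    unfold cls
    rw [Finset.card_product]
    simp
  have h2 : B.card = ∑ ρ ∈ cls, (bd ρ S).card := by
    have h3 := Finset.card_eq_sum_card_fiberwise (s := B) (t := cls)
      (f := fun x : ℤ × ℤ => ((x.1 - 1) % 12, (x.2 + 1) % 12)) (by
        intro x _
        unfold cls
        simp only [Finset.coe_product, Finset.coe_Ico, Set.mem_prod, Set.mem_Ico]
        omega)
    rw [h3]
    refine Finset.sum_congr rfl fun ρ _ => ?_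
    congr 1
    ext x
    rw [hB]
    unfold bd
    simp only [Finset.mem_filter, Prod.ext_iff]
    constructor
    · rintro ⟨⟨a1, a2⟩, a3, a4⟩
      exact ⟨a1, a3, a4, a2⟩
    · rintro ⟨a1, a3, a4, a2⟩
      exact ⟨⟨a1, a2⟩, a3, a4⟩
  by_contra hcon
  push Not at hcon
  have hne : (cls).Nonempty := by
    rw [← Finset.card_pos, hcard]
    norm_num
  have h3 := Finset.sum_lt_sum_of_nonempty hne hcon
  rw [Finset.sum_const, hcard, smul_eq_mul] at h3
  have h4 : ∑ ρ ∈ cls, 576 * (bd ρ S).card = 576 * B.card := by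
    rw [h2, Finset.mul_sum]
  rw [h4] at h3
  clear h4 hcon hne hcard h2 hB
  revert h1 h3
  generalize perim S = p
  generalize B.card = q
  intro h1 h3
  omega

/-- left ends of the horizontal edges inside `S` -/
private noncomputable def G8_H (S : Finset (ℤ × ℤ)) : Finset (ℤ × ℤ) :=
  S.filter (fun a => (a.1 + 1, a.2) ∈ S)

/-- lower ends of the vertical edges inside `S` -/
private noncomputable def G8_V (S : Finset (ℤ × ℤ)) : Finset (ℤ × ℤ) :=
  S.filter (fun a => (a.1, a.2 + 1) ∈ S)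

private theorem G8_shiftH (S : Finset (ℤ × ℤ)) :
    (S.filter (fun a => (a.1 - 1, a.2) ∈ S)).card = (G8_H S).card := by
  refine Finset.card_bij (fun a _ => (a.1 - 1, a.2)) ?_ ?_ ?_
  · intro a ha
    rw [Finset.mem_filter] at ha
    unfold G8_H
    rw [Finset.mem_filter]
    refine ⟨ha.2, ?_⟩
    have : ((a.1 - 1) + 1, a.2) = a := by ext <;> simp
    rw [this]
    exact ha.1
  · intro a _ b _ h
    simp only [Prod.mk.injEq] at h
    ext
    · omega
    · exact h.2
  · intro b hb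
    unfold G8_H at hb
    rw [Finset.mem_filter] at hb
    refine ⟨(b.1 + 1, b.2), ?_, ?_⟩
    · rw [Finset.mem_filter]
      refine ⟨hb.2, ?_⟩
      have : ((b.1 + 1) - 1, b.2) = b := by ext <;> simp
      rw [this]
      exact hb.1
    · ext <;> simp

private theorem G8_shiftV (S : Finset (ℤ × ℤ)) :
    (S.filter (fun a => (a.1, a.2 - 1) ∈ S)).card = (G8_V S).card := by
  refine Finset.card_bij (fun a _ => (a.1, a.2 - 1)) ?_ ?_ ?_
  · intro a ha
    rw [Finset.mem_filter] at ha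
    unfold G8_V
    rw [Finset.mem_filter]
    refine ⟨ha.2, ?_⟩
    have : (a.1, (a.2 - 1) + 1) = a := by ext <;> simp
    rw [this]
    exact ha.1
  · intro a _ b _ h
    simp only [Prod.mk.injEq] at h
    ext
    · exact h.1
    · omega
  · intro b hb
    unfold G8_V at hb
    rw [Finset.mem_filter] at hb
    refine ⟨(b.1, b.2 + 1), ?_, ?_⟩
    · rw [Finset.mem_filter]
      refine ⟨hb.2, ?_⟩
      have : (b.1, (b.2 + 1) - 1) = b := by ext <;> simp
      rw [this]
      exact hb.1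
    · ext <;> simp

private theorem G8_term (S : Finset (ℤ × ℤ)) (a : ℤ × ℤ) :
    (Finset.filter (fun b => b ∉ S)
      ({(a.1 + 1, a.2), (a.1 - 1, a.2), (a.1, a.2 + 1), (a.1, a.2 - 1)} : Finset (ℤ × ℤ))).card +
    ((if (a.1 + 1, a.2) ∈ S then 1 else 0) + (if (a.1 - 1, a.2) ∈ S then 1 else 0) +
      (if (a.1, a.2 + 1) ∈ S then 1 else 0) + (if (a.1, a.2 - 1) ∈ S then 1 else 0)) = 4 := by
  have e1 : ((a.1 + 1, a.2) : ℤ × ℤ) ∉
      ({(a.1 - 1, a.2), (a.1, a.2 + 1), (a.1, a.2 - 1)} : Finset (ℤ × ℤ)) := by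
    simp only [Finset.mem_insert, Finset.mem_singleton, Prod.mk.injEq]
    omega
  have e2 : ((a.1 - 1, a.2) : ℤ × ℤ) ∉
      ({(a.1, a.2 + 1), (a.1, a.2 - 1)} : Finset (ℤ × ℤ)) := by
    simp only [Finset.mem_insert, Finset.mem_singleton, Prod.mk.injEq]
    omega
  have e3 : ((a.1, a.2 + 1) : ℤ × ℤ) ∉ ({(a.1, a.2 - 1)} : Finset (ℤ × ℤ)) := by
    simp only [Finset.mem_singleton, Prod.mk.injEq]
    omega
  rw [Finset.card_filter, Finset.sum_insert e1, Finset.sum_insert e2, Finset.sum_insert e3,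
    Finset.sum_singleton]
  by_cases h1 : ((a.1 + 1, a.2) : ℤ × ℤ) ∈ S <;> by_cases h2 : ((a.1 - 1, a.2) : ℤ × ℤ) ∈ S <;>
    by_cases h3 : ((a.1, a.2 + 1) : ℤ × ℤ) ∈ S <;> by_cases h4 : ((a.1, a.2 - 1) : ℤ × ℤ) ∈ S <;>
    simp [h1, h2, h3, h4]

private theorem G8_perim (S : Finset (ℤ × ℤ)) :
    perim S + 2 * ((G8_H S).card + (G8_V S).card) = 4 * S.card := by
  have h1 : ∑ a ∈ S, ((Finset.filter (fun b => b ∉ S)
      ({(a.1 + 1, a.2), (a.1 - 1, a.2), (a.1, a.2 + 1), (a.1, a.2 - 1)} : Finset (ℤ × ℤ))).card +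
    ((if (a.1 + 1, a.2) ∈ S then 1 else 0) + (if (a.1 - 1, a.2) ∈ S then 1 else 0) +
      (if (a.1, a.2 + 1) ∈ S then 1 else 0) + (if (a.1, a.2 - 1) ∈ S then 1 else 0))) =
      4 * S.card := by
    rw [Finset.sum_congr rfl (fun a _ => G8_term S a), Finset.sum_const, smul_eq_mul, mul_comm]
  rw [Finset.sum_add_distrib, Finset.sum_add_distrib, Finset.sum_add_distrib,
    Finset.sum_add_distrib, ← Finset.card_filter, ← Finset.card_filter, ← Finset.card_filter,
    ← Finset.card_filter, G8_shiftH, G8_shiftV] at h1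
  unfold perim
  have hH : (S.filter (fun a => (a.1 + 1, a.2) ∈ S)).card = (G8_H S).card := rfl
  have hV : (S.filter (fun a => (a.1, a.2 + 1) ∈ S)).card = (G8_V S).card := rfl
  rw [hH, hV] at h1
  omega

open Classical in
/-- left end of the deleted edge of the block at `z` -/
private noncomputable def G8_rem (S : Finset (ℤ × ℤ)) (z : ℤ × ℤ) : ℤ × ℤ :=
  if PA (↑S : Set Cell) z then z else (z.1 + 2, z.2)

private theorem G8_rem_spec {S : Finset (ℤ × ℤ)} {ρ : ℤ × ℤ} {z : ℤ × ℤ} (hz : z ∈ occ ρ S) :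
    (G8_rem S z) ∈ S ∧ ((G8_rem S z).1 + 1, (G8_rem S z).2) ∈ S ∧
    ((G8_rem S z).1, (G8_rem S z).2 + 1) ∈ S ∧ ((G8_rem S z).1 + 1, (G8_rem S z).2 + 1) ∈ S ∧
    (G8_rem S z).2 % 12 = ρ.2 ∧ (G8_rem S z).2 = z.2 ∧
    ((G8_rem S z).1 = z.1 ∨ (G8_rem S z).1 = z.1 + 2) := by
  classical
  unfold occ at hz
  rw [Finset.mem_filter] at hz
  obtain ⟨hzS, h1, h2, h3⟩ := hz
  unfold G8_rem
  split_ifs with hA
  · obtain ⟨⟨c1, c2, c3, c4, c5, c6, -⟩, h4, h5⟩ := hA
    exact ⟨hzS, by exact_mod_cast c2, by exact_mod_cast c5, by exact_mod_cast h4, h2, rfl, Or.inl rfl⟩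
  · obtain ⟨⟨c1, c2, c3, c4, c5, c6, -⟩, h4, h5⟩ := h3.resolve_left hA
    refine ⟨by exact_mod_cast c3, ?_, by exact_mod_cast c6, ?_, h2, rfl, Or.inr rfl⟩
    · have : ((z.1 + 2) + 1, z.2) = (z.1 + 3, z.2) := by
        ext <;> simp [add_assoc]
      show ((z.1 + 2) + 1, z.2) ∈ S
      rw [this]
      exact_mod_cast c4
    · have : ((z.1 + 2) + 1, z.2 + 1) = cx z := by
        unfold cx
        ext <;> simp [add_assoc]
      show ((z.1 + 2) + 1, z.2 + 1) ∈ S
      rw [this]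
      exact_mod_cast h5

private theorem G8_rem_inj {S : Finset (ℤ × ℤ)} {ρ : ℤ × ℤ} {z z' : ℤ × ℤ} (hz : z ∈ occ ρ S)
    (hz' : z' ∈ occ ρ S) (h : G8_rem S z = G8_rem S z') : z = z' := by
  classical
  obtain ⟨-, -, -, -, -, a1, a2⟩ := G8_rem_spec hz
  obtain ⟨-, -, -, -, -, b1, b2⟩ := G8_rem_spec hz'
  rw [h] at a1 a2
  have hmem : ∀ y, y ∈ occ ρ S → y.1 % 12 = ρ.1 := by
    intro y hy
    unfold occ at hy
    exact (Finset.mem_filter.mp hy).2.1
  have c1 := hmem z hz
  have c2 := hmem z' hz'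
  ext
  · omega
  · omega

/-- the graph with the edges of `S`, one horizontal edge deleted for every block -/
private noncomputable def G8_G (S H' : Finset (ℤ × ℤ)) : SimpleGraph {x : ℤ × ℤ // x ∈ S} where
  Adj a b := (b.1 = (a.1.1 + 1, a.1.2) ∧ a.1 ∈ H') ∨ (a.1 = (b.1.1 + 1, b.1.2) ∧ b.1 ∈ H') ∨
    b.1 = (a.1.1, a.1.2 + 1) ∨ a.1 = (b.1.1, b.1.2 + 1)
  symm := ⟨by
    intro a b h
    rcases h with h | h | h | h
    · exact Or.inr (Or.inl h)
    · exact Or.inl h
    · exact Or.inr (Or.inr (Or.inr h))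
    · exact Or.inr (Or.inr (Or.inl h))⟩
  loopless := ⟨by
    intro a h
    rcases h with ⟨h, -⟩ | ⟨h, -⟩ | h | h <;>
    · have h1 := congrArg Prod.fst h
      have h2 := congrArg Prod.snd h
      simp only at h1 h2
      omega⟩

private theorem G8_edges (S H' V' : Finset (ℤ × ℤ)) (hV : ∀ a ∈ S, (a.1, a.2 + 1) ∈ S → a ∈ V') :
    Nat.card (G8_G S H').edgeSet ≤ H'.card + V'.card := by
  classical
  have hsub : ∃ f : (G8_G S H').edgeSet → {x // x ∈ H'} ⊕ {x // x ∈ V'}, Function.Injective f := by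
    have hch : ∀ e : (G8_G S H').edgeSet, ∃ y : {x // x ∈ H'} ⊕ {x // x ∈ V'},
        (∀ x : {x // x ∈ H'}, y = Sum.inl x → ∃ a b : {x : ℤ × ℤ // x ∈ S}, (e : Sym2 _) = s(a, b) ∧
          a.1 = x.1 ∧ b.1 = (x.1.1 + 1, x.1.2)) ∧
        (∀ x : {x // x ∈ V'}, y = Sum.inr x → ∃ a b : {x : ℤ × ℤ // x ∈ S}, (e : Sym2 _) = s(a, b) ∧
          a.1 = x.1 ∧ b.1 = (x.1.1, x.1.2 + 1)) := by
      rintro ⟨e, he⟩
      induction e using Sym2.ind with
      | _ a b =>
        rw [SimpleGraph.mem_edgeSet] at he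
        rcases he with ⟨h, h'⟩ | ⟨h, h'⟩ | h | h
        · refine ⟨Sum.inl ⟨a.1, h'⟩, ?_, ?_⟩
          · intro x hx
            rw [Sum.inl.injEq] at hx
            subst hx
            exact ⟨a, b, rfl, rfl, h⟩
          · intro x hx
            exact absurd hx (by simp)
        · refine ⟨Sum.inl ⟨b.1, h'⟩, ?_, ?_⟩
          · intro x hx
            rw [Sum.inl.injEq] at hx
            subst hx
            exact ⟨b, a, Sym2.eq_swap, rfl, h⟩
          · intro x hx
            exact absurd hx (by simp)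
        · refine ⟨Sum.inr ⟨a.1, hV _ a.2 (h ▸ b.2)⟩, ?_, ?_⟩
          · intro x hx
            exact absurd hx (by simp)
          · intro x hx
            rw [Sum.inr.injEq] at hx
            subst hx
            exact ⟨a, b, rfl, rfl, h⟩
        · refine ⟨Sum.inr ⟨b.1, hV _ b.2 (h ▸ a.2)⟩, ?_, ?_⟩
          · intro x hx
            exact absurd hx (by simp)
          · intro x hx
            rw [Sum.inr.injEq] at hx
            subst hx
            exact ⟨b, a, Sym2.eq_swap, rfl, h⟩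
    choose f hf1 hf2 using hch
    refine ⟨f, fun e e' hee => ?_⟩
    rcases hfe : f e with x | x
    · obtain ⟨a, b, h1, h2, h3⟩ := hf1 e x hfe
      obtain ⟨a', b', h1', h2', h3'⟩ := hf1 e' x (hee ▸ hfe)
      have ha : a = a' := Subtype.ext (h2.trans h2'.symm)
      have hb : b = b' := Subtype.ext (h3.trans h3'.symm)
      exact Subtype.ext (by rw [h1, h1', ha, hb])
    · obtain ⟨a, b, h1, h2, h3⟩ := hf2 e x hfe
      obtain ⟨a', b', h1', h2', h3'⟩ := hf2 e' x (hee ▸ hfe)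
      have ha : a = a' := Subtype.ext (h2.trans h2'.symm)
      have hb : b = b' := Subtype.ext (h3.trans h3'.symm)
      exact Subtype.ext (by rw [h1, h1', ha, hb])
  obtain ⟨f, hf⟩ := hsub
  have h1 := Nat.card_le_card_of_injective f hf
  rw [Nat.card_sum] at h1
  have h2 : Nat.card {x // x ∈ H'} = H'.card := by
    rw [Nat.card_eq_fintype_card, Fintype.card_coe]
  have h3 : Nat.card {x // x ∈ V'} = V'.card := by
    rw [Nat.card_eq_fintype_card, Fintype.card_coe]
  rw [h2, h3] at h1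
  exact h1

private theorem G8_reach {S : Finset (ℤ × ℤ)} {ρ : ℤ × ℤ} {a : Cell}
    (ha : a ∈ S) {b : Cell} (hb : b ∈ S) (h : Reach (↑S : Set Cell) a b) :
    (G8_G S ((G8_H S) \ (occ ρ S).image (G8_rem S))).Reachable ⟨a, ha⟩ ⟨b, hb⟩ := by
  classical
  -- one horizontal step
  have hstep : ∀ (x : Cell) (hx : x ∈ S) (hx' : (x.1 + 1, x.2) ∈ S),
      (G8_G S ((G8_H S) \ (occ ρ S).image (G8_rem S))).Reachable ⟨x, hx⟩ ⟨(x.1 + 1, x.2), hx'⟩ := by
    intro x hx hx'
    by_cases hr : x ∈ (occ ρ S).image (G8_rem S)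
    · rw [Finset.mem_image] at hr
      obtain ⟨z, hz, hzx⟩ := hr
      obtain ⟨b1, b2, b3, b4, b5, b6, b7⟩ := G8_rem_spec hz
      rw [hzx] at b1 b2 b3 b4 b5
      have hup : (x.1, x.2 + 1) ∈ (G8_H S) \ (occ ρ S).image (G8_rem S) := by
        rw [Finset.mem_sdiff]
        refine ⟨?_, ?_⟩
        · unfold G8_H
          rw [Finset.mem_filter]
          exact ⟨b3, b4⟩
        · intro hc
          rw [Finset.mem_image] at hc
          obtain ⟨z', hz', hz'x⟩ := hc
          obtain ⟨-, -, -, -, c5, -, -⟩ := G8_rem_spec hz'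
          rw [hz'x] at c5
          simp only at c5
          omega
      have s1 : (G8_G S ((G8_H S) \ (occ ρ S).image (G8_rem S))).Adj ⟨x, hx⟩ ⟨(x.1, x.2 + 1), b3⟩ :=
        Or.inr (Or.inr (Or.inl rfl))
      have s2 : (G8_G S ((G8_H S) \ (occ ρ S).image (G8_rem S))).Adj ⟨(x.1, x.2 + 1), b3⟩
          ⟨(x.1 + 1, x.2 + 1), b4⟩ := Or.inl ⟨rfl, hup⟩
      have s3 : (G8_G S ((G8_H S) \ (occ ρ S).image (G8_rem S))).Adj ⟨(x.1 + 1, x.2 + 1), b4⟩
          ⟨(x.1 + 1, x.2), hx'⟩ := Or.inr (Or.inr (Or.inr rfl))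
      exact s1.reachable.trans (s2.reachable.trans s3.reachable)
    · refine SimpleGraph.Adj.reachable (Or.inl ⟨rfl, ?_⟩)
      rw [Finset.mem_sdiff]
      refine ⟨?_, hr⟩
      unfold G8_H
      rw [Finset.mem_filter]
      exact ⟨hx, hx'⟩
  have hmain : ∀ c, Reach (↑S : Set Cell) a c → ∀ hc : c ∈ S,
      (G8_G S ((G8_H S) \ (occ ρ S).image (G8_rem S))).Reachable ⟨a, ha⟩ ⟨c, hc⟩ := by
    intro c hc
    induction hc with
    | refl => intro _; exact SimpleGraph.Reachable.refl _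
    | @tail u v huv hv ih =>
      intro hc
      obtain ⟨hnb, hu, -⟩ := hv
      have hu' : u ∈ S := hu
      refine (ih hu').trans ?_
      rcases hnb with h | h | h | h
      · subst h
        exact hstep u hu' hc
      · have hu2 : (v.1 + 1, v.2) = u := by
          rw [h]
          ext <;> simp
        have hu3 : (v.1 + 1, v.2) ∈ S := by
          rw [hu2]
          exact hu'
        have h1 := hstep v hc hu3
        have h2 : (⟨(v.1 + 1, v.2), hu3⟩ : {x : ℤ × ℤ // x ∈ S}) = ⟨u, hu'⟩ := Subtype.ext hu2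
        rw [h2] at h1
        exact h1.symm
      · exact SimpleGraph.Adj.reachable (Or.inr (Or.inr (Or.inl h)))
      · refine SimpleGraph.Adj.reachable (Or.inr (Or.inr (Or.inr ?_)))
        show u = (v.1, v.2 + 1)
        rw [h]
        ext <;> simp
  exact hmain b h hb

/-- PROOF. Let `e` be the number of unordered pairs of neighbours in `S`: `perim S = 4 * S.card - 2 * e`.
It suffices to show `S.card + (occ ρ S).card ≤ e + 1`. The graph of the neighbouring pairs on `S` is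
connected (`h.conn`). Every `z ∈ occ ρ S` gives a `2 × 2` block inside `S`: for `PA`
`z, z + (1,0), z + (0,1), z + (1,1)`, for `PB` `z + (2,0), z + (3,0), z + (2,1), z + (3,1)`; blocks for different `z`
of the class are disjoint. Delete from the graph for every `z` one edge of its block, the lower
one (`z - z + (1,0)`, resp. `z + (2,0) - z + (3,0)`): the graph stays connected, because the two
ends are joined by the other three edges of the block. A connected graph on `N` vertices has at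
least `N - 1` edges (`SimpleGraph.Connected.card_vert_le_card_edgeSet_add_one`). So
`e - (occ ρ S).card ≥ S.card - 1`. -/
theorem perim_occ {S : Finset (ℤ × ℤ)} (h : IsPoly (↑S : Set Cell)) (ρ : ℤ × ℤ) :
    perim S + 2 * (occ ρ S).card ≤ 2 * S.card + 2 := by
  classical
  obtain ⟨H', hH'⟩ : ∃ H', H' = (G8_H S) \ (occ ρ S).image (G8_rem S) := ⟨_, rfl⟩
  have hsub : (occ ρ S).image (G8_rem S) ⊆ G8_H S := by
    intro x hx
    rw [Finset.mem_image] at hx
    obtain ⟨z, hz, rfl⟩ := hx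
    obtain ⟨b1, b2, -⟩ := G8_rem_spec hz
    unfold G8_H
    rw [Finset.mem_filter]
    exact ⟨b1, b2⟩
  have hc1 : H'.card + (occ ρ S).card = (G8_H S).card := by
    have h1 : ((occ ρ S).image (G8_rem S)).card = (occ ρ S).card :=
      Finset.card_image_of_injOn (fun z hz z' hz' hzz => G8_rem_inj hz hz' hzz)
    rw [hH', ← h1]
    exact Finset.card_sdiff_add_card_eq_card hsub
  have hconn : (G8_G S H').Connected := by
    have : Nonempty {x : ℤ × ℤ // x ∈ S} := by
      obtain ⟨a, ha⟩ := h.ne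
      exact ⟨⟨a, ha⟩⟩
    refine SimpleGraph.Connected.mk ?_
    rintro ⟨a, ha⟩ ⟨b, hb⟩
    rw [hH']
    exact G8_reach ha hb (h.conn a ha b hb)
  have h1 := hconn.card_vert_le_card_edgeSet_add_one
  have h2 := G8_edges S H' (G8_V S) (fun a ha ha' => by
    unfold G8_V
    rw [Finset.mem_filter]
    exact ⟨ha, ha'⟩)
  rw [Nat.card_eq_fintype_card, Fintype.card_coe] at h1
  have h3 := G8_perim S
  omega

end Pool.Agent.Lib.MP_dcf1eb_pr
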