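import Mathlib

/-!
# Fixed area polygons: a bound for binomial coefficients (H1)
-/

set_option autoImplicit false

namespace Pool.Agent.Lib.MP_dcf1eb_pr

private theorem H1_central (n : ℕ) : n.centralBinom ^ 2 * (2 * n + 1) ≤ 16 ^ n := by
  induction n with
  | zero => simp
  | succ n ih =>
    have h1 := Nat.succ_mul_centralBinom_succ n
    have h2 : (n + 1) ^ 2 * ((n + 1).centralBinom ^ 2 * (2 * (n + 1) + 1))
        = 4 * (2 * n + 1) * (2 * n + 3) * (n.centralBinom ^ 2 * (2 * n + 1)) := by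
      calc (n + 1) ^ 2 * ((n + 1).centralBinom ^ 2 * (2 * (n + 1) + 1))
          = ((n + 1) * (n + 1).centralBinom) ^ 2 * (2 * n + 3) := by ring
        _ = (2 * (2 * n + 1) * n.centralBinom) ^ 2 * (2 * n + 3) := by rw [h1]
        _ = _ := by ring
    have h3 : (2 * n + 1) * (2 * n + 3) ≤ 4 * (n + 1) ^ 2 := by nlinarith
    have h4 : (n + 1) ^ 2 * ((n + 1).centralBinom ^ 2 * (2 * (n + 1) + 1))
        ≤ (n + 1) ^ 2 * 16 ^ (n + 1) := by
      rw [h2]
      calc 4 * (2 * n + 1) * (2 * n + 3) * (n.centralBinom ^ 2 * (2 * n + 1))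
          = 4 * ((2 * n + 1) * (2 * n + 3)) * (n.centralBinom ^ 2 * (2 * n + 1)) := by ring
        _ ≤ 4 * (4 * (n + 1) ^ 2) * 16 ^ n :=
          Nat.mul_le_mul (Nat.mul_le_mul_left _ h3) ih
        _ = (n + 1) ^ 2 * 16 ^ (n + 1) := by ring
    exact Nat.le_of_mul_le_mul_left h4 (by positivity)

/-- PROOF. `k.choose j ≤ k.choose (k / 2)` (`Nat.choose_le_middle`). Even `k = 2 n`: show
`n.centralBinom ^ 2 * (2 * n + 1) ≤ 16 ^ n` by induction (`Nat.succ_mul_centralBinom_succ`: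
`(n+1) * centralBinom (n+1) = 2 * (2n+1) * centralBinom n`, and `(2n+1)(2n+3) ≤ 4(n+1)^2`). Odd
`k = 2 n + 1`: `2 * (2n+1).choose n = centralBinom (n+1)`, so
`4 * choose ^ 2 * (2 n + 3) ≤ 16 ^ (n+1)`, hence `choose ^ 2 * (2n+1) ≤ 4 * 16 ^ n = 4 ^ (2n+1)`. -/
theorem choose_sq_mul_le (k j : ℕ) : (k.choose j) ^ 2 * k ≤ 4 ^ k := by
  have h0 : (k.choose j) ^ 2 * k ≤ (k.choose (k / 2)) ^ 2 * k :=
    Nat.mul_le_mul_right _ (Nat.pow_le_pow_left (Nat.choose_le_middle j k) 2)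
  refine h0.trans ?_
  rcases Nat.even_or_odd' k with ⟨n, hn | hn⟩
  · have h1 : k / 2 = n := by omega
    have h2 := H1_central n
    rw [Nat.centralBinom_eq_two_mul_choose] at h2
    rw [h1, hn, pow_mul]
    calc (2 * n).choose n ^ 2 * (2 * n) ≤ (2 * n).choose n ^ 2 * (2 * n + 1) :=
          Nat.mul_le_mul_left _ (Nat.le_succ _)
      _ ≤ 16 ^ n := h2
      _ = (4 ^ 2) ^ n := by norm_num
  · have h1 : k / 2 = n := by omega
    have h2 := H1_central (n + 1)
    have h3 : (n + 1).centralBinom = 2 * (2 * n + 1).choose n := by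
      rw [Nat.centralBinom_eq_two_mul_choose]
      have h4 : 2 * (n + 1) = (2 * n + 1) + 1 := by ring
      rw [h4, Nat.choose_succ_succ]
      have h5 : (2 * n + 1).choose n.succ = (2 * n + 1).choose n := by
        apply Nat.choose_symm_of_eq_add
        rw [Nat.succ_eq_add_one]
        ring
      rw [h5]
      ring
    rw [h3] at h2
    rw [h1, hn]
    have h6 : 4 * ((2 * n + 1).choose n ^ 2 * (2 * n + 1)) ≤ 4 * 4 ^ (2 * n + 1) := by
      calc 4 * ((2 * n + 1).choose n ^ 2 * (2 * n + 1))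
          = (2 * (2 * n + 1).choose n) ^ 2 * (2 * n + 1) := by ring
        _ ≤ (2 * (2 * n + 1).choose n) ^ 2 * (2 * (n + 1) + 1) :=
          Nat.mul_le_mul_left _ (by omega)
        _ ≤ 16 ^ (n + 1) := h2
        _ = (4 ^ 2) ^ (n + 1) := by norm_num
        _ = 4 * 4 ^ (2 * n + 1) := by
          rw [← pow_mul]
          ring
    omega

theorem choose_mul_sqrt_le (k j : ℕ) : (k.choose j : ℝ) * Real.sqrt k ≤ 2 ^ k := by
  have h1 := choose_sq_mul_le k j
  have h2 : ((k.choose j : ℝ)) ^ 2 * (k : ℝ) ≤ 4 ^ k := by exact_mod_cast h1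
  have h3 : ((k.choose j : ℝ) * Real.sqrt k) ^ 2 ≤ (2 ^ k) ^ 2 := by
    rw [mul_pow, Real.sq_sqrt (Nat.cast_nonneg k), ← pow_mul, mul_comm k 2, pow_mul]
    calc ((k.choose j : ℝ)) ^ 2 * (k : ℝ) ≤ 4 ^ k := h2
      _ = (2 ^ 2) ^ k := by norm_num
  exact le_of_sq_le_sq h3 (by positivity)

end Pool.Agent.Lib.MP_dcf1eb_pr
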