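import Pool.Agent.Lib.MP_dcf1eb_pr.A1

/-!
# Fixed area polygons: the boundary of a polygon is connected (K5)
-/

set_option autoImplicit false

namespace Pool.Agent.Lib.MP_dcf1eb_pr

/-- The four directions. -/
def dir (d : Fin 4) : Cell :=
  if d = 0 then (1, 0) else if d = 1 then (0, 1) else if d = 2 then (-1, 0) else (0, -1)

/-- The boundary edges: pairs (cell of `S`, direction leading out of `S`). -/
def bdE (S : Finset (ℤ × ℤ)) : Finset ((ℤ × ℤ) × Fin 4) :=
  (S ×ˢ (Finset.univ : Finset (Fin 4))).filter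
    (fun e => (e.1.1 + (dir e.2).1, e.1.2 + (dir e.2).2) ∉ S)

private theorem K5_mem (S : Finset (ℤ × ℤ)) (e : (ℤ × ℤ) × Fin 4) :
    e ∈ bdE S ↔ e.1 ∈ S ∧ (e.1.1 + (dir e.2).1, e.1.2 + (dir e.2).2) ∉ S := by
  unfold bdE
  rw [Finset.mem_filter, Finset.mem_product]
  simp

private theorem K5_mem0 (S : Finset (ℤ × ℤ)) (i j : ℤ) :
    (((i, j), 0) : (ℤ × ℤ) × Fin 4) ∈ bdE S ↔ (i, j) ∈ S ∧ (i + 1, j) ∉ S := by
  rw [K5_mem]
  simp [dir]

private theorem K5_mem1 (S : Finset (ℤ × ℤ)) (i j : ℤ) :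
    (((i, j), 1) : (ℤ × ℤ) × Fin 4) ∈ bdE S ↔ (i, j) ∈ S ∧ (i, j + 1) ∉ S := by
  rw [K5_mem]
  simp [dir]

private theorem K5_mem2 (S : Finset (ℤ × ℤ)) (i j : ℤ) :
    (((i, j), 2) : (ℤ × ℤ) × Fin 4) ∈ bdE S ↔ (i, j) ∈ S ∧ (i - 1, j) ∉ S := by
  rw [K5_mem]
  simp [dir, sub_eq_add_neg]

private theorem K5_mem3 (S : Finset (ℤ × ℤ)) (i j : ℤ) :
    (((i, j), 3) : (ℤ × ℤ) × Fin 4) ∈ bdE S ↔ (i, j) ∈ S ∧ (i, j - 1) ∉ S := by
  rw [K5_mem]
  simp [dir, sub_eq_add_neg]

theorem bdE_card (S : Finset (ℤ × ℤ)) : (bdE S).card = perim S := by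
  classical
  unfold bdE perim
  rw [Finset.card_filter, Finset.sum_product]
  refine Finset.sum_congr rfl fun a _ => ?_
  rw [Finset.card_filter, Finset.sum_insert, Finset.sum_insert, Finset.sum_insert,
    Finset.sum_singleton, Fin.sum_univ_four]
  · simp only [dir]
    simp only [Fin.isValue, if_true, one_ne_zero, if_false, Fin.reduceEq, add_zero]
    have e1 : a.1 + -1 = a.1 - 1 := by ring
    have e2 : a.2 + -1 = a.2 - 1 := by ring
    rw [e1, e2]
    ring
  · simp only [Finset.mem_singleton, Prod.mk.injEq]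
    omega
  · simp only [Finset.mem_insert, Finset.mem_singleton, Prod.mk.injEq]
    omega
  · simp only [Finset.mem_insert, Finset.mem_singleton, Prod.mk.injEq]
    omega

private theorem K5_bound (S : Finset (ℤ × ℤ)) :
    ∃ L : ℤ, 0 ≤ L ∧ ∀ c ∈ S, -L < c.1 ∧ c.1 < L ∧ -L < c.2 ∧ c.2 < L := by
  refine ⟨∑ c ∈ S, (|c.1| + |c.2|) + 1, ?_, ?_⟩
  · have : 0 ≤ ∑ c ∈ S, (|c.1| + |c.2|) :=
      Finset.sum_nonneg fun c _ => add_nonneg (abs_nonneg _) (abs_nonneg _)
    omega
  · intro c hc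
    have h1 : |c.1| + |c.2| ≤ ∑ c ∈ S, (|c.1| + |c.2|) :=
      Finset.single_le_sum (f := fun c : ℤ × ℤ => |c.1| + |c.2|)
        (fun c _ => add_nonneg (abs_nonneg _) (abs_nonneg _)) hc
    have h2 := abs_nonneg c.1
    have h3 := abs_nonneg c.2
    have h4 := neg_abs_le c.1
    have h5 := le_abs_self c.1
    have h6 := neg_abs_le c.2
    have h7 := le_abs_self c.2
    refine ⟨?_, ?_, ?_, ?_⟩ <;> omega

private theorem K5_sub {S S' : Finset (ℤ × ℤ)} (h : bdE S = bdE S') {x y : ℤ}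
    (hxy : (x, y) ∈ S ↔ (x, y) ∈ S') (h1 : (x + 1, y) ∈ S) : (x + 1, y) ∈ S' := by
  by_contra h2
  by_cases h3 : (x, y) ∈ S
  · have h4 : (((x, y), 0) : (ℤ × ℤ) × Fin 4) ∈ bdE S' :=
      (K5_mem0 S' x y).mpr ⟨hxy.mp h3, h2⟩
    rw [← h] at h4
    exact ((K5_mem0 S x y).mp h4).2 h1
  · have h4 : (((x + 1, y), 2) : (ℤ × ℤ) × Fin 4) ∈ bdE S := by
      refine (K5_mem2 S (x + 1) y).mpr ⟨h1, ?_⟩
      rw [add_sub_cancel_right]
      exact h3
    rw [h] at h4
    exact h2 ((K5_mem2 S' (x + 1) y).mp h4).1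

/-- PROOF. Suppose `a ∈ S`, `a ∉ S'` (or the other way round). Go to the left from `a`: both sets are
finite, so there is a largest `t ≥ 0` such that `b = a - (t, 0)` is in exactly one of `S, S'`. The cell
`b - (1, 0)` is in both or in none. If `b ∈ S`, `b ∉ S'`, in none: `(b, 2) ∈ bdE S`, so `b ∈ S'`,
contradiction; in both: `(b - (1,0), 0) ∈ bdE S'`, so in `bdE S`, so `b ∉ S`, contradiction. Symmetric in
the other case. -/
theorem bdE_inj {S S' : Finset (ℤ × ℤ)} (h : bdE S = bdE S') : S = S' := by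
  obtain ⟨L, hL0, hL⟩ := K5_bound S
  obtain ⟨L', hL0', hL'⟩ := K5_bound S'
  have key : ∀ y x : ℤ, -(L + L') ≤ x → ((x, y) ∈ S ↔ (x, y) ∈ S') := by
    intro y x hx
    induction x, hx using Int.leInduction with
    | base =>
      constructor
      · intro h1
        have := (hL _ h1).1
        simp only at this
        omega
      · intro h1
        have := (hL' _ h1).1
        simp only at this
        omega
    | succ x hx ih => exact ⟨K5_sub h ih, K5_sub h.symm ih.symm⟩
  ext ⟨x, y⟩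
  constructor
  · intro h1
    have := (hL _ h1).1
    simp only at this
    exact (key y x (by omega)).mp h1
  · intro h1
    have := (hL' _ h1).1
    simp only at this
    exact (key y x (by omega)).mpr h1

open Classical in
private noncomputable def K5_hh (T : (ℤ × ℤ) × Fin 4 → Prop) (i j : ℤ) : ZMod 2 :=
  if T ((i, j), 0) ∨ T ((i + 1, j), 2) then 1 else 0

open Classical in
private noncomputable def K5_vv (T : (ℤ × ℤ) × Fin 4 → Prop) (i j : ℤ) : ZMod 2 :=
  if T ((i, j), 1) ∨ T ((i, j + 1), 3) then 1 else 0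

private theorem K5_block {S : Finset (ℤ × ℤ)} (hn : NoCB (↑S : Set Cell))
    (T : (ℤ × ℤ) × Fin 4 → Prop) (hTb : ∀ e, T e → e ∈ bdE S)
    (hTc : ∀ e e', T e → e' ∈ bdE S → |e.1.1 - e'.1.1| ≤ 1 → |e.1.2 - e'.1.2| ≤ 1 → T e')
    (i j : ℤ) :
    K5_hh T i j + K5_hh T i (j + 1) + K5_vv T i j + K5_vv T (i + 1) j = 0 := by
  classical
  obtain ⟨τ, hτ⟩ : ∃ τ : Prop, ∀ (a b : ℤ) (d : Fin 4), (a = i ∨ a = i + 1) → (b = j ∨ b = j + 1) →
      (T ((a, b), d) ↔ ((a, b), d) ∈ bdE S ∧ τ) := by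
    refine ⟨∃ (a b : ℤ) (d : Fin 4), (a = i ∨ a = i + 1) ∧ (b = j ∨ b = j + 1) ∧ T ((a, b), d), ?_⟩
    intro a b d ha hb
    constructor
    · intro h1
      exact ⟨hTb _ h1, a, b, d, ha, hb, h1⟩
    · rintro ⟨h1, a', b', d', ha', hb', h2⟩
      refine hTc _ _ h2 h1 ?_ ?_
      · simp only
        rw [abs_le]
        omega
      · simp only
        rw [abs_le]
        omega
  have h1 := (hτ i j 0 (Or.inl rfl) (Or.inl rfl)).trans
    (and_congr (K5_mem0 S i j) Iff.rfl)
  have h2 := (hτ (i + 1) j 2 (Or.inr rfl) (Or.inl rfl)).trans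
    (and_congr (K5_mem2 S (i + 1) j) Iff.rfl)
  have h3 := (hτ i (j + 1) 0 (Or.inl rfl) (Or.inr rfl)).trans
    (and_congr (K5_mem0 S i (j + 1)) Iff.rfl)
  have h4 := (hτ (i + 1) (j + 1) 2 (Or.inr rfl) (Or.inr rfl)).trans
    (and_congr (K5_mem2 S (i + 1) (j + 1)) Iff.rfl)
  have h5 := (hτ i j 1 (Or.inl rfl) (Or.inl rfl)).trans
    (and_congr (K5_mem1 S i j) Iff.rfl)
  have h6 := (hτ i (j + 1) 3 (Or.inl rfl) (Or.inr rfl)).trans
    (and_congr (K5_mem3 S i (j + 1)) Iff.rfl)
  have h7 := (hτ (i + 1) j 1 (Or.inr rfl) (Or.inl rfl)).trans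
    (and_congr (K5_mem1 S (i + 1) j) Iff.rfl)
  have h8 := (hτ (i + 1) (j + 1) 3 (Or.inr rfl) (Or.inr rfl)).trans
    (and_congr (K5_mem3 S (i + 1) (j + 1)) Iff.rfl)
  rw [add_sub_cancel_right] at h2 h4 h6 h8
  have hcb := hn i j
  simp only [Finset.mem_coe] at hcb
  unfold K5_hh K5_vv
  rw [if_congr (or_congr h1 h2) rfl rfl, if_congr (or_congr h3 h4) rfl rfl,
    if_congr (or_congr h5 h6) rfl rfl, if_congr (or_congr h7 h8) rfl rfl]
  have e : (1 : ZMod 2) + 1 = 0 := rfl
  clear h1 h2 h3 h4 h5 h6 h7 h8 hτ hTb hTc hn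
  by_cases ht : τ <;> by_cases hA : (i, j) ∈ S <;> by_cases hB : (i + 1, j) ∈ S <;>
    by_cases hC : (i, j + 1) ∈ S <;> by_cases hD : (i + 1, j + 1) ∈ S <;> simp_all

private theorem K5_pot {S : Finset (ℤ × ℤ)} (hn : NoCB (↑S : Set Cell))
    (T : (ℤ × ℤ) × Fin 4 → Prop) (hTb : ∀ e, T e → e ∈ bdE S)
    (hTc : ∀ e e', T e → e' ∈ bdE S → |e.1.1 - e'.1.1| ≤ 1 → |e.1.2 - e'.1.2| ≤ 1 → T e') :
    ∃ g : ℤ → ℤ → ZMod 2, (∀ i j, g (i + 1) j = g i j + K5_hh T i j) ∧
      ∀ i j, g i (j + 1) = g i j + K5_vv T i j := by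
  classical
  obtain ⟨L, hL0, hL⟩ := K5_bound S
  have hout : ∀ (i j : ℤ) (d : Fin 4), i ≤ -L → ¬ T ((i, j), d) := by
    intro i j d hi hT
    have := (hL _ ((K5_mem S _).mp (hTb _ hT)).1).1
    simp only at this
    omega
  have hh0 : ∀ i j, i < -L → K5_hh T i j = 0 := by
    intro i j hi
    unfold K5_hh
    rw [if_neg]
    rintro (h1 | h1)
    · exact hout _ _ _ (by omega) h1
    · exact hout _ _ _ (by omega) h1
  have vv0 : ∀ i j, i ≤ -L → K5_vv T i j = 0 := by
    intro i j hi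
    unfold K5_vv
    rw [if_neg]
    rintro (h1 | h1)
    · exact hout _ _ _ (by omega) h1
    · exact hout _ _ _ (by omega) h1
  have hG : ∀ (n : ℕ) (j : ℤ), ∑ k ∈ Finset.range n, K5_hh T (-L + k) (j + 1)
      = ∑ k ∈ Finset.range n, K5_hh T (-L + k) j + K5_vv T (-L + n) j := by
    intro n j
    induction n with
    | zero =>
      rw [Finset.sum_range_zero, Finset.sum_range_zero, vv0 _ _ (by simp), add_zero]
    | succ n ih =>
      rw [Finset.sum_range_succ, Finset.sum_range_succ, ih]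
      have hb := K5_block hn T hTb hTc (-L + n) j
      have e1 : -L + ((n + 1 : ℕ) : ℤ) = -L + n + 1 := by push_cast; ring
      rw [e1]
      have h2 : ∀ x : ZMod 2, x + x = 0 := fun x => CharTwo.add_self_eq_zero x
      have h3 := h2 (K5_hh T (-L + n) j)
      have h4 := h2 (K5_vv T (-L + n + 1) j)
      linear_combination hb - h3 - h4
  refine ⟨fun i j => ∑ k ∈ Finset.range (i + L).toNat, K5_hh T (-L + k) j, ?_, ?_⟩
  · intro i j
    rcases lt_or_ge i (-L) with hi | hi
    · have e1 : (i + 1 + L).toNat = 0 := by omega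
      have e2 : (i + L).toNat = 0 := by omega
      simp only [e1, e2, Finset.sum_range_zero, hh0 i j hi, add_zero]
    · have e1 : (i + 1 + L).toNat = (i + L).toNat + 1 := by omega
      have e2 : -L + ((i + L).toNat : ℤ) = i := by omega
      simp only [e1, Finset.sum_range_succ, e2]
  · intro i j
    rcases lt_or_ge i (-L) with hi | hi
    · have e2 : (i + L).toNat = 0 := by omega
      simp only [e2, Finset.sum_range_zero, vv0 i j hi.le, add_zero]
    · have e2 : -L + ((i + L).toNat : ℤ) = i := by omega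
      have := hG (i + L).toNat j
      rw [e2] at this
      exact this

private theorem K5_main {S : Finset (ℤ × ℤ)} (h : IsPoly (↑S : Set Cell))
    (T : (ℤ × ℤ) × Fin 4 → Prop) (hTb : ∀ e, T e → e ∈ bdE S)
    (hTc : ∀ e e', T e → e' ∈ bdE S → |e.1.1 - e'.1.1| ≤ 1 → |e.1.2 - e'.1.2| ≤ 1 → T e')
    (e0 e1 : (ℤ × ℤ) × Fin 4) (h0 : T e0) (h1 : e1 ∈ bdE S) : T e1 := by
  classical
  obtain ⟨g, gh, gv⟩ := K5_pot h.ncb T hTb hTc
  have hch : ∀ x : ZMod 2, x + x = 0 := fun x => CharTwo.add_self_eq_zero x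
  have hhz : ∀ i j, ((i, j) ∈ S ↔ (i + 1, j) ∈ S) → K5_hh T i j = 0 := by
    intro i j hij
    unfold K5_hh
    rw [if_neg]
    rintro (h2 | h2)
    · have := (K5_mem0 S i j).mp (hTb _ h2)
      exact this.2 (hij.mp this.1)
    · have := (K5_mem2 S (i + 1) j).mp (hTb _ h2)
      rw [add_sub_cancel_right] at this
      exact this.2 (hij.mpr this.1)
  have vvz : ∀ i j, ((i, j) ∈ S ↔ (i, j + 1) ∈ S) → K5_vv T i j = 0 := by
    intro i j hij
    unfold K5_vv
    rw [if_neg]
    rintro (h2 | h2)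
    · have := (K5_mem1 S i j).mp (hTb _ h2)
      exact this.2 (hij.mp this.1)
    · have := (K5_mem3 S i (j + 1)).mp (hTb _ h2)
      rw [add_sub_cancel_right] at this
      exact this.2 (hij.mpr this.1)
  have hstep : ∀ x y : Cell, Nb x y → (x ∈ S ↔ y ∈ S) → g y.1 y.2 = g x.1 x.2 := by
    rintro ⟨i, j⟩ y hxy hS
    rcases hxy with rfl | rfl | rfl | rfl
    · have := gh i j
      rw [hhz i j hS, add_zero] at this
      exact this
    · have := gh (i - 1) j
      rw [hhz (i - 1) j (by rw [sub_add_cancel]; exact hS.symm), add_zero, sub_add_cancel] at this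
      exact this.symm
    · have := gv i j
      rw [vvz i j hS, add_zero] at this
      exact this
    · have := gv i (j - 1)
      rw [vvz i (j - 1) (by rw [sub_add_cancel]; exact hS.symm), add_zero,
        sub_add_cancel] at this
      exact this.symm
  have hin : ∀ a ∈ S, ∀ b ∈ S, g b.1 b.2 = g a.1 a.2 := by
    intro a ha b hb
    have hr := h.conn a (Finset.mem_coe.mpr ha) b (Finset.mem_coe.mpr hb)
    exact hr.closed (R := {c : Cell | g c.1 c.2 = g a.1 a.2}) rfl (by
      intro x y hx hxy hxS hyS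
      have := hstep x y hxy ⟨fun _ => Finset.mem_coe.mp hyS, fun _ => Finset.mem_coe.mp hxS⟩
      exact this.trans hx)
  have hou : ∀ a, a ∉ S → ∀ b, b ∉ S → g b.1 b.2 = g a.1 a.2 := by
    intro a ha b hb
    have hr := h.cconn a (by simpa using ha) b (by simpa using hb)
    exact hr.closed (R := {c : Cell | g c.1 c.2 = g a.1 a.2}) rfl (by
      intro x y hx hxy hxS hyS
      have hxS' : x ∉ S := by simpa using hxS
      have hyS' : y ∉ S := by simpa using hyS
      have := hstep x y hxy ⟨fun h' => absurd h' hxS', fun h' => absurd h' hyS'⟩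
      exact this.trans hx)
  have hedge : ∀ e : (ℤ × ℤ) × Fin 4, e ∈ bdE S →
      g (e.1.1 + (dir e.2).1) (e.1.2 + (dir e.2).2) = g e.1.1 e.1.2 + (if T e then 1 else 0) := by
    rintro ⟨⟨i, j⟩, d⟩ he
    fin_cases d
    · have hm := (K5_mem0 S i j).mp he
      have e1 : K5_hh T i j = if T ((i, j), 0) then 1 else 0 := by
        unfold K5_hh
        refine if_congr ?_ rfl rfl
        constructor
        · rintro (h2 | h2)
          · exact h2
          · exact absurd ((K5_mem2 S (i + 1) j).mp (hTb _ h2)).1 hm.2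
        · exact Or.inl
      have := gh i j
      rw [e1] at this
      simpa [dir] using this
    · have hm := (K5_mem1 S i j).mp he
      have e1 : K5_vv T i j = if T ((i, j), 1) then 1 else 0 := by
        unfold K5_vv
        refine if_congr ?_ rfl rfl
        constructor
        · rintro (h2 | h2)
          · exact h2
          · exact absurd ((K5_mem3 S i (j + 1)).mp (hTb _ h2)).1 hm.2
        · exact Or.inl
      have := gv i j
      rw [e1] at this
      simpa [dir] using this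
    · have hm := (K5_mem2 S i j).mp he
      have e1 : K5_hh T (i - 1) j = if T ((i, j), 2) then 1 else 0 := by
        unfold K5_hh
        rw [sub_add_cancel]
        refine if_congr ?_ rfl rfl
        constructor
        · rintro (h2 | h2)
          · exact absurd ((K5_mem0 S (i - 1) j).mp (hTb _ h2)).1 hm.2
          · exact h2
        · exact Or.inr
      have h3 := gh (i - 1) j
      rw [e1, sub_add_cancel] at h3
      have h4 : g (i - 1) j = g i j + (if T ((i, j), 2) then 1 else 0) := by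
        rw [h3]
        linear_combination -hch (if T ((i, j), 2) then (1 : ZMod 2) else 0)
      simpa [dir, sub_eq_add_neg] using h4
    · have hm := (K5_mem3 S i j).mp he
      have e1 : K5_vv T i (j - 1) = if T ((i, j), 3) then 1 else 0 := by
        unfold K5_vv
        rw [sub_add_cancel]
        refine if_congr ?_ rfl rfl
        constructor
        · rintro (h2 | h2)
          · exact absurd ((K5_mem1 S i (j - 1)).mp (hTb _ h2)).1 hm.2
          · exact h2
        · exact Or.inr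
      have h3 := gv i (j - 1)
      rw [e1, sub_add_cancel] at h3
      have h4 : g i (j - 1) = g i j + (if T ((i, j), 3) then 1 else 0) := by
        rw [h3]
        linear_combination -hch (if T ((i, j), 3) then (1 : ZMod 2) else 0)
      simpa [dir, sub_eq_add_neg] using h4
  have hb0 := hTb _ h0
  have m0 := (K5_mem S e0).mp hb0
  have m1 := (K5_mem S e1).mp h1
  have q0 := hedge e0 hb0
  have q1 := hedge e1 h1
  rw [if_pos h0] at q0
  by_contra hc
  rw [if_neg hc, add_zero] at q1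
  have r1 := hin _ m0.1 _ m1.1
  have r2 := hou _ m0.2 _ m1.2
  simp only at r2
  rw [q0, q1, r1] at r2
  have : (1 : ZMod 2) = 0 := by linear_combination -r2
  exact absurd this (by decide)

/-- The boundary edges of a polygon are connected, where two edges are linked if their cells
differ by at most one in each coordinate.

PROOF. Let `e0, e1 ∈ bdE S`, `R e e' :⟺ |e.1.1 - e'.1.1| ≤ 1, |e.1.2 - e'.1.2| ≤ 1, both in bdE S`. Let
`E1` be the set of `e ∈ bdE S` with `ReflTransGen R e0 e`. For cells `a, b` which are neighbours let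
`t a b = 1` (in `ZMod 2`) if the boundary edge between them (the pair (a, direction of b) if `a ∈ S`,
`b ∉ S`, or (b, direction of a) if `b ∈ S`, `a ∉ S`) is in `E1`, and `0` otherwise (in particular if both or
none are in `S`). Put `hh i j = t (i,j) (i+1,j)`, `vv i j = t (i,j) (i,j+1)`; both vanish outside a bounded
region.
(1) For every block: `hh i j + hh i (j+1) + vv i j + vv (i+1) j = 0`: the number of pairs of neighbours
of the block with exactly one in `S` is `0` or `2` by `NoCB` (it is `0, 2` for 0, 1, 3, 4 cells and for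
two neighbouring cells), and if it is `2`, the cells of `S` in these two edges differ by at most one
in each coordinate, so both edges are in `E1` or none.
(2) Potential: `g (i, j) = ∑_{a ∈ Ico (-L) i} hh a j`, `L` large (all boundary edges in `(-L, L)^2`). Then
`g (i+1, j) = g (i, j) + hh i j` for all `i` (for `i < -L` all terms vanish) and
`g (i, j+1) = g (i, j) + vv i j` [`∑_{a ∈ Ico (-L) i} (hh a j + hh a (j+1)) = ∑ (vv a j + vv (a+1) j) =
vv (-L) j + vv i j = vv i j`, telescoping in characteristic 2; for `i < -L` both sides vanish]. So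
`g a + g b = t a b` for neighbours `a, b`.
(3) `g` is constant on `S` (connected, `t = 0` inside `S`) and constant on `Sᶜ`. So `t` has the same
value on all boundary edges; it is `1` on `e0`, so it is `1` on `e1`, i.e. `e1 ∈ E1`. -/
theorem bdE_conn {S : Finset (ℤ × ℤ)} (h : IsPoly (↑S : Set Cell)) :
    ∀ e ∈ bdE S, ∀ e' ∈ bdE S, Relation.ReflTransGen
      (fun x y : (ℤ × ℤ) × Fin 4 => (|x.1.1 - y.1.1| ≤ 1 ∧ |x.1.2 - y.1.2| ≤ 1) ∧
        x ∈ bdE S ∧ y ∈ bdE S) e e' := by
  intro e he e' he'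
  refine (K5_main h (fun x => x ∈ bdE S ∧ Relation.ReflTransGen
      (fun x y : (ℤ × ℤ) × Fin 4 => (|x.1.1 - y.1.1| ≤ 1 ∧ |x.1.2 - y.1.2| ≤ 1) ∧
        x ∈ bdE S ∧ y ∈ bdE S) e x) (fun x hx => hx.1) ?_ e e'
    ⟨he, Relation.ReflTransGen.refl⟩ he').2
  rintro x y ⟨hx, hx'⟩ hy h1 h2
  exact ⟨hy, hx'.tail ⟨⟨h1, h2⟩, hx, hy⟩⟩

end Pool.Agent.Lib.MP_dcf1eb_pr
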