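import Pool.Agent.Lib.MP_dcf1eb_pr.A2
import Pool.Agent.Lib.MP_dcf1eb_pr.K3
import Pool.Agent.Lib.MP_dcf1eb_pr.K5

/-!
# Fixed area polygons: polygons of small perimeter (K6)
-/

set_option autoImplicit false

namespace Pool.Agent.Lib.MP_dcf1eb_pr

/-- The 36 generators. -/
private def K6_st (g : Fin 36) (x : (ℤ × ℤ) × Fin 4) : (ℤ × ℤ) × Fin 4 :=
  ((x.1.1 + ((g.val / 12 : ℕ) : ℤ) - 1, x.1.2 + ((g.val / 4 % 3 : ℕ) : ℤ) - 1),
    ⟨g.val % 4, Nat.mod_lt _ (by norm_num)⟩)

private theorem K6_exists (x y : (ℤ × ℤ) × Fin 4) (h1 : |x.1.1 - y.1.1| ≤ 1)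
    (h2 : |x.1.2 - y.1.2| ≤ 1) : ∃ g, y = K6_st g x := by
  obtain ⟨⟨x1, x2⟩, d⟩ := x
  obtain ⟨⟨y1, y2⟩, ⟨e, he⟩⟩ := y
  simp only at h1 h2
  rw [abs_le] at h1 h2
  obtain ⟨i, hi⟩ : ∃ i : ℕ, (i : ℤ) = y1 - x1 + 1 := ⟨(y1 - x1 + 1).toNat, by omega⟩
  obtain ⟨j, hj⟩ : ∃ j : ℕ, (j : ℤ) = y2 - x2 + 1 := ⟨(y2 - x2 + 1).toNat, by omega⟩
  have hi3 : i < 3 := by omega
  have hj3 : j < 3 := by omega
  refine ⟨⟨12 * i + 4 * j + e, by omega⟩, ?_⟩
  have e1 : (12 * i + 4 * j + e) / 12 = i := by omega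
  have e2 : (12 * i + 4 * j + e) / 4 % 3 = j := by omega
  have e3 : (12 * i + 4 * j + e) % 4 = e := by omega
  simp only [K6_st, Prod.mk.injEq, Fin.mk.injEq]
  refine ⟨⟨?_, ?_⟩, e3.symm⟩
  · rw [e1]; omega
  · rw [e2]; omega

private theorem K6_symm (g : Fin 36) (x : (ℤ × ℤ) × Fin 4) : ∃ g', x = K6_st g' (K6_st g x) := by
  apply K6_exists
  · simp only [K6_st]
    have : (g.val / 12 : ℕ) < 3 := by have := g.isLt; omega
    rw [abs_le]
    constructor <;> omega
  · simp only [K6_st]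
    have : (g.val / 4 % 3 : ℕ) < 3 := Nat.mod_lt _ (by norm_num)
    rw [abs_le]
    constructor <;> omega

private theorem K6_StConn {S : Finset (ℤ × ℤ)} (h : IsPoly (↑S : Set Cell)) :
    StConn K6_st (bdE S) := by
  intro a ha b hb
  have h0 := bdE_conn h a ha b hb
  induction h0 with
  | refl => exact Relation.ReflTransGen.refl
  | tail _ h1 ih =>
    obtain ⟨⟨h2, h3⟩, hx, hy⟩ := h1
    exact Relation.ReflTransGen.tail (ih hx) ⟨K6_exists _ _ h2 h3, hx, hy⟩

/-- PROOF. `S ∈ polys n` contains a cell `(0, y)`, `0 ≤ y ≤ n`; then `((0, y), 2) ∈ bdE S` since all first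
coordinates are `≥ 0`. For fixed `y` and fixed `k` the map `S ↦ bdE S` is injective (`bdE_inj`) and by
`count_conn` with the 36 generators `(p, d) ↦ (p + (i - 1, j - 1), d')`, `i, j ∈ {0,1,2}`, `d' ∈ Fin 4`
(`Fin 36` via `finProdFinEquiv` or `Fin 3 × Fin 3 × Fin 4` re-indexed; the symmetric step exists)
there are at most `36 ^ (2 * k)` sets `bdE S` of cardinality `k = perim S` (`bdE_card`) which contain
`((0, y), 2)` (`bdE_conn` gives `StConn`). Sum over `k ≤ M` and `y ≤ n`. -/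
theorem small_perim (n M : ℕ) :
    ((polys n).filter (fun S => perim S ≤ M)).card ≤ (n + 1) * (M + 1) * 36 ^ (2 * M) := by
  classical
  let F : ℕ × ℕ → Finset (Finset (ℤ × ℤ)) := fun yk =>
    (polys n).filter (fun S => perim S = yk.2 ∧ ((0, (yk.1 : ℤ)), 2) ∈ bdE S)
  have hcover : (polys n).filter (fun S => perim S ≤ M)
      ⊆ (Finset.range (n + 1) ×ˢ Finset.range (M + 1)).biUnion F := by
    intro S hS
    rw [Finset.mem_filter] at hS
    obtain ⟨hS, hM⟩ := hS
    have hP := (mem_polys.1 hS)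
    obtain ⟨hpoly, hcard, hnorm⟩ := hP
    have hsub : S ⊆ Finset.Icc (0 : ℤ) n ×ˢ Finset.Icc (0 : ℤ) n := by
      have hS' := hS
      unfold polys at hS'
      rw [Finset.mem_filter, Finset.mem_powerset] at hS'
      exact hS'.1
    obtain ⟨hnn, ⟨a, haS, ha0⟩, -⟩ := hnorm
    have ha := hsub haS
    rw [Finset.mem_product, Finset.mem_Icc, Finset.mem_Icc] at ha
    obtain ⟨y, hy⟩ : ∃ y : ℕ, (y : ℤ) = a.2 := ⟨a.2.toNat, by omega⟩
    have hay : a = (0, (y : ℤ)) := by
      rw [hy, ← ha0]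
    rw [Finset.mem_biUnion]
    refine ⟨(y, perim S), ?_, ?_⟩
    · rw [Finset.mem_product, Finset.mem_range, Finset.mem_range]
      constructor
      · simp only
        omega
      · simp only
        omega
    · simp only [F, Finset.mem_filter]
      refine ⟨hS, trivial, ?_⟩
      unfold bdE
      rw [Finset.mem_filter, Finset.mem_product]
      refine ⟨⟨?_, Finset.mem_univ _⟩, ?_⟩
      · rw [← hay]; exact haS
      · intro hmem
        have h2 : dir 2 = (-1, 0) := by
          unfold dir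
          rw [if_neg (by decide), if_neg (by decide), if_pos rfl]
        simp only [h2] at hmem
        have := (hnn _ hmem).1
        simp only at this
        omega
  have hF : ∀ yk ∈ Finset.range (n + 1) ×ˢ Finset.range (M + 1), (F yk).card ≤ 36 ^ (2 * M) := by
    rintro ⟨y, k⟩ hyk
    rw [Finset.mem_product, Finset.mem_range, Finset.mem_range] at hyk
    have h1 : ((F (y, k)).image bdE).card = (F (y, k)).card :=
      Finset.card_image_of_injective _ (fun S S' h => bdE_inj h)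
    rw [← h1]
    have h2 := count_conn (by norm_num : 0 < 36) K6_st K6_symm ((0, (y : ℤ)), 2) k
      ((F (y, k)).image bdE) (by
        intro E hE
        rw [Finset.mem_image] at hE
        obtain ⟨S, hS, rfl⟩ := hE
        simp only [F, Finset.mem_filter] at hS
        refine ⟨hS.2.2, ?_, K6_StConn (mem_polys.1 hS.1).1⟩
        rw [bdE_card]; exact hS.2.1)
    refine le_trans h2 (Nat.pow_le_pow_right (by norm_num) ?_)
    have := hyk.2
    simp only at this
    omega
  calc ((polys n).filter (fun S => perim S ≤ M)).card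
      ≤ ((Finset.range (n + 1) ×ˢ Finset.range (M + 1)).biUnion F).card := Finset.card_le_card hcover
    _ ≤ (Finset.range (n + 1) ×ˢ Finset.range (M + 1)).card * 36 ^ (2 * M) :=
        Finset.card_biUnion_le_card_mul _ _ _ hF
    _ = (n + 1) * (M + 1) * 36 ^ (2 * M) := by
        rw [Finset.card_product, Finset.card_range, Finset.card_range]

end Pool.Agent.Lib.MP_dcf1eb_pr
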