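import Pool.Agent.Lib.MP_dcf1eb_pr.K6
import Pool.Agent.Lib.MP_dcf1eb_pr.K7

/-!
# Fixed area polygons: the perimeter is of order n (K8)
-/

set_option autoImplicit false

open Filter

namespace Pool.Agent.Lib.MP_dcf1eb_pr

private theorem K8_growth {a : ℝ} (ha : 0 < a) :
    ∀ᶠ n : ℕ in atTop, ((n : ℝ) + 1) ^ 2 ≤ Real.exp (a * n) := by
  have h1 : 1 < Real.exp a := Real.one_lt_exp_iff.2 ha
  have h2 := (isLittleO_pow_const_const_pow_of_one_lt (R := ℝ) 2 h1).def
    (show (0 : ℝ) < 1 / 4 by norm_num)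
  filter_upwards [h2, eventually_ge_atTop 1] with n hn hn1
  have hn1' : (1 : ℝ) ≤ (n : ℝ) := by exact_mod_cast hn1
  rw [Real.norm_of_nonneg (by positivity), Real.norm_of_nonneg (by positivity), ← Real.exp_nat_mul,
    mul_comm (n : ℝ) a] at hn
  nlinarith

/-- PROOF. Let `F = FE t > 0`. Choose `ε ∈ (0, 1]` with `ε * (|t| / 2 + 2 * log 36) ≤ F / 4`. With
`M = ⌊ε n⌋₊`: every `S` on the left has `perim S ≤ M` and `wt t S ≤ exp (|t| ε n / 2)`, their number is at
most `(n + 1) * (M + 1) * 36 ^ (2 M) ≤ (n + 1) ^ 2 * exp (2 ε n log 36)` by `small_perim`. So the left side is at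
most `(n+1)^2 * exp (F n / 4)`; eventually `ZZ n t ≥ exp (3 F n / 4)` (`FE_le_ZZ` with `η = F / 4`) and
`(n + 1)^2 ≤ exp (F n / 4)`. So `c = F / 4` works. -/
theorem small_perim_rare {t : ℝ} (ht : 0 < FE t) : ∃ ε c : ℝ, 0 < ε ∧ ε ≤ 1 ∧ 0 < c ∧
    ∀ᶠ n : ℕ in atTop,
      ∑ S ∈ (polys n).filter (fun S => (perim S : ℝ) ≤ ε * n), wt t S ≤
        Real.exp (-(c * n)) * ZZ n t := by
  set F := FE t with hF
  have hlog : 0 ≤ Real.log 36 := Real.log_nonneg (by norm_num)
  set B := |t| / 2 + 2 * Real.log 36 with hB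
  have hB0 : 0 ≤ B := by positivity
  refine ⟨min 1 (F / 4 / (B + 1)), F / 4, ?_, min_le_left _ _, by linarith, ?_⟩
  · exact lt_min one_pos (by positivity)
  set ε := min 1 (F / 4 / (B + 1)) with hε
  have hε0 : 0 < ε := lt_min one_pos (by positivity)
  have hε1 : ε ≤ 1 := min_le_left _ _
  have hεB : ε * B ≤ F / 4 := by
    have h1 : ε ≤ F / 4 / (B + 1) := min_le_right _ _
    rw [le_div_iff₀ (by linarith)] at h1
    nlinarith
  filter_upwards [K8_growth (show 0 < F / 4 by linarith),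
    FE_le_ZZ t (show 0 < F / 4 by linarith)] with n hn1 hn2
  rw [← hF] at hn2
  have hn0 : (0 : ℝ) ≤ (n : ℝ) := Nat.cast_nonneg n
  set M := ⌊ε * n⌋₊ with hM
  have hMle : (M : ℝ) ≤ ε * n := Nat.floor_le (by positivity)
  have hMn : (M : ℝ) ≤ n := hMle.trans (by nlinarith)
  have hsub : (polys n).filter (fun S => (perim S : ℝ) ≤ ε * n) ⊆
      (polys n).filter (fun S => perim S ≤ M) := by
    intro S hS
    rw [Finset.mem_filter] at hS ⊢
    exact ⟨hS.1, Nat.le_floor hS.2⟩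
  have hcard : (((polys n).filter (fun S => (perim S : ℝ) ≤ ε * n)).card : ℝ) ≤
      ((n : ℝ) + 1) ^ 2 * Real.exp (2 * Real.log 36 * (ε * n)) := by
    have h1 : (((polys n).filter (fun S => (perim S : ℝ) ≤ ε * n)).card : ℝ) ≤
        (((n + 1) * (M + 1) * 36 ^ (2 * M) : ℕ) : ℝ) := by
      exact_mod_cast (Finset.card_le_card hsub).trans (small_perim n M)
    refine h1.trans ?_
    have h2 : (36 : ℝ) ^ (2 * M) = Real.exp (2 * Real.log 36 * M) := by
      have h3 : (36 : ℝ) = Real.exp (Real.log 36) := (Real.exp_log (by norm_num)).symm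
      conv_lhs => rw [h3]
      rw [← Real.exp_nat_mul]
      congr 1
      push_cast
      ring
    push_cast
    rw [h2]
    have h4 : Real.exp (2 * Real.log 36 * M) ≤ Real.exp (2 * Real.log 36 * (ε * n)) :=
      Real.exp_le_exp.2 (mul_le_mul_of_nonneg_left hMle (by positivity))
    have h5 : ((n : ℝ) + 1) * ((M : ℝ) + 1) ≤ ((n : ℝ) + 1) ^ 2 := by nlinarith
    exact mul_le_mul h5 h4 (Real.exp_pos _).le (by positivity)
  have hwt : ∀ S ∈ (polys n).filter (fun S => (perim S : ℝ) ≤ ε * n),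
      wt t S ≤ Real.exp (|t| / 2 * (ε * n)) := by
    intro S hS
    have h1 := (Finset.mem_filter.1 hS).2
    unfold wt
    rw [Real.exp_le_exp]
    have h2 : t * ((perim S : ℝ) / 2) ≤ |t| * ((perim S : ℝ) / 2) :=
      mul_le_mul_of_nonneg_right (le_abs_self t) (by positivity)
    have h3 : |t| * ((perim S : ℝ) / 2) ≤ |t| * (ε * n / 2) :=
      mul_le_mul_of_nonneg_left (by linarith) (abs_nonneg t)
    linarith
  have hsum : ∑ S ∈ (polys n).filter (fun S => (perim S : ℝ) ≤ ε * n), wt t S ≤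
      ((n : ℝ) + 1) ^ 2 * Real.exp (F / 4 * n) := by
    refine (Finset.sum_le_card_nsmul _ _ _ hwt).trans ?_
    rw [nsmul_eq_mul]
    refine (mul_le_mul_of_nonneg_right hcard (Real.exp_pos _).le).trans ?_
    rw [mul_assoc, ← Real.exp_add]
    refine mul_le_mul_of_nonneg_left (Real.exp_le_exp.2 ?_) (by positivity)
    have h1 : 2 * Real.log 36 * (ε * n) + |t| / 2 * (ε * n) = ε * B * n := by
      rw [hB]
      ring
    rw [h1]
    exact mul_le_mul_of_nonneg_right hεB hn0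
  refine hsum.trans ?_
  calc ((n : ℝ) + 1) ^ 2 * Real.exp (F / 4 * n)
      ≤ Real.exp (F / 4 * n) * Real.exp (F / 4 * n) :=
        mul_le_mul_of_nonneg_right hn1 (Real.exp_pos _).le
    _ = Real.exp (-(F / 4 * n)) * Real.exp ((F - F / 4) * n) := by
        rw [← Real.exp_add, ← Real.exp_add]
        congr 1
        ring
    _ ≤ Real.exp (-(F / 4 * n)) * ZZ n t := mul_le_mul_of_nonneg_left hn2 (Real.exp_pos _).le

end Pool.Agent.Lib.MP_dcf1eb_pr
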