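import Pool.Agent.Lib.MP_dcf1eb_pr.F0

/-!
# Fixed area polygons: the ring pattern (N0)

The pattern at `z` lives on the 36 cells `z + [-1, 4]^2`: the outer ring of this square is outside
`S`, except exactly one of the two cells `z + (1, -1)`, `z + (2, -1)` (the bridge), and the block
`z + [0, 3]^2` is in `S`, except exactly one of the cells `gy z = z + (1, 3)`, `gx z = z + (3, 3)`.
-/

set_option autoImplicit false

namespace Pool.Agent.Lib.MP_dcf1eb_pr

/-- The common part of the two states of the pattern at `z`. -/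
def QC (S : Set Cell) (z : Cell) : Prop :=
  (∀ i j : ℤ, -1 ≤ i → i ≤ 4 → -1 ≤ j → j ≤ 4 → (i = -1 ∨ i = 4 ∨ j = -1 ∨ j = 4) →
    ¬ (j = -1 ∧ (i = 1 ∨ i = 2)) → (z.1 + i, z.2 + j) ∉ S) ∧
  ((z.1 + 1, z.2 - 1) ∈ S ↔ (z.1 + 2, z.2 - 1) ∉ S) ∧
  (∀ i j : ℤ, 0 ≤ i → i ≤ 3 → 0 ≤ j → j ≤ 3 → ¬ (j = 3 ∧ (i = 1 ∨ i = 3)) →
    (z.1 + i, z.2 + j) ∈ S)

/-- The two cells which are exchanged. -/
def gy (z : Cell) : Cell := (z.1 + 1, z.2 + 3)
def gx (z : Cell) : Cell := (z.1 + 3, z.2 + 3)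

/-- First state: `gy z` in, `gx z` out. -/
def QA (S : Set Cell) (z : Cell) : Prop := QC S z ∧ gy z ∈ S ∧ gx z ∉ S

/-- Second state: `gy z` out, `gx z` in. -/
def QB (S : Set Cell) (z : Cell) : Prop := QC S z ∧ gy z ∉ S ∧ gx z ∈ S

/-- Exchange of the two states at `z`. -/
noncomputable def tg (S : Finset (ℤ × ℤ)) (z : Cell) : Finset (ℤ × ℤ) :=
  symmDiff S {gy z, gx z}

open Classical in
/-- All occurrences of the pattern. -/
noncomputable def oc (S : Finset (ℤ × ℤ)) : Finset (ℤ × ℤ) :=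
  S.filter (fun z => QA (↑S : Set Cell) z ∨ QB (↑S : Set Cell) z)

/-- Ring cells, not bridge cells, as a Boolean. -/
private def N0_R (i j : ℤ) : Bool :=
  decide (-1 ≤ i ∧ i ≤ 4 ∧ -1 ≤ j ∧ j ≤ 4 ∧ (i = -1 ∨ i = 4 ∨ j = -1 ∨ j = 4) ∧
    ¬ (j = -1 ∧ (i = 1 ∨ i = 2)))

/-- Sure cells of the block, as a Boolean. -/
private def N0_B (i j : ℤ) : Bool :=
  decide (0 ≤ i ∧ i ≤ 3 ∧ 0 ≤ j ∧ j ≤ 3 ∧ ¬ (j = 3 ∧ (i = 1 ∨ i = 3)))

private theorem N0_dec : ∀ a b : Fin 9, (a ≠ 4 ∨ b ≠ 4) → ∃ i j : Fin 6,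
    (N0_R ((i.val : ℤ) - 1) ((j.val : ℤ) - 1) = true ∧
      N0_B ((i.val : ℤ) - 1 - ((a.val : ℤ) - 4)) ((j.val : ℤ) - 1 - ((b.val : ℤ) - 4)) = true) ∨
    (N0_B ((i.val : ℤ) - 1) ((j.val : ℤ) - 1) = true ∧
      N0_R ((i.val : ℤ) - 1 - ((a.val : ℤ) - 4)) ((j.val : ℤ) - 1 - ((b.val : ℤ) - 4)) = true) := by
  decide +kernel

private theorem N0_key {S : Set Cell} {z z' : Cell} (h : QC S z) (h' : QC S z') {i j i' j' : ℤ}
    (hR : N0_R i j = true) (hB : N0_B i' j' = true) (e1 : z.1 + i = z'.1 + i')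
    (e2 : z.2 + j = z'.2 + j') : False := by
  unfold N0_R at hR
  unfold N0_B at hB
  obtain ⟨a1, a2, a3, a4, a5, a6⟩ := of_decide_eq_true hR
  obtain ⟨b1, b2, b3, b4, b5⟩ := of_decide_eq_true hB
  have h1 := h.1 i j a1 a2 a3 a4 a5 a6
  have h2 := h'.2.2 i' j' b1 b2 b3 b4 b5
  rw [e1, e2] at h1
  exact h1 h2

/-- Two different occurrences do not interfere: the exchanged cells of one are not in the square of
the other, and their blocks `z + [0, 3]^2` are disjoint. Stated as: the anchors differ by at least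
`5` in one coordinate. PROOF. Let `z' = z + (dx, dy)`, `|dx|, |dy| ≤ 4`, `(dx, dy) ≠ (0, 0)`. By symmetry
between `z` and `z'` (exchange them) finite case analysis: the cells of the ring of one of the
patterns which lie in the block of the other, not exchanged cells, give a contradiction. (This
was checked by computer for all states and bridges.) In Lean: e.g. `interval_cases` on `dx`, `dy`
(`dx = z'.1 - z.1` in `[-4, 4]`), for each of the 80 cases find a pair of offsets `(i, j)`,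
`(i - dx, j - dy)` with contradicting prescriptions; the corner cells `(-1,-1)`, `(-1,4)`, `(4,-1)`, `(4,4)`
and the other ring cells of one pattern against the 14 sure cells of the block of the other. -/
theorem oc_sep {S : Set Cell} {z z' : Cell} (h : QC S z) (h' : QC S z') (hne : z ≠ z') :
    5 ≤ |z'.1 - z.1| ∨ 5 ≤ |z'.2 - z.2| := by
  by_contra hc
  have hc1 : |z'.1 - z.1| < 5 := not_le.mp (fun h1 => hc (Or.inl h1))
  have hc2 : |z'.2 - z.2| < 5 := not_le.mp (fun h1 => hc (Or.inr h1))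
  obtain ⟨c1, c2⟩ := abs_lt.mp hc1
  obtain ⟨c3, c4⟩ := abs_lt.mp hc2
  have ea : (((z'.1 - z.1 + 4).toNat : ℕ) : ℤ) = z'.1 - z.1 + 4 := Int.toNat_of_nonneg (by omega)
  have eb : (((z'.2 - z.2 + 4).toNat : ℕ) : ℤ) = z'.2 - z.2 + 4 := Int.toNat_of_nonneg (by omega)
  have hab : ((⟨(z'.1 - z.1 + 4).toNat, by omega⟩ : Fin 9) ≠ 4 ∨
      (⟨(z'.2 - z.2 + 4).toNat, by omega⟩ : Fin 9) ≠ 4) := by
    by_contra hcon
    have h1 : (⟨(z'.1 - z.1 + 4).toNat, by omega⟩ : Fin 9) = 4 := by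
      by_contra h0
      exact hcon (Or.inl h0)
    have h2 : (⟨(z'.2 - z.2 + 4).toNat, by omega⟩ : Fin 9) = 4 := by
      by_contra h0
      exact hcon (Or.inr h0)
    have h3 : (z'.1 - z.1 + 4).toNat = 4 := congrArg Fin.val h1
    have h4 : (z'.2 - z.2 + 4).toNat = 4 := congrArg Fin.val h2
    apply hne
    exact Prod.ext (by omega) (by omega)
  obtain ⟨i, j, hij⟩ := N0_dec _ _ hab
  rcases hij with ⟨hR, hB⟩ | ⟨hB, hR⟩
  · exact N0_key h h' hR hB (by simp only [ea]; omega) (by simp only [eb]; omega)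
  · exact N0_key h' h hR hB (by simp only [ea]; omega) (by simp only [eb]; omega)

end Pool.Agent.Lib.MP_dcf1eb_pr
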