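import Pool.Agent.Lib.MP_dcf1eb_pr.E5
import Pool.Agent.Lib.MP_dcf1eb_pr.N0

/-!
# Fixed area polygons: the surgery (N1)
-/

set_option autoImplicit false

namespace Pool.Agent.Lib.MP_dcf1eb_pr

/-- Translation. -/
def trn (t : Cell) (S : Set Cell) : Set Cell := {c | (c.1 - t.1, c.2 - t.2) ∈ S}

private theorem N1_reach {S : Set Cell} (t : Cell) {a b : Cell} (h : Reach S a b) :
    Reach (trn t S) (a.1 + t.1, a.2 + t.2) (b.1 + t.1, b.2 + t.2) := by
  induction h with
  | refl => exact Reach.refl _ _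
  | @tail b c _ h ih =>
    obtain ⟨h1, h2, h3⟩ := h
    refine ih.tail ?_ ?_ ?_
    · rcases b with ⟨b1, b2⟩
      rcases c with ⟨c1, c2⟩
      simp only [Nb, Prod.mk.injEq] at h1 ⊢
      omega
    · simpa [trn] using h2
    · simpa [trn] using h3

private theorem N1_conn {S : Set Cell} (t : Cell) (h : Conn S) : Conn (trn t S) := by
  intro a ha b hb
  have h1 := N1_reach t (h _ ha _ hb)
  simpa using h1

/-- PROOF. `Reach (trn t S) (a + t) (b + t) ↔ Reach S a b` by induction; finiteness: image of `S`. -/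
theorem isPoly_trn {S : Set Cell} (h : IsPoly S) (t : Cell) : IsPoly (trn t S) := by
  refine ⟨?_, ?_, N1_conn t h.conn, ?_, ?_⟩
  · have e : trn t S = (fun c : Cell => (c.1 + t.1, c.2 + t.2)) '' S := by
      ext c
      simp only [trn, Set.mem_setOf_eq, Set.mem_image]
      constructor
      · intro hc
        exact ⟨_, hc, by simp⟩
      · rintro ⟨d, hd, rfl⟩
        simpa using hd
    rw [e]
    exact h.fin.image _
  · obtain ⟨a, ha⟩ := h.ne
    exact ⟨(a.1 + t.1, a.2 + t.2), by simpa [trn] using ha⟩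
  · exact N1_conn t h.cconn
  · intro u v
    have h0 := h.ncb (u - t.1) (v - t.2)
    have e1 : u + 1 - t.1 = u - t.1 + 1 := by ring
    have e2 : v + 1 - t.2 = v - t.2 + 1 := by ring
    simp only [trn, Set.mem_setOf_eq, e1, e2]
    exact h0

/-- The surgery at a boundary cell `x`. PROOF. Translate by `t = (5 - x.1, 5 - x.2)`: `P' = trn t P` is
a polygon with `(5, 5) ∈ P'` and a neighbour of `(5, 5)` outside. `surg_core2` gives `Q'`; then
`Q'' = Q' \ {(7, 7)}` is a polygon by `poly_erase` (`RingOK` at `(7, 7)`: north `(7, 8)`, east `(8, 7)` in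
`R3 g`, so not in `Q'`; south, west, `(6, 6)` in `Q'`). `QA Q'' (4, 4)`: the ring cells are in `R3 g` (for the
bridge: `(g, 3) ∈ Q'`, the other one of `(5, 3), (6, 3)` is in `R3 g`). Translate back by `-t`. -/
theorem surgery2 {P : Set Cell} (hP : IsPoly P) {x y : Cell} (hx : x ∈ P) (hy : y ∉ P)
    (hxy : Nb x y) :
    ∃ Q : Set Cell, IsPoly Q ∧
      (∀ c : Cell, ¬ (x.1 - 5 ≤ c.1 ∧ c.1 ≤ x.1 + 6 ∧ x.2 - 5 ≤ c.2 ∧ c.2 ≤ x.2 + 6) →
        (c ∈ Q ↔ c ∈ P)) ∧
      QA Q (x.1 - 1, x.2 - 1) := by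
  rcases x with ⟨x1, x2⟩
  rcases y with ⟨y1, y2⟩
  have hP' := isPoly_trn hP (5 - x1, 5 - x2)
  have h5 : ((5, 5) : Cell) ∈ trn (5 - x1, 5 - x2) P := by
    have e1 : (5 : ℤ) - (5 - x1) = x1 := by ring
    have e2 : (5 : ℤ) - (5 - x2) = x2 := by ring
    simp only [trn, Set.mem_setOf_eq, e1, e2]
    exact hx
  have hz : ((y1 + (5 - x1), y2 + (5 - x2)) : Cell) ∉ trn (5 - x1, 5 - x2) P := by
    have e1 : y1 + (5 - x1) - (5 - x1) = y1 := by ring
    have e2 : y2 + (5 - x2) - (5 - x2) = y2 := by ring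
    simp only [trn, Set.mem_setOf_eq, e1, e2]
    exact hy
  have hzn : Nb ((5, 5) : Cell) (y1 + (5 - x1), y2 + (5 - x2)) := by
    simp only [Nb, Prod.mk.injEq] at hxy ⊢
    omega
  obtain ⟨Q, hQ, hout, hblk, g, hg, hR, hgQ⟩ := surg_core2 hP' h5 hz hzn
  have m : ∀ i j : ℤ, 4 ≤ i → i ≤ 7 → 4 ≤ j → j ≤ 7 → ((i, j) : Cell) ∈ Q :=
    fun i j a b c d => hblk (i, j) a b c d
  have r : ∀ i j : ℤ, 3 ≤ i → i ≤ 8 → 3 ≤ j → j ≤ 8 → (i = 3 ∨ i = 8 ∨ j = 3 ∨ j = 8) →
      ¬ (i = g ∧ j = 3) → ((i, j) : Cell) ∉ Q := by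
    intro i j a b c d e f
    refine hR (i, j) ⟨a, b, c, d, e, ?_⟩
    rw [ne_eq, Prod.mk.injEq]
    exact f
  have hN : ((7, 7 + 1) : Cell) ∉ Q := r 7 (7 + 1) (by norm_num) (by norm_num) (by norm_num)
    (by norm_num) (by norm_num) (by norm_num)
  have hE : ((7 + 1, 7) : Cell) ∉ Q := r (7 + 1) 7 (by norm_num) (by norm_num) (by norm_num)
    (by norm_num) (by norm_num) (by norm_num)
  have h77 : ((7, 7) : Cell) ∈ Q := m 7 7 (by norm_num) (by norm_num) (by norm_num) (by norm_num)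
  have h67 : ((7 - 1, 7) : Cell) ∈ Q :=
    m (7 - 1) 7 (by norm_num) (by norm_num) (by norm_num) (by norm_num)
  have h66 : ((7 - 1, 7 - 1) : Cell) ∈ Q :=
    m (7 - 1) (7 - 1) (by norm_num) (by norm_num) (by norm_num) (by norm_num)
  have hring : RingOK Q 7 7 :=
    ⟨Or.inl hN, fun h => absurd h hN, fun h => absurd h hE, fun _ _ => h66,
      fun _ h => absurd h hN, fun h => hN h.1, fun h => hE h.1⟩
  have hQ2 := poly_erase hQ h77 hring ⟨_, h67, by simp [Nb]⟩
  have mem : ∀ c : Cell, c ∈ trn (x1 - 5, x2 - 5) (Q \ {((7, 7) : Cell)}) ↔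
      (c.1 - (x1 - 5), c.2 - (x2 - 5)) ∈ Q ∧
        ¬ (c.1 - (x1 - 5) = 7 ∧ c.2 - (x2 - 5) = 7) := by
    intro c
    simp [trn]
  refine ⟨trn (x1 - 5, x2 - 5) (Q \ {((7, 7) : Cell)}), isPoly_trn hQ2 _, ?_, ?_⟩
  · rintro ⟨c1, c2⟩ hc
    simp only at hc
    rw [mem]
    have h1 := hout (c1 - (x1 - 5), c2 - (x2 - 5)) (by
      simp only
      intro h
      apply hc
      omega)
    simp only
    rw [h1]
    have e1 : c1 - (x1 - 5) - (5 - x1) = c1 := by ring
    have e2 : c2 - (x2 - 5) - (5 - x2) = c2 := by ring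
    simp only [trn, Set.mem_setOf_eq, e1, e2]
    constructor
    · exact fun h => h.1
    · intro h
      refine ⟨h, fun h' => hc ?_⟩
      omega
  · refine ⟨⟨?_, ?_, ?_⟩, ?_, ?_⟩
    · intro i j h1 h2 h3 h4 h5 h6
      rw [mem]
      simp only
      have e1 : x1 - 1 + i - (x1 - 5) = 4 + i := by ring
      have e2 : x2 - 1 + j - (x2 - 5) = 4 + j := by ring
      rw [e1, e2]
      rintro ⟨h, -⟩
      exact r (4 + i) (4 + j) (by omega) (by omega) (by omega) (by omega) (by omega)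
        (by omega) h
    · rw [mem, mem]
      simp only
      have e1 : x1 - 1 + 1 - (x1 - 5) = 5 := by ring
      have e2 : x2 - 1 - 1 - (x2 - 5) = 3 := by ring
      have e3 : x1 - 1 + 2 - (x1 - 5) = 6 := by ring
      rw [e1, e2, e3]
      rcases hg with hg | hg
      · subst hg
        have h63 : ((6, 3) : Cell) ∉ Q := r 6 3 (by norm_num) (by norm_num) (by norm_num)
          (by norm_num) (by norm_num) (by norm_num)
        constructor
        · rintro _ ⟨h, -⟩
          exact h63 h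
        · intro _
          exact ⟨hgQ, by norm_num⟩
      · subst hg
        have h53 : ((5, 3) : Cell) ∉ Q := r 5 3 (by norm_num) (by norm_num) (by norm_num)
          (by norm_num) (by norm_num) (by norm_num)
        constructor
        · rintro ⟨h, -⟩ _
          exact h53 h
        · intro h
          exact absurd ⟨hgQ, by norm_num⟩ h
    · intro i j h1 h2 h3 h4 h5
      rw [mem]
      simp only
      have e1 : x1 - 1 + i - (x1 - 5) = 4 + i := by ring
      have e2 : x2 - 1 + j - (x2 - 5) = 4 + j := by ring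
      rw [e1, e2]
      exact ⟨m (4 + i) (4 + j) (by omega) (by omega) (by omega) (by omega), by omega⟩
    · rw [mem]
      simp only [gy]
      have e1 : x1 - 1 + 1 - (x1 - 5) = 5 := by ring
      have e2 : x2 - 1 + 3 - (x2 - 5) = 7 := by ring
      rw [e1, e2]
      exact ⟨m 5 7 (by norm_num) (by norm_num) (by norm_num) (by norm_num), by norm_num⟩
    · rw [mem]
      simp only [gx]
      have e1 : x1 - 1 + 3 - (x1 - 5) = 7 := by ring
      have e2 : x2 - 1 + 3 - (x2 - 5) = 7 := by ring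
      rw [e1, e2]
      rintro ⟨-, h⟩
      exact h ⟨rfl, rfl⟩

end Pool.Agent.Lib.MP_dcf1eb_pr
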