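import Pool.Agent.Lib.MP_dcf1eb_pr.N0

/-!
# Fixed area polygons: perimeter, position and locality of the exchange (N3)
-/

set_option autoImplicit false

namespace Pool.Agent.Lib.MP_dcf1eb_pr

/-- Sum over the four neighbours. -/
private theorem N3_sum (f : ℤ × ℤ → ℕ) (a : ℤ × ℤ) :
    ∑ b ∈ ({(a.1 + 1, a.2), (a.1 - 1, a.2), (a.1, a.2 + 1), (a.1, a.2 - 1)} : Finset (ℤ × ℤ)), f b =
      f (a.1 + 1, a.2) + f (a.1 - 1, a.2) + f (a.1, a.2 + 1) + f (a.1, a.2 - 1) := by
  rw [Finset.sum_insert, Finset.sum_insert, Finset.sum_insert, Finset.sum_singleton]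
  · ring
  · simp only [Finset.mem_singleton, Prod.mk.injEq, not_and]
    intro _ h
    omega
  · simp only [Finset.mem_insert, Finset.mem_singleton, Prod.mk.injEq, not_or, not_and]
    refine ⟨fun h => ?_, fun h => ?_⟩ <;> omega
  · simp only [Finset.mem_insert, Finset.mem_singleton, Prod.mk.injEq, not_or, not_and]
    refine ⟨fun h => ?_, fun h => ?_, fun h => ?_⟩ <;> omega

/-- The four neighbours. -/
private def N3_nb (a : ℤ × ℤ) : Finset (ℤ × ℤ) :=
  {(a.1 + 1, a.2), (a.1 - 1, a.2), (a.1, a.2 + 1), (a.1, a.2 - 1)}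

private theorem N3_nb_symm (a b : ℤ × ℤ) : b ∈ N3_nb a ↔ a ∈ N3_nb b := by
  rcases a with ⟨x, y⟩
  rcases b with ⟨x', y'⟩
  simp only [N3_nb, Finset.mem_insert, Finset.mem_singleton, Prod.mk.injEq]
  omega

private theorem N3_nb_self (a : ℤ × ℤ) : a ∉ N3_nb a := by
  rcases a with ⟨x, y⟩
  simp only [N3_nb, Finset.mem_insert, Finset.mem_singleton, Prod.mk.injEq]
  omega

open Classical in
/-- The number of neighbours in a set. -/
private noncomputable def N3_dg (S : Finset (ℤ × ℤ)) (c : ℤ × ℤ) : ℕ :=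
  (if (c.1 + 1, c.2) ∈ S then 1 else 0) + (if (c.1 - 1, c.2) ∈ S then 1 else 0) +
    (if (c.1, c.2 + 1) ∈ S then 1 else 0) + (if (c.1, c.2 - 1) ∈ S then 1 else 0)

private theorem N3_perim (S : Finset (ℤ × ℤ)) :
    perim S = ∑ a ∈ S, ((N3_nb a).filter fun b => b ∉ S).card := rfl

private theorem N3_card_in (S : Finset (ℤ × ℤ)) (c : ℤ × ℤ) :
    ((N3_nb c).filter fun b => b ∈ S).card = N3_dg S c := by
  rw [Finset.card_filter]
  unfold N3_nb N3_dg
  rw [N3_sum]

private theorem N3_card (c : ℤ × ℤ) : (N3_nb c).card = 4 := by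
  rw [Finset.card_eq_sum_ones]
  unfold N3_nb
  rw [N3_sum (fun _ => 1)]

private theorem N3_card_out (S : Finset (ℤ × ℤ)) (c : ℤ × ℤ) :
    ((N3_nb c).filter fun b => b ∉ S).card + N3_dg S c = 4 := by
  rw [← N3_card_in, ← N3_card c, add_comm]
  exact Finset.card_filter_add_card_filter_not (s := N3_nb c) (fun b => b ∈ S)

private theorem N3_insert {S : Finset (ℤ × ℤ)} {c : ℤ × ℤ} (hc : c ∉ S) :
    perim (insert c S) + 2 * N3_dg S c = perim S + 4 := by
  rw [N3_perim, N3_perim, Finset.sum_insert hc]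
  have h1 : ((N3_nb c).filter fun b => b ∉ insert c S) = (N3_nb c).filter fun b => b ∉ S := by
    refine Finset.filter_congr fun b hb => ?_
    rw [Finset.mem_insert, not_or]
    refine ⟨fun h => h.2, fun h => ⟨fun h2 => ?_, h⟩⟩
    rw [h2] at hb
    exact N3_nb_self c hb
  have h2 : ∀ a ∈ S, ((N3_nb a).filter fun b => b ∉ S).card =
      ((N3_nb a).filter fun b => b ∉ insert c S).card + if a ∈ N3_nb c then 1 else 0 := by
    intro a _
    have h3 : ((N3_nb a).filter fun b => b ∉ S) =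
        ((N3_nb a).filter fun b => b ∉ insert c S) ∪ (if a ∈ N3_nb c then {c} else ∅) := by
      ext b
      simp only [Finset.mem_filter, Finset.mem_union, Finset.mem_insert, not_or]
      by_cases hb : b = c
      · subst hb
        by_cases ha : a ∈ N3_nb b
        · rw [if_pos ha]
          have ha' := (N3_nb_symm b a).1 ha
          simp [ha', hc]
        · rw [if_neg ha]
          have ha' : b ∉ N3_nb a := fun h5 => ha ((N3_nb_symm b a).2 h5)
          simp [ha']
      · have h4 : b ∉ (if a ∈ N3_nb c then ({c} : Finset (ℤ × ℤ)) else ∅) := by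
          split_ifs
          · simpa using hb
          · simp
        simp [hb, h4]
    rw [h3, Finset.card_union_of_disjoint]
    · congr 1
      split_ifs <;> simp
    · rw [Finset.disjoint_left]
      intro b hb hb'
      have h5 : b = c := by
        split_ifs at hb'
        · simpa using hb'
        · simp at hb'
      rw [h5] at hb
      simp at hb
  have h3 : ∑ a ∈ S, (if a ∈ N3_nb c then 1 else 0) = N3_dg S c := by
    rw [← N3_card_in, ← Finset.card_filter]
    refine congrArg Finset.card ?_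
    ext b
    simp only [Finset.mem_filter, and_comm]
  rw [h1, Finset.sum_congr rfl h2, Finset.sum_add_distrib, h3]
  have h4 := N3_card_out S c
  omega

private theorem N3_mem {S : Finset (ℤ × ℤ)} {z : Cell} {a : ℤ × ℤ} :
    a ∈ tg S z ↔ (a ∈ S ∧ ¬ (a = gy z ∨ a = gx z)) ∨ ((a = gy z ∨ a = gx z) ∧ a ∉ S) := by
  unfold tg
  rw [Finset.mem_symmDiff, Finset.mem_insert, Finset.mem_singleton]

/-- PROOF. Write `perim S` as `4 * S.card` minus the number of ordered pairs of neighbouring cells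
of `S`: `perim S + ∑ a ∈ S, ((nbrs of a) ∩ S).card = 4 * S.card`. Inserting a cell `c ∉ S` with `d`
neighbours in `S` changes `perim` by `4 - 2 d`. Insert `gx z` (`d = 2`: west, south; change `0`), then
remove `gy z` (it has `3` neighbours, west, east, south: change `+2`). -/
theorem tg_perim {S : Finset (ℤ × ℤ)} {z : Cell} (hz : QA (↑S : Set Cell) z) :
    perim (tg S z) = perim S + 2 := by
  obtain ⟨⟨hr, hb, hs⟩, hy, hx⟩ := hz
  have hyS : gy z ∈ S := Finset.mem_coe.1 hy
  have hxS : gx z ∉ S := fun h => hx (Finset.mem_coe.2 h)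
  have hyx : gx z ≠ gy z := fun h => hx (h ▸ hy)
  have h1 : tg S z = insert (gx z) (S.erase (gy z)) := by
    ext a
    rw [N3_mem, Finset.mem_insert, Finset.mem_erase]
    constructor
    · rintro (⟨h2, h3⟩ | ⟨h2 | h2, h3⟩)
      · exact Or.inr ⟨fun h4 => h3 (Or.inl h4), h2⟩
      · exact (h3 (h2 ▸ hyS)).elim
      · exact Or.inl h2
    · rintro (h2 | ⟨h2, h3⟩)
      · exact Or.inr ⟨Or.inr h2, h2 ▸ hxS⟩
      · exact Or.inl ⟨h3, fun h4 => h4.elim h2 fun h5 => hxS (h5 ▸ h3)⟩
  have h2 := N3_insert (Finset.notMem_erase (gy z) S)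
  rw [Finset.insert_erase hyS] at h2
  have h3 : gx z ∉ S.erase (gy z) := fun h => hxS (Finset.mem_of_mem_erase h)
  have h4 := N3_insert h3
  rw [← h1] at h4
  have s1 := hs 0 3 (by norm_num) (by norm_num) (by norm_num) (by norm_num) (by norm_num)
  have s2 := hs 2 3 (by norm_num) (by norm_num) (by norm_num) (by norm_num) (by norm_num)
  have s3 := hs 1 2 (by norm_num) (by norm_num) (by norm_num) (by norm_num) (by norm_num)
  have s4 := hs 3 2 (by norm_num) (by norm_num) (by norm_num) (by norm_num) (by norm_num)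
  have r1 := hr 1 4 (by norm_num) (by norm_num) (by norm_num) (by norm_num) (by norm_num) (by norm_num)
  have r2 := hr 3 4 (by norm_num) (by norm_num) (by norm_num) (by norm_num) (by norm_num) (by norm_num)
  have r3 := hr 4 3 (by norm_num) (by norm_num) (by norm_num) (by norm_num) (by norm_num) (by norm_num)
  rw [Finset.mem_coe] at s1 s2 s3 s4 r1 r2 r3
  have d1 : N3_dg (S.erase (gy z)) (gy z) = 3 := by
    have e1 : ((gy z).1 + 1, (gy z).2) = (z.1 + 2, z.2 + 3) := by
      refine Prod.ext ?_ ?_ <;> simp only [gy] <;> omega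
    have e2 : ((gy z).1 - 1, (gy z).2) = (z.1 + 0, z.2 + 3) := by
      refine Prod.ext ?_ ?_ <;> simp only [gy] <;> omega
    have e3 : ((gy z).1, (gy z).2 + 1) = (z.1 + 1, z.2 + 4) := by
      refine Prod.ext ?_ ?_ <;> simp only [gy] <;> omega
    have e4 : ((gy z).1, (gy z).2 - 1) = (z.1 + 1, z.2 + 2) := by
      refine Prod.ext ?_ ?_ <;> simp only [gy] <;> omega
    unfold N3_dg
    rw [e1, e2, e3, e4, if_pos (Finset.mem_erase.2 ⟨by simp [gy], s2⟩), if_pos (Finset.mem_erase.2 ⟨by simp [gy], s1⟩),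
      if_neg (fun h => r1 (Finset.mem_of_mem_erase h)), if_pos (Finset.mem_erase.2 ⟨by simp [gy], s3⟩)]
  have d2 : N3_dg (S.erase (gy z)) (gx z) = 2 := by
    have e1 : ((gx z).1 + 1, (gx z).2) = (z.1 + 4, z.2 + 3) := by
      refine Prod.ext ?_ ?_ <;> simp only [gx] <;> omega
    have e2 : ((gx z).1 - 1, (gx z).2) = (z.1 + 2, z.2 + 3) := by
      refine Prod.ext ?_ ?_ <;> simp only [gx] <;> omega
    have e3 : ((gx z).1, (gx z).2 + 1) = (z.1 + 3, z.2 + 4) := by
      refine Prod.ext ?_ ?_ <;> simp only [gx] <;> omega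
    have e4 : ((gx z).1, (gx z).2 - 1) = (z.1 + 3, z.2 + 2) := by
      refine Prod.ext ?_ ?_ <;> simp only [gx] <;> omega
    unfold N3_dg
    rw [e1, e2, e3, e4, if_neg (fun h => r3 (Finset.mem_of_mem_erase h)), if_pos (Finset.mem_erase.2 ⟨by simp [gy], s2⟩),
      if_neg (fun h => r2 (Finset.mem_of_mem_erase h)), if_pos (Finset.mem_erase.2 ⟨by simp [gy], s4⟩)]
  rw [d1] at h2
  rw [d2] at h4
  omega

/-- PROOF. The new cell is in the row `z.2 + 3` and the column `z.1 + 1` or `z.1 + 3`; the cells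
`z`, `(z.1 + 1, z.2)`, `(z.1 + 3, z.2)` are in both sets, so all coordinates stay `≥ 0`; a cell of `S` with
`a.1 = 0` which was removed is `gy z` or `gx z`, and then the cell `(a.1, z.2)` has the same first
coordinate; a cell with `a.2 = 0` is never removed because `a.2 = z.2 + 3 ≥ 3`. -/
theorem tg_norm {S : Finset (ℤ × ℤ)} {z : Cell}
    (hz : QA (↑S : Set Cell) z ∨ QB (↑S : Set Cell) z) (h : Norm S) : Norm (tg S z) := by
  have hq : QC (↑S : Set Cell) z := hz.elim (fun h => h.1) (fun h => h.1)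
  obtain ⟨h1, ⟨a, ha, ha0⟩, ⟨b, hb, hb0⟩⟩ := h
  have hz0 := hq.2.2 0 0 (by norm_num) (by norm_num) (by norm_num) (by norm_num) (by norm_num)
  rw [Finset.mem_coe] at hz0
  have hz1 := h1 _ hz0
  simp only [add_zero] at hz1
  obtain ⟨hz2, hz3⟩ := hz1
  refine ⟨fun c hc => ?_, ⟨a, ?_, ha0⟩, ⟨b, ?_, hb0⟩⟩
  · rcases N3_mem.1 hc with ⟨h2, _⟩ | ⟨h2 | h2, _⟩
    · exact h1 c h2
    · rw [h2]
      simp only [gy]
      omega
    · rw [h2]
      simp only [gx]
      omega
  · refine N3_mem.2 (Or.inl ⟨ha, ?_⟩)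
    rintro (h2 | h2)
    · rw [h2] at ha0
      simp only [gy] at ha0
      omega
    · rw [h2] at ha0
      simp only [gx] at ha0
      omega
  · refine N3_mem.2 (Or.inl ⟨hb, ?_⟩)
    rintro (h2 | h2)
    · rw [h2] at hb0
      simp only [gy] at hb0
      omega
    · rw [h2] at hb0
      simp only [gx] at hb0
      omega

private theorem N3_QC_congr {S T : Set Cell} {z : Cell}
    (h : ∀ i j : ℤ, -1 ≤ i → i ≤ 4 → -1 ≤ j → j ≤ 4 → ((z.1 + i, z.2 + j) ∈ S ↔ (z.1 + i, z.2 + j) ∈ T)) :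
    QC S z ↔ QC T z := by
  have h1 : ∀ i : ℤ, -1 ≤ i → i ≤ 4 → ((z.1 + i, z.2 - 1) ∈ S ↔ (z.1 + i, z.2 - 1) ∈ T) := by
    intro i hi hi'
    have h2 := h i (-1) hi hi' (by norm_num) (by norm_num)
    rwa [← sub_eq_add_neg] at h2
  unfold QC
  rw [h1 1 (by norm_num) (by norm_num), h1 2 (by norm_num) (by norm_num)]
  refine and_congr ?_ (and_congr Iff.rfl ?_)
  · constructor
    · intro h3 i j a1 a2 a3 a4 a5 a6
      rw [← h i j a1 a2 a3 a4]
      exact h3 i j a1 a2 a3 a4 a5 a6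
    · intro h3 i j a1 a2 a3 a4 a5 a6
      rw [h i j a1 a2 a3 a4]
      exact h3 i j a1 a2 a3 a4 a5 a6
  · constructor
    · intro h3 i j a1 a2 a3 a4 a5
      rw [← h i j (by omega) (by omega) (by omega) (by omega)]
      exact h3 i j a1 a2 a3 a4 a5
    · intro h3 i j a1 a2 a3 a4 a5
      rw [h i j (by omega) (by omega) (by omega) (by omega)]
      exact h3 i j a1 a2 a3 a4 a5

/-- Other occurrences are not affected. PROOF. By `oc_sep` the exchanged cells `gy z`, `gx z` are not
in the square `z' + [-1, 4]^2` (offsets `1 - dx`, `3 - dx` are outside `[-1, 4]` if `|dx| ≥ 5`, and in the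
same way for `dy`), and the conditions `QA S z'`, `QB S z'` only look at cells of this square. -/
theorem tg_other {S : Finset (ℤ × ℤ)} {z z' : Cell}
    (hz : QA (↑S : Set Cell) z ∨ QB (↑S : Set Cell) z)
    (hz' : QA (↑S : Set Cell) z' ∨ QB (↑S : Set Cell) z') (hne : z ≠ z') :
    (QA (↑(tg S z) : Set Cell) z' ↔ QA (↑S : Set Cell) z') ∧
    (QB (↑(tg S z) : Set Cell) z' ↔ QB (↑S : Set Cell) z') := by
  have hq : QC (↑S : Set Cell) z := hz.elim (fun h => h.1) (fun h => h.1)
  have hq' : QC (↑S : Set Cell) z' := hz'.elim (fun h => h.1) (fun h => h.1)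
  have hsep := oc_sep hq hq' hne
  have h1 : ∀ i j : ℤ, -1 ≤ i → i ≤ 4 → -1 ≤ j → j ≤ 4 →
      ((z'.1 + i, z'.2 + j) ∈ (↑(tg S z) : Set Cell) ↔ (z'.1 + i, z'.2 + j) ∈ (↑S : Set Cell)) := by
    intro i j a1 a2 a3 a4
    have h2 : ¬ (((z'.1 + i, z'.2 + j) : ℤ × ℤ) = gy z ∨ ((z'.1 + i, z'.2 + j) : ℤ × ℤ) = gx z) := by
      simp only [gy, gx, Prod.mk.injEq]
      rcases hsep with h3 | h3
      · rcases le_abs.1 h3 with h4 | h4 <;> omega
      · rcases le_abs.1 h3 with h4 | h4 <;> omega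
    rw [Finset.mem_coe, Finset.mem_coe, N3_mem]
    constructor
    · rintro (h3 | h3)
      · exact h3.1
      · exact (h2 h3.1).elim
    · exact fun h3 => Or.inl ⟨h3, h2⟩
  have h2 := N3_QC_congr h1
  have h3 := h1 1 3 (by norm_num) (by norm_num) (by norm_num) (by norm_num)
  have h4 := h1 3 3 (by norm_num) (by norm_num) (by norm_num) (by norm_num)
  unfold QA QB gy gx
  rw [h2, h3, h4]
  exact ⟨Iff.rfl, Iff.rfl⟩

end Pool.Agent.Lib.MP_dcf1eb_pr
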