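import Pool.Agent.Lib.MP_dcf1eb_pr.N2
import Pool.Agent.Lib.MP_dcf1eb_pr.N3

/-!
# Fixed area polygons: exchanging the states of many patterns (N9)
-/

set_option autoImplicit false

namespace Pool.Agent.Lib.MP_dcf1eb_pr

/-- Exchange of the states at all `z ∈ Z`. -/
noncomputable def tgs (S Z : Finset (ℤ × ℤ)) : Finset (ℤ × ℤ) :=
  symmDiff S (Z.biUnion (fun z => {gy z, gx z}))

open Classical in
/-- The occurrences in the second state. -/
noncomputable def obb (S : Finset (ℤ × ℤ)) : Finset (ℤ × ℤ) :=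
  (oc S).filter (fun z => QB (↑S : Set Cell) z)

private theorem N9_mem {S : Finset (ℤ × ℤ)} {z : Cell} :
    z ∈ oc S ↔ QA (↑S : Set Cell) z ∨ QB (↑S : Set Cell) z := by
  classical
  rw [oc, Finset.mem_filter]
  refine ⟨fun h => h.2, fun h => ⟨?_, h⟩⟩
  have hC : QC (↑S : Set Cell) z := by
    rcases h with h | h
    · exact h.1
    · exact h.1
  have h1 := hC.2.2 0 0 (by norm_num) (by norm_num) (by norm_num) (by norm_num) (by norm_num)
  rw [add_zero, add_zero] at h1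
  exact Finset.mem_coe.1 h1

private theorem N9_QC {S : Finset (ℤ × ℤ)} {z : Cell} (h : z ∈ oc S) : QC (↑S : Set Cell) z := by
  rcases N9_mem.1 h with h | h
  · exact h.1
  · exact h.1

private theorem N9_obb {S : Finset (ℤ × ℤ)} {z : Cell} :
    z ∈ obb S ↔ z ∈ oc S ∧ QB (↑S : Set Cell) z := by
  classical
  rw [obb, Finset.mem_filter]

private theorem N9_AB {S : Set Cell} {z : Cell} (h : QA S z) (h' : QB S z) : False := h'.2.1 h.2.1

private theorem N9_self {S : Finset (ℤ × ℤ)} {z : Cell}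
    (hz : QA (↑S : Set Cell) z ∨ QB (↑S : Set Cell) z) :
    QA (↑(tg S z) : Set Cell) z ∨ QB (↑(tg S z) : Set Cell) z := by
  rcases hz with h | h
  · exact Or.inr (tg_A h)
  · exact Or.inl (tg_B h)

/-- An exchange creates no new occurrence. PROOF. Let `z' ∈ oc (tg S z)`. If `z' ≠ z`: `z ∈ oc (tg S z)`
(`tg_A`, `tg_B`), so `tg_other` for `tg S z` and `tg_tg` give `z' ∈ oc S`. The other inclusion in the
same way. (`z ∈ S`, `z' ∈ S` hold by `QC` with `i = j = 0`.) -/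
theorem oc_tg {S : Finset (ℤ × ℤ)} {z : Cell} (hz : z ∈ oc S) : oc (tg S z) = oc S := by
  have h0 := N9_mem.1 hz
  have h1 := N9_self h0
  ext z'
  rw [N9_mem, N9_mem]
  rcases eq_or_ne z z' with e | hne
  · subst e
    exact ⟨fun _ => h0, fun _ => h1⟩
  · constructor
    · intro h
      have h2 := tg_other h1 h hne
      rw [tg_tg] at h2
      rcases h with h | h
      · exact Or.inl (h2.1.2 h)
      · exact Or.inr (h2.2.2 h)
    · intro h
      have h2 := tg_other h0 h hne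
      rcases h with h | h
      · exact Or.inl (h2.1.2 h)
      · exact Or.inr (h2.2.2 h)

private theorem N9_disj {S : Finset (ℤ × ℤ)} {z z' c : Cell} (hz : z ∈ oc S) (hz' : z' ∈ oc S)
    (h : c = gy z ∨ c = gx z) (h' : c = gy z' ∨ c = gx z') : z = z' := by
  by_contra hne
  have h1 := oc_sep (N9_QC hz) (N9_QC hz') hne
  have e1 : c.2 = z.2 + 3 := by
    rcases h with h | h <;> rw [h] <;> rfl
  have e2 : c.2 = z'.2 + 3 := by
    rcases h' with h | h <;> rw [h] <;> rfl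
  have e3 : c.1 = z.1 + 1 ∨ c.1 = z.1 + 3 := by
    rcases h with h | h
    · left; rw [h]; rfl
    · right; rw [h]; rfl
  have e4 : c.1 = z'.1 + 1 ∨ c.1 = z'.1 + 3 := by
    rcases h' with h | h
    · left; rw [h]; rfl
    · right; rw [h]; rfl
  rcases h1 with h1 | h1
  · rcases abs_cases (z'.1 - z.1) with h2 | h2 <;> omega
  · rcases abs_cases (z'.2 - z.2) with h2 | h2 <;> omega

private theorem N9_bU {Z : Finset (ℤ × ℤ)} {c : Cell} :
    c ∈ Z.biUnion (fun z => ({gy z, gx z} : Finset (ℤ × ℤ))) ↔ ∃ z ∈ Z, c = gy z ∨ c = gx z := by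
  simp only [Finset.mem_biUnion, Finset.mem_insert, Finset.mem_singleton]

private theorem N9_insert {S Z : Finset (ℤ × ℤ)} {z : Cell} (hz : z ∈ oc S) (hZ : Z ⊆ oc S)
    (hzZ : z ∉ Z) : tgs S (insert z Z) = tg (tgs S Z) z := by
  ext c
  simp only [tgs, tg, Finset.mem_symmDiff, N9_bU, Finset.mem_insert, Finset.mem_singleton]
  by_cases h1 : c = gy z ∨ c = gx z
  · have h2 : ¬ ∃ z' ∈ Z, c = gy z' ∨ c = gx z' := by
      rintro ⟨z', hz', h3⟩
      exact hzZ (N9_disj hz (hZ hz') h1 h3 ▸ hz')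
    have h3 : ∃ z', (z' = z ∨ z' ∈ Z) ∧ (c = gy z' ∨ c = gx z') := ⟨z, Or.inl rfl, h1⟩
    simp only [h1, h2, h3, not_true_eq_false, not_false_eq_true, and_true, and_false,
      false_or]
    tauto
  · have h2 : (∃ z', (z' = z ∨ z' ∈ Z) ∧ (c = gy z' ∨ c = gx z')) ↔
        ∃ z' ∈ Z, c = gy z' ∨ c = gx z' := by
      constructor
      · rintro ⟨z', h3 | h3, h4⟩
        · exact absurd (h3 ▸ h4) h1
        · exact ⟨z', h3, h4⟩
      · rintro ⟨z', h3, h4⟩
        exact ⟨z', Or.inr h3, h4⟩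
    rw [h2]
    simp only [h1, not_false_eq_true, and_true, false_and, or_false]

private theorem N9_obb_tg {T : Finset (ℤ × ℤ)} {z : Cell} (hz : z ∈ oc T) :
    obb (tg T z) = symmDiff (obb T) {z} := by
  have h0 := N9_mem.1 hz
  ext z'
  rw [N9_obb, Finset.mem_symmDiff, N9_obb, Finset.mem_singleton, oc_tg hz]
  rcases eq_or_ne z z' with e | hne
  · subst e
    rcases h0 with h | h
    · have h1 := tg_A h
      have h2 : ¬ QB (↑T : Set Cell) z := fun h' => N9_AB h h'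
      tauto
    · have h1 := tg_B h
      have h2 : ¬ QB (↑(tg T z) : Set Cell) z := fun h' => N9_AB h1 h'
      tauto
  · have hne' : z' ≠ z := Ne.symm hne
    constructor
    · rintro ⟨h1, h2⟩
      exact Or.inl ⟨⟨h1, (tg_other h0 (N9_mem.1 h1) hne).2.1 h2⟩, hne'⟩
    · rintro (⟨⟨h1, h2⟩, -⟩ | ⟨h1, -⟩)
      · exact ⟨h1, (tg_other h0 (N9_mem.1 h1) hne).2.2 h2⟩
      · exact absurd h1 hne'

/-- PROOF (all parts together by induction on `Z`, `Finset.induction_on`):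
`tgs S (insert z Z) = tg (tgs S Z) z` for `z ∉ Z`, `insert z Z ⊆ oc S` (the pairs `{gy z, gx z}` for different
occurrences are disjoint by `oc_sep`), and `tg_poly`, `tg_card`, `tg_norm`, `tg_other`, `oc_tg`, `tg_A`, `tg_B`,
`tg_perim` (for a pattern in the second state use `tg_perim` for `tg S z` and `tg_tg`:
`perim S = perim (tg S z) + 2`). Note `QA` and `QB` exclude each other. -/
theorem tgs_facts {S : Finset (ℤ × ℤ)} (h : IsPoly (↑S : Set Cell)) (hN : Norm S)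
    {Z : Finset (ℤ × ℤ)} (hZ : Z ⊆ oc S) :
    IsPoly (↑(tgs S Z) : Set Cell) ∧ Norm (tgs S Z) ∧ (tgs S Z).card = S.card ∧
    oc (tgs S Z) = oc S ∧ obb (tgs S Z) = symmDiff (obb S) Z ∧
    perim (tgs S Z) + 2 * (Z ∩ obb S).card = perim S + 2 * (Z \ obb S).card := by
  classical
  induction Z using Finset.induction_on with
  | empty =>
    have e : tgs S ∅ = S := by
      ext c
      simp [tgs, Finset.mem_symmDiff]
    rw [e]
    refine ⟨h, hN, rfl, rfl, ?_, ?_⟩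
    · ext c
      simp [Finset.mem_symmDiff]
    · simp
  | insert z Z hzZ ih =>
    have hzS : z ∈ oc S := hZ (Finset.mem_insert_self z Z)
    have hZS : Z ⊆ oc S := fun c hc => hZ (Finset.mem_insert_of_mem hc)
    obtain ⟨h1, h2, h3, h4, h5, h6⟩ := ih hZS
    have hzT : z ∈ oc (tgs S Z) := by rw [h4]; exact hzS
    have hq := N9_mem.1 hzT
    have hb : z ∈ obb (tgs S Z) ↔ z ∈ obb S := by
      rw [h5, Finset.mem_symmDiff]
      tauto
    rw [N9_insert hzS hZS hzZ]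
    refine ⟨tg_poly h1 hq, tg_norm hq h2, (tg_card hq).trans h3, (oc_tg hzT).trans h4, ?_, ?_⟩
    · rw [N9_obb_tg hzT, h5, symmDiff_assoc]
      congr 1
      ext c
      rw [Finset.mem_symmDiff, Finset.mem_singleton, Finset.mem_insert]
      rcases eq_or_ne c z with e | hne
      · subst e
        tauto
      · tauto
    · rcases hq with hA | hB
      · have hn : z ∉ obb S := fun h' => N9_AB hA (N9_obb.1 (hb.2 h')).2
        have e1 := tg_perim hA
        have e2 : insert z Z ∩ obb S = Z ∩ obb S := Finset.insert_inter_of_notMem hn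
        have e3 : insert z Z \ obb S = insert z (Z \ obb S) := Finset.insert_sdiff_of_notMem Z hn
        have e4 : z ∉ Z \ obb S := fun h' => hzZ (Finset.mem_sdiff.1 h').1
        rw [e2, e3, Finset.card_insert_of_notMem e4, e1]
        omega
      · have hn : z ∈ obb S := hb.1 (N9_obb.2 ⟨hzT, hB⟩)
        have e1 := tg_perim (tg_B hB)
        rw [tg_tg] at e1
        have e2 : insert z Z ∩ obb S = insert z (Z ∩ obb S) := Finset.insert_inter_of_mem hn
        have e3 : insert z Z \ obb S = Z \ obb S := Finset.insert_sdiff_of_mem Z hn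
        have e4 : z ∉ Z ∩ obb S := fun h' => hzZ (Finset.mem_inter.1 h').1
        rw [e2, e3, Finset.card_insert_of_notMem e4]
        omega

private theorem N9_prop (A B C : Prop) :
    ((A ∧ ¬ B ∨ B ∧ ¬ A) ∧ ¬ C ∨ C ∧ ¬ (A ∧ ¬ B ∨ B ∧ ¬ A)) ↔
      (A ∧ ¬ (B ∧ ¬ C ∨ C ∧ ¬ B) ∨ (B ∧ ¬ C ∨ C ∧ ¬ B) ∧ ¬ A) := by
  by_cases hA : A <;> by_cases hB : B <;> by_cases hC : C <;> simp [hA, hB, hC]

/-- PROOF. All the pairs `{gy z, gx z}`, `z ∈ oc S`, are disjoint (`oc_sep`), so the union over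
`symmDiff Z Z'` is the symmetric difference of the unions. -/
theorem tgs_tgs {S Z Z' : Finset (ℤ × ℤ)} (hZ : Z ⊆ oc S) (hZ' : Z' ⊆ oc S) :
    tgs (tgs S Z) Z' = tgs S (symmDiff Z Z') := by
  ext c
  simp only [tgs, Finset.mem_symmDiff, N9_bU]
  have key : (∃ z, (z ∈ Z ∧ z ∉ Z' ∨ z ∈ Z' ∧ z ∉ Z) ∧ (c = gy z ∨ c = gx z)) ↔
      ((∃ z ∈ Z, c = gy z ∨ c = gx z) ∧ ¬ (∃ z ∈ Z', c = gy z ∨ c = gx z) ∨
        (∃ z ∈ Z', c = gy z ∨ c = gx z) ∧ ¬ (∃ z ∈ Z, c = gy z ∨ c = gx z)) := by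
    constructor
    · rintro ⟨z, (⟨h1, h2⟩ | ⟨h1, h2⟩), h3⟩
      · refine Or.inl ⟨⟨z, h1, h3⟩, ?_⟩
        rintro ⟨z', h4, h5⟩
        exact h2 (N9_disj (hZ h1) (hZ' h4) h3 h5 ▸ h4)
      · refine Or.inr ⟨⟨z, h1, h3⟩, ?_⟩
        rintro ⟨z', h4, h5⟩
        exact h2 (N9_disj (hZ' h1) (hZ h4) h3 h5 ▸ h4)
    · rintro (⟨⟨z, h1, h2⟩, h3⟩ | ⟨⟨z, h1, h2⟩, h3⟩)
      · exact ⟨z, Or.inl ⟨h1, fun h4 => h3 ⟨z, h4, h2⟩⟩, h2⟩
      · exact ⟨z, Or.inr ⟨h1, fun h4 => h3 ⟨z, h4, h2⟩⟩, h2⟩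
  rw [key]
  exact N9_prop _ _ _

end Pool.Agent.Lib.MP_dcf1eb_pr
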