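import Pool.Agent.Lib.MP_dcf1eb_pr.A2
import Pool.Agent.Lib.MP_dcf1eb_pr.W0
import Pool.Agent.Lib.MP_dcf1eb_pr.N9

/-!
# Fixed area polygons: the fibres of the exchange (N10)
-/

set_option autoImplicit false

namespace Pool.Agent.Lib.MP_dcf1eb_pr

/-- All patterns in the first state. -/
noncomputable def can (S : Finset (ℤ × ℤ)) : Finset (ℤ × ℤ) := tgs S (obb S)

private theorem N10_sub (S : Finset (ℤ × ℤ)) : obb S ⊆ oc S := by
  classical
  unfold obb
  exact Finset.filter_subset _ _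

private theorem N10_empty (S : Finset (ℤ × ℤ)) : tgs S ∅ = S := by
  unfold tgs
  rw [Finset.biUnion_empty, ← Finset.bot_eq_empty, symmDiff_bot]

/-- `S` is recovered from `can S` and `obb S`. -/
private theorem N10_back (S : Finset (ℤ × ℤ)) : tgs (can S) (obb S) = S := by
  unfold can
  rw [tgs_tgs (N10_sub S) (N10_sub S), symmDiff_self, Finset.bot_eq_empty, N10_empty]

/-- PROOF. `tgs_facts` with `Z = obb S`, `mem_polys`; `obb (can S) = symmDiff (obb S) (obb S) = ∅`. -/
theorem can_mem {n : ℕ} {S : Finset (ℤ × ℤ)} (hS : S ∈ polys n) :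
    can S ∈ polys n ∧ oc (can S) = oc S ∧ obb (can S) = ∅ := by
  obtain ⟨h1, h2, h3⟩ := mem_polys.1 hS
  obtain ⟨g1, g2, g3, g4, g5, -⟩ := tgs_facts h1 h3 (N10_sub S)
  refine ⟨mem_polys.2 ⟨g1, g3.trans h2, g2⟩, g4, ?_⟩
  unfold can
  rw [g5, symmDiff_self, Finset.bot_eq_empty]

/-- Sum over a fibre. PROOF. The map `B ↦ tgs R B` is a bijection from the subsets of `oc R` onto
`{S ∈ polys n | can S = R}`: by `tgs_facts` and `obb R = ∅`: `tgs R B ∈ polys n`, `oc (tgs R B) = oc R`,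
`obb (tgs R B) = B`, so it is injective and `can (tgs R B) = tgs (tgs R B) B = tgs R ∅ = R` (`tgs_togs` is
`tgs_tgs`, `symmDiff B B = ∅`); and `S = tgs (can S) (obb S)` for every `S` (`tgs_tgs` again), with
`obb S ⊆ oc S = oc (can S)`. `perim (tgs R B) = perim R + 2 * B.card`. `Finset.sum_nbij'` or
`Finset.sum_bij`. -/
theorem fibre_sum {n : ℕ} {R : Finset (ℤ × ℤ)} (hR : R ∈ polys n) (hb : obb R = ∅)
    (f : ℕ → ℝ) :
    ∑ S ∈ (polys n).filter (fun S => can S = R), f (perim S) =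
      ∑ j ∈ Finset.range ((oc R).card + 1),
        ((oc R).card.choose j : ℝ) * f (perim R + 2 * j) := by
  obtain ⟨h1, h2, h3⟩ := mem_polys.1 hR
  have hmem : ∀ B, B ⊆ oc R → tgs R B ∈ (polys n).filter (fun S => can S = R) ∧
      obb (tgs R B) = B ∧ perim (tgs R B) = perim R + 2 * B.card := by
    intro B hB
    obtain ⟨g1, g2, g3, g4, g5, g6⟩ := tgs_facts h1 h3 hB
    have h4 : obb (tgs R B) = B := by
      rw [g5, hb, ← Finset.bot_eq_empty, bot_symmDiff]
    refine ⟨Finset.mem_filter.2 ⟨mem_polys.2 ⟨g1, g3.trans h2, g2⟩, ?_⟩, h4, ?_⟩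
    · unfold can
      rw [h4, tgs_tgs hB hB, symmDiff_self, Finset.bot_eq_empty, N10_empty]
    · rw [hb, Finset.inter_empty, Finset.sdiff_empty, Finset.card_empty, mul_zero, add_zero] at g6
      exact g6
  have hback : ∀ S ∈ (polys n).filter (fun S => can S = R), obb S ⊆ oc R ∧ tgs R (obb S) = S := by
    intro S hS
    obtain ⟨h4, h5⟩ := Finset.mem_filter.1 hS
    have h6 := (can_mem h4).2.1
    rw [h5] at h6
    refine ⟨?_, ?_⟩
    · rw [h6]
      exact N10_sub S
    · have h7 := N10_back S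
      rwa [h5] at h7
  have h4 := Finset.sum_powerset_apply_card (fun j => f (perim R + 2 * j)) (x := oc R)
  simp only [nsmul_eq_mul] at h4
  rw [← h4]
  refine Finset.sum_nbij' (fun S => obb S) (fun B => tgs R B) ?_ ?_ ?_ ?_ ?_
  · intro S hS
    exact Finset.mem_powerset.2 (hback S hS).1
  · intro B hB
    exact (hmem B (Finset.mem_powerset.1 hB)).1
  · intro S hS
    exact (hback S hS).2
  · intro B hB
    exact (hmem B (Finset.mem_powerset.1 hB)).2.1
  · intro S hS
    obtain ⟨h5, h6⟩ := hback S hS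
    have h7 := (hmem (obb S) h5).2.2
    rw [h6] at h7
    rw [h7]

end Pool.Agent.Lib.MP_dcf1eb_pr
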