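import Pool.Agent.Lib.MP_dcf1eb_pr.H1
import Pool.Agent.Lib.MP_dcf1eb_pr.N10

/-!
# Fixed area polygons: smoothness of the perimeter law (N11)
-/

set_option autoImplicit false

namespace Pool.Agent.Lib.MP_dcf1eb_pr

/-- The binomial coefficients as a function on the integers. -/
private noncomputable def N11_F (k : ℕ) (j : ℤ) : ℝ := if 0 ≤ j then (k.choose j.toNat : ℝ) else 0

private theorem N11_F_nonneg (k : ℕ) (j : ℤ) : 0 ≤ N11_F k j := by
  unfold N11_F
  split_ifs
  · positivity
  · exact le_refl _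

private theorem N11_up (k : ℕ) (j : ℤ) (hj : j < ((k / 2 : ℕ) : ℤ)) :
    N11_F k j ≤ N11_F k (j + 1) := by
  unfold N11_F
  by_cases h0 : 0 ≤ j
  · rw [if_pos h0, if_pos (by omega)]
    obtain ⟨i, rfl⟩ := Int.eq_ofNat_of_zero_le h0
    have h1 : ((i : ℤ) + 1).toNat = i + 1 := by omega
    have h2 : (i : ℤ).toNat = i := by omega
    rw [h1, h2]
    exact_mod_cast Nat.choose_le_succ_of_lt_half_left (by omega : i < k / 2)
  · rw [if_neg h0]
    split_ifs
    · positivity
    · exact le_refl _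

private theorem N11_down (k : ℕ) (j : ℤ) (hj : ((k / 2 : ℕ) : ℤ) ≤ j) :
    N11_F k (j + 1) ≤ N11_F k j := by
  unfold N11_F
  have h0 : 0 ≤ j := by omega
  rw [if_pos h0, if_pos (by omega)]
  obtain ⟨i, rfl⟩ := Int.eq_ofNat_of_zero_le h0
  have h1 : ((i : ℤ) + 1).toNat = i + 1 := by omega
  have h2 : (i : ℤ).toNat = i := by omega
  rw [h1, h2]
  have h3 : k.choose (i + 1) * (i + 1) = k.choose i * (k - i) := Nat.choose_succ_right_eq k i
  have h4 : k - i ≤ i + 1 := by omega
  have h5 : k.choose (i + 1) * (i + 1) ≤ k.choose i * (i + 1) := by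
    rw [h3]
    exact Nat.mul_le_mul_left _ h4
  exact_mod_cast Nat.le_of_mul_le_mul_right h5 (Nat.succ_pos i)

/-- The primitive of the variation. -/
private noncomputable def N11_G (k : ℕ) (j : ℤ) : ℝ :=
  if j < ((k / 2 : ℕ) : ℤ) then N11_F k j else 2 * N11_F k ((k / 2 : ℕ) : ℤ) - N11_F k j

private theorem N11_G_step (k : ℕ) (j : ℤ) :
    |N11_F k (j + 1) - N11_F k j| = N11_G k (j + 1) - N11_G k j := by
  unfold N11_G
  by_cases h1 : j < ((k / 2 : ℕ) : ℤ)
  · rw [if_pos h1, abs_of_nonneg (sub_nonneg.mpr (N11_up k j h1))]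
    by_cases h2 : j + 1 < ((k / 2 : ℕ) : ℤ)
    · rw [if_pos h2]
    · have h3 : j + 1 = ((k / 2 : ℕ) : ℤ) := by omega
      rw [if_neg h2, h3]
      ring
  · rw [if_neg h1, if_neg (by omega), abs_of_nonpos (sub_nonpos.mpr (N11_down k j (by omega)))]
    ring

private theorem N11_G_le (k : ℕ) (j : ℤ) : N11_G k j ≤ 2 * N11_F k ((k / 2 : ℕ) : ℤ) := by
  unfold N11_G
  split_ifs with h
  · have h1 : ∀ i : ℕ, N11_F k (((k / 2 : ℕ) : ℤ) - i) ≤ N11_F k ((k / 2 : ℕ) : ℤ) := by
      intro i
      induction i with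
      | zero => simp
      | succ i ih =>
        refine le_trans ?_ ih
        have h2 := N11_up k (((k / 2 : ℕ) : ℤ) - ((i + 1 : ℕ) : ℤ)) (by push_cast; omega)
        have h3 : ((k / 2 : ℕ) : ℤ) - ((i + 1 : ℕ) : ℤ) + 1 = ((k / 2 : ℕ) : ℤ) - (i : ℤ) := by
          push_cast
          ring
        rw [h3] at h2
        exact h2
    have h2 := h1 (((k / 2 : ℕ) : ℤ) - j).toNat
    have h3 : ((k / 2 : ℕ) : ℤ) - ((((k / 2 : ℕ) : ℤ) - j).toNat : ℤ) = j := by omega
    rw [h3] at h2
    have h4 := N11_F_nonneg k ((k / 2 : ℕ) : ℤ)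
    linarith
  · have h4 := N11_F_nonneg k j
    linarith

private theorem N11_G_nonneg_of_neg (k : ℕ) (j : ℤ) (hj : j < 0) : 0 ≤ N11_G k j := by
  unfold N11_G
  rw [if_pos (by omega)]
  exact N11_F_nonneg k j

private theorem N11_tv0 (k : ℕ) (s : Finset ℤ) :
    ∑ j ∈ s, |N11_F k (j + 1) - N11_F k j| ≤ 2 * N11_F k ((k / 2 : ℕ) : ℤ) := by
  classical
  obtain ⟨N, hN⟩ : ∃ N : ℕ, ∀ j ∈ s, |j| ≤ (N : ℤ) := by
    refine ⟨∑ j ∈ s, j.natAbs, fun j hj => ?_⟩
    have h1 : j.natAbs ≤ ∑ i ∈ s, i.natAbs :=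
      Finset.single_le_sum (f := fun i : ℤ => i.natAbs) (fun _ _ => Nat.zero_le _) hj
    have h2 : |j| = (j.natAbs : ℤ) := Int.abs_eq_natAbs j
    rw [h2]
    exact_mod_cast h1
  set e : ℕ → ℤ := fun i => (i : ℤ) - ((N : ℤ) + 1) with he
  have hinj : Function.Injective e := by
    intro a b hab
    simp only [he] at hab
    omega
  have hsub : s ⊆ (Finset.range (2 * N + 2)).image e := by
    intro j hj
    have h1 := hN j hj
    rw [abs_le] at h1
    rw [Finset.mem_image]
    refine ⟨(j + (N + 1)).toNat, ?_, ?_⟩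
    · rw [Finset.mem_range]
      omega
    · simp only [he]
      omega
  have h1 : ∑ j ∈ s, |N11_F k (j + 1) - N11_F k j| ≤
      ∑ j ∈ (Finset.range (2 * N + 2)).image e, |N11_F k (j + 1) - N11_F k j| :=
    Finset.sum_le_sum_of_subset_of_nonneg hsub (fun _ _ _ => abs_nonneg _)
  rw [Finset.sum_image (fun a _ b _ hab => hinj hab)] at h1
  have h2 : ∑ i ∈ Finset.range (2 * N + 2), |N11_F k (e i + 1) - N11_F k (e i)| =
      N11_G k (e (2 * N + 2)) - N11_G k (e 0) := by
    rw [← Finset.sum_range_sub (fun i => N11_G k (e i)) (2 * N + 2)]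
    refine Finset.sum_congr rfl fun i _ => ?_
    rw [N11_G_step]
    have h3 : e i + 1 = e (i + 1) := by
      simp only [he]
      push_cast
      ring
    rw [h3]
  rw [h2] at h1
  have h3 := N11_G_le k (e (2 * N + 2))
  have h4 := N11_G_nonneg_of_neg k (e 0) (by simp only [he]; omega)
  linarith

/-- Total variation of the binomial coefficients. PROOF. `k.choose j` increases for `j < k/2` and
decreases after it; with the value `0` outside `[0, k]` the sum of the absolute differences telescopes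
to `2 * k.choose (k / 2)`; `choose_mul_sqrt_le`. Here `a j` (`j : ℤ`) is `k.choose j.toNat` for `0 ≤ j` and `0`
for `j < 0`. -/
theorem binom_tv (k : ℕ) (s : Finset ℤ) :
    (∑ j ∈ s, |(if 0 ≤ j + 1 then (k.choose (j + 1).toNat : ℝ) else 0) -
      (if 0 ≤ j then (k.choose j.toNat : ℝ) else 0)|) * Real.sqrt k ≤ 2 * 2 ^ k := by
  have h1 : (∑ j ∈ s, |(if 0 ≤ j + 1 then (k.choose (j + 1).toNat : ℝ) else 0) -
      (if 0 ≤ j then (k.choose j.toNat : ℝ) else 0)|) =
      ∑ j ∈ s, |N11_F k (j + 1) - N11_F k j| := rfl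
  rw [h1]
  have h2 := N11_tv0 k s
  have h3 : N11_F k ((k / 2 : ℕ) : ℤ) = (k.choose (k / 2) : ℝ) := by
    unfold N11_F
    rw [if_pos (by positivity), Int.toNat_natCast]
  rw [h3] at h2
  have h4 := choose_mul_sqrt_le k (k / 2)
  calc (∑ j ∈ s, |N11_F k (j + 1) - N11_F k j|) * Real.sqrt k
      ≤ (2 * (k.choose (k / 2) : ℝ)) * Real.sqrt k :=
        mul_le_mul_of_nonneg_right h2 (Real.sqrt_nonneg _)
    _ = 2 * ((k.choose (k / 2) : ℝ) * Real.sqrt k) := by ring
    _ ≤ 2 * 2 ^ k := by linarith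

open Classical in
/-- The number of polygons of area `n`, half-perimeter `m`, with at least `K` occurrences. -/
noncomputable def cK (n K m : ℕ) : ℕ :=
  ((polys n).filter (fun S => perim S = 2 * m ∧ K ≤ (oc S).card)).card

open Classical in
/-- The canonical representatives with at least `K` occurrences. -/
private noncomputable def N11_I (n K : ℕ) : Finset (Finset (ℤ × ℤ)) :=
  (polys n).filter (fun R => obb R = ∅ ∧ K ≤ (oc R).card)

/-- The contribution of one representative. -/
private noncomputable def N11_g (R : Finset (ℤ × ℤ)) (m : ℕ) : ℝ :=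
  if perim R % 2 = 0 then N11_F (oc R).card ((m : ℤ) - ((perim R / 2 : ℕ) : ℤ)) else 0

private theorem N11_fib {n : ℕ} {R : Finset (ℤ × ℤ)} (hR : R ∈ polys n) (hb : obb R = ∅)
    (m : ℕ) :
    ∑ S ∈ (polys n).filter (fun S => can S = R), (if perim S = 2 * m then (1 : ℝ) else 0) =
      N11_g R m := by
  have h := fibre_sum hR hb (fun p => if p = 2 * m then (1 : ℝ) else 0)
  rw [h]
  unfold N11_g
  by_cases hev : perim R % 2 = 0
  · rw [if_pos hev]
    unfold N11_F
    by_cases hm : perim R / 2 ≤ m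
    · rw [if_pos (by omega)]
      have h1 : ((m : ℤ) - ((perim R / 2 : ℕ) : ℤ)).toNat = m - perim R / 2 := by omega
      rw [h1]
      by_cases hk : m - perim R / 2 ≤ (oc R).card
      · rw [Finset.sum_eq_single (m - perim R / 2)]
        · rw [if_pos (by omega), mul_one]
        · intro j _ hj
          rw [if_neg (by omega), mul_zero]
        · intro hj
          exact absurd (Finset.mem_range.mpr (by omega)) hj
      · rw [Nat.choose_eq_zero_of_lt (by omega), Nat.cast_zero]
        refine Finset.sum_eq_zero fun j hj => ?_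
        rw [Finset.mem_range] at hj
        rw [if_neg (by omega), mul_zero]
    · rw [if_neg (by omega)]
      refine Finset.sum_eq_zero fun j hj => ?_
      rw [if_neg (by omega), mul_zero]
  · rw [if_neg hev]
    refine Finset.sum_eq_zero fun j hj => ?_
    rw [if_neg (by omega), mul_zero]

private theorem N11_cK (n K m : ℕ) : (cK n K m : ℝ) = ∑ R ∈ N11_I n K, N11_g R m := by
  classical
  have hmaps : ∀ S ∈ (polys n).filter (fun S => K ≤ (oc S).card), can S ∈ N11_I n K := by
    intro S hS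
    rw [Finset.mem_filter] at hS
    obtain ⟨h1, h2, h3⟩ := can_mem hS.1
    rw [N11_I, Finset.mem_filter]
    refine ⟨h1, h3, ?_⟩
    rw [h2]
    exact hS.2
  have h0 : (cK n K m : ℝ) = ∑ S ∈ (polys n).filter (fun S => K ≤ (oc S).card),
      (if perim S = 2 * m then (1 : ℝ) else 0) := by
    rw [cK, Finset.card_eq_sum_ones, Nat.cast_sum, ← Finset.sum_filter, Finset.filter_filter]
    simp only [Nat.cast_one]
    refine Finset.sum_congr ?_ fun _ _ => rfl
    ext S
    simp only [Finset.mem_filter]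
    tauto
  rw [h0, ← Finset.sum_fiberwise_of_maps_to hmaps]
  refine Finset.sum_congr rfl fun R hR => ?_
  rw [N11_I, Finset.mem_filter] at hR
  rw [← N11_fib hR.1 hR.2.1 m]
  refine Finset.sum_congr ?_ fun _ _ => rfl
  ext S
  simp only [Finset.mem_filter]
  constructor
  · rintro ⟨⟨h1, _⟩, h3⟩
    exact ⟨h1, h3⟩
  · rintro ⟨h1, h3⟩
    refine ⟨⟨h1, ?_⟩, h3⟩
    have h4 := (can_mem h1).2.1
    rw [← h4, h3]
    exact hR.2.2

private theorem N11_pow (n K : ℕ) :
    ∑ R ∈ N11_I n K, (2 : ℝ) ^ (oc R).card ≤ ((polys n).card : ℝ) := by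
  classical
  have h1 : ∀ R ∈ N11_I n K, (2 : ℝ) ^ (oc R).card =
      ∑ S ∈ (polys n).filter (fun S => can S = R), (1 : ℝ) := by
    intro R hR
    rw [N11_I, Finset.mem_filter] at hR
    have h := fibre_sum hR.1 hR.2.1 (fun _ => (1 : ℝ))
    rw [h]
    have h2 := Nat.sum_range_choose (oc R).card
    have h3 : ((∑ j ∈ Finset.range ((oc R).card + 1), (oc R).card.choose j : ℕ) : ℝ) =
        (2 : ℝ) ^ (oc R).card := by
      rw [h2]
      push_cast
      rfl
    rw [← h3]
    push_cast
    simp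
  rw [Finset.sum_congr rfl h1]
  have h2 : ((polys n).card : ℝ) = ∑ S ∈ polys n, (1 : ℝ) := by simp
  rw [h2]
  have h3 : ∑ R ∈ N11_I n K, ∑ S ∈ (polys n).filter (fun S => can S = R), (1 : ℝ) ≤
      ∑ R ∈ polys n, ∑ S ∈ (polys n).filter (fun S => can S = R), (1 : ℝ) := by
    refine Finset.sum_le_sum_of_subset_of_nonneg ?_ (fun R _ _ => ?_)
    · intro R hR
      rw [N11_I, Finset.mem_filter] at hR
      exact hR.1
    · exact Finset.sum_nonneg fun _ _ => zero_le_one
  refine le_trans h3 (le_of_eq ?_)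
  exact Finset.sum_fiberwise_of_maps_to (fun S hS => (can_mem hS).1) _

/-- PROOF. `cK n K m = ∑_{R ∈ I} #{S ∈ polys n | can S = R, perim S = 2 m}`, `I` = the set of all
`R ∈ polys n` with `obb R = ∅`, `K ≤ (oc R).card` (`can_mem`: `oc (can S) = oc S`;
`Finset.card_eq_sum_card_fiberwise`), and by `fibre_sum` with `f p = if p = 2 m then 1 else 0` the term is
`(oc R).card.choose j` with `perim R + 2 j = 2 m` (and `0` if there is no such `j ≥ 0`); put
`j = m - perim R / 2` in `ℤ` if `perim R` is even, and everything is `0` if `perim R` is odd. So by the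
triangle inequality the left side is at most `∑_R` (total variation of the binomial coefficients
of `k_R = (oc R).card ≥ K`) `* sqrt K ≤ ∑_R 2 * 2 ^ k_R` (`binom_tv`), and
`∑_R 2 ^ k_R ≤ (polys n).card` (`fibre_sum` with `f = 1`, `Nat.sum_range_choose`). -/
theorem tv_K (n K M : ℕ) :
    (∑ m ∈ Finset.range M, |(cK n K (m + 1) : ℝ) - (cK n K m : ℝ)|) * Real.sqrt K ≤
      2 * ((polys n).card : ℝ) := by
  classical
  have hone : ∀ R ∈ N11_I n K,
      (∑ m ∈ Finset.range M, |N11_g R (m + 1) - N11_g R m|) * Real.sqrt K ≤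
        2 * (2 : ℝ) ^ (oc R).card := by
    intro R hR
    rw [N11_I, Finset.mem_filter] at hR
    have hsqrt : Real.sqrt K ≤ Real.sqrt ((oc R).card : ℝ) :=
      Real.sqrt_le_sqrt (by exact_mod_cast hR.2.2)
    have hnn : 0 ≤ ∑ m ∈ Finset.range M, |N11_g R (m + 1) - N11_g R m| :=
      Finset.sum_nonneg fun _ _ => abs_nonneg _
    refine le_trans (mul_le_mul_of_nonneg_left hsqrt hnn) ?_
    by_cases hev : perim R % 2 = 0
    · set e : ℕ → ℤ := fun m => (m : ℤ) - ((perim R / 2 : ℕ) : ℤ) with he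
      have hinj : Function.Injective e := by
        intro a b hab
        simp only [he] at hab
        omega
      have h1 : ∑ m ∈ Finset.range M, |N11_g R (m + 1) - N11_g R m| =
          ∑ j ∈ (Finset.range M).image e, |N11_F (oc R).card (j + 1) - N11_F (oc R).card j| := by
        rw [Finset.sum_image (fun a _ b _ hab => hinj hab)]
        refine Finset.sum_congr rfl fun m _ => ?_
        unfold N11_g
        rw [if_pos hev, if_pos hev]
        have h3 : (((m + 1 : ℕ) : ℤ) - ((perim R / 2 : ℕ) : ℤ)) = e m + 1 := by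
          simp only [he]
          push_cast
          ring
        rw [h3]
      rw [h1]
      exact binom_tv (oc R).card ((Finset.range M).image e)
    · have h1 : ∑ m ∈ Finset.range M, |N11_g R (m + 1) - N11_g R m| = 0 := by
        refine Finset.sum_eq_zero fun m _ => ?_
        unfold N11_g
        rw [if_neg hev, if_neg hev, sub_zero, abs_zero]
      rw [h1, zero_mul]
      positivity
  have htri : ∀ m : ℕ, |(cK n K (m + 1) : ℝ) - (cK n K m : ℝ)| ≤
      ∑ R ∈ N11_I n K, |N11_g R (m + 1) - N11_g R m| := by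
    intro m
    rw [N11_cK, N11_cK, ← Finset.sum_sub_distrib]
    exact Finset.abs_sum_le_sum_abs _ _
  calc (∑ m ∈ Finset.range M, |(cK n K (m + 1) : ℝ) - (cK n K m : ℝ)|) * Real.sqrt K
      ≤ (∑ m ∈ Finset.range M, ∑ R ∈ N11_I n K, |N11_g R (m + 1) - N11_g R m|) *
          Real.sqrt K :=
        mul_le_mul_of_nonneg_right (Finset.sum_le_sum fun m _ => htri m) (Real.sqrt_nonneg _)
    _ = ∑ R ∈ N11_I n K,
          (∑ m ∈ Finset.range M, |N11_g R (m + 1) - N11_g R m|) * Real.sqrt K := by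
        rw [Finset.sum_comm, Finset.sum_mul]
    _ ≤ ∑ R ∈ N11_I n K, 2 * (2 : ℝ) ^ (oc R).card := Finset.sum_le_sum hone
    _ = 2 * ∑ R ∈ N11_I n K, (2 : ℝ) ^ (oc R).card := by rw [Finset.mul_sum]
    _ ≤ 2 * ((polys n).card : ℝ) := by
        have := N11_pow n K
        linarith

end Pool.Agent.Lib.MP_dcf1eb_pr
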