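import Pool.Agent.Lib.MP_dcf1eb_pr.N10

/-!
# Fixed area polygons: strict convexity at finite n (N12)
-/

set_option autoImplicit false

namespace Pool.Agent.Lib.MP_dcf1eb_pr

open Classical in
/-- The canonical representatives with at least `K` occurrences. -/
private noncomputable def N12_I (n K : ℕ) : Finset (Finset (ℤ × ℤ)) :=
  (polys n).filter (fun R => obb R = ∅ ∧ K ≤ (oc R).card)

private theorem N12_fib {n : ℕ} {R : Finset (ℤ × ℤ)} (hR : R ∈ polys n) (hb : obb R = ∅)
    (s : ℝ) :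
    ∑ S ∈ (polys n).filter (fun S => can S = R), wt s S =
      wt s R * (1 + Real.exp s) ^ (oc R).card := by
  have h := fibre_sum hR hb (fun p => Real.exp (s * ((p : ℝ) / 2)))
  have h1 : ∑ S ∈ (polys n).filter (fun S => can S = R), wt s S =
      ∑ S ∈ (polys n).filter (fun S => can S = R),
        (fun p : ℕ => Real.exp (s * ((p : ℝ) / 2))) (perim S) := rfl
  rw [h1, h, add_comm (1 : ℝ), add_pow, Finset.mul_sum]
  refine Finset.sum_congr rfl fun j _ => ?_
  have h2 : Real.exp (s * (((perim R + 2 * j : ℕ) : ℝ) / 2)) = wt s R * Real.exp s ^ j := by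
    rw [wt, ← Real.exp_nat_mul, ← Real.exp_add]
    congr 1
    push_cast
    ring
  simp only [h2, one_pow, mul_one]
  ring

private theorem N12_X (n K : ℕ) (s : ℝ) :
    ∑ S ∈ (polys n).filter (fun S => K ≤ (oc S).card), wt s S =
      ∑ R ∈ N12_I n K, wt s R * (1 + Real.exp s) ^ (oc R).card := by
  classical
  have hmaps : ∀ S ∈ (polys n).filter (fun S => K ≤ (oc S).card), can S ∈ N12_I n K := by
    intro S hS
    rw [Finset.mem_filter] at hS
    obtain ⟨h1, h2, h3⟩ := can_mem hS.1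
    rw [N12_I, Finset.mem_filter]
    refine ⟨h1, h3, ?_⟩
    rw [h2]
    exact hS.2
  rw [← Finset.sum_fiberwise_of_maps_to hmaps]
  refine Finset.sum_congr rfl fun R hR => ?_
  rw [N12_I, Finset.mem_filter] at hR
  rw [← N12_fib hR.1 hR.2.1 s]
  refine Finset.sum_congr ?_ fun _ _ => rfl
  ext S
  simp only [Finset.mem_filter]
  constructor
  · rintro ⟨⟨h1, _⟩, h3⟩
    exact ⟨h1, h3⟩
  · rintro ⟨h1, h3⟩
    refine ⟨⟨h1, ?_⟩, h3⟩
    have h4 := (can_mem h1).2.1
    rw [← h4, h3]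
    exact hR.2.2

/-- PROOF. Let `I` be the set of all `R ∈ polys n` with `obb R = ∅` and `K ≤ (oc R).card`. For every real
`s` and `R ∈ I`, `k = (oc R).card`, `fibre_sum` with `f p = exp (s * p / 2)` and the binomial theorem give
`∑_{S, can S = R} wt s S = wt s R * (1 + exp s) ^ k`. So with
`a_R = wt (t+h) R * (1 + exp (t+h)) ^ k`, `b_R = wt (t-h) R * (1 + exp (t-h)) ^ k`:
`∑_{R ∈ I} a_R ≤ ZZ n (t+h)`, `∑_{R ∈ I} b_R ≤ ZZ n (t-h)`, and
`∑_{R ∈ I} wt t R * (1 + exp t) ^ k` is the sum on the left (`oc (can S) = oc S`). With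
`q = (1 + exp (t+h)) * (1 + exp (t-h)) / (1 + exp t)^2 ≥ 1`
[`(1 + exp (t+h)) (1 + exp (t-h)) - (1 + exp t)^2 = exp t (exp h + exp (-h) - 2) ≥ 0`]:
`a_R * b_R = (wt t R * (1 + exp t) ^ k) ^ 2 * q ^ k ≥ (wt t R * (1 + exp t) ^ k) ^ 2 * q ^ K`.
Cauchy-Schwarz (`Finset.sum_mul_sq_le_sq_mul_sq` for the square roots). -/
theorem cauchy2 (n K : ℕ) (t h : ℝ) :
    (∑ S ∈ (polys n).filter (fun S => K ≤ (oc S).card), wt t S) ^ 2 *
      ((1 + Real.exp (t + h)) * (1 + Real.exp (t - h)) / (1 + Real.exp t) ^ 2) ^ K ≤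
      ZZ n (t + h) * ZZ n (t - h) := by
  classical
  have hZ : ∀ s : ℝ, ∑ S ∈ (polys n).filter (fun S => K ≤ (oc S).card), wt s S ≤ ZZ n s := by
    intro s
    exact Finset.sum_le_sum_of_subset_of_nonneg (Finset.filter_subset _ _)
      (fun S _ _ => (wt_pos s S).le)
  have hX0 : ∀ s : ℝ, 0 ≤ ∑ S ∈ (polys n).filter (fun S => K ≤ (oc S).card), wt s S :=
    fun s => Finset.sum_nonneg (fun S _ => (wt_pos s S).le)
  refine le_trans ?_ (mul_le_mul (hZ (t + h)) (hZ (t - h)) (hX0 _) (ZZ_nonneg n _))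
  rw [N12_X n K t, N12_X n K (t + h), N12_X n K (t - h)]
  set q : ℝ := (1 + Real.exp (t + h)) * (1 + Real.exp (t - h)) / (1 + Real.exp t) ^ 2 with hq
  have hp1 : 0 < 1 + Real.exp t := by positivity
  have hpp : 0 < 1 + Real.exp (t + h) := by positivity
  have hpm : 0 < 1 + Real.exp (t - h) := by positivity
  have hq1 : 1 ≤ q := by
    rw [hq, le_div_iff₀ (by positivity), one_mul]
    have e1 : Real.exp (t + h) * Real.exp (t - h) = Real.exp t ^ 2 := by
      rw [← Real.exp_add, ← Real.exp_nat_mul]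
      congr 1
      push_cast
      ring
    have e2 : 2 * Real.exp t ≤ Real.exp (t + h) + Real.exp (t - h) := by
      have e3 : 0 ≤ (Real.exp ((t + h) / 2) - Real.exp ((t - h) / 2)) ^ 2 := sq_nonneg _
      have e4 : Real.exp ((t + h) / 2) ^ 2 = Real.exp (t + h) := by
        rw [← Real.exp_nat_mul]
        congr 1
        push_cast
        ring
      have e5 : Real.exp ((t - h) / 2) ^ 2 = Real.exp (t - h) := by
        rw [← Real.exp_nat_mul]
        congr 1
        push_cast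
        ring
      have e6 : Real.exp ((t + h) / 2) * Real.exp ((t - h) / 2) = Real.exp t := by
        rw [← Real.exp_add]
        congr 1
        ring
      nlinarith
    nlinarith
  have hq0 : 0 ≤ q := le_trans zero_le_one hq1
  set a : Finset (ℤ × ℤ) → ℝ := fun R => wt (t + h) R * (1 + Real.exp (t + h)) ^ (oc R).card with ha
  set b : Finset (ℤ × ℤ) → ℝ := fun R => wt (t - h) R * (1 + Real.exp (t - h)) ^ (oc R).card with hb
  set x : Finset (ℤ × ℤ) → ℝ := fun R => wt t R * (1 + Real.exp t) ^ (oc R).card with hx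
  have ha0 : ∀ R, 0 ≤ a R := fun R => mul_nonneg (wt_pos _ R).le (by positivity)
  have hb0 : ∀ R, 0 ≤ b R := fun R => mul_nonneg (wt_pos _ R).le (by positivity)
  have hx0 : ∀ R, 0 ≤ x R := fun R => mul_nonneg (wt_pos _ R).le (by positivity)
  have hab : ∀ R ∈ N12_I n K, x R * Real.sqrt (q ^ K) ≤ Real.sqrt (a R) * Real.sqrt (b R) := by
    intro R hR
    rw [N12_I, Finset.mem_filter] at hR
    have e1 : a R * b R = (x R) ^ 2 * q ^ (oc R).card := by
      have e2 : wt (t + h) R * wt (t - h) R = wt t R ^ 2 := by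
        simp only [wt]
        rw [← Real.exp_add, ← Real.exp_nat_mul]
        congr 1
        push_cast
        ring
      have e3 : q * (1 + Real.exp t) ^ 2 = (1 + Real.exp (t + h)) * (1 + Real.exp (t - h)) := by
        rw [hq]
        field_simp
      calc a R * b R = (wt (t + h) R * wt (t - h) R) *
            ((1 + Real.exp (t + h)) * (1 + Real.exp (t - h))) ^ (oc R).card := by
              simp only [ha, hb]
              rw [mul_pow]
              ring
        _ = wt t R ^ 2 * (q * (1 + Real.exp t) ^ 2) ^ (oc R).card := by rw [e2, e3]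
        _ = (x R) ^ 2 * q ^ (oc R).card := by
              simp only [hx]
              rw [mul_pow, mul_pow, ← pow_mul, ← pow_mul, mul_comm 2 (oc R).card]
              ring
    rw [← Real.sqrt_mul (ha0 R), e1]
    have e4 : x R * Real.sqrt (q ^ K) = Real.sqrt ((x R) ^ 2 * q ^ K) := by
      rw [Real.sqrt_mul (sq_nonneg _), Real.sqrt_sq (hx0 R)]
    rw [e4]
    apply Real.sqrt_le_sqrt
    exact mul_le_mul_of_nonneg_left (pow_le_pow_right₀ hq1 hR.2.2) (sq_nonneg _)
  have hsum : (∑ R ∈ N12_I n K, x R) * Real.sqrt (q ^ K) ≤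
      ∑ R ∈ N12_I n K, Real.sqrt (a R) * Real.sqrt (b R) := by
    rw [Finset.sum_mul]
    exact Finset.sum_le_sum hab
  have hnn : 0 ≤ (∑ R ∈ N12_I n K, x R) * Real.sqrt (q ^ K) :=
    mul_nonneg (Finset.sum_nonneg fun R _ => hx0 R) (Real.sqrt_nonneg _)
  have hsq := pow_le_pow_left₀ hnn hsum 2
  rw [mul_pow, Real.sq_sqrt (pow_nonneg hq0 K)] at hsq
  refine le_trans hsq (le_trans (Finset.sum_mul_sq_le_sq_mul_sq _ _ _) (le_of_eq ?_))
  congr 1
  · exact Finset.sum_congr rfl fun R _ => Real.sq_sqrt (ha0 R)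
  · exact Finset.sum_congr rfl fun R _ => Real.sq_sqrt (hb0 R)

end Pool.Agent.Lib.MP_dcf1eb_pr
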