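import Pool.Agent.Lib.MP_dcf1eb_pr.B1
import Pool.Agent.Lib.MP_dcf1eb_pr.N0

/-!
# Fixed area polygons: exchanging the states of a ring pattern (N2)
-/

set_option autoImplicit false

namespace Pool.Agent.Lib.MP_dcf1eb_pr

private theorem N2_mem {S : Finset (ℤ × ℤ)} {z c : Cell} (h1 : c ≠ gy z) (h2 : c ≠ gx z) :
    c ∈ tg S z ↔ c ∈ S := by
  simp only [tg, Finset.mem_symmDiff, Finset.mem_insert, Finset.mem_singleton]
  tauto

private theorem N2_ne (z : Cell) : gy z ≠ gx z := by
  simp only [gy, gx, ne_eq, Prod.mk.injEq]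
  omega

private theorem N2_gy {S : Finset (ℤ × ℤ)} {z : Cell} : gy z ∈ tg S z ↔ gy z ∉ S := by
  simp only [tg, Finset.mem_symmDiff, Finset.mem_insert, Finset.mem_singleton]
  tauto

private theorem N2_gx {S : Finset (ℤ × ℤ)} {z : Cell} : gx z ∈ tg S z ↔ gx z ∉ S := by
  simp only [tg, Finset.mem_symmDiff, Finset.mem_insert, Finset.mem_singleton]
  tauto

private theorem N2_qc {S : Finset (ℤ × ℤ)} {z : Cell} (h : QC (↑S : Set Cell) z) :
    QC (↑(tg S z) : Set Cell) z := by
  obtain ⟨h1, h2, h3⟩ := h
  have hm : ∀ c : Cell, c ≠ gy z → c ≠ gx z → (c ∈ (↑(tg S z) : Set Cell) ↔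
      c ∈ (↑S : Set Cell)) := by
    intro c h1 h2
    rw [Finset.mem_coe, Finset.mem_coe]
    exact N2_mem h1 h2
  refine ⟨?_, ?_, ?_⟩
  · intro i j hi1 hi2 hj1 hj2 hij hb
    rw [hm]
    · exact h1 i j hi1 hi2 hj1 hj2 hij hb
    · simp only [gy, ne_eq, Prod.mk.injEq]
      omega
    · simp only [gx, ne_eq, Prod.mk.injEq]
      omega
  · rw [hm, hm]
    · exact h2
    · simp only [gy, ne_eq, Prod.mk.injEq]
      omega
    · simp only [gx, ne_eq, Prod.mk.injEq]
      omega
    · simp only [gy, ne_eq, Prod.mk.injEq]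
      omega
    · simp only [gx, ne_eq, Prod.mk.injEq]
      omega
  · intro i j hi1 hi2 hj1 hj2 hij
    rw [hm]
    · exact h3 i j hi1 hi2 hj1 hj2 hij
    · simp only [gy, ne_eq, Prod.mk.injEq]
      omega
    · simp only [gx, ne_eq, Prod.mk.injEq]
      omega

/-- the shape of the ring at the cell `(a + 3, b + 3)` -/
private theorem N2_ringx {T : Set Cell} {a b : ℤ} (hN : (a + 3, b + 4) ∉ T)
    (hE : (a + 4, b + 3) ∉ T) (hSW : (a + 2, b + 2) ∈ T) : RingOK T (a + 3) (b + 3) := by
  have e1 : b + 3 + 1 = b + 4 := by ring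
  have e2 : b + 3 - 1 = b + 2 := by ring
  have e3 : a + 3 + 1 = a + 4 := by ring
  have e4 : a + 3 - 1 = a + 2 := by ring
  unfold RingOK
  rw [e1, e2, e3, e4]
  tauto

private theorem N2_ringx' {T : Set Cell} {a b : ℤ} (hNE : (a + 4, b + 4) ∈ T)
    (hS : (a + 3, b + 2) ∉ T) (hW : (a + 2, b + 3) ∉ T) : RingOK T (a + 3) (b + 3) := by
  have e1 : b + 3 + 1 = b + 4 := by ring
  have e2 : b + 3 - 1 = b + 2 := by ring
  have e3 : a + 3 + 1 = a + 4 := by ring
  have e4 : a + 3 - 1 = a + 2 := by ring
  unfold RingOK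
  rw [e1, e2, e3, e4]
  tauto

private theorem N2_ringy {T : Set Cell} {a b : ℤ} (hN : (a + 1, b + 4) ∉ T)
    (hS : (a + 1, b + 2) ∈ T) (hSE : (a + 2, b + 2) ∈ T) (hSW : (a + 0, b + 2) ∈ T) :
    RingOK T (a + 1) (b + 3) := by
  have e1 : b + 3 + 1 = b + 4 := by ring
  have e2 : b + 3 - 1 = b + 2 := by ring
  have e3 : a + 1 + 1 = a + 2 := by ring
  have e4 : a + 1 - 1 = a + 0 := by ring
  unfold RingOK
  rw [e1, e2, e3, e4]
  tauto

private theorem N2_ringy' {T : Set Cell} {a b : ℤ} (hE : (a + 2, b + 3) ∉ T)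
    (hS : (a + 1, b + 2) ∉ T) (hW : (a + 0, b + 3) ∉ T) : RingOK T (a + 1) (b + 3) := by
  have e1 : b + 3 + 1 = b + 4 := by ring
  have e2 : b + 3 - 1 = b + 2 := by ring
  have e3 : a + 1 + 1 = a + 2 := by ring
  have e4 : a + 1 - 1 = a + 0 := by ring
  unfold RingOK
  rw [e1, e2, e3, e4]
  tauto

/-- PROOF. First state: `S ∪ {gx z}` is a polygon by `poly_insert` (`gx z = (a, b)` with `a = z.1 + 3`,
`b = z.2 + 3`: ring: north, north-east, north-west, east, south-east not in `S`; south, south-west,
west in `S`), then remove `gy z` by `poly_erase` (north-west, north, north-east not in;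
west, east, south-west, south, south-east in). Second state: insert `gy z` (only the north side
is out), then remove `gx z`. In both cases the result is `tg S z` (`Finset.mem_symmDiff`). -/
theorem tg_poly {S : Finset (ℤ × ℤ)} (h : IsPoly (↑S : Set Cell)) {z : Cell}
    (hz : QA (↑S : Set Cell) z ∨ QB (↑S : Set Cell) z) : IsPoly (↑(tg S z) : Set Cell) := by
  obtain ⟨a, b⟩ := z
  have hQ : QC (↑S : Set Cell) (a, b) := by
    rcases hz with h' | h'
    · exact h'.1
    · exact h'.1
  obtain ⟨h1, h2, h3⟩ := hQ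
  have o1 : ((a + 1, b + 4) : Cell) ∉ (↑S : Set Cell) :=
    h1 1 4 (by norm_num) (by norm_num) (by norm_num) (by norm_num) (by norm_num) (by norm_num)
  have o3 : ((a + 3, b + 4) : Cell) ∉ (↑S : Set Cell) :=
    h1 3 4 (by norm_num) (by norm_num) (by norm_num) (by norm_num) (by norm_num) (by norm_num)
  have o4 : ((a + 4, b + 4) : Cell) ∉ (↑S : Set Cell) :=
    h1 4 4 (by norm_num) (by norm_num) (by norm_num) (by norm_num) (by norm_num) (by norm_num)
  have o5 : ((a + 4, b + 3) : Cell) ∉ (↑S : Set Cell) :=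
    h1 4 3 (by norm_num) (by norm_num) (by norm_num) (by norm_num) (by norm_num) (by norm_num)
  have i0 : ((a + 0, b + 2) : Cell) ∈ (↑S : Set Cell) :=
    h3 0 2 (by norm_num) (by norm_num) (by norm_num) (by norm_num) (by norm_num)
  have i1 : ((a + 1, b + 2) : Cell) ∈ (↑S : Set Cell) :=
    h3 1 2 (by norm_num) (by norm_num) (by norm_num) (by norm_num) (by norm_num)
  have i2 : ((a + 2, b + 2) : Cell) ∈ (↑S : Set Cell) :=
    h3 2 2 (by norm_num) (by norm_num) (by norm_num) (by norm_num) (by norm_num)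
  have i3 : ((a + 3, b + 2) : Cell) ∈ (↑S : Set Cell) :=
    h3 3 2 (by norm_num) (by norm_num) (by norm_num) (by norm_num) (by norm_num)
  have i4 : ((a + 0, b + 3) : Cell) ∈ (↑S : Set Cell) :=
    h3 0 3 (by norm_num) (by norm_num) (by norm_num) (by norm_num) (by norm_num)
  have i5 : ((a + 2, b + 3) : Cell) ∈ (↑S : Set Cell) :=
    h3 2 3 (by norm_num) (by norm_num) (by norm_num) (by norm_num) (by norm_num)
  rcases hz with ⟨-, hy, hx⟩ | ⟨-, hy, hx⟩
  · have hp1 : IsPoly ((↑S : Set Cell) ∪ {((a + 3, b + 3) : Cell)}) := by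
      refine poly_insert h hx (N2_ringx' o4 ?_ ?_)
      · exact fun h' => h' i3
      · exact fun h' => h' i5
    have hp2 : IsPoly (((↑S : Set Cell) ∪ {((a + 3, b + 3) : Cell)}) \ {((a + 1, b + 3) : Cell)}) := by
      refine poly_erase hp1 (Or.inl hy) (N2_ringy ?_ (Or.inl i1) (Or.inl i2) (Or.inl i0))
        ⟨(a + 1, b + 2), Or.inl i1, ?_⟩
      · rintro (h' | h')
        · exact o1 h'
        · simp only [Set.mem_singleton_iff, Prod.mk.injEq] at h'
          omega
      · right; right; right
        simp only [Prod.mk.injEq, true_and]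
        ring
    have e : ((↑S : Set Cell) ∪ {((a + 3, b + 3) : Cell)}) \ {((a + 1, b + 3) : Cell)} =
        (↑(tg S (a, b)) : Set Cell) := by
      ext c
      rw [Finset.mem_coe]
      by_cases hcy : c = gy (a, b)
      · subst hcy
        rw [N2_gy]
        constructor
        · rintro ⟨-, h'⟩
          exact absurd rfl h'
        · intro h'
          exact absurd hy h'
      · by_cases hcx : c = gx (a, b)
        · subst hcx
          rw [N2_gx]
          constructor
          · intro _
            exact hx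
          · intro _
            exact ⟨Or.inr rfl, fun h' => hcy h'⟩
        · rw [N2_mem hcy hcx]
          constructor
          · rintro ⟨h' | h', -⟩
            · exact h'
            · exact absurd h' hcx
          · intro h'
            exact ⟨Or.inl h', fun h'' => hcy h''⟩
    rw [← e]
    exact hp2
  · have hp1 : IsPoly ((↑S : Set Cell) ∪ {((a + 1, b + 3) : Cell)}) := by
      refine poly_insert h hy (N2_ringy' ?_ ?_ ?_)
      · exact fun h' => h' i5
      · exact fun h' => h' i1
      · exact fun h' => h' i4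
    have hp2 : IsPoly (((↑S : Set Cell) ∪ {((a + 1, b + 3) : Cell)}) \ {((a + 3, b + 3) : Cell)}) := by
      refine poly_erase hp1 (Or.inl hx) (N2_ringx ?_ ?_ (Or.inl i2))
        ⟨(a + 3, b + 2), Or.inl i3, ?_⟩
      · rintro (h' | h')
        · exact o3 h'
        · simp only [Set.mem_singleton_iff, Prod.mk.injEq] at h'
          omega
      · rintro (h' | h')
        · exact o5 h'
        · simp only [Set.mem_singleton_iff, Prod.mk.injEq] at h'
          omega
      · right; right; right
        simp only [Prod.mk.injEq, true_and]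
        ring
    have e : ((↑S : Set Cell) ∪ {((a + 1, b + 3) : Cell)}) \ {((a + 3, b + 3) : Cell)} =
        (↑(tg S (a, b)) : Set Cell) := by
      ext c
      rw [Finset.mem_coe]
      by_cases hcx : c = gx (a, b)
      · subst hcx
        rw [N2_gx]
        constructor
        · rintro ⟨-, h'⟩
          exact absurd rfl h'
        · intro h'
          exact absurd hx h'
      · by_cases hcy : c = gy (a, b)
        · subst hcy
          rw [N2_gy]
          constructor
          · intro _
            exact hy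
          · intro _
            exact ⟨Or.inr rfl, fun h' => hcx h'⟩
        · rw [N2_mem hcy hcx]
          constructor
          · rintro ⟨h' | h', -⟩
            · exact h'
            · exact absurd h' hcy
          · intro h'
            exact ⟨Or.inl h', fun h'' => hcx h''⟩
    rw [← e]
    exact hp2

theorem tg_tg (S : Finset (ℤ × ℤ)) (z : Cell) : tg (tg S z) z = S := by
  exact symmDiff_symmDiff_cancel_right _ _

theorem tg_A {S : Finset (ℤ × ℤ)} {z : Cell} (hz : QA (↑S : Set Cell) z) :
    QB (↑(tg S z) : Set Cell) z := by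
  obtain ⟨h1, h2, h3⟩ := hz
  refine ⟨N2_qc h1, ?_, ?_⟩
  · rw [Finset.mem_coe, N2_gy]
    exact fun h' => h' h2
  · rw [Finset.mem_coe, N2_gx]
    exact h3

theorem tg_B {S : Finset (ℤ × ℤ)} {z : Cell} (hz : QB (↑S : Set Cell) z) :
    QA (↑(tg S z) : Set Cell) z := by
  obtain ⟨h1, h2, h3⟩ := hz
  refine ⟨N2_qc h1, ?_, ?_⟩
  · rw [Finset.mem_coe, N2_gy]
    exact h2
  · rw [Finset.mem_coe, N2_gx]
    exact fun h' => h' h3

/-- PROOF. One cell is removed and one is inserted. -/
theorem tg_card {S : Finset (ℤ × ℤ)} {z : Cell}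
    (hz : QA (↑S : Set Cell) z ∨ QB (↑S : Set Cell) z) : (tg S z).card = S.card := by
  rcases hz with ⟨-, hy, hx⟩ | ⟨-, hy, hx⟩
  · rw [Finset.mem_coe] at hy hx
    have e : tg S z = insert (gx z) (S.erase (gy z)) := by
      ext c
      by_cases hcy : c = gy z
      · rw [hcy, N2_gy, Finset.mem_insert, Finset.mem_erase]
        have := N2_ne z
        tauto
      · by_cases hcx : c = gx z
        · rw [hcx, N2_gx, Finset.mem_insert]
          tauto
        · rw [N2_mem hcy hcx, Finset.mem_insert, Finset.mem_erase]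
          tauto
    rw [e, Finset.card_insert_of_notMem (fun h' => hx (Finset.mem_of_mem_erase h')),
      Finset.card_erase_of_mem hy]
    have := Finset.card_pos.2 ⟨_, hy⟩
    omega
  · rw [Finset.mem_coe] at hy hx
    have e : tg S z = insert (gy z) (S.erase (gx z)) := by
      ext c
      by_cases hcx : c = gx z
      · rw [hcx, N2_gx, Finset.mem_insert, Finset.mem_erase]
        have := (N2_ne z).symm
        tauto
      · by_cases hcy : c = gy z
        · rw [hcy, N2_gy, Finset.mem_insert]
          tauto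
        · rw [N2_mem hcy hcx, Finset.mem_insert, Finset.mem_erase]
          tauto
    rw [e, Finset.card_insert_of_notMem (fun h' => hy (Finset.mem_of_mem_erase h')),
      Finset.card_erase_of_mem hx]
    have := Finset.card_pos.2 ⟨_, hx⟩
    omega

end Pool.Agent.Lib.MP_dcf1eb_pr
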