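import Pool.Agent.Lib.MP_dcf1eb_pr.G3
import Pool.Agent.Lib.MP_dcf1eb_pr.N1

/-!
# Fixed area polygons: surgery in many windows (N4)
-/

set_option autoImplicit false

namespace Pool.Agent.Lib.MP_dcf1eb_pr

private theorem N4_bd {ρ x : ℤ × ℤ} {S : Finset (ℤ × ℤ)} (hx : x ∈ bd ρ S) :
    x ∈ S ∧ (x.1 - 1) % 12 = ρ.1 ∧ (x.2 + 1) % 12 = ρ.2 ∧ ∃ w, w ∉ S ∧ Nb x w := by
  classical
  unfold bd at hx
  exact Finset.mem_filter.1 hx

private theorem N4_QA {A B : Set Cell} {y : ℤ × ℤ} (h : ∀ c ∈ win y, c ∈ A ↔ c ∈ B)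
    (hA : QA A (y.1 - 1, y.2 - 1)) : QA B (y.1 - 1, y.2 - 1) := by
  have k : ∀ i j : ℤ, -2 ≤ i → i ≤ 4 → -2 ≤ j → j ≤ 4 →
      ((y.1 - 1 + i, y.2 - 1 + j) ∈ A ↔ (y.1 - 1 + i, y.2 - 1 + j) ∈ B) := by
    intro i j h1 h2 h3 h4
    apply h
    simp only [win, Finset.mem_product, Finset.mem_Icc]
    omega
  obtain ⟨⟨a1, a2, a3⟩, a4, a5⟩ := hA
  simp only [gy, gx] at a4 a5
  simp only at a1 a2 a3
  have k12 : ((y.1 - 1 + 1, y.2 - 1 - 1) ∈ A ↔ (y.1 - 1 + 1, y.2 - 1 - 1) ∈ B) := by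
    have := k 1 (-1) (by norm_num) (by norm_num) (by norm_num) (by norm_num)
    rwa [← sub_eq_add_neg (y.2 - 1) 1] at this
  have k22 : ((y.1 - 1 + 2, y.2 - 1 - 1) ∈ A ↔ (y.1 - 1 + 2, y.2 - 1 - 1) ∈ B) := by
    have := k 2 (-1) (by norm_num) (by norm_num) (by norm_num) (by norm_num)
    rwa [← sub_eq_add_neg (y.2 - 1) 1] at this
  refine ⟨⟨?_, ?_, ?_⟩, ?_, ?_⟩
  · intro i j h1 h2 h3 h4 h5 h6 h7
    exact a1 i j h1 h2 h3 h4 h5 h6 ((k i j (by omega) h2 (by omega) h4).2 h7)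
  · simp only
    rw [← k12, ← k22]
    exact a2
  · intro i j h1 h2 h3 h4 h5
    exact (k i j (by omega) (by omega) (by omega) (by omega)).1 (a3 i j h1 h2 h3 h4 h5)
  · simp only [gy]
    exact (k 1 3 (by norm_num) (by norm_num) (by norm_num) (by norm_num)).1 a4
  · simp only [gx]
    exact fun hh => a5 ((k 3 3 (by norm_num) (by norm_num) (by norm_num) (by norm_num)).2 hh)

/-- PROOF. As `multi_surgery` in G3 (copy its proof, with `surgery2` for `surgery`): induction on `T`.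
For `insert x T`: `S1` from the induction hypothesis; `x` and its neighbour `w ∉ S` are in `win x`,
disjoint from the windows of `T` (`win_disj`), so `x ∈ S1`, `w ∉ S1`; `surgery2` gives the new polygon;
the patterns of the cells of `T` are inside their windows (the square of the pattern is
`x + [-2, 3]^2`), which are disjoint from `win x`. -/
theorem multi_surgery2 {ρ : ℤ × ℤ} {S : Finset (ℤ × ℤ)} (h : IsPoly (↑S : Set Cell))
    (T : Finset (ℤ × ℤ)) (hT : T ⊆ bd ρ S) :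
    ∃ S' : Finset (ℤ × ℤ), IsPoly (↑S' : Set Cell) ∧
      (∀ c, (∀ x ∈ T, c ∉ win x) → (c ∈ S' ↔ c ∈ S)) ∧
      ∀ x ∈ T, QA (↑S' : Set Cell) (x.1 - 1, x.2 - 1) := by
  classical
  induction T using Finset.induction_on with
  | empty =>
    exact ⟨S, h, fun c _ => Iff.rfl, fun x hx => absurd hx (Finset.notMem_empty x)⟩
  | insert x T hxT ih =>
    obtain ⟨S1, hS1, hoff, hQA1⟩ := ih ((Finset.subset_insert x T).trans hT)
    have hxb := hT (Finset.mem_insert_self x T)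
    obtain ⟨hxS, hx1, hx2, w, hwS, hxw⟩ := N4_bd hxb
    have hdis : ∀ y ∈ T, Disjoint (win x) (win y) := by
      intro y hy
      obtain ⟨-, hy1, hy2, -⟩ := N4_bd (hT (Finset.mem_insert_of_mem hy))
      exact win_disj hx1 hx2 hy1 hy2 (fun hxy => hxT (hxy ▸ hy))
    have hxw0 : x ∈ win x := by
      simp only [win, Finset.mem_product, Finset.mem_Icc]
      omega
    have hww : w ∈ win x := by
      simp only [win, Finset.mem_product, Finset.mem_Icc]
      rcases hxw with h1 | h1 | h1 | h1 <;> rw [h1] <;> simp only <;> omega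
    have hx3 : x ∈ S1 :=
      (hoff x fun y hy => Finset.disjoint_left.1 (hdis y hy) hxw0).2 hxS
    have hw3 : w ∉ S1 := fun hw =>
      hwS ((hoff w fun y hy => Finset.disjoint_left.1 (hdis y hy) hww).1 hw)
    obtain ⟨Q, hQ, hQoff, hQQA⟩ := surgery2 hS1 (Finset.mem_coe.2 hx3)
      (fun hw => hw3 (Finset.mem_coe.1 hw)) hxw
    have hcoe : (↑hQ.fin.toFinset : Set Cell) = Q := hQ.fin.coe_toFinset
    refine ⟨hQ.fin.toFinset, ?_, ?_, ?_⟩
    · rw [hcoe]
      exact hQ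
    · intro c hc
      rw [hQ.fin.mem_toFinset]
      have h1 : c ∉ win x := hc x (Finset.mem_insert_self x T)
      have h2 : c ∈ Q ↔ c ∈ S1 := by
        refine (hQoff c fun h3 => h1 ?_).trans Finset.mem_coe
        simp only [win, Finset.mem_product, Finset.mem_Icc]
        exact ⟨⟨h3.1, h3.2.1⟩, h3.2.2.1, h3.2.2.2⟩
      exact h2.trans (hoff c fun y hy => hc y (Finset.mem_insert_of_mem hy))
    · intro y hy
      rw [hcoe]
      rcases Finset.mem_insert.1 hy with hy | hy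
      · rw [hy]
        exact hQQA
      · refine N4_QA (fun c hc => ?_) (hQA1 y hy)
        have h1 : c ∉ win x := fun h2 => Finset.disjoint_left.1 (hdis y hy) h2 hc
        refine (hQoff c fun h3 => h1 ?_).symm
        simp only [win, Finset.mem_product, Finset.mem_Icc]
        exact ⟨⟨h3.1, h3.2.1⟩, h3.2.2.1, h3.2.2.2⟩

end Pool.Agent.Lib.MP_dcf1eb_pr
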