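import Pool.Agent.Lib.MP_dcf1eb_pr.N4
import Pool.Agent.Lib.MP_dcf1eb_pr.A2

/-!
# Fixed area polygons: facts about the multiple surgery (N5)
-/

set_option autoImplicit false

namespace Pool.Agent.Lib.MP_dcf1eb_pr

/-- left ends of the horizontal edges inside `S` -/
private noncomputable def N5_H (S : Finset (ℤ × ℤ)) : Finset (ℤ × ℤ) :=
  S.filter (fun a => (a.1 + 1, a.2) ∈ S)

/-- lower ends of the vertical edges inside `S` -/
private noncomputable def N5_V (S : Finset (ℤ × ℤ)) : Finset (ℤ × ℤ) :=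
  S.filter (fun a => (a.1, a.2 + 1) ∈ S)

private theorem N5_shiftH (S : Finset (ℤ × ℤ)) :
    (S.filter (fun a => (a.1 - 1, a.2) ∈ S)).card = (N5_H S).card := by
  refine Finset.card_bij (fun a _ => (a.1 - 1, a.2)) ?_ ?_ ?_
  · intro a ha
    rw [Finset.mem_filter] at ha
    unfold N5_H
    rw [Finset.mem_filter]
    refine ⟨ha.2, ?_⟩
    have : ((a.1 - 1) + 1, a.2) = a := by ext <;> simp
    rw [this]
    exact ha.1
  · intro a _ b _ h
    simp only [Prod.mk.injEq] at h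
    ext
    · omega
    · exact h.2
  · intro b hb
    unfold N5_H at hb
    rw [Finset.mem_filter] at hb
    refine ⟨(b.1 + 1, b.2), ?_, ?_⟩
    · rw [Finset.mem_filter]
      refine ⟨hb.2, ?_⟩
      have : ((b.1 + 1) - 1, b.2) = b := by ext <;> simp
      rw [this]
      exact hb.1
    · ext <;> simp

private theorem N5_shiftV (S : Finset (ℤ × ℤ)) :
    (S.filter (fun a => (a.1, a.2 - 1) ∈ S)).card = (N5_V S).card := by
  refine Finset.card_bij (fun a _ => (a.1, a.2 - 1)) ?_ ?_ ?_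
  · intro a ha
    rw [Finset.mem_filter] at ha
    unfold N5_V
    rw [Finset.mem_filter]
    refine ⟨ha.2, ?_⟩
    have : (a.1, (a.2 - 1) + 1) = a := by ext <;> simp
    rw [this]
    exact ha.1
  · intro a _ b _ h
    simp only [Prod.mk.injEq] at h
    ext
    · exact h.1
    · omega
  · intro b hb
    unfold N5_V at hb
    rw [Finset.mem_filter] at hb
    refine ⟨(b.1, b.2 + 1), ?_, ?_⟩
    · rw [Finset.mem_filter]
      refine ⟨hb.2, ?_⟩
      have : (b.1, (b.2 + 1) - 1) = b := by ext <;> simp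
      rw [this]
      exact hb.1
    · ext <;> simp

private theorem N5_term (S : Finset (ℤ × ℤ)) (a : ℤ × ℤ) :
    (Finset.filter (fun b => b ∉ S)
      ({(a.1 + 1, a.2), (a.1 - 1, a.2), (a.1, a.2 + 1), (a.1, a.2 - 1)} : Finset (ℤ × ℤ))).card +
    ((if (a.1 + 1, a.2) ∈ S then 1 else 0) + (if (a.1 - 1, a.2) ∈ S then 1 else 0) +
      (if (a.1, a.2 + 1) ∈ S then 1 else 0) + (if (a.1, a.2 - 1) ∈ S then 1 else 0)) = 4 := by
  have e1 : ((a.1 + 1, a.2) : ℤ × ℤ) ∉
      ({(a.1 - 1, a.2), (a.1, a.2 + 1), (a.1, a.2 - 1)} : Finset (ℤ × ℤ)) := by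
    simp only [Finset.mem_insert, Finset.mem_singleton, Prod.mk.injEq]
    omega
  have e2 : ((a.1 - 1, a.2) : ℤ × ℤ) ∉
      ({(a.1, a.2 + 1), (a.1, a.2 - 1)} : Finset (ℤ × ℤ)) := by
    simp only [Finset.mem_insert, Finset.mem_singleton, Prod.mk.injEq]
    omega
  have e3 : ((a.1, a.2 + 1) : ℤ × ℤ) ∉ ({(a.1, a.2 - 1)} : Finset (ℤ × ℤ)) := by
    simp only [Finset.mem_singleton, Prod.mk.injEq]
    omega
  rw [Finset.card_filter, Finset.sum_insert e1, Finset.sum_insert e2, Finset.sum_insert e3,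
    Finset.sum_singleton]
  by_cases h1 : ((a.1 + 1, a.2) : ℤ × ℤ) ∈ S <;> by_cases h2 : ((a.1 - 1, a.2) : ℤ × ℤ) ∈ S <;>
    by_cases h3 : ((a.1, a.2 + 1) : ℤ × ℤ) ∈ S <;> by_cases h4 : ((a.1, a.2 - 1) : ℤ × ℤ) ∈ S <;>
    simp [h1, h2, h3, h4]

private theorem N5_perim (S : Finset (ℤ × ℤ)) :
    perim S + 2 * ((N5_H S).card + (N5_V S).card) = 4 * S.card := by
  have h1 : ∑ a ∈ S, ((Finset.filter (fun b => b ∉ S)
      ({(a.1 + 1, a.2), (a.1 - 1, a.2), (a.1, a.2 + 1), (a.1, a.2 - 1)} : Finset (ℤ × ℤ))).card +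
    ((if (a.1 + 1, a.2) ∈ S then 1 else 0) + (if (a.1 - 1, a.2) ∈ S then 1 else 0) +
      (if (a.1, a.2 + 1) ∈ S then 1 else 0) + (if (a.1, a.2 - 1) ∈ S then 1 else 0))) =
      4 * S.card := by
    rw [Finset.sum_congr rfl (fun a _ => N5_term S a), Finset.sum_const, smul_eq_mul, mul_comm]
  rw [Finset.sum_add_distrib, Finset.sum_add_distrib, Finset.sum_add_distrib,
    Finset.sum_add_distrib, ← Finset.card_filter, ← Finset.card_filter, ← Finset.card_filter,
    ← Finset.card_filter, N5_shiftH, N5_shiftV] at h1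
  unfold perim
  have hH : (S.filter (fun a => (a.1 + 1, a.2) ∈ S)).card = (N5_H S).card := rfl
  have hV : (S.filter (fun a => (a.1, a.2 + 1) ∈ S)).card = (N5_V S).card := rfl
  rw [hH, hV] at h1
  omega

private theorem N5_ins {S : Finset (ℤ × ℤ)} {c : ℤ × ℤ} (hc : c ∉ S) :
    perim (insert c S) ≤ perim S + 4 ∧ perim S ≤ perim (insert c S) + 4 := by
  have h1 := N5_perim S
  have h2 := N5_perim (insert c S)
  rw [Finset.card_insert_of_notMem hc] at h2
  have hHm : (N5_H S).card ≤ (N5_H (insert c S)).card := by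
    refine Finset.card_le_card fun a ha => ?_
    unfold N5_H at ha ⊢
    rw [Finset.mem_filter] at ha ⊢
    exact ⟨Finset.mem_insert_of_mem ha.1, Finset.mem_insert_of_mem ha.2⟩
  have hVm : (N5_V S).card ≤ (N5_V (insert c S)).card := by
    refine Finset.card_le_card fun a ha => ?_
    unfold N5_V at ha ⊢
    rw [Finset.mem_filter] at ha ⊢
    exact ⟨Finset.mem_insert_of_mem ha.1, Finset.mem_insert_of_mem ha.2⟩
  have hHM : (N5_H (insert c S)).card ≤ (N5_H S).card + 2 := by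
    have hsub : N5_H (insert c S) ⊆ N5_H S ∪ {c, (c.1 - 1, c.2)} := by
      intro a ha
      unfold N5_H at ha ⊢
      rw [Finset.mem_filter, Finset.mem_insert, Finset.mem_insert] at ha
      rw [Finset.mem_union, Finset.mem_filter, Finset.mem_insert, Finset.mem_singleton]
      obtain ⟨h3, h4⟩ := ha
      by_cases h5 : a = c
      · exact Or.inr (Or.inl h5)
      · rcases h4 with h4 | h4
        · right
          right
          rw [← h4]
          ext <;> simp
        · exact Or.inl ⟨h3.resolve_left h5, h4⟩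
    refine (Finset.card_le_card hsub).trans ((Finset.card_union_le _ _).trans ?_)
    exact Nat.add_le_add_left Finset.card_le_two _
  have hVM : (N5_V (insert c S)).card ≤ (N5_V S).card + 2 := by
    have hsub : N5_V (insert c S) ⊆ N5_V S ∪ {c, (c.1, c.2 - 1)} := by
      intro a ha
      unfold N5_V at ha ⊢
      rw [Finset.mem_filter, Finset.mem_insert, Finset.mem_insert] at ha
      rw [Finset.mem_union, Finset.mem_filter, Finset.mem_insert, Finset.mem_singleton]
      obtain ⟨h3, h4⟩ := ha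
      by_cases h5 : a = c
      · exact Or.inr (Or.inl h5)
      · rcases h4 with h4 | h4
        · right
          right
          rw [← h4]
          ext <;> simp
        · exact Or.inl ⟨h3.resolve_left h5, h4⟩
    refine (Finset.card_le_card hsub).trans ((Finset.card_union_le _ _).trans ?_)
    exact Nat.add_le_add_left Finset.card_le_two _
  constructor <;> omega

private theorem N5_union (S T : Finset (ℤ × ℤ)) (hd : Disjoint S T) :
    perim (S ∪ T) ≤ perim S + 4 * T.card ∧ perim S ≤ perim (S ∪ T) + 4 * T.card := by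
  classical
  induction T using Finset.induction_on with
  | empty => simp
  | insert c T hc ih =>
    rw [Finset.disjoint_insert_right] at hd
    obtain ⟨h1, h2⟩ := ih hd.2
    have h3 : c ∉ S ∪ T := by
      rw [Finset.mem_union]
      exact fun h => h.elim hd.1 hc
    obtain ⟨h4, h5⟩ := N5_ins h3
    have h6 : S ∪ insert c T = insert c (S ∪ T) := Finset.union_insert c S T
    rw [h6, Finset.card_insert_of_notMem hc]
    constructor <;> omega

/-- PROOF. Induction on the number of cells in the symmetric difference: adding or removing one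
cell changes `perim` by at most 4. Or: the boundary edges of `S` whose two cells are both outside
`W` are the same for both; write `perim S = ∑ a ∈ S, #{...}` and split into the boundary edges with
an end in `W` (at most `4 * W.card` of them, for each of the sets: a cell of `W` has four edges)
and the others. -/
theorem perim_diff2 {S S' W : Finset (ℤ × ℤ)} (h : ∀ c, c ∉ W → (c ∈ S' ↔ c ∈ S)) :
    perim S' ≤ perim S + 4 * W.card ∧ perim S ≤ perim S' + 4 * W.card := by
  classical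
  have d1 : Disjoint (S ∩ S') (S \ S') := by
    rw [Finset.disjoint_left]
    intro c hc hc'
    exact (Finset.mem_sdiff.1 hc').2 (Finset.mem_inter.1 hc).2
  have d2 : Disjoint (S ∩ S') (S' \ S) := by
    rw [Finset.disjoint_left]
    intro c hc hc'
    exact (Finset.mem_sdiff.1 hc').2 (Finset.mem_inter.1 hc).1
  have e1 : (S ∩ S') ∪ (S \ S') = S := by
    ext c
    simp only [Finset.mem_union, Finset.mem_inter, Finset.mem_sdiff]
    tauto
  have e2 : (S ∩ S') ∪ (S' \ S) = S' := by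
    ext c
    simp only [Finset.mem_union, Finset.mem_inter, Finset.mem_sdiff]
    tauto
  obtain ⟨h1, h2⟩ := N5_union _ _ d1
  obtain ⟨h3, h4⟩ := N5_union _ _ d2
  rw [e1] at h1 h2
  rw [e2] at h3 h4
  have h5 : (S \ S').card + (S' \ S).card ≤ W.card := by
    rw [← Finset.card_union_of_disjoint]
    · refine Finset.card_le_card fun c hc => ?_
      by_contra hcW
      have h6 := h c hcW
      simp only [Finset.mem_union, Finset.mem_sdiff] at hc
      tauto
    · rw [Finset.disjoint_left]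
      intro c hc hc'
      exact (Finset.mem_sdiff.1 hc).2 (Finset.mem_sdiff.1 hc').1
  constructor <;> omega

private theorem N5_win_card (x : ℤ × ℤ) : (win x).card = 144 := by
  unfold win
  rw [Finset.card_product, Int.card_Icc, Int.card_Icc]
  have h1 : x.1 + 6 + 1 - (x.1 - 5) = 12 := by ring
  have h2 : x.2 + 6 + 1 - (x.2 - 5) = 12 := by ring
  rw [h1, h2]
  rfl

private theorem N5_win_mem {x c : ℤ × ℤ} : c ∈ win x ↔
    (x.1 - 5 ≤ c.1 ∧ c.1 ≤ x.1 + 6) ∧ (x.2 - 5 ≤ c.2 ∧ c.2 ≤ x.2 + 6) := by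
  unfold win
  rw [Finset.mem_product, Finset.mem_Icc, Finset.mem_Icc]

private theorem N5_bd {ρ : ℤ × ℤ} {S : Finset (ℤ × ℤ)} {x : ℤ × ℤ} (hx : x ∈ bd ρ S) :
    x ∈ S := by
  classical
  unfold bd at hx
  rw [Finset.mem_filter] at hx
  exact hx.1

private theorem N5_oc {S : Finset (ℤ × ℤ)} {z : ℤ × ℤ} : z ∈ oc S ↔
    z ∈ S ∧ (QA (↑S : Set Cell) z ∨ QB (↑S : Set Cell) z) := by
  classical
  unfold oc
  rw [Finset.mem_filter]

private theorem N5_mem {S : Set Cell} {z : Cell} (h : QC S z) : z ∈ S := by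
  have h1 := h.2.2 0 0 (by norm_num) (by norm_num) (by norm_num) (by norm_num) (by norm_num)
  rw [add_zero, add_zero] at h1
  exact h1

/-- the pattern at `z` is a local condition -/
private theorem N5_local {S S' : Finset (ℤ × ℤ)} {z : ℤ × ℤ}
    (h : ∀ c : ℤ × ℤ, z.1 - 1 ≤ c.1 → c.1 ≤ z.1 + 4 → z.2 - 1 ≤ c.2 → c.2 ≤ z.2 + 4 →
      (c ∈ S' ↔ c ∈ S))
    (hz : QA (↑S' : Set Cell) z ∨ QB (↑S' : Set Cell) z) :
    QA (↑S : Set Cell) z ∨ QB (↑S : Set Cell) z := by
  have g : ∀ i j : ℤ, -1 ≤ i → i ≤ 4 → -1 ≤ j → j ≤ 4 →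
      (((z.1 + i, z.2 + j) : Cell) ∈ (↑S' : Set Cell) ↔ ((z.1 + i, z.2 + j) : Cell) ∈ (↑S : Set Cell)) := by
    intro i j h1 h2 h3 h4
    rw [Finset.mem_coe, Finset.mem_coe]
    exact h _ (by show z.1 - 1 ≤ z.1 + i; omega) (by show z.1 + i ≤ z.1 + 4; omega)
      (by show z.2 - 1 ≤ z.2 + j; omega) (by show z.2 + j ≤ z.2 + 4; omega)
  have gm : ∀ i : ℤ, -1 ≤ i → i ≤ 4 →
      (((z.1 + i, z.2 - 1) : Cell) ∈ (↑S' : Set Cell) ↔ ((z.1 + i, z.2 - 1) : Cell) ∈ (↑S : Set Cell)) := by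
    intro i h1 h2
    rw [Finset.mem_coe, Finset.mem_coe]
    exact h _ (by show z.1 - 1 ≤ z.1 + i; omega) (by show z.1 + i ≤ z.1 + 4; omega)
      (by show z.2 - 1 ≤ z.2 - 1; omega) (by show z.2 - 1 ≤ z.2 + 4; omega)
  have hC : QC (↑S' : Set Cell) z → QC (↑S : Set Cell) z := by
    rintro ⟨h1, h2, h3⟩
    refine ⟨?_, ?_, ?_⟩
    · intro i j a1 a2 a3 a4 a5 a6
      rw [← g i j a1 a2 a3 a4]
      exact h1 i j a1 a2 a3 a4 a5 a6
    · rw [← gm 1 (by norm_num) (by norm_num), ← gm 2 (by norm_num) (by norm_num)]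
      exact h2
    · intro i j a1 a2 a3 a4 a5
      rw [← g i j (by omega) (by omega) (by omega) (by omega)]
      exact h3 i j a1 a2 a3 a4 a5
  have gy' : (gy z ∈ (↑S' : Set Cell) ↔ gy z ∈ (↑S : Set Cell)) :=
    g 1 3 (by norm_num) (by norm_num) (by norm_num) (by norm_num)
  have gx' : (gx z ∈ (↑S' : Set Cell) ↔ gx z ∈ (↑S : Set Cell)) :=
    g 3 3 (by norm_num) (by norm_num) (by norm_num) (by norm_num)
  rcases hz with ⟨h1, h2, h3⟩ | ⟨h1, h2, h3⟩
  · exact Or.inl ⟨hC h1, gy'.1 h2, fun h4 => h3 (gx'.2 h4)⟩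
  · exact Or.inr ⟨hC h1, fun h4 => h2 (gy'.2 h4), gx'.1 h3⟩

/-- The facts about the result of a multiple surgery which are used in the count.
PROOF. `S'` from `multi_surgery2`, `W = T.biUnion win`, `W.card ≤ 144 * T.card` (`(win x).card = 144`).
(1) `S' ⊆ S ∪ W`. (2) `perim_diff2`.
(3) occurrences: `z ∈ oc S'`. If the square `z + [-1, 4]^2` meets no window of `T`, then `S'` and `S`
agree on it and `z ∈ oc S`. Otherwise it meets some `win x`, `x ∈ T`, so
`x.1 - 9 ≤ z.1 ≤ x.1 + 7`, `x.2 - 9 ≤ z.2 ≤ x.2 + 7`: at most `17 * 17 = 289` values for each `x`.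
(4) position: `S ∈ polys n` has first and second coordinates `≥ 0`. New cells are in `win x`, `x ∈ T ⊆ S`, so
all coordinates of `S'` are `≥ -5`. Let `s ∈ S` with `s.1 = 0`: if `s` is in no window, `s ∈ S'`; if
`s ∈ win x`, `x ∈ T`, then `x.1 ≤ 5` and `(x.1 - 1, x.2 - 1) ∈ S'` has first coordinate `≤ 4`. So the minimum `a` of
the first coordinates is in `[-5, 4]`; in the same way for the second coordinate. -/
theorem surg_facts2 {ρ : ℤ × ℤ} {n : ℕ} {S : Finset (ℤ × ℤ)} (hS : S ∈ polys n)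
    {T : Finset (ℤ × ℤ)} (hT : T ⊆ bd ρ S) :
    ∃ S' : Finset (ℤ × ℤ), IsPoly (↑S' : Set Cell) ∧
      (∀ c, (∀ x ∈ T, c ∉ win x) → (c ∈ S' ↔ c ∈ S)) ∧
      (∀ x ∈ T, (x.1 - 1, x.2 - 1) ∈ oc S') ∧
      S'.card ≤ n + 144 * T.card ∧
      (perim S' ≤ perim S + 576 * T.card ∧ perim S ≤ perim S' + 576 * T.card) ∧
      (oc S').card ≤ (oc S).card + 289 * T.card ∧
      ∃ a b : ℤ, -6 ≤ a ∧ a ≤ 6 ∧ -6 ≤ b ∧ b ≤ 6 ∧ (∀ c ∈ S', a ≤ c.1 ∧ b ≤ c.2) ∧
        (∃ c ∈ S', c.1 = a) ∧ ∃ c ∈ S', c.2 = b := by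
  classical
  obtain ⟨hP, hcard, hN⟩ := mem_polys.1 hS
  obtain ⟨S', hP', hag, hPA⟩ := multi_surgery2 hP T hT
  have hW : (T.biUnion win).card ≤ 144 * T.card := by
    refine Finset.card_biUnion_le.trans ?_
    rw [Finset.sum_congr rfl (fun x _ => N5_win_card x), Finset.sum_const, smul_eq_mul, mul_comm]
  have hagW : ∀ c, c ∉ T.biUnion win → (c ∈ S' ↔ c ∈ S) := by
    intro c hc
    refine hag c fun x hx hcx => hc ?_
    rw [Finset.mem_biUnion]
    exact ⟨x, hx, hcx⟩
  have hocc : ∀ x ∈ T, (x.1 - 1, x.2 - 1) ∈ oc S' := by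
    intro x hx
    rw [N5_oc]
    exact ⟨N5_mem (hPA x hx).1, Or.inl (hPA x hx)⟩
  have hz : ∀ x ∈ T, ((x.1 - 1, x.2 - 1) : ℤ × ℤ) ∈ S' := fun x hx => (N5_oc.1 (hocc x hx)).1
  refine ⟨S', hP', hag, hocc, ?_, ?_, ?_, ?_⟩
  · have hsub : S' ⊆ S ∪ T.biUnion win := by
      intro c hc
      rw [Finset.mem_union]
      by_cases hcW : c ∈ T.biUnion win
      · exact Or.inr hcW
      · exact Or.inl ((hagW c hcW).1 hc)
    have h1 := (Finset.card_le_card hsub).trans (Finset.card_union_le _ _)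
    omega
  · obtain ⟨h1, h2⟩ := perim_diff2 hagW
    constructor <;> omega
  · have hsub : oc S' ⊆ oc S ∪ T.biUnion (fun x =>
        Finset.Icc (x.1 - 9) (x.1 + 7) ×ˢ Finset.Icc (x.2 - 9) (x.2 + 7)) := by
      intro z hzo
      rw [Finset.mem_union]
      by_cases hx : ∃ x ∈ T, ∃ c ∈ win x, z.1 - 1 ≤ c.1 ∧ c.1 ≤ z.1 + 4 ∧ z.2 - 1 ≤ c.2 ∧ c.2 ≤ z.2 + 4
      · right
        obtain ⟨x, hxT, c, hc, h1, h2, h3, h4⟩ := hx
        rw [N5_win_mem] at hc
        rw [Finset.mem_biUnion]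
        refine ⟨x, hxT, ?_⟩
        rw [Finset.mem_product, Finset.mem_Icc, Finset.mem_Icc]
        omega
      · left
        rw [N5_oc] at hzo ⊢
        have hloc : ∀ c : ℤ × ℤ, z.1 - 1 ≤ c.1 → c.1 ≤ z.1 + 4 → z.2 - 1 ≤ c.2 → c.2 ≤ z.2 + 4 →
            (c ∈ S' ↔ c ∈ S) := by
          intro c a1 a2 a3 a4
          exact hag c fun x hxT hcx => hx ⟨x, hxT, c, hcx, a1, a2, a3, a4⟩
        exact ⟨(hloc z (by omega) (by omega) (by omega) (by omega)).1 hzo.1, N5_local hloc hzo.2⟩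
    refine (Finset.card_le_card hsub).trans ((Finset.card_union_le _ _).trans ?_)
    refine Nat.add_le_add_left ?_ _
    refine Finset.card_biUnion_le.trans ?_
    have hc : ∀ x ∈ T, (Finset.Icc (x.1 - 9) (x.1 + 7) ×ˢ Finset.Icc (x.2 - 9) (x.2 + 7)).card = 289 := by
      intro x _
      rw [Finset.card_product, Int.card_Icc, Int.card_Icc]
      have h1 : x.1 + 7 + 1 - (x.1 - 9) = 17 := by ring
      have h2 : x.2 + 7 + 1 - (x.2 - 9) = 17 := by ring
      rw [h1, h2]
      rfl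
    rw [Finset.sum_congr rfl hc, Finset.sum_const, smul_eq_mul, mul_comm]
  · have hne : S'.Nonempty := hP'.ne
    have hlow : ∀ c ∈ S', -6 ≤ c.1 ∧ -6 ≤ c.2 := by
      intro c hc
      by_cases hcW : ∀ x ∈ T, c ∉ win x
      · have h1 := hN.1 c ((hag c hcW).1 hc)
        omega
      · push Not at hcW
        obtain ⟨x, hx, hcx⟩ := hcW
        rw [N5_win_mem] at hcx
        have h1 := hN.1 x (N5_bd (hT hx))
        omega
    obtain ⟨ca, hca, hca'⟩ := Finset.exists_min_image S' (fun c => c.1) hne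
    obtain ⟨cb, hcb, hcb'⟩ := Finset.exists_min_image S' (fun c => c.2) hne
    refine ⟨ca.1, cb.2, (hlow ca hca).1, ?_, (hlow cb hcb).2, ?_,
      fun c hc => ⟨hca' c hc, hcb' c hc⟩, ⟨ca, hca, rfl⟩, ⟨cb, hcb, rfl⟩⟩
    · obtain ⟨s, hs, hs0⟩ := hN.2.1
      by_cases hsW : ∀ x ∈ T, s ∉ win x
      · have h1 := hca' s ((hag s hsW).2 hs)
        omega
      · push Not at hsW
        obtain ⟨x, hx, hsx⟩ := hsW
        rw [N5_win_mem] at hsx
        have h1 := hca' _ (hz x hx)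
        simp only at h1
        omega
    · obtain ⟨s, hs, hs0⟩ := hN.2.2
      by_cases hsW : ∀ x ∈ T, s ∉ win x
      · have h1 := hcb' s ((hag s hsW).2 hs)
        omega
      · push Not at hsW
        obtain ⟨x, hx, hsx⟩ := hsW
        rw [N5_win_mem] at hsx
        have h1 := hcb' _ (hz x hx)
        simp only at h1
        omega

end Pool.Agent.Lib.MP_dcf1eb_pr
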