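import Pool.Agent.Lib.MP_dcf1eb_pr.G4
import Pool.Agent.Lib.MP_dcf1eb_pr.N5

/-!
# Fixed area polygons: counting polygons with few patterns (N6)
-/

set_option autoImplicit false

namespace Pool.Agent.Lib.MP_dcf1eb_pr

open Classical in
private theorem N6_abs (A : Finset (Finset (ℤ × ℤ))) (Bd : Finset (ℤ × ℤ) → Finset (ℤ × ℤ))
    (w : Finset (ℤ × ℤ) → ℝ) (hw : ∀ S, 0 ≤ w S) (b k : ℕ) (hb : ∀ S ∈ A, b ≤ (Bd S).card)
    (P : Finset (Σ _ : Finset (ℤ × ℤ), Finset (ℤ × ℤ)))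
    (hP : P = A.sigma (fun S => (Bd S).powersetCard k))
    (F : (Σ _ : Finset (ℤ × ℤ), Finset (ℤ × ℤ)) → Finset (ℤ × ℤ)) {C Z : ℝ} (hC : 0 ≤ C) (M : ℕ)
    (h1 : ∀ p ∈ P, w p.1 ≤ C * w (F p)) (h2 : ∑ S' ∈ P.image F, w S' ≤ Z)
    (h3 : ∀ S' ∈ P.image F, (P.filter (fun p => F p = S')).card ≤ M) :
    (∑ S ∈ A, w S) * (b.choose k : ℝ) ≤ C * Z * M := by
  have e1 : (∑ S ∈ A, w S) * (b.choose k : ℝ) ≤ ∑ p ∈ P, w p.1 := by
    rw [hP, Finset.sum_sigma, Finset.sum_mul]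
    refine Finset.sum_le_sum fun S hS => ?_
    show w S * (b.choose k : ℝ) ≤ ∑ _s ∈ Finset.powersetCard k (Bd S), w S
    rw [Finset.sum_const, Finset.card_powersetCard, nsmul_eq_mul, mul_comm]
    refine mul_le_mul_of_nonneg_right ?_ (hw S)
    exact_mod_cast Nat.choose_le_choose k (hb S hS)
  have e2 : ∑ p ∈ P, w p.1 ≤ C * ∑ p ∈ P, w (F p) := by
    rw [Finset.mul_sum]
    exact Finset.sum_le_sum h1
  have e3 : ∑ p ∈ P, w (F p) ≤ M * ∑ S' ∈ P.image F, w S' := by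
    rw [← Finset.sum_fiberwise_of_maps_to (t := P.image F) (g := F)
      (fun p hp => Finset.mem_image_of_mem F hp), Finset.mul_sum]
    refine Finset.sum_le_sum fun S' hS' => ?_
    have e4 : ∑ p ∈ P with F p = S', w (F p) = ∑ p ∈ P with F p = S', w S' := by
      refine Finset.sum_congr rfl fun p hp => ?_
      rw [(Finset.mem_filter.1 hp).2]
    rw [e4, Finset.sum_const, nsmul_eq_mul]
    refine mul_le_mul_of_nonneg_right ?_ (hw S')
    exact_mod_cast h3 S' hS'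
  have e5 : (M : ℝ) * ∑ S' ∈ P.image F, w S' ≤ M * Z :=
    mul_le_mul_of_nonneg_left h2 (Nat.cast_nonneg M)
  calc (∑ S ∈ A, w S) * (b.choose k : ℝ) ≤ C * ∑ p ∈ P, w (F p) := e1.trans e2
    _ ≤ C * (M * Z) := mul_le_mul_of_nonneg_left (e3.trans e5) hC
    _ = C * Z * M := by ring

private theorem N6_win_card (x : ℤ × ℤ) : (win x).card = 144 := by
  unfold win
  rw [Finset.card_product, Int.card_Icc, Int.card_Icc]
  have h1 : x.1 + 6 + 1 - (x.1 - 5) = 12 := by ring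
  have h2 : x.2 + 6 + 1 - (x.2 - 5) = 12 := by ring
  rw [h1, h2]
  rfl

private theorem N6_fiber (P : Finset (Σ _ : Finset (ℤ × ℤ), Finset (ℤ × ℤ)))
    (S' : Finset (ℤ × ℤ)) (TT : Finset (Finset (ℤ × ℤ))) (k : ℕ) (hT : ∀ p ∈ P, p.2 ∈ TT)
    (hk : ∀ p ∈ P, p.2.card = k)
    (hag : ∀ p ∈ P, ∀ c, (∀ x ∈ p.2, c ∉ win x) → (c ∈ S' ↔ c ∈ p.1)) :
    P.card ≤ TT.card * 2 ^ (144 * k) := by
  classical
  have h1 := Finset.card_eq_sum_card_fiberwise (s := P) (t := TT) (f := fun p => p.2)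
    (fun p hp => hT p hp)
  rw [h1]
  refine (Finset.sum_le_card_nsmul _ _ (2 ^ (144 * k)) ?_).trans (by rw [smul_eq_mul])
  intro T _
  by_cases hne : (P.filter (fun p => p.2 = T)).Nonempty
  · obtain ⟨q, hq⟩ := hne
    have hTk : T.card = k := by
      have := Finset.mem_filter.1 hq
      rw [← this.2]
      exact hk q this.1
    have hW : (T.biUnion win).card ≤ 144 * k := by
      refine Finset.card_biUnion_le.trans ?_
      rw [Finset.sum_congr rfl (fun x _ => N6_win_card x), Finset.sum_const, smul_eq_mul, hTk,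
        mul_comm]
    have h2 : (P.filter (fun p => p.2 = T)).card ≤ (T.biUnion win).powerset.card := by
      refine Finset.card_le_card_of_injOn (fun p => p.1 ∩ T.biUnion win) ?_ ?_
      · intro p _
        exact Finset.mem_coe.2 (Finset.mem_powerset.2 Finset.inter_subset_right)
      · intro p hp p' hp' heq
        rw [Finset.mem_coe, Finset.mem_filter] at hp hp'
        obtain ⟨hp1, hp2⟩ := hp
        obtain ⟨hp1', hp2'⟩ := hp'
        have h3 : p.1 = p'.1 := by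
          ext c
          by_cases hc : c ∈ T.biUnion win
          · have h4 : c ∈ p.1 ∩ T.biUnion win ↔ c ∈ p'.1 ∩ T.biUnion win := by
              have h5 : p.1 ∩ T.biUnion win = p'.1 ∩ T.biUnion win := heq
              rw [h5]
            rw [Finset.mem_inter, Finset.mem_inter] at h4
            exact ⟨fun h => (h4.1 ⟨h, hc⟩).1, fun h => (h4.2 ⟨h, hc⟩).1⟩
          · have h6 : ∀ x ∈ T, c ∉ win x := by
              intro x hx hcx
              exact hc (Finset.mem_biUnion.2 ⟨x, hx, hcx⟩)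
            rw [← hag p hp1 c (by rw [hp2]; exact h6), ← hag p' hp1' c (by rw [hp2']; exact h6)]
        obtain ⟨a, b⟩ := p
        obtain ⟨a', b'⟩ := p'
        simp only at h3 hp2 hp2'
        subst h3 hp2 hp2'
        rfl
    rw [Finset.card_powerset] at h2
    exact h2.trans (Nat.pow_le_pow_right (by norm_num) hW)
  · rw [Finset.not_nonempty_iff_eq_empty] at hne
    rw [hne]
    exact Nat.zero_le _

private theorem N6_wt {S S' : Finset (ℤ × ℤ)} {k : ℕ} (t : ℝ)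
    (h : perim S' ≤ perim S + 576 * k ∧ perim S ≤ perim S' + 576 * k) :
    wt t S ≤ Real.exp (288 * |t| * k) * wt t S' := by
  unfold wt
  rw [← Real.exp_add]
  refine Real.exp_le_exp.2 ?_
  obtain ⟨h1, h2⟩ := h
  have h1' : (perim S' : ℝ) ≤ perim S + 576 * k := by exact_mod_cast h1
  have h2' : (perim S : ℝ) ≤ perim S' + 576 * k := by exact_mod_cast h2
  rcases abs_cases t with ⟨h3, h4⟩ | ⟨h3, h4⟩
  · rw [h3]
    nlinarith
  · rw [h3]
    nlinarith

/-- The counting inequality. PROOF. Let `A` be the set on the left and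
`Pairs = A.sigma (fun S => (bd ρ S).powersetCard k)`;
`(∑_{S ∈ A} wt t S) * b.choose k ≤ ∑_{(S, T) ∈ Pairs} wt t S` (`Finset.card_powersetCard`,
`Nat.choose_le_choose`). For `(S, T) ∈ Pairs` choose `F (S, T) = S'` by `surg_facts2`;
`wt t S ≤ exp (288 |t| k) * wt t S'`. Let `Im` be the image of `F`;
`∑_{S' ∈ Im} wt t S' ≤ 169 * ∑ ...` by `count_shift` with `M = n + 144 k`. Every fibre of `F` over
`S' ∈ Im` has at most `2 ^ (290 k) * 2 ^ (144 k)` elements: `T` is the image of a subset of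
`oc S'` under `z ↦ (z.1 + 1, z.2 + 1)` [`x ∈ T` gives `(x.1 - 1, x.2 - 1) ∈ oc S'`], and
`(oc S').card ≤ k + 289 k = 290 k` (as `(oc S).card ≤ k`), so there are at most `2 ^ (290 k)` sets `T`;
given `S'` and `T` with `W = T.biUnion win` (`W.card ≤ 144 k`), `S` is determined by `S ∩ W`, because
outside `W` the sets `S` and `S'` agree: at most `2 ^ (144 k)` sets `S`. Sum over the fibres
(`Finset.sum_fiberwise_of_maps_to`). `290 + 144 = 434`. -/
theorem count_poor2 (n k b : ℕ) (t : ℝ) (ρ : ℤ × ℤ) :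
    (∑ S ∈ (polys n).filter (fun S => b ≤ (bd ρ S).card ∧ (oc S).card ≤ k), wt t S) *
        (b.choose k : ℝ) ≤
      Real.exp (288 * |t| * k) * (169 * ∑ n' ∈ Finset.range (n + 144 * k + 1), ZZ n' t) *
        2 ^ (434 * k) := by
  classical
  obtain ⟨A, hA⟩ : ∃ A, A = (polys n).filter
    (fun S => b ≤ (bd ρ S).card ∧ (oc S).card ≤ k) := ⟨_, rfl⟩
  obtain ⟨P, hP⟩ : ∃ P, P = A.sigma (fun S => (bd ρ S).powersetCard k) := ⟨_, rfl⟩
  have hPm : ∀ p, p ∈ P ↔ (p.1 ∈ polys n ∧ b ≤ (bd ρ p.1).card ∧ (oc p.1).card ≤ k) ∧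
      p.2 ⊆ bd ρ p.1 ∧ p.2.card = k := by
    intro p
    rw [hP, Finset.mem_sigma, hA, Finset.mem_filter, Finset.mem_powersetCard]
  have hex : ∀ p : (Σ _ : Finset (ℤ × ℤ), Finset (ℤ × ℤ)), ∃ S' : Finset (ℤ × ℤ), p ∈ P →
      (IsPoly (↑S' : Set Cell) ∧
      (∀ c, (∀ x ∈ p.2, c ∉ win x) → (c ∈ S' ↔ c ∈ p.1)) ∧
      (∀ x ∈ p.2, (x.1 - 1, x.2 - 1) ∈ oc S') ∧
      S'.card ≤ n + 144 * p.2.card ∧
      (perim S' ≤ perim p.1 + 576 * p.2.card ∧ perim p.1 ≤ perim S' + 576 * p.2.card) ∧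
      (oc S').card ≤ (oc p.1).card + 289 * p.2.card ∧
      ∃ a b : ℤ, -6 ≤ a ∧ a ≤ 6 ∧ -6 ≤ b ∧ b ≤ 6 ∧ (∀ c ∈ S', a ≤ c.1 ∧ b ≤ c.2) ∧
        (∃ c ∈ S', c.1 = a) ∧ ∃ c ∈ S', c.2 = b) := by
    intro p
    by_cases hp : p ∈ P
    · obtain ⟨⟨h1, -, -⟩, h2, -⟩ := (hPm p).1 hp
      obtain ⟨S', h⟩ := surg_facts2 h1 h2
      exact ⟨S', fun _ => h⟩
    · exact ⟨∅, fun h => absurd h hp⟩
  choose F hF using hex
  have h2 : ∑ S' ∈ P.image F, wt t S' ≤
      169 * ∑ n' ∈ Finset.range (n + 144 * k + 1), ZZ n' t := by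
    refine count_shift (n + 144 * k) t (P.image F) ?_
    intro S' hS'
    obtain ⟨p, hp, rfl⟩ := Finset.mem_image.1 hS'
    obtain ⟨a1, -, -, a2, -, -, a3⟩ := hF p hp
    refine ⟨a1, ?_, a3⟩
    rw [((hPm p).1 hp).2.2] at a2
    exact a2
  have h3 : ∀ S' ∈ P.image F, (P.filter (fun p => F p = S')).card ≤
      2 ^ (290 * k) * 2 ^ (144 * k) := by
    intro S' hS'
    have hocc : (oc S').card ≤ 290 * k := by
      obtain ⟨p, hp, rfl⟩ := Finset.mem_image.1 hS'
      obtain ⟨-, -, -, -, -, a1, -⟩ := hF p hp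
      have h4 := ((hPm p).1 hp).1.2.2
      have h5 := ((hPm p).1 hp).2.2
      omega
    have h4 := N6_fiber (P.filter (fun p => F p = S')) S'
      (((oc S').image (fun z => ((z.1 + 1, z.2 + 1) : ℤ × ℤ))).powerset) k
      (by
        intro p hp
        obtain ⟨hp1, hp2⟩ := Finset.mem_filter.1 hp
        rw [Finset.mem_powerset]
        intro x hx
        obtain ⟨-, -, a1, -⟩ := hF p hp1
        rw [hp2] at a1
        rw [Finset.mem_image]
        refine ⟨_, a1 x hx, ?_⟩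
        ext <;> simp)
      (by
        intro p hp
        exact ((hPm p).1 (Finset.mem_filter.1 hp).1).2.2)
      (by
        intro p hp
        obtain ⟨hp1, hp2⟩ := Finset.mem_filter.1 hp
        obtain ⟨-, a1, -⟩ := hF p hp1
        rw [hp2] at a1
        exact a1)
    refine h4.trans (Nat.mul_le_mul_right _ ?_)
    rw [Finset.card_powerset]
    exact Nat.pow_le_pow_right (by norm_num) (Finset.card_image_le.trans hocc)
  have h4 := N6_abs A (bd ρ) (wt t) (fun S => (wt_pos t S).le) b k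
    (by
      intro S hS
      rw [hA, Finset.mem_filter] at hS
      exact hS.2.1) P hP F (C := Real.exp (288 * |t| * k)) (Real.exp_pos _).le _
    (by
      intro p hp
      obtain ⟨-, -, -, -, a1, -, -⟩ := hF p hp
      rw [((hPm p).1 hp).2.2] at a1
      exact N6_wt t a1) h2 h3
  rw [hA, ← pow_add] at h4
  have h5 : 290 * k + 144 * k = 434 * k := by ring
  rw [h5] at h4
  push_cast at h4
  exact h4

end Pool.Agent.Lib.MP_dcf1eb_pr
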