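import Pool.Agent.Lib.MP_dcf1eb_pr.G7
import Pool.Agent.Lib.MP_dcf1eb_pr.N6

/-!
# Fixed area polygons: the pattern theorem (N7)
-/

set_option autoImplicit false

open Filter

namespace Pool.Agent.Lib.MP_dcf1eb_pr

private theorem N7_lin {a : ℝ} (C : ℝ) (ha : 0 < a) :
    ∀ᶠ n : ℕ in atTop, C * (145 * n + 1) ≤ Real.exp (a * n) := by
  have h1 : 1 < Real.exp a := Real.one_lt_exp_iff.2 ha
  have hC : 0 < 146 * (|C| + 1) := by positivity
  have h2 := (isLittleO_pow_const_const_pow_of_one_lt (R := ℝ) 1 h1).def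
    (show (0 : ℝ) < 1 / (146 * (|C| + 1)) by positivity)
  filter_upwards [h2, eventually_ge_atTop 1] with n hn hn1
  have hn1' : (1 : ℝ) ≤ (n : ℝ) := by exact_mod_cast hn1
  rw [pow_one, Real.norm_of_nonneg (by positivity), Real.norm_of_nonneg (by positivity),
    ← Real.exp_nat_mul, mul_comm (n : ℝ) a, one_div, inv_mul_eq_div, le_div_iff₀ hC] at hn
  have h3 : C * (145 * n + 1) ≤ (|C| + 1) * (146 * n) := by
    have h4 : C ≤ |C| + 1 := (le_abs_self C).trans (by linarith)
    exact mul_le_mul h4 (by linarith) (by positivity) (by positivity)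
  linarith

private theorem N7_pow (F t : ℝ) (k : ℕ) :
    Real.exp (288 * |t| * k) * Real.exp (F * (144 * k)) * 2 ^ (434 * k) =
      (Real.exp (288 * |t|) * Real.exp (144 * F) * 2 ^ 434) ^ k := by
  have h1 : Real.exp (288 * |t| * k) = Real.exp (288 * |t|) ^ k := by
    rw [← Real.exp_nat_mul]
    congr 1
    ring
  have h2 : Real.exp (F * (144 * k)) = Real.exp (144 * F) ^ k := by
    rw [← Real.exp_nat_mul]
    congr 1
    ring
  rw [h1, h2, pow_mul, mul_pow, mul_pow]

/-- The counting inequality with explicit constants. -/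
private theorem N7_count {t F A : ℝ} (hF : FE t = F) (hF0 : 0 < F)
    (hA : A = Real.exp (288 * |t|) * Real.exp (144 * F) * 2 ^ 434) (n k b : ℕ) (ρ : ℤ × ℤ)
    (hb : (4 * A) ^ k ≤ (b.choose k : ℝ)) :
    (∑ S ∈ (polys n).filter (fun S => b ≤ (bd ρ S).card ∧ (oc S).card ≤ k), wt t S) * 4 ^ k ≤
      169 * Real.exp t * (n + 144 * k + 1) * Real.exp (F * n) := by
  have hA0 : 0 < A := by
    rw [hA]
    positivity
  set L := ∑ S ∈ (polys n).filter (fun S => b ≤ (bd ρ S).card ∧ (oc S).card ≤ k), wt t S with hL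
  have hL0 : 0 ≤ L := Finset.sum_nonneg fun S _ => (wt_pos t S).le
  have h1 := count_poor2 n k b t ρ
  rw [← hL] at h1
  have h2 : ∑ n' ∈ Finset.range (n + 144 * k + 1), ZZ n' t ≤
      (n + 144 * k + 1) * (Real.exp t * Real.exp (F * (n + 144 * k))) := by
    have h3 : ∀ n' ∈ Finset.range (n + 144 * k + 1),
        ZZ n' t ≤ Real.exp t * Real.exp (F * (n + 144 * k)) := by
      intro n' hn'
      have h4 : n' ≤ n + 144 * k := by
        have := Finset.mem_range.1 hn'
        lia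
      have h5 : (n' : ℝ) ≤ n + 144 * k := by exact_mod_cast h4
      refine (ZZ_le_FE n' t).trans ?_
      rw [hF]
      exact mul_le_mul_of_nonneg_left (Real.exp_le_exp.2 (mul_le_mul_of_nonneg_left h5 hF0.le))
        (Real.exp_pos t).le
    refine (Finset.sum_le_card_nsmul _ _ _ h3).trans ?_
    rw [Finset.card_range, nsmul_eq_mul]
    push_cast
    exact le_rfl
  have h4 : L * (4 * A) ^ k ≤ Real.exp (288 * |t| * k) *
      (169 * ((n + 144 * k + 1) * (Real.exp t * Real.exp (F * (n + 144 * k))))) *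
        2 ^ (434 * k) := by
    refine (mul_le_mul_of_nonneg_left hb hL0).trans (h1.trans ?_)
    refine mul_le_mul_of_nonneg_right ?_ (by positivity)
    exact mul_le_mul_of_nonneg_left (mul_le_mul_of_nonneg_left h2 (by norm_num))
      (Real.exp_pos _).le
  have h5 : Real.exp (288 * |t| * k) *
      (169 * ((n + 144 * k + 1) * (Real.exp t * Real.exp (F * (n + 144 * k))))) *
        2 ^ (434 * k) =
      169 * Real.exp t * (n + 144 * k + 1) * Real.exp (F * n) * A ^ k := by
    have h6 : Real.exp (F * (n + 144 * k)) = Real.exp (F * n) * Real.exp (F * (144 * k)) := by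
      rw [← Real.exp_add]
      congr 1
      ring
    rw [h6, hA, ← N7_pow F t k]
    ring
  rw [h5, mul_pow, ← mul_assoc] at h4
  exact le_of_mul_le_mul_right h4 (by positivity)

/-- The pattern theorem. PROOF. As `pattern` in G7 with other constants (copy its proof). Let
`F = FE t > 0`, `A = exp (288 |t|) * exp (144 F) * 2 ^ 434`, `γ = ε / (4 * A)` (so `γ ≤ 1/4`),
`c = γ * log 2`. For `n` large let `k = ⌊γ n⌋₊ ≥ 1`, `b = ⌈ε n⌉₊ ≥ k`. A set `S` on the left has
`b ≤ (bd ρ S).card` and `(oc S).card ≤ k`. By `count_poor2`, `ZZ n' t ≤ exp t * exp (F (n + 144 k))` for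
`n' ≤ n + 144 k`, `b.choose k ≥ (b / k) ^ k ≥ (ε / γ) ^ k = (4 A) ^ k` (`div_pow_le_choose`): left side
`≤ 169 * exp t * (n + 144 k + 1) * exp (F n) * (A / (4 A)) ^ k`. As `k ≥ γ n - 1`:
`(1/4)^k ≤ 4 * exp (-2 γ log 2 n)`. Eventually `ZZ n t ≥ exp ((F - η) n)`, `η = γ log 2 / 2`, and
`169 * exp t * (145 n + 1) * 4 ≤ exp (η n)`. Exponent: `-2 γ log 2 + 2 η = -c`. -/
theorem pattern2 {t ε : ℝ} (ht : 0 < FE t) (hε : 0 < ε) (hε1 : ε ≤ 1) :
    ∃ γ c : ℝ, 0 < γ ∧ 0 < c ∧ ∀ᶠ n : ℕ in atTop, ∀ ρ : ℤ × ℤ,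
      ∑ S ∈ (polys n).filter (fun S => ε * n ≤ ((bd ρ S).card : ℝ) ∧
        ((oc S).card : ℝ) ≤ γ * n), wt t S ≤ Real.exp (-(c * n)) * ZZ n t := by
  set F := FE t with hF
  set A := Real.exp (288 * |t|) * Real.exp (144 * F) * 2 ^ 434 with hA
  have hA1 : 1 ≤ A := by
    have h1 : 1 ≤ Real.exp (288 * |t|) := Real.one_le_exp (by positivity)
    have h2 : 1 ≤ Real.exp (144 * F) := Real.one_le_exp (by positivity)
    have h3 : (1 : ℝ) ≤ 2 ^ 434 := one_le_pow₀ (by norm_num)
    rw [hA]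
    exact one_le_mul_of_one_le_of_one_le (one_le_mul_of_one_le_of_one_le h1 h2) h3
  have hcnt := fun (n k b : ℕ) (ρ : ℤ × ℤ) (hb : (4 * A) ^ k ≤ (b.choose k : ℝ)) =>
    N7_count hF.symm ht hA n k b ρ hb
  clear_value A
  clear hA
  have hA0 : 0 < A := lt_of_lt_of_le one_pos hA1
  have hlog : 0 < Real.log 2 := Real.log_pos (by norm_num)
  set γ := ε / (4 * A) with hγ
  have hγ0 : 0 < γ := by positivity
  have hγ1 : γ ≤ 1 := by
    rw [hγ, div_le_one (by positivity)]
    linarith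
  have hγA : γ * (4 * A) = ε := by
    rw [hγ]
    field_simp
  set η := γ * Real.log 2 / 2 with hη
  have hη0 : 0 < η := by positivity
  refine ⟨γ, γ * Real.log 2, hγ0, by positivity, ?_⟩
  filter_upwards [N7_lin (676 * Real.exp t) hη0, FE_le_ZZ t hη0,
    tendsto_natCast_atTop_atTop.eventually_ge_atTop (1 / γ)] with n hn1 hn2 hn3
  intro ρ
  rw [← hF] at hn2
  have hγn : 1 ≤ γ * n := by
    rw [div_le_iff₀ hγ0] at hn3
    linarith
  have hn0 : (0 : ℝ) < (n : ℝ) := by
    by_contra hc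
    push Not at hc
    nlinarith
  set k := ⌊γ * n⌋₊ with hk
  set b := ⌈ε * n⌉₊ with hb
  have hk1 : 1 ≤ k := Nat.le_floor (by exact_mod_cast hγn)
  have hk1' : (0 : ℝ) < (k : ℝ) := by exact_mod_cast hk1
  have hkle : (k : ℝ) ≤ γ * n := Nat.floor_le (by positivity)
  have hkge : γ * n - 1 ≤ (k : ℝ) := (Nat.sub_one_lt_floor _).le
  have hbge : ε * n ≤ (b : ℝ) := Nat.le_ceil _
  have hkb' : 4 * A * k ≤ (b : ℝ) := by
    have h1 : 4 * A * k ≤ 4 * A * (γ * n) := mul_le_mul_of_nonneg_left hkle (by positivity)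
    have h2 : 4 * A * (γ * n) = ε * n := by
      rw [← hγA]
      ring
    linarith
  have hkb : k ≤ b := by
    have h1 : (k : ℝ) ≤ b := by nlinarith
    exact_mod_cast h1
  have hch : (4 * A) ^ k ≤ (b.choose k : ℝ) := by
    refine le_trans (pow_le_pow_left₀ (by positivity) ?_ k) (div_pow_le_choose hkb hk1)
    rw [le_div_iff₀ hk1']
    exact hkb'
  have hmain := hcnt n k b ρ hch
  have hsub : (polys n).filter (fun S => ε * n ≤ ((bd ρ S).card : ℝ) ∧
      ((oc S).card : ℝ) ≤ γ * n) ⊆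
      (polys n).filter (fun S => b ≤ (bd ρ S).card ∧ (oc S).card ≤ k) := by
    intro S hS
    rw [Finset.mem_filter] at hS ⊢
    exact ⟨hS.1, Nat.ceil_le.2 hS.2.1, Nat.le_floor hS.2.2⟩
  refine (Finset.sum_le_sum_of_subset_of_nonneg hsub fun S _ _ => (wt_pos t S).le).trans ?_
  set L := ∑ S ∈ (polys n).filter (fun S => b ≤ (bd ρ S).card ∧ (oc S).card ≤ k), wt t S with hL
  have hL0 : 0 ≤ L := Finset.sum_nonneg fun S _ => (wt_pos t S).le
  have h4k : Real.exp (4 * η * n) ≤ 4 * 4 ^ k := by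
    have h1 : (4 : ℝ) = Real.exp (2 * Real.log 2) := by
      have h2 : (2 : ℝ) * Real.log 2 = Real.log 4 := by
        have h3 : (4 : ℝ) = 2 ^ 2 := by norm_num
        rw [h3, Real.log_pow]
        norm_num
      rw [h2, Real.exp_log (by norm_num)]
    have h2 : (4 : ℝ) * 4 ^ k = Real.exp (2 * Real.log 2 * (k + 1)) := by
      rw [← pow_succ']
      conv_lhs => rw [h1]
      rw [← Real.exp_nat_mul]
      congr 1
      push_cast
      ring
    rw [h2, Real.exp_le_exp]
    have h3 : 4 * η * n = 2 * Real.log 2 * (γ * n) := by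
      rw [hη]
      ring
    rw [h3]
    exact mul_le_mul_of_nonneg_left (by linarith) (by positivity)
  have hkn : (n : ℝ) + 144 * k + 1 ≤ 145 * n + 1 := by nlinarith
  have h5 : L * Real.exp (4 * η * n) ≤ Real.exp (η * n) * Real.exp (F * n) := by
    calc L * Real.exp (4 * η * n) ≤ L * (4 * 4 ^ k) := mul_le_mul_of_nonneg_left h4k hL0
      _ = 4 * (L * 4 ^ k) := by ring
      _ ≤ 4 * (169 * Real.exp t * (n + 144 * k + 1) * Real.exp (F * n)) := by linarith
      _ = 676 * Real.exp t * (n + 144 * k + 1) * Real.exp (F * n) := by ring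
      _ ≤ 676 * Real.exp t * (145 * n + 1) * Real.exp (F * n) := by
          refine mul_le_mul_of_nonneg_right ?_ (Real.exp_pos _).le
          exact mul_le_mul_of_nonneg_left hkn (by positivity)
      _ ≤ Real.exp (η * n) * Real.exp (F * n) := mul_le_mul_of_nonneg_right hn1 (Real.exp_pos _).le
  have h6 : Real.exp (η * n) * Real.exp (F * n) =
      Real.exp (-(γ * Real.log 2 * n)) * Real.exp ((F - η) * n) * Real.exp (4 * η * n) := by
    rw [← Real.exp_add, ← Real.exp_add, ← Real.exp_add]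
    congr 1
    rw [hη]
    ring
  rw [h6] at h5
  have h7 := le_of_mul_le_mul_right h5 (Real.exp_pos _)
  exact h7.trans (mul_le_mul_of_nonneg_left hn2 (Real.exp_pos _).le)

end Pool.Agent.Lib.MP_dcf1eb_pr
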