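import Pool.Agent.Lib.MP_dcf1eb_pr.G8
import Pool.Agent.Lib.MP_dcf1eb_pr.N0

/-!
# Fixed area polygons: perimeter and number of patterns (N8)
-/

set_option autoImplicit false

namespace Pool.Agent.Lib.MP_dcf1eb_pr

/-- left ends of the horizontal edges inside `S` -/
private noncomputable def N8_H (S : Finset (ℤ × ℤ)) : Finset (ℤ × ℤ) :=
  S.filter (fun a => (a.1 + 1, a.2) ∈ S)

/-- lower ends of the vertical edges inside `S` -/
private noncomputable def N8_V (S : Finset (ℤ × ℤ)) : Finset (ℤ × ℤ) :=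
  S.filter (fun a => (a.1, a.2 + 1) ∈ S)

private theorem N8_shiftH (S : Finset (ℤ × ℤ)) :
    (S.filter (fun a => (a.1 - 1, a.2) ∈ S)).card = (N8_H S).card := by
  refine Finset.card_bij (fun a _ => (a.1 - 1, a.2)) ?_ ?_ ?_
  · intro a ha
    rw [Finset.mem_filter] at ha
    unfold N8_H
    rw [Finset.mem_filter]
    refine ⟨ha.2, ?_⟩
    have : ((a.1 - 1) + 1, a.2) = a := by ext <;> simp
    rw [this]
    exact ha.1
  · intro a _ b _ h
    simp only [Prod.mk.injEq] at h
    ext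
    · omega
    · exact h.2
  · intro b hb
    unfold N8_H at hb
    rw [Finset.mem_filter] at hb
    refine ⟨(b.1 + 1, b.2), ?_, ?_⟩
    · rw [Finset.mem_filter]
      refine ⟨hb.2, ?_⟩
      have : ((b.1 + 1) - 1, b.2) = b := by ext <;> simp
      rw [this]
      exact hb.1
    · ext <;> simp

private theorem N8_shiftV (S : Finset (ℤ × ℤ)) :
    (S.filter (fun a => (a.1, a.2 - 1) ∈ S)).card = (N8_V S).card := by
  refine Finset.card_bij (fun a _ => (a.1, a.2 - 1)) ?_ ?_ ?_
  · intro a ha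
    rw [Finset.mem_filter] at ha
    unfold N8_V
    rw [Finset.mem_filter]
    refine ⟨ha.2, ?_⟩
    have : (a.1, (a.2 - 1) + 1) = a := by ext <;> simp
    rw [this]
    exact ha.1
  · intro a _ b _ h
    simp only [Prod.mk.injEq] at h
    ext
    · exact h.1
    · omega
  · intro b hb
    unfold N8_V at hb
    rw [Finset.mem_filter] at hb
    refine ⟨(b.1, b.2 + 1), ?_, ?_⟩
    · rw [Finset.mem_filter]
      refine ⟨hb.2, ?_⟩
      have : (b.1, (b.2 + 1) - 1) = b := by ext <;> simp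
      rw [this]
      exact hb.1
    · ext <;> simp

private theorem N8_term (S : Finset (ℤ × ℤ)) (a : ℤ × ℤ) :
    (Finset.filter (fun b => b ∉ S)
      ({(a.1 + 1, a.2), (a.1 - 1, a.2), (a.1, a.2 + 1), (a.1, a.2 - 1)} : Finset (ℤ × ℤ))).card +
    ((if (a.1 + 1, a.2) ∈ S then 1 else 0) + (if (a.1 - 1, a.2) ∈ S then 1 else 0) +
      (if (a.1, a.2 + 1) ∈ S then 1 else 0) + (if (a.1, a.2 - 1) ∈ S then 1 else 0)) = 4 := by
  have e1 : ((a.1 + 1, a.2) : ℤ × ℤ) ∉
      ({(a.1 - 1, a.2), (a.1, a.2 + 1), (a.1, a.2 - 1)} : Finset (ℤ × ℤ)) := by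
    simp only [Finset.mem_insert, Finset.mem_singleton, Prod.mk.injEq]
    omega
  have e2 : ((a.1 - 1, a.2) : ℤ × ℤ) ∉
      ({(a.1, a.2 + 1), (a.1, a.2 - 1)} : Finset (ℤ × ℤ)) := by
    simp only [Finset.mem_insert, Finset.mem_singleton, Prod.mk.injEq]
    omega
  have e3 : ((a.1, a.2 + 1) : ℤ × ℤ) ∉ ({(a.1, a.2 - 1)} : Finset (ℤ × ℤ)) := by
    simp only [Finset.mem_singleton, Prod.mk.injEq]
    omega
  rw [Finset.card_filter, Finset.sum_insert e1, Finset.sum_insert e2, Finset.sum_insert e3,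
    Finset.sum_singleton]
  by_cases h1 : ((a.1 + 1, a.2) : ℤ × ℤ) ∈ S <;> by_cases h2 : ((a.1 - 1, a.2) : ℤ × ℤ) ∈ S <;>
    by_cases h3 : ((a.1, a.2 + 1) : ℤ × ℤ) ∈ S <;> by_cases h4 : ((a.1, a.2 - 1) : ℤ × ℤ) ∈ S <;>
    simp [h1, h2, h3, h4]

private theorem N8_perim (S : Finset (ℤ × ℤ)) :
    perim S + 2 * ((N8_H S).card + (N8_V S).card) = 4 * S.card := by
  have h1 : ∑ a ∈ S, ((Finset.filter (fun b => b ∉ S)
      ({(a.1 + 1, a.2), (a.1 - 1, a.2), (a.1, a.2 + 1), (a.1, a.2 - 1)} : Finset (ℤ × ℤ))).card +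
    ((if (a.1 + 1, a.2) ∈ S then 1 else 0) + (if (a.1 - 1, a.2) ∈ S then 1 else 0) +
      (if (a.1, a.2 + 1) ∈ S then 1 else 0) + (if (a.1, a.2 - 1) ∈ S then 1 else 0))) =
      4 * S.card := by
    rw [Finset.sum_congr rfl (fun a _ => N8_term S a), Finset.sum_const, smul_eq_mul, mul_comm]
  rw [Finset.sum_add_distrib, Finset.sum_add_distrib, Finset.sum_add_distrib,
    Finset.sum_add_distrib, ← Finset.card_filter, ← Finset.card_filter, ← Finset.card_filter,
    ← Finset.card_filter, N8_shiftH, N8_shiftV] at h1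
  unfold perim
  have hH : (S.filter (fun a => (a.1 + 1, a.2) ∈ S)).card = (N8_H S).card := rfl
  have hV : (S.filter (fun a => (a.1, a.2 + 1) ∈ S)).card = (N8_V S).card := rfl
  rw [hH, hV] at h1
  omega

private theorem N8_rem_spec {S : Finset (ℤ × ℤ)} {z : ℤ × ℤ} (hz : z ∈ oc S) :
    z ∈ S ∧ (z.1 + 1, z.2) ∈ S ∧ (z.1, z.2 + 1) ∈ S ∧ (z.1 + 1, z.2 + 1) ∈ S ∧
    QC (↑S : Set Cell) z := by
  classical
  unfold oc at hz
  rw [Finset.mem_filter] at hz
  obtain ⟨hzS, h3⟩ := hz
  have hQ : QC (↑S : Set Cell) z := by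
    rcases h3 with h3 | h3
    · exact h3.1
    · exact h3.1
  have hb := hQ.2.2
  have b1 := hb 1 0 (by norm_num) (by norm_num) (by norm_num) (by norm_num) (by norm_num)
  have b2 := hb 0 1 (by norm_num) (by norm_num) (by norm_num) (by norm_num) (by norm_num)
  have b3 := hb 1 1 (by norm_num) (by norm_num) (by norm_num) (by norm_num) (by norm_num)
  rw [add_zero] at b1 b2
  exact ⟨hzS, by exact_mod_cast b1, by exact_mod_cast b2, by exact_mod_cast b3, hQ⟩

/-- the graph with the edges of `S`, one horizontal edge deleted for every block -/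
private noncomputable def N8_G (S H' : Finset (ℤ × ℤ)) : SimpleGraph {x : ℤ × ℤ // x ∈ S} where
  Adj a b := (b.1 = (a.1.1 + 1, a.1.2) ∧ a.1 ∈ H') ∨ (a.1 = (b.1.1 + 1, b.1.2) ∧ b.1 ∈ H') ∨
    b.1 = (a.1.1, a.1.2 + 1) ∨ a.1 = (b.1.1, b.1.2 + 1)
  symm := ⟨by
    intro a b h
    rcases h with h | h | h | h
    · exact Or.inr (Or.inl h)
    · exact Or.inl h
    · exact Or.inr (Or.inr (Or.inr h))
    · exact Or.inr (Or.inr (Or.inl h))⟩
  loopless := ⟨by
    intro a h
    rcases h with ⟨h, -⟩ | ⟨h, -⟩ | h | h <;>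
    · have h1 := congrArg Prod.fst h
      have h2 := congrArg Prod.snd h
      simp only at h1 h2
      omega⟩

private theorem N8_edges (S H' V' : Finset (ℤ × ℤ)) (hV : ∀ a ∈ S, (a.1, a.2 + 1) ∈ S → a ∈ V') :
    Nat.card (N8_G S H').edgeSet ≤ H'.card + V'.card := by
  classical
  have hsub : ∃ f : (N8_G S H').edgeSet → {x // x ∈ H'} ⊕ {x // x ∈ V'}, Function.Injective f := by
    have hch : ∀ e : (N8_G S H').edgeSet, ∃ y : {x // x ∈ H'} ⊕ {x // x ∈ V'},
        (∀ x : {x // x ∈ H'}, y = Sum.inl x → ∃ a b : {x : ℤ × ℤ // x ∈ S}, (e : Sym2 _) = s(a, b) ∧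
          a.1 = x.1 ∧ b.1 = (x.1.1 + 1, x.1.2)) ∧
        (∀ x : {x // x ∈ V'}, y = Sum.inr x → ∃ a b : {x : ℤ × ℤ // x ∈ S}, (e : Sym2 _) = s(a, b) ∧
          a.1 = x.1 ∧ b.1 = (x.1.1, x.1.2 + 1)) := by
      rintro ⟨e, he⟩
      induction e using Sym2.ind with
      | _ a b =>
        rw [SimpleGraph.mem_edgeSet] at he
        rcases he with ⟨h, h'⟩ | ⟨h, h'⟩ | h | h
        · refine ⟨Sum.inl ⟨a.1, h'⟩, ?_, ?_⟩
          · intro x hx
            rw [Sum.inl.injEq] at hx
            subst hx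
            exact ⟨a, b, rfl, rfl, h⟩
          · intro x hx
            exact absurd hx (by simp)
        · refine ⟨Sum.inl ⟨b.1, h'⟩, ?_, ?_⟩
          · intro x hx
            rw [Sum.inl.injEq] at hx
            subst hx
            exact ⟨b, a, Sym2.eq_swap, rfl, h⟩
          · intro x hx
            exact absurd hx (by simp)
        · refine ⟨Sum.inr ⟨a.1, hV _ a.2 (h ▸ b.2)⟩, ?_, ?_⟩
          · intro x hx
            exact absurd hx (by simp)
          · intro x hx
            rw [Sum.inr.injEq] at hx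
            subst hx
            exact ⟨a, b, rfl, rfl, h⟩
        · refine ⟨Sum.inr ⟨b.1, hV _ b.2 (h ▸ a.2)⟩, ?_, ?_⟩
          · intro x hx
            exact absurd hx (by simp)
          · intro x hx
            rw [Sum.inr.injEq] at hx
            subst hx
            exact ⟨b, a, Sym2.eq_swap, rfl, h⟩
    choose f hf1 hf2 using hch
    refine ⟨f, fun e e' hee => ?_⟩
    rcases hfe : f e with x | x
    · obtain ⟨a, b, h1, h2, h3⟩ := hf1 e x hfe
      obtain ⟨a', b', h1', h2', h3'⟩ := hf1 e' x (hee ▸ hfe)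
      have ha : a = a' := Subtype.ext (h2.trans h2'.symm)
      have hb : b = b' := Subtype.ext (h3.trans h3'.symm)
      exact Subtype.ext (by rw [h1, h1', ha, hb])
    · obtain ⟨a, b, h1, h2, h3⟩ := hf2 e x hfe
      obtain ⟨a', b', h1', h2', h3'⟩ := hf2 e' x (hee ▸ hfe)
      have ha : a = a' := Subtype.ext (h2.trans h2'.symm)
      have hb : b = b' := Subtype.ext (h3.trans h3'.symm)
      exact Subtype.ext (by rw [h1, h1', ha, hb])
  obtain ⟨f, hf⟩ := hsub
  have h1 := Nat.card_le_card_of_injective f hf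
  rw [Nat.card_sum] at h1
  have h2 : Nat.card {x // x ∈ H'} = H'.card := by
    rw [Nat.card_eq_fintype_card, Fintype.card_coe]
  have h3 : Nat.card {x // x ∈ V'} = V'.card := by
    rw [Nat.card_eq_fintype_card, Fintype.card_coe]
  rw [h2, h3] at h1
  exact h1

private theorem N8_reach {S : Finset (ℤ × ℤ)} {a : Cell}
    (ha : a ∈ S) {b : Cell} (hb : b ∈ S) (h : Reach (↑S : Set Cell) a b) :
    (N8_G S ((N8_H S) \ oc S)).Reachable ⟨a, ha⟩ ⟨b, hb⟩ := by
  classical
  -- one horizontal step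
  have hstep : ∀ (x : Cell) (hx : x ∈ S) (hx' : (x.1 + 1, x.2) ∈ S),
      (N8_G S ((N8_H S) \ oc S)).Reachable ⟨x, hx⟩ ⟨(x.1 + 1, x.2), hx'⟩ := by
    intro x hx hx'
    by_cases hr : x ∈ oc S
    · obtain ⟨b1, b2, b3, b4, b5⟩ := N8_rem_spec hr
      have hup : (x.1, x.2 + 1) ∈ (N8_H S) \ oc S := by
        rw [Finset.mem_sdiff]
        refine ⟨?_, ?_⟩
        · unfold N8_H
          rw [Finset.mem_filter]
          exact ⟨b3, b4⟩
        · intro hc
          obtain ⟨-, -, -, -, c5⟩ := N8_rem_spec hc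
          have hne : x ≠ (x.1, x.2 + 1) := by
            intro he
            have he2 := congrArg Prod.snd he
            simp only at he2
            omega
          rcases oc_sep b5 c5 hne with h5 | h5
          · simp at h5
          · simp at h5
      have s1 : (N8_G S ((N8_H S) \ oc S)).Adj ⟨x, hx⟩ ⟨(x.1, x.2 + 1), b3⟩ :=
        Or.inr (Or.inr (Or.inl rfl))
      have s2 : (N8_G S ((N8_H S) \ oc S)).Adj ⟨(x.1, x.2 + 1), b3⟩
          ⟨(x.1 + 1, x.2 + 1), b4⟩ := Or.inl ⟨rfl, hup⟩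
      have s3 : (N8_G S ((N8_H S) \ oc S)).Adj ⟨(x.1 + 1, x.2 + 1), b4⟩
          ⟨(x.1 + 1, x.2), hx'⟩ := Or.inr (Or.inr (Or.inr rfl))
      exact s1.reachable.trans (s2.reachable.trans s3.reachable)
    · refine SimpleGraph.Adj.reachable (Or.inl ⟨rfl, ?_⟩)
      rw [Finset.mem_sdiff]
      refine ⟨?_, hr⟩
      unfold N8_H
      rw [Finset.mem_filter]
      exact ⟨hx, hx'⟩
  have hmain : ∀ c, Reach (↑S : Set Cell) a c → ∀ hc : c ∈ S,
      (N8_G S ((N8_H S) \ oc S)).Reachable ⟨a, ha⟩ ⟨c, hc⟩ := by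
    intro c hc
    induction hc with
    | refl => intro _; exact SimpleGraph.Reachable.refl _
    | @tail u v huv hv ih =>
      intro hc
      obtain ⟨hnb, hu, -⟩ := hv
      have hu' : u ∈ S := hu
      refine (ih hu').trans ?_
      rcases hnb with h | h | h | h
      · subst h
        exact hstep u hu' hc
      · have hu2 : (v.1 + 1, v.2) = u := by
          rw [h]
          ext <;> simp
        have hu3 : (v.1 + 1, v.2) ∈ S := by
          rw [hu2]
          exact hu'
        have h1 := hstep v hc hu3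
        have h2 : (⟨(v.1 + 1, v.2), hu3⟩ : {x : ℤ × ℤ // x ∈ S}) = ⟨u, hu'⟩ := Subtype.ext hu2
        rw [h2] at h1
        exact h1.symm
      · exact SimpleGraph.Adj.reachable (Or.inr (Or.inr (Or.inl h)))
      · refine SimpleGraph.Adj.reachable (Or.inr (Or.inr (Or.inr ?_)))
        show u = (v.1, v.2 + 1)
        rw [h]
        ext <;> simp
  exact hmain b h hb

/-- PROOF. As `perim_occ` in G8 (copy its proof): let `e` be the number of unordered pairs of
neighbours in `S`: `perim S = 4 * S.card - 2 * e`. It suffices: `S.card + (oc S).card ≤ e + 1`. Every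
`z ∈ oc S` gives the `2 × 2` block `z, z + (1,0), z + (0,1), z + (1,1)` inside `S` (in both states); blocks for
different `z` are disjoint by `oc_sep`. Delete the edge `z - z + (1,0)` for every `z`: the graph stays
connected, because its ends are joined by the other three edges of the block (not deleted). A
connected graph on `N` vertices has at least `N - 1` edges. -/
theorem perim_oc {S : Finset (ℤ × ℤ)} (h : IsPoly (↑S : Set Cell)) :
    perim S + 2 * (oc S).card ≤ 2 * S.card + 2 := by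
  classical
  obtain ⟨H', hH'⟩ : ∃ H', H' = (N8_H S) \ oc S := ⟨_, rfl⟩
  have hsub : oc S ⊆ N8_H S := by
    intro x hx
    obtain ⟨b1, b2, -⟩ := N8_rem_spec hx
    unfold N8_H
    rw [Finset.mem_filter]
    exact ⟨b1, b2⟩
  have hc1 : H'.card + (oc S).card = (N8_H S).card := by
    rw [hH']
    exact Finset.card_sdiff_add_card_eq_card hsub
  have hconn : (N8_G S H').Connected := by
    have : Nonempty {x : ℤ × ℤ // x ∈ S} := by
      obtain ⟨a, ha⟩ := h.ne
      exact ⟨⟨a, ha⟩⟩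
    refine SimpleGraph.Connected.mk ?_
    rintro ⟨a, ha⟩ ⟨b, hb⟩
    rw [hH']
    exact N8_reach ha hb (h.conn a ha b hb)
  have h1 := hconn.card_vert_le_card_edgeSet_add_one
  have h2 := N8_edges S H' (N8_V S) (fun a ha ha' => by
    unfold N8_V
    rw [Finset.mem_filter]
    exact ⟨ha, ha'⟩)
  rw [Nat.card_eq_fintype_card, Fintype.card_coe] at h1
  have h3 := N8_perim S
  omega

end Pool.Agent.Lib.MP_dcf1eb_pr
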