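import Pool.Agent.Lib.MP_dcf1eb_pr.K8
import Pool.Agent.Lib.MP_dcf1eb_pr.N7
import Pool.Agent.Lib.MP_dcf1eb_pr.N8
import Pool.Agent.Lib.MP_dcf1eb_pr.N12
import Pool.Agent.Lib.MP_dcf1eb_pr.G8
import Pool.Agent.Lib.MP_dcf1eb_pr.A3

/-!
# Fixed area polygons: properties of the free energy (R1)
-/

set_option autoImplicit false

open Filter

namespace Pool.Agent.Lib.MP_dcf1eb_pr

theorem R1_pos {n : ℕ} (hn : 1 ≤ n) (t : ℝ) : 0 < ZZ n t := by
  have h := polys_pos hn
  unfold ZZ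
  refine Finset.sum_pos (fun S _ => wt_pos t S) ?_
  rw [← Finset.card_pos]
  omega

theorem R1_mono (n : ℕ) {s t : ℝ} (h : s ≤ t) : ZZ n s ≤ ZZ n t := by
  unfold ZZ
  refine Finset.sum_le_sum fun S _ => ?_
  unfold wt
  refine Real.exp_le_exp.2 ?_
  exact mul_le_mul_of_nonneg_right h (by positivity)

theorem R1_perim {n : ℕ} {S : Finset (ℤ × ℤ)} (hS : S ∈ polys n) : perim S ≤ 2 * n + 2 := by
  obtain ⟨h1, h2, -⟩ := mem_polys.1 hS
  have h3 := perim_oc h1
  omega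

theorem R1_lip (n : ℕ) {s t : ℝ} (h : s ≤ t) : ZZ n t ≤ Real.exp ((t - s) * (n + 1)) * ZZ n s := by
  unfold ZZ
  rw [Finset.mul_sum]
  refine Finset.sum_le_sum fun S hS => ?_
  unfold wt
  rw [← Real.exp_add]
  refine Real.exp_le_exp.2 ?_
  have h1 : ((perim S : ℕ) : ℝ) ≤ 2 * n + 2 := by exact_mod_cast R1_perim hS
  nlinarith [mul_le_mul_of_nonneg_left h1 (sub_nonneg.2 h)]

/-- A rich set: linearly many occurrences carry half of the weight. -/
theorem R1_rich {t : ℝ} (ht : 0 < FE t) : ∃ γ : ℝ, 0 < γ ∧ ∀ᶠ n : ℕ in atTop,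
    ZZ n t ≤ 2 * ∑ S ∈ (polys n).filter (fun S => ⌊γ * n⌋₊ ≤ (oc S).card), wt t S := by
  classical
  obtain ⟨ε, c, hε, hε1, hc, hsm⟩ := small_perim_rare ht
  obtain ⟨γ, c', hγ, hc', hpt⟩ := pattern2 (t := t) (ε := ε / 576) ht (by positivity) (by linarith)
  refine ⟨γ, hγ, ?_⟩
  have hlim1 : Tendsto (fun n : ℕ => Real.exp (-(c * n))) atTop (nhds 0) := by
    have h1 : Tendsto (fun n : ℕ => c * (n : ℝ)) atTop atTop :=
      tendsto_natCast_atTop_atTop.const_mul_atTop hc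
    exact Real.tendsto_exp_neg_atTop_nhds_zero.comp h1
  have hlim2 : Tendsto (fun n : ℕ => Real.exp (-(c' * n))) atTop (nhds 0) := by
    have h1 : Tendsto (fun n : ℕ => c' * (n : ℝ)) atTop atTop :=
      tendsto_natCast_atTop_atTop.const_mul_atTop hc'
    exact Real.tendsto_exp_neg_atTop_nhds_zero.comp h1
  have hev1 := hlim1.eventually (gt_mem_nhds (show (0 : ℝ) < 1 / 4 by norm_num))
  have hev2 := hlim2.eventually (gt_mem_nhds (show (0 : ℝ) < 1 / 576 by norm_num))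
  filter_upwards [hsm, hpt, hev1, hev2] with n h1 h2 h3 h4
  have hcard : (cls).card = 144 := by
    unfold cls
    rw [Finset.card_product]
    simp
  have hZ := ZZ_nonneg n t
  -- splitting
  have hsplit : ZZ n t ≤ ∑ S ∈ polys n, (if (perim S : ℝ) ≤ ε * n then wt t S else 0) +
      ∑ S ∈ polys n, (∑ ρ ∈ cls, if (ε / 576 * n ≤ ((bd ρ S).card : ℝ) ∧
        ((oc S).card : ℝ) ≤ γ * n) then wt t S else 0) +
      ∑ S ∈ polys n, (if ⌊γ * n⌋₊ ≤ (oc S).card then wt t S else 0) := by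
    rw [← Finset.sum_add_distrib, ← Finset.sum_add_distrib]
    unfold ZZ
    refine Finset.sum_le_sum fun S _ => ?_
    have hw := (wt_pos t S).le
    have n1 : 0 ≤ (if (perim S : ℝ) ≤ ε * n then wt t S else 0) := by
      split_ifs
      · exact hw
      · exact le_rfl
    have n3 : 0 ≤ (if ⌊γ * n⌋₊ ≤ (oc S).card then wt t S else 0) := by
      split_ifs
      · exact hw
      · exact le_rfl
    have n2 : ∀ ρ ∈ cls, 0 ≤ (if (ε / 576 * n ≤ ((bd ρ S).card : ℝ) ∧
        ((oc S).card : ℝ) ≤ γ * n) then wt t S else 0) := by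
      intro ρ _
      split_ifs
      · exact hw
      · exact le_rfl
    have n2' := Finset.sum_nonneg n2
    by_cases c1 : (perim S : ℝ) ≤ ε * n
    · rw [if_pos c1]
      linarith
    · by_cases c3 : ⌊γ * n⌋₊ ≤ (oc S).card
      · rw [if_pos c3]
        linarith
      · obtain ⟨ρ, hρ, hρ'⟩ := exists_class S
        have c4 : ((oc S).card : ℝ) ≤ γ * n := by
          have h5 : (oc S).card ≤ ⌊γ * n⌋₊ := (not_le.1 c3).le
          exact (Nat.le_floor_iff (by positivity)).1 h5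
        have c5 : ε / 576 * n ≤ ((bd ρ S).card : ℝ) := by
          have h6 : (perim S : ℝ) ≤ 576 * ((bd ρ S).card : ℝ) := by exact_mod_cast hρ'
          linarith [not_le.1 c1]
        have h7 := Finset.single_le_sum n2 hρ
        rw [if_pos ⟨c5, c4⟩] at h7
        linarith
  have e1 : ∑ S ∈ polys n, (if (perim S : ℝ) ≤ ε * n then wt t S else 0) ≤ 1 / 4 * ZZ n t := by
    rw [← Finset.sum_filter]
    exact h1.trans (mul_le_mul_of_nonneg_right h3.le hZ)
  have e2 : ∑ S ∈ polys n, (∑ ρ ∈ cls, if (ε / 576 * n ≤ ((bd ρ S).card : ℝ) ∧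
        ((oc S).card : ℝ) ≤ γ * n) then wt t S else 0) ≤ 1 / 4 * ZZ n t := by
    rw [Finset.sum_comm]
    have h5 : ∀ ρ ∈ cls, ∑ S ∈ polys n, (if (ε / 576 * n ≤ ((bd ρ S).card : ℝ) ∧
        ((oc S).card : ℝ) ≤ γ * n) then wt t S else 0) ≤ 1 / 576 * ZZ n t := by
      intro ρ _
      rw [← Finset.sum_filter]
      exact (h2 ρ).trans (mul_le_mul_of_nonneg_right h4.le hZ)
    refine (Finset.sum_le_sum h5).trans ?_
    rw [Finset.sum_const, hcard, nsmul_eq_mul]
    refine le_of_eq ?_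
    push_cast
    ring
  rw [Finset.sum_filter]
  linarith

end Pool.Agent.Lib.MP_dcf1eb_pr
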