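import Pool.Agent.Lib.MP_dcf1eb_pr.R1

/-!
# Fixed area polygons: convexity and strict convexity of the free energy (R2)
-/

set_option autoImplicit false

open Filter

namespace Pool.Agent.Lib.MP_dcf1eb_pr

theorem R2_mono {s t : ℝ} (h : s ≤ t) : FE s ≤ FE t := by
  refine le_of_tendsto_of_tendsto (tendsto_FE s) (tendsto_FE t) ?_
  filter_upwards [eventually_ge_atTop 1] with n hn
  have hn' : (0 : ℝ) < n := by exact_mod_cast hn
  exact div_le_div_of_nonneg_right (Real.log_le_log (R1_pos hn s) (R1_mono n h)) hn'.le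

theorem R2_lip {s t : ℝ} (h : s ≤ t) : FE t ≤ FE s + (t - s) := by
  have h1 : Tendsto (fun n : ℕ => Real.log (ZZ n s) / n + (t - s) * (1 + 1 / (n : ℝ))) atTop
      (nhds (FE s + (t - s) * (1 + 0))) :=
    (tendsto_FE s).add ((tendsto_const_nhds.add tendsto_one_div_atTop_nhds_zero_nat).const_mul _)
  rw [add_zero, mul_one] at h1
  refine le_of_tendsto_of_tendsto (tendsto_FE t) h1 ?_
  filter_upwards [eventually_ge_atTop 1] with n hn
  have hn' : (0 : ℝ) < n := by exact_mod_cast hn
  have h2 := Real.log_le_log (R1_pos hn t) (R1_lip n h)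
  rw [Real.log_mul (Real.exp_ne_zero _) (R1_pos hn s).ne', Real.log_exp] at h2
  calc Real.log (ZZ n t) / n ≤ ((t - s) * (n + 1) + Real.log (ZZ n s)) / n :=
        div_le_div_of_nonneg_right h2 hn'.le
    _ = Real.log (ZZ n s) / n + (t - s) * (1 + 1 / (n : ℝ)) := by
        field_simp
        ring

/-- Hoelder. -/
theorem R2_holder (n : ℕ) (s t : ℝ) {a b : ℝ} (ha : 0 < a) (hb : 0 < b) (hab : a + b = 1) :
    ZZ n (a * s + b * t) ≤ (ZZ n s) ^ a * (ZZ n t) ^ b := by
  have hpq : (1 / a).HolderConjugate (1 / b) := by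
    rw [Real.holderConjugate_iff]
    refine ⟨?_, ?_⟩
    · rw [lt_div_iff₀ ha]
      linarith
    · rw [one_div, one_div, inv_inv, inv_inv]
      exact hab
  have h1 := Real.inner_le_Lp_mul_Lq_of_nonneg (polys n) hpq
    (f := fun S => (wt s S) ^ a) (g := fun S => (wt t S) ^ b)
    (fun S _ => Real.rpow_nonneg (wt_pos s S).le a) (fun S _ => Real.rpow_nonneg (wt_pos t S).le b)
  have h2 : ∑ S ∈ polys n, (wt s S) ^ a * (wt t S) ^ b = ZZ n (a * s + b * t) := by
    unfold ZZ
    refine Finset.sum_congr rfl fun S _ => ?_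
    unfold wt
    rw [← Real.exp_mul, ← Real.exp_mul, ← Real.exp_add]
    congr 1
    ring
  have h3 : ∑ S ∈ polys n, ((wt s S) ^ a) ^ (1 / a) = ZZ n s := by
    unfold ZZ
    refine Finset.sum_congr rfl fun S _ => ?_
    rw [← Real.rpow_mul (wt_pos s S).le, mul_one_div_cancel ha.ne', Real.rpow_one]
  have h4 : ∑ S ∈ polys n, ((wt t S) ^ b) ^ (1 / b) = ZZ n t := by
    unfold ZZ
    refine Finset.sum_congr rfl fun S _ => ?_
    rw [← Real.rpow_mul (wt_pos t S).le, mul_one_div_cancel hb.ne', Real.rpow_one]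
  rw [h2, h3, h4, one_div_one_div, one_div_one_div] at h1
  exact h1

theorem R2_convex : ConvexOn ℝ Set.univ FE := by
  refine ⟨convex_univ, ?_⟩
  intro s _ t _ a b ha hb hab
  rw [smul_eq_mul, smul_eq_mul, smul_eq_mul, smul_eq_mul]
  rcases ha.eq_or_lt with ha0 | ha0
  · have hb1 : b = 1 := by linarith
    rw [← ha0, hb1, zero_mul, zero_mul, zero_add, zero_add, one_mul, one_mul]
  rcases hb.eq_or_lt with hb0 | hb0
  · have ha1 : a = 1 := by linarith
    rw [← hb0, ha1, zero_mul, zero_mul, add_zero, add_zero, one_mul, one_mul]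
  have h1 : Tendsto (fun n : ℕ => a * (Real.log (ZZ n s) / n) + b * (Real.log (ZZ n t) / n)) atTop
      (nhds (a * FE s + b * FE t)) :=
    ((tendsto_FE s).const_mul a).add ((tendsto_FE t).const_mul b)
  refine le_of_tendsto_of_tendsto (tendsto_FE (a * s + b * t)) h1 ?_
  filter_upwards [eventually_ge_atTop 1] with n hn
  have hn' : (0 : ℝ) < n := by exact_mod_cast hn
  have hs := R1_pos hn s
  have ht := R1_pos hn t
  have h2 := Real.log_le_log (R1_pos hn _) (R2_holder n s t ha0 hb0 hab)
  rw [Real.log_mul (Real.rpow_pos_of_pos hs a).ne' (Real.rpow_pos_of_pos ht b).ne',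
    Real.log_rpow hs, Real.log_rpow ht] at h2
  calc Real.log (ZZ n (a * s + b * t)) / n
      ≤ (a * Real.log (ZZ n s) + b * Real.log (ZZ n t)) / n := div_le_div_of_nonneg_right h2 hn'.le
    _ = _ := by ring

theorem R2_q {t h : ℝ} (hh : h ≠ 0) :
    1 < (1 + Real.exp (t + h)) * (1 + Real.exp (t - h)) / (1 + Real.exp t) ^ 2 := by
  have hp : 0 < (1 + Real.exp t) ^ 2 := by positivity
  rw [lt_div_iff₀ hp, one_mul]
  have e1 : Real.exp (t + h) = Real.exp t * Real.exp h := Real.exp_add t h
  have e2 : Real.exp (t - h) = Real.exp t * Real.exp (-h) := by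
    rw [sub_eq_add_neg, Real.exp_add]
  have e3 : Real.exp h * Real.exp (-h) = 1 := by
    rw [← Real.exp_add, add_neg_cancel, Real.exp_zero]
  have e4 : 2 < Real.exp h + Real.exp (-h) := by
    have h1 : Real.exp h ≠ Real.exp (-h) := by
      intro h2
      have h3 := Real.exp_injective h2
      apply hh
      linarith
    have h4 : 0 < (Real.exp h - Real.exp (-h)) ^ 2 := by
      have := sub_ne_zero.2 h1
      positivity
    have h5 : 4 < (Real.exp h + Real.exp (-h)) ^ 2 := by nlinarith
    have h6 : 0 < Real.exp h + Real.exp (-h) := add_pos (Real.exp_pos _) (Real.exp_pos _)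
    nlinarith
  have ht := Real.exp_pos t
  rw [e1, e2]
  nlinarith [mul_pos ht (sub_pos.2 e4)]

/-- Strict convexity at the points where the free energy is positive, in a quantitative form. -/
theorem R2_strict {t : ℝ} (ht : 0 < FE t) : ∃ γ : ℝ, 0 < γ ∧ ∀ h : ℝ,
    2 * FE t + γ * Real.log ((1 + Real.exp (t + h)) * (1 + Real.exp (t - h)) /
      (1 + Real.exp t) ^ 2) ≤ FE (t + h) + FE (t - h) := by
  classical
  obtain ⟨γ, hγ, hrich⟩ := R1_rich ht
  refine ⟨γ, hγ, fun h => ?_⟩
  obtain ⟨q, hq⟩ : ∃ q, q = (1 + Real.exp (t + h)) * (1 + Real.exp (t - h)) /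
      (1 + Real.exp t) ^ 2 := ⟨_, rfl⟩
  have hq1 : 1 ≤ q := by
    by_cases hh : h = 0
    · rw [hq, hh, add_zero, sub_zero, ← sq, div_self]
      positivity
    · rw [hq]
      exact (R2_q hh).le
  have hq0 : 0 < q := by linarith
  have hlq : 0 ≤ Real.log q := Real.log_nonneg hq1
  rw [← hq]
  -- the inequality at finite n
  have hfin : ∀ᶠ n : ℕ in atTop,
      2 * (Real.log (ZZ n t) / n) + (γ - 1 / n) * Real.log q - 2 * Real.log 2 / n ≤
        Real.log (ZZ n (t + h)) / n + Real.log (ZZ n (t - h)) / n := by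
    filter_upwards [hrich, eventually_ge_atTop 1] with n hn1 hn
    have hn' : (0 : ℝ) < n := by exact_mod_cast hn
    have hc := cauchy2 n ⌊γ * n⌋₊ t h
    rw [← hq] at hc
    obtain ⟨R, hR⟩ : ∃ R, R = ∑ S ∈ (polys n).filter (fun S => ⌊γ * n⌋₊ ≤ (oc S).card), wt t S :=
      ⟨_, rfl⟩
    rw [← hR] at hc hn1
    have hZ := R1_pos hn t
    have hR0 : 0 < R := by linarith
    have h1 : ZZ n t / 2 ≤ R := by linarith
    have h2 := Real.log_le_log (by positivity) hc
    rw [Real.log_mul (by positivity) (by positivity), Real.log_pow, Real.log_pow,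
      Real.log_mul (R1_pos hn _).ne' (R1_pos hn _).ne'] at h2
    have h3 := Real.log_le_log (by positivity) h1
    rw [Real.log_div hZ.ne' (by norm_num)] at h3
    have h4 : γ * n - 1 ≤ (⌊γ * n⌋₊ : ℝ) := (Nat.sub_one_lt_floor _).le
    have h5 := mul_le_mul_of_nonneg_right h4 hlq
    have h6 : 2 * Real.log (ZZ n t) - 2 * Real.log 2 + (γ * n - 1) * Real.log q ≤
        Real.log (ZZ n (t + h)) + Real.log (ZZ n (t - h)) := by
      push_cast at h2
      linarith
    have h7 := div_le_div_of_nonneg_right h6 hn'.le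
    calc 2 * (Real.log (ZZ n t) / n) + (γ - 1 / n) * Real.log q - 2 * Real.log 2 / n
        = (2 * Real.log (ZZ n t) - 2 * Real.log 2 + (γ * n - 1) * Real.log q) / n := by
          field_simp
          ring
      _ ≤ (Real.log (ZZ n (t + h)) + Real.log (ZZ n (t - h))) / n := h7
      _ = _ := by ring
  have hz := tendsto_one_div_atTop_nhds_zero_nat (𝕜 := ℝ)
  have hl : Tendsto (fun n : ℕ => 2 * (Real.log (ZZ n t) / n) + (γ - 1 / n) * Real.log q -
      2 * Real.log 2 / n) atTop (nhds (2 * FE t + (γ - 0) * Real.log q - 2 * Real.log 2 * 0)) := by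
    refine Tendsto.sub (Tendsto.add ((tendsto_FE t).const_mul 2)
      ((tendsto_const_nhds.sub hz).mul_const _)) ?_
    refine (hz.const_mul (2 * Real.log 2)).congr fun n => ?_
    ring
  have hr : Tendsto (fun n : ℕ => Real.log (ZZ n (t + h)) / n + Real.log (ZZ n (t - h)) / n) atTop
      (nhds (FE (t + h) + FE (t - h))) := (tendsto_FE _).add (tendsto_FE _)
  have hfinal := le_of_tendsto_of_tendsto hl hr hfin
  rw [sub_zero, mul_zero, sub_zero] at hfinal
  exact hfinal

theorem R2_strict' {t h : ℝ} (ht : 0 < FE t) (hh : h ≠ 0) : 2 * FE t < FE (t + h) + FE (t - h) := by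
  obtain ⟨γ, hγ, h1⟩ := R2_strict ht
  have h2 := h1 h
  have h3 := mul_pos hγ (Real.log_pos (R2_q (t := t) hh))
  linarith

theorem R2_strictConvex : StrictConvexOn ℝ {t : ℝ | 0 < FE t} FE := by
  refine ⟨?_, ?_⟩
  · refine Set.OrdConnected.convex ⟨?_⟩
    intro x hx y _ z hz
    exact lt_of_lt_of_le hx (R2_mono hz.1)
  · intro x hx y hy hxy a b ha hb hab
    have hmem : 0 < FE (a * x + b * y) := by
      rcases le_total x y with h | h
      · refine lt_of_lt_of_le hx (R2_mono ?_)
        calc x = a * x + b * x := by rw [← add_mul, hab, one_mul]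
          _ ≤ a * x + b * y := by
            have := mul_le_mul_of_nonneg_left h hb.le
            linarith
      · refine lt_of_lt_of_le hy (R2_mono ?_)
        calc y = a * y + b * y := by rw [← add_mul, hab, one_mul]
          _ ≤ a * x + b * y := by
            have := mul_le_mul_of_nonneg_left h ha.le
            linarith
    rw [smul_eq_mul, smul_eq_mul, smul_eq_mul, smul_eq_mul]
    obtain ⟨d, hd⟩ : ∃ d, d = min a b := ⟨_, rfl⟩
    have hd0 : 0 < d := by
      rw [hd]
      exact lt_min ha hb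
    have hda : d ≤ a := hd ▸ min_le_left a b
    have hdb : d ≤ b := hd ▸ min_le_right a b
    have h1 := R2_strict' (h := d * (y - x)) hmem
      (mul_ne_zero hd0.ne' (sub_ne_zero.2 (Ne.symm hxy)))
    have c1 := R2_convex.2 (Set.mem_univ x) (Set.mem_univ y) (show (0 : ℝ) ≤ a - d by linarith)
      (show (0 : ℝ) ≤ b + d by linarith) (by linarith)
    have c2 := R2_convex.2 (Set.mem_univ x) (Set.mem_univ y) (show (0 : ℝ) ≤ a + d by linarith)
      (show (0 : ℝ) ≤ b - d by linarith) (by linarith)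
    rw [smul_eq_mul, smul_eq_mul, smul_eq_mul, smul_eq_mul] at c1 c2
    have e1 : (a - d) * x + (b + d) * y = a * x + b * y + d * (y - x) := by ring
    have e2 : (a + d) * x + (b - d) * y = a * x + b * y - d * (y - x) := by ring
    rw [e1] at c1
    rw [e2] at c2
    nlinarith

theorem R2_strictMono {s t : ℝ} (hs : 0 < FE s) (h : s < t) : FE s < FE t := by
  have h1 := R2_strict' (t := (s + t) / 2) (h := (t - s) / 2)
    (lt_of_lt_of_le hs (R2_mono (by linarith))) (by
      have : (0 : ℝ) < (t - s) / 2 := by linarith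
      exact this.ne')
  have e1 : (s + t) / 2 + (t - s) / 2 = t := by ring
  have e2 : (s + t) / 2 - (t - s) / 2 = s := by ring
  rw [e1, e2] at h1
  have h2 := R2_mono (s := s) (t := (s + t) / 2) (by linarith)
  linarith

theorem R2_strictAnti {s t : ℝ} (hs : 0 < FE s) (h : s < t) : FE t - t < FE s - s := by
  have h1 := R2_strict' (t := (s + t) / 2) (h := (t - s) / 2)
    (lt_of_lt_of_le hs (R2_mono (by linarith))) (by
      have : (0 : ℝ) < (t - s) / 2 := by linarith
      exact this.ne')
  have e1 : (s + t) / 2 + (t - s) / 2 = t := by ring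
  have e2 : (s + t) / 2 - (t - s) / 2 = s := by ring
  rw [e1, e2] at h1
  have h2 := R2_lip (s := (s + t) / 2) (t := t) (by linarith)
  linarith

end Pool.Agent.Lib.MP_dcf1eb_pr
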