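import Pool.Agent.Lib.MP_dcf1eb_pr.R2

/-!
# Fixed area polygons: the law of large numbers and the free energy (R3)
-/

set_option autoImplicit false

open Filter

namespace Pool.Agent.Lib.MP_dcf1eb_pr

open Classical in
/-- The weight of the polygons whose half-perimeter is far from `μ n`. -/
noncomputable def TT (n : ℕ) (t μ ε : ℝ) : ℝ :=
  ∑ S ∈ (polys n).filter (fun S => ε * n ≤ |(perim S : ℝ) / 2 - μ * n|), wt t S

/-- The mean of the half-perimeter in the tilted ensemble. -/
noncomputable def mmean (n : ℕ) (t : ℝ) : ℝ :=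
  (∑ S ∈ polys n, ((perim S : ℝ) / 2) * wt t S) / ZZ n t

theorem R3_nonneg (n : ℕ) (t μ ε : ℝ) : 0 ≤ TT n t μ ε := by
  unfold TT
  exact Finset.sum_nonneg fun S _ => (wt_pos t S).le

theorem R3_jensen {n : ℕ} (hn : 1 ≤ n) (t h : ℝ) :
    Real.exp (h * mmean n t) * ZZ n t ≤ ZZ n (t + h) := by
  have hZ := R1_pos hn t
  obtain ⟨a, ha⟩ : ∃ a, a = mmean n t := ⟨_, rfl⟩
  have h1 : ∑ S ∈ polys n, ((perim S : ℝ) / 2) * wt t S = a * ZZ n t := by
    rw [ha]
    unfold mmean
    rw [div_mul_cancel₀ _ hZ.ne']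
  rw [← ha]
  have h2 : ∀ S ∈ polys n, Real.exp (h * a) * ((1 - h * a) * wt t S +
      h * (((perim S : ℝ) / 2) * wt t S)) ≤ wt (t + h) S := by
    intro S _
    rw [wt_add]
    have h3 : Real.exp (h * a) * (1 + h * ((perim S : ℝ) / 2 - a)) ≤ wt h S := by
      have h4 := Real.add_one_le_exp (h * ((perim S : ℝ) / 2 - a))
      calc Real.exp (h * a) * (1 + h * ((perim S : ℝ) / 2 - a))
          ≤ Real.exp (h * a) * Real.exp (h * ((perim S : ℝ) / 2 - a)) :=
            mul_le_mul_of_nonneg_left (by linarith) (Real.exp_pos _).le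
        _ = wt h S := by
            unfold wt
            rw [← Real.exp_add]
            congr 1
            ring
    have h5 := mul_le_mul_of_nonneg_right h3 (wt_pos t S).le
    calc Real.exp (h * a) * ((1 - h * a) * wt t S + h * (((perim S : ℝ) / 2) * wt t S))
        = Real.exp (h * a) * (1 + h * ((perim S : ℝ) / 2 - a)) * wt t S := by ring
      _ ≤ wt h S * wt t S := h5
      _ = wt t S * wt h S := mul_comm _ _
  have h3 := Finset.sum_le_sum h2
  rw [← Finset.mul_sum, Finset.sum_add_distrib, ← Finset.mul_sum, ← Finset.mul_sum, h1] at h3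
  have h4 : (1 - h * a) * ∑ S ∈ polys n, wt t S + h * (a * ZZ n t) = ZZ n t := by
    unfold ZZ
    ring
  rw [h4] at h3
  exact h3

/-- The mean and the difference quotients of the free energy. -/
theorem R3_mean {t h : ℝ} {η : ℝ} (hη : 0 < η) :
    ∀ᶠ n : ℕ in atTop, h * (mmean n t / n) ≤ FE (t + h) - FE t + η := by
  have h1 : Tendsto (fun n : ℕ => Real.log (ZZ n (t + h)) / n - Real.log (ZZ n t) / n) atTop
      (nhds (FE (t + h) - FE t)) := (tendsto_FE _).sub (tendsto_FE _)
  have h2 := h1.eventually (gt_mem_nhds (show FE (t + h) - FE t < FE (t + h) - FE t + η by linarith))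
  filter_upwards [h2, eventually_ge_atTop 1] with n h3 hn
  have hn' : (0 : ℝ) < n := by exact_mod_cast hn
  have h4 := Real.log_le_log (mul_pos (Real.exp_pos _) (R1_pos hn t)) (R3_jensen hn t h)
  rw [Real.log_mul (Real.exp_ne_zero _) (R1_pos hn t).ne', Real.log_exp] at h4
  have h5 := div_le_div_of_nonneg_right h4 hn'.le
  have h6 : (h * mmean n t + Real.log (ZZ n t)) / n =
      h * (mmean n t / n) + Real.log (ZZ n t) / n := by ring
  rw [h6] at h5
  linarith

/-- One tail, by the exponential Markov inequality. -/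
theorem R3_markov (n : ℕ) (t h a : ℝ) (P : Finset (ℤ × ℤ) → Prop) [DecidablePred P]
    (hP : ∀ S ∈ polys n, P S → h * a ≤ h * ((perim S : ℝ) / 2)) :
    ∑ S ∈ (polys n).filter P, wt t S ≤ Real.exp (-(h * a)) * ZZ n (t + h) := by
  calc ∑ S ∈ (polys n).filter P, wt t S
      ≤ ∑ S ∈ (polys n).filter P, Real.exp (-(h * a)) * wt (t + h) S := by
        refine Finset.sum_le_sum fun S hS => ?_
        rw [Finset.mem_filter] at hS
        unfold wt
        rw [← Real.exp_add]
        refine Real.exp_le_exp.2 ?_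
        have h1 := hP S hS.1 hS.2
        linarith
    _ ≤ ∑ S ∈ polys n, Real.exp (-(h * a)) * wt (t + h) S :=
        Finset.sum_le_sum_of_subset_of_nonneg (Finset.filter_subset _ _) fun S _ _ =>
          mul_nonneg (Real.exp_pos _).le (wt_pos _ _).le
    _ = Real.exp (-(h * a)) * ZZ n (t + h) := by
        rw [← Finset.mul_sum]
        rfl

/-- One tail of the half-perimeter. -/
theorem R3_tail {t h ε b : ℝ} (hb : FE (t + h) - FE t < h * b - ε) :
    ∃ c : ℝ, 0 < c ∧ ∀ᶠ n : ℕ in atTop,
      Real.exp (-(h * (b * n))) * ZZ n (t + h) ≤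
        Real.exp (-((ε + c) * n)) * ZZ n t := by
  obtain ⟨c, hc⟩ : ∃ c, c = (h * b - ε - (FE (t + h) - FE t)) / 4 := ⟨_, rfl⟩
  have hc0 : 0 < c := by
    rw [hc]
    linarith
  refine ⟨c, hc0, ?_⟩
  have h1 := FE_le_ZZ t hc0
  have h2 : Tendsto (fun n : ℕ => c * (n : ℝ)) atTop atTop :=
    tendsto_natCast_atTop_atTop.const_mul_atTop hc0
  have h3 := h2.eventually (eventually_ge_atTop (t + h))
  filter_upwards [h1, h3] with n h4 h5
  have h6 := ZZ_le_FE n (t + h)
  have h7 : Real.exp (-(h * (b * n))) * ZZ n (t + h) ≤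
      Real.exp (-((ε + c) * n)) * Real.exp ((FE t - c) * n) := by
    refine (mul_le_mul_of_nonneg_left h6 (Real.exp_pos _).le).trans ?_
    rw [← Real.exp_add, ← Real.exp_add, ← Real.exp_add]
    refine Real.exp_le_exp.2 ?_
    have h8 : (4 * c) * (n : ℝ) = (h * b - ε - (FE (t + h) - FE t)) * n := by
      rw [hc]
      ring
    nlinarith
  exact h7.trans (mul_le_mul_of_nonneg_left h4 (Real.exp_pos _).le)

/-- Differentiability implies the exponential law of large numbers. -/
theorem R3_lln {t μ : ℝ} (hd : HasDerivAt FE μ t) {ε : ℝ} (hε : 0 < ε) :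
    ∃ c : ℝ, 0 < c ∧ ∀ᶠ n : ℕ in atTop, TT n t μ ε ≤ Real.exp (-(c * n)) * ZZ n t := by
  classical
  rw [hasDerivAt_iff_isLittleO_nhds_zero, Asymptotics.isLittleO_iff] at hd
  have h1 := hd (show (0 : ℝ) < ε / 2 by linarith)
  rw [Metric.eventually_nhds_iff] at h1
  obtain ⟨δ, hδ, h2⟩ := h1
  obtain ⟨h, hh⟩ : ∃ h, h = δ / 2 := ⟨_, rfl⟩
  have hh0 : 0 < h := by
    rw [hh]
    linarith
  have hhδ : h < δ := by
    rw [hh]
    linarith
  have u1 := h2 (y := h) (by rw [dist_zero_right, Real.norm_eq_abs, abs_of_pos hh0]; exact hhδ)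
  have u2 := h2 (y := -h) (by
    rw [dist_zero_right, norm_neg, Real.norm_eq_abs, abs_of_pos hh0]; exact hhδ)
  rw [Real.norm_eq_abs, Real.norm_eq_abs, abs_of_pos hh0, smul_eq_mul, abs_le] at u1
  rw [Real.norm_eq_abs, Real.norm_eq_abs, abs_neg, abs_of_pos hh0, smul_eq_mul, abs_le] at u2
  have hεh : 0 < ε * h := mul_pos hε hh0
  obtain ⟨c1, hc1, t1⟩ := R3_tail (t := t) (h := h) (ε := ε * h / 4) (b := μ + ε) (by nlinarith)
  obtain ⟨c2, hc2, t2⟩ := R3_tail (t := t) (h := -h) (ε := ε * h / 4) (b := μ - ε) (by nlinarith)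
  refine ⟨ε * h / 4, by positivity, ?_⟩
  have h3 : Tendsto (fun n : ℕ => c1 * (n : ℝ)) atTop atTop :=
    tendsto_natCast_atTop_atTop.const_mul_atTop hc1
  have h3' : Tendsto (fun n : ℕ => c2 * (n : ℝ)) atTop atTop :=
    tendsto_natCast_atTop_atTop.const_mul_atTop hc2
  have h4 := h3.eventually (eventually_ge_atTop 1)
  have h4' := h3'.eventually (eventually_ge_atTop 1)
  filter_upwards [t1, t2, h4, h4'] with n a1 a2 a3 a4
  have hZ := ZZ_nonneg n t
  have s1 := R3_markov n t h ((μ + ε) * n) (fun S => (μ + ε) * n ≤ (perim S : ℝ) / 2)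
    (fun S _ hS => mul_le_mul_of_nonneg_left hS hh0.le)
  have s2 := R3_markov n t (-h) ((μ - ε) * n) (fun S => (perim S : ℝ) / 2 ≤ (μ - ε) * n)
    (fun S _ hS => by
      have := mul_le_mul_of_nonneg_left hS hh0.le
      linarith)
  have hexp : ∀ c : ℝ, 1 ≤ c * n → Real.exp (-((ε * h / 4 + c) * n)) ≤
      1 / 2 * Real.exp (-(ε * h / 4 * n)) := by
    intro c hc
    have e1 : -((ε * h / 4 + c) * n) = -(ε * h / 4 * n) + -(c * n) := by ring
    rw [e1, Real.exp_add, mul_comm]
    refine mul_le_mul_of_nonneg_right ?_ (Real.exp_pos _).le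
    calc Real.exp (-(c * n)) ≤ Real.exp (-1) := Real.exp_le_exp.2 (by linarith)
      _ ≤ 1 / 2 := by
        rw [Real.exp_neg, one_div]
        refine inv_anti₀ (by norm_num) ?_
        have := Real.add_one_le_exp (1 : ℝ)
        linarith
  have b1 := mul_le_mul_of_nonneg_right (hexp c1 a3) hZ
  have b2 := mul_le_mul_of_nonneg_right (hexp c2 a4) hZ
  have hsub : TT n t μ ε ≤ ∑ S ∈ (polys n).filter (fun S => (μ + ε) * n ≤ (perim S : ℝ) / 2), wt t S +
      ∑ S ∈ (polys n).filter (fun S => (perim S : ℝ) / 2 ≤ (μ - ε) * n), wt t S := by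
    unfold TT
    rw [Finset.sum_filter, Finset.sum_filter, Finset.sum_filter, ← Finset.sum_add_distrib]
    refine Finset.sum_le_sum fun S _ => ?_
    have hw := (wt_pos t S).le
    have n1 : 0 ≤ (if (μ + ε) * n ≤ (perim S : ℝ) / 2 then wt t S else 0) := by
      split_ifs
      · exact hw
      · exact le_rfl
    have n2 : 0 ≤ (if (perim S : ℝ) / 2 ≤ (μ - ε) * n then wt t S else 0) := by
      split_ifs
      · exact hw
      · exact le_rfl
    by_cases hc : ε * n ≤ |(perim S : ℝ) / 2 - μ * n|
    · rw [if_pos hc]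
      rcases le_abs.1 hc with hc' | hc'
      · rw [if_pos (show (μ + ε) * n ≤ (perim S : ℝ) / 2 by linarith)]
        linarith
      · rw [if_pos (show (perim S : ℝ) / 2 ≤ (μ - ε) * n by linarith)]
        linarith
    · rw [if_neg hc]
      linarith
  linarith

/-- The exponential law of large numbers implies differentiability. -/
theorem R3_deriv {t μ : ℝ} (hl : ∀ ε : ℝ, 0 < ε →
    ∃ c : ℝ, 0 < c ∧ ∀ᶠ n : ℕ in atTop, TT n t μ ε ≤ Real.exp (-(c * n)) * ZZ n t) :
    HasDerivAt FE μ t := by
  classical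
  rw [hasDerivAt_iff_isLittleO_nhds_zero, Asymptotics.isLittleO_iff]
  intro ε hε
  obtain ⟨c, hc, hT⟩ := hl ε hε
  rw [Metric.eventually_nhds_iff]
  refine ⟨c / (1 + |μ|), by positivity, ?_⟩
  intro h hh
  rw [dist_zero_right, Real.norm_eq_abs, lt_div_iff₀ (by positivity)] at hh
  rw [Real.norm_eq_abs, Real.norm_eq_abs, smul_eq_mul, abs_le]
  have hz := tendsto_one_div_atTop_nhds_zero_nat (𝕜 := ℝ)
  have h2 : Tendsto (fun n : ℕ => c * (n : ℝ)) atTop atTop :=
    tendsto_natCast_atTop_atTop.const_mul_atTop hc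
  have h3 := h2.eventually (eventually_ge_atTop 1)
  have hgood : ∀ S : Finset (ℤ × ℤ), ∀ n : ℕ, ¬ ε * n ≤ |(perim S : ℝ) / 2 - μ * n| →
      |h * ((perim S : ℝ) / 2) - h * μ * n| ≤ |h| * ε * n := by
    intro S n hS
    have e1 : h * ((perim S : ℝ) / 2) - h * μ * n = h * ((perim S : ℝ) / 2 - μ * n) := by ring
    rw [e1, abs_mul, mul_assoc]
    exact mul_le_mul_of_nonneg_left (not_le.1 hS).le (abs_nonneg h)
  constructor
  · -- lower bound
    have hfin : ∀ᶠ n : ℕ in atTop, Real.log (ZZ n t) / n + (h * μ - |h| * ε) -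
        Real.log 2 * (1 / n) ≤ Real.log (ZZ n (t + h)) / n := by
      filter_upwards [hT, h3, eventually_ge_atTop 1] with n a1 a2 hn
      have hn' : (0 : ℝ) < n := by exact_mod_cast hn
      have hZ := R1_pos hn t
      have b1 : TT n t μ ε ≤ 1 / 2 * ZZ n t := by
        refine a1.trans (mul_le_mul_of_nonneg_right ?_ hZ.le)
        calc Real.exp (-(c * n)) ≤ Real.exp (-1) := Real.exp_le_exp.2 (by linarith)
          _ ≤ 1 / 2 := by
            rw [Real.exp_neg, one_div]
            refine inv_anti₀ (by norm_num) ?_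
            have := Real.add_one_le_exp (1 : ℝ)
            linarith
      have b2 : ZZ n t = TT n t μ ε + ∑ S ∈ (polys n).filter
          (fun S => ¬ ε * n ≤ |(perim S : ℝ) / 2 - μ * n|), wt t S := by
        unfold TT ZZ
        rw [Finset.sum_filter_add_sum_filter_not]
      have b3 : Real.exp ((h * μ - |h| * ε) * n) * ∑ S ∈ (polys n).filter
          (fun S => ¬ ε * n ≤ |(perim S : ℝ) / 2 - μ * n|), wt t S ≤ ZZ n (t + h) := by
        rw [Finset.mul_sum]
        refine (Finset.sum_le_sum (g := fun S => wt (t + h) S) ?_).trans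
          (Finset.sum_le_sum_of_subset_of_nonneg (Finset.filter_subset _ _)
            fun S _ _ => (wt_pos _ _).le)
        intro S hS
        rw [Finset.mem_filter] at hS
        have g := (abs_le.1 (hgood S n hS.2)).1
        rw [wt_add, mul_comm]
        refine mul_le_mul_of_nonneg_left ?_ (wt_pos t S).le
        unfold wt
        refine Real.exp_le_exp.2 ?_
        linarith
      have b4 : Real.exp ((h * μ - |h| * ε) * n) * (1 / 2 * ZZ n t) ≤ ZZ n (t + h) :=
        (mul_le_mul_of_nonneg_left (by linarith) (Real.exp_pos _).le).trans b3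
      have b5 := Real.log_le_log (by positivity) b4
      rw [Real.log_mul (Real.exp_ne_zero _) (by positivity), Real.log_exp,
        Real.log_mul (by norm_num) hZ.ne', one_div, Real.log_inv] at b5
      have b6 := div_le_div_of_nonneg_right b5 hn'.le
      refine le_trans (le_of_eq ?_) b6
      field_simp
      ring
    have hlim : Tendsto (fun n : ℕ => Real.log (ZZ n t) / n + (h * μ - |h| * ε) -
        Real.log 2 * (1 / n)) atTop (nhds (FE t + (h * μ - |h| * ε) - Real.log 2 * 0)) :=
      ((tendsto_FE t).add tendsto_const_nhds).sub (hz.const_mul _)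
    have := le_of_tendsto_of_tendsto hlim (tendsto_FE (t + h)) hfin
    linarith
  · -- upper bound
    have hfin : ∀ᶠ n : ℕ in atTop, Real.log (ZZ n (t + h)) / n ≤
        Real.log (ZZ n t) / n + (h * μ + |h| * ε) + Real.log (1 + Real.exp |h|) * (1 / n) := by
      filter_upwards [hT, eventually_ge_atTop 1] with n a1 hn
      have hn' : (0 : ℝ) < n := by exact_mod_cast hn
      have hZ := R1_pos hn t
      have b3 : ∑ S ∈ (polys n).filter (fun S => ¬ ε * n ≤ |(perim S : ℝ) / 2 - μ * n|),
          wt (t + h) S ≤ Real.exp ((h * μ + |h| * ε) * n) * ZZ n t := by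
        calc ∑ S ∈ (polys n).filter (fun S => ¬ ε * n ≤ |(perim S : ℝ) / 2 - μ * n|),
              wt (t + h) S
            ≤ ∑ S ∈ (polys n).filter (fun S => ¬ ε * n ≤ |(perim S : ℝ) / 2 - μ * n|),
              Real.exp ((h * μ + |h| * ε) * n) * wt t S := by
              refine Finset.sum_le_sum fun S hS => ?_
              rw [Finset.mem_filter] at hS
              have g := (abs_le.1 (hgood S n hS.2)).2
              rw [wt_add, mul_comm]
              refine mul_le_mul_of_nonneg_right ?_ (wt_pos t S).le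
              unfold wt
              refine Real.exp_le_exp.2 ?_
              linarith
          _ ≤ ∑ S ∈ polys n, Real.exp ((h * μ + |h| * ε) * n) * wt t S :=
              Finset.sum_le_sum_of_subset_of_nonneg (Finset.filter_subset _ _)
                fun S _ _ => mul_nonneg (Real.exp_pos _).le (wt_pos _ _).le
          _ = _ := by
              rw [← Finset.mul_sum]
              rfl
      have b4 : ∑ S ∈ (polys n).filter (fun S => ε * n ≤ |(perim S : ℝ) / 2 - μ * n|),
          wt (t + h) S ≤ Real.exp |h| * Real.exp ((h * μ + |h| * ε) * n) * ZZ n t := by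
        calc ∑ S ∈ (polys n).filter (fun S => ε * n ≤ |(perim S : ℝ) / 2 - μ * n|),
              wt (t + h) S
            ≤ ∑ S ∈ (polys n).filter (fun S => ε * n ≤ |(perim S : ℝ) / 2 - μ * n|),
              Real.exp (|h| * (n + 1)) * wt t S := by
              refine Finset.sum_le_sum fun S hS => ?_
              rw [Finset.mem_filter] at hS
              rw [wt_add, mul_comm]
              refine mul_le_mul_of_nonneg_right ?_ (wt_pos t S).le
              unfold wt
              refine Real.exp_le_exp.2 ?_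
              have hp : ((perim S : ℕ) : ℝ) / 2 ≤ n + 1 := by
                have : ((perim S : ℕ) : ℝ) ≤ 2 * n + 2 := by exact_mod_cast R1_perim hS.1
                linarith
              calc h * ((perim S : ℝ) / 2) ≤ |h| * ((perim S : ℝ) / 2) :=
                    mul_le_mul_of_nonneg_right (le_abs_self h) (by positivity)
                _ ≤ |h| * (n + 1) := mul_le_mul_of_nonneg_left hp (abs_nonneg h)
          _ = Real.exp (|h| * (n + 1)) * TT n t μ ε := by
              rw [← Finset.mul_sum]
              rfl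
          _ ≤ Real.exp (|h| * (n + 1)) * (Real.exp (-(c * n)) * ZZ n t) :=
              mul_le_mul_of_nonneg_left a1 (Real.exp_pos _).le
          _ ≤ _ := by
              rw [← mul_assoc, ← Real.exp_add, ← Real.exp_add]
              refine mul_le_mul_of_nonneg_right (Real.exp_le_exp.2 ?_) hZ.le
              have k1 : |h| * (1 + |μ|) * n ≤ c * n := mul_le_mul_of_nonneg_right hh.le hn'.le
              have k2 : -(|h| * |μ|) ≤ h * μ := by
                rw [← abs_mul]
                exact neg_abs_le _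
              have k3 := mul_le_mul_of_nonneg_right k2 hn'.le
              have k4 : 0 ≤ |h| * ε * n := by positivity
              nlinarith
      have b5 : ZZ n (t + h) ≤ (1 + Real.exp |h|) * Real.exp ((h * μ + |h| * ε) * n) * ZZ n t := by
        have e1 : ZZ n (t + h) = ∑ S ∈ (polys n).filter
            (fun S => ε * n ≤ |(perim S : ℝ) / 2 - μ * n|), wt (t + h) S +
            ∑ S ∈ (polys n).filter (fun S => ¬ ε * n ≤ |(perim S : ℝ) / 2 - μ * n|),
              wt (t + h) S := by
          unfold ZZ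
          rw [Finset.sum_filter_add_sum_filter_not]
        rw [e1]
        linarith
      have b6 := Real.log_le_log (R1_pos hn _) b5
      rw [Real.log_mul (by positivity) hZ.ne', Real.log_mul (by positivity) (Real.exp_ne_zero _),
        Real.log_exp] at b6
      have b7 := div_le_div_of_nonneg_right b6 hn'.le
      refine b7.trans (le_of_eq ?_)
      field_simp
      ring
    have hlim : Tendsto (fun n : ℕ => Real.log (ZZ n t) / n + (h * μ + |h| * ε) +
        Real.log (1 + Real.exp |h|) * (1 / n)) atTop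
        (nhds (FE t + (h * μ + |h| * ε) + Real.log (1 + Real.exp |h|) * 0)) :=
      ((tendsto_FE t).add tendsto_const_nhds).add (hz.const_mul _)
    have := le_of_tendsto_of_tendsto (tendsto_FE (t + h)) hlim hfin
    linarith

end Pool.Agent.Lib.MP_dcf1eb_pr
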