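import Pool.Agent.Lib.MP_dcf1eb_pr.R3

/-!
# Fixed area polygons: slopes, quadratic lower bound, exceptional tilts (R4)
-/

set_option autoImplicit false

open Filter Set

namespace Pool.Agent.Lib.MP_dcf1eb_pr

theorem R4_q {t h : ℝ} (hh : |h| ≤ 1) :
    1 / 2 * (Real.exp t / (1 + Real.exp t) ^ 2) * h ^ 2 ≤
      Real.log ((1 + Real.exp (t + h)) * (1 + Real.exp (t - h)) / (1 + Real.exp t) ^ 2) := by
  obtain ⟨q, hq⟩ : ∃ q, q = (1 + Real.exp (t + h)) * (1 + Real.exp (t - h)) /
      (1 + Real.exp t) ^ 2 := ⟨_, rfl⟩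
  rw [← hq]
  have hp : 0 < (1 + Real.exp t) ^ 2 := by positivity
  have ht := Real.exp_pos t
  have e1 : Real.exp (t + h) = Real.exp t * Real.exp h := Real.exp_add t h
  have e2 : Real.exp (t - h) = Real.exp t * Real.exp (-h) := by
    rw [sub_eq_add_neg, Real.exp_add]
  have e3 : Real.exp h * Real.exp (-h) = 1 := by
    rw [← Real.exp_add, add_neg_cancel, Real.exp_zero]
  have hq1 : q - 1 = Real.exp t / (1 + Real.exp t) ^ 2 * (Real.exp h + Real.exp (-h) - 2) := by
    rw [hq, e1, e2]
    field_simp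
    nlinarith
  -- lower bound of `exp h + exp (-h) - 2`
  have hlow : h ^ 2 ≤ Real.exp h + Real.exp (-h) - 2 := by
    have k1 : |h| / 2 ≤ Real.sinh (|h| / 2) := Real.self_le_sinh_iff.2 (by positivity)
    have k2 : (|h| / 2) ^ 2 ≤ Real.sinh (|h| / 2) ^ 2 := pow_le_pow_left₀ (by positivity) k1 2
    have k3 : 4 * Real.sinh (|h| / 2) ^ 2 = Real.exp |h| + Real.exp (-|h|) - 2 := by
      rw [Real.sinh_eq]
      have k4 : Real.exp |h| = Real.exp (|h| / 2) ^ 2 := by
        rw [← Real.exp_nat_mul]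
        congr 1
        push_cast
        ring
      have k5 : Real.exp (-|h|) = Real.exp (-(|h| / 2)) ^ 2 := by
        rw [← Real.exp_nat_mul]
        congr 1
        push_cast
        ring
      have k6 : Real.exp (|h| / 2) * Real.exp (-(|h| / 2)) = 1 := by
        rw [← Real.exp_add, add_neg_cancel, Real.exp_zero]
      rw [k4, k5]
      nlinarith
    have k7 : Real.exp |h| + Real.exp (-|h|) = Real.exp h + Real.exp (-h) := by
      rcases abs_cases h with ⟨a1, -⟩ | ⟨a1, -⟩
      · rw [a1]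
      · rw [a1, neg_neg, add_comm]
    have k8 : (|h| / 2) ^ 2 = h ^ 2 / 4 := by
      rw [div_pow, sq_abs]
      norm_num
    rw [k8] at k2
    linarith
  have hup : Real.exp h + Real.exp (-h) - 2 ≤ 4 := by
    have k1 : ∀ x : ℝ, |x| ≤ 1 → Real.exp x ≤ 3 := by
      intro x hx
      calc Real.exp x ≤ Real.exp 1 := Real.exp_le_exp.2 ((le_abs_self x).trans hx)
        _ ≤ 3 := by
          have := Real.exp_one_lt_d9
          linarith
    have k2 := k1 h hh
    have k3 := k1 (-h) (by rwa [abs_neg])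
    linarith
  have hf : Real.exp t / (1 + Real.exp t) ^ 2 ≤ 1 / 4 := by
    rw [div_le_div_iff₀ hp (by norm_num)]
    nlinarith [sq_nonneg (1 - Real.exp t)]
  have hf0 : 0 < Real.exp t / (1 + Real.exp t) ^ 2 := div_pos ht hp
  have hl1 : Real.exp t / (1 + Real.exp t) ^ 2 * h ^ 2 ≤ q - 1 := by
    rw [hq1]
    exact mul_le_mul_of_nonneg_left hlow hf0.le
  have hq2 : q ≤ 2 := by
    have : q - 1 ≤ 1 / 4 * 4 := by
      rw [hq1]
      exact mul_le_mul hf hup (by nlinarith [sq_nonneg h]) (by norm_num)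
    linarith
  have hq3 : 1 ≤ q := by
    have : 0 ≤ Real.exp t / (1 + Real.exp t) ^ 2 * h ^ 2 := by positivity
    linarith
  have hlog := Real.one_sub_inv_le_log_of_pos (show 0 < q by linarith)
  have hdiv : (q - 1) / 2 ≤ 1 - q⁻¹ := by
    have h1 : 1 - q⁻¹ = (q - 1) / q := by
      field_simp
    rw [h1]
    exact div_le_div_of_nonneg_left (by linarith) (by linarith) hq2
  linarith

/-- Quadratic lower bound for the second difference of the free energy. -/
theorem R4_quad {t : ℝ} (ht : 0 < FE t) : ∃ c : ℝ, 0 < c ∧ ∀ h : ℝ, |h| ≤ 1 →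
    c * h ^ 2 ≤ FE (t + h) + FE (t - h) - 2 * FE t := by
  obtain ⟨γ, hγ, h1⟩ := R2_strict ht
  refine ⟨γ * (1 / 2 * (Real.exp t / (1 + Real.exp t) ^ 2)), by positivity, fun h hh => ?_⟩
  have h2 := h1 h
  have h3 := mul_le_mul_of_nonneg_left (R4_q (t := t) hh) hγ.le
  linarith

/-- A smaller tilt with positive free energy. -/
theorem R4_left {t : ℝ} (ht : 0 < FE t) : ∃ s : ℝ, s < t ∧ 0 < FE s := by
  refine ⟨t - FE t / 2, by linarith, ?_⟩
  have := R2_lip (s := t - FE t / 2) (t := t) (by linarith)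
  linarith

theorem R4_slope {t μ : ℝ} (ht : 0 < FE t) (hμ : HasDerivAt FE μ t) : 0 < μ ∧ μ < 1 := by
  obtain ⟨s, hs, hs0⟩ := R4_left ht
  have h1 := R2_convex.slope_le_of_hasDerivAt (mem_univ s) (mem_univ t) hs hμ
  have h2 := R2_convex.le_slope_of_hasDerivAt (mem_univ t) (mem_univ (t + 1)) (by linarith) hμ
  rw [slope_def_field] at h1 h2
  have h3 := R2_strictMono hs0 hs
  have h4 := R2_strictAnti (t := t + 1) ht (by linarith)
  constructor
  · refine lt_of_lt_of_le ?_ h1
    exact div_pos (by linarith) (by linarith)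
  · refine lt_of_le_of_lt h2 ?_
    rw [div_lt_one (by linarith)]
    linarith

/-- The mean in every tilted ensemble with positive free energy. -/
theorem R4_mean {t : ℝ} (ht : 0 < FE t) : ∃ a b : ℝ, 0 < a ∧ b < 1 ∧
    ∀ᶠ n : ℕ in atTop, a ≤ mmean n t / n ∧ mmean n t / n ≤ b := by
  obtain ⟨s, hs, hs0⟩ := R4_left ht
  have h3 := R2_strictMono hs0 hs
  have h4 := R2_strictAnti (t := t + 1) ht (by linarith)
  obtain ⟨d, hd⟩ : ∃ d, d = (FE t - FE s) / (t - s) := ⟨_, rfl⟩
  have hts : 0 < t - s := by linarith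
  have hd0 : 0 < d := by
    rw [hd]
    exact div_pos (by linarith) hts
  have hd1 : d * (t - s) = FE t - FE s := by
    rw [hd]
    field_simp
  obtain ⟨e, he⟩ : ∃ e, e = FE (t + 1) - FE t := ⟨_, rfl⟩
  have he1 : e < 1 := by
    rw [he]
    linarith
  refine ⟨d / 2, (1 + e) / 2, by linarith, by linarith, ?_⟩
  have k1 := R3_mean (t := t) (h := 1) (η := (1 - e) / 2) (by linarith)
  have k2 := R3_mean (t := t) (h := -(t - s)) (η := d * (t - s) / 2) (by positivity)
  filter_upwards [k1, k2] with n a1 a2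
  constructor
  · have e1 : t + -(t - s) = s := by ring
    rw [e1] at a2
    have a3 : (d / 2) * (t - s) ≤ (mmean n t / n) * (t - s) := by nlinarith
    exact le_of_mul_le_mul_right a3 hts
  · rw [one_mul] at a1
    linarith

/-- The free energy is differentiable except at countably many tilts. -/
theorem R4_countable : {t : ℝ | ¬ DifferentiableAt ℝ FE t}.Countable := by
  have hint : ∀ t : ℝ, t ∈ interior (univ : Set ℝ) := fun t => by
    rw [interior_univ]
    exact mem_univ t
  have hmono : Monotone (fun t => derivWithin FE (Ioi t) t) := by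
    intro x y hxy
    exact R2_convex.monotoneOn_rightDeriv (hint x) (hint y) hxy
  refine hmono.countable_not_continuousAt.mono ?_
  intro t ht hc
  apply ht
  have hr := R2_convex.hasDerivWithinAt_rightDeriv_of_mem_interior (hint t)
  have hl := R2_convex.hasDerivWithinAt_leftDeriv_of_mem_interior (hint t)
  have hle := R2_convex.leftDeriv_le_rightDeriv_of_mem_interior (hint t)
  have hge : derivWithin FE (Ioi t) t ≤ derivWithin FE (Iio t) t := by
    have h1 : Tendsto (fun s => derivWithin FE (Ioi s) s) (nhdsWithin t (Iio t))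
        (nhds (derivWithin FE (Ioi t) t)) := hc.tendsto.mono_left nhdsWithin_le_nhds
    refine le_of_tendsto h1 ?_
    filter_upwards [self_mem_nhdsWithin] with s hs
    have h2 := R2_convex.rightDeriv_le_slope_of_mem_interior (hint s) (mem_univ t) hs
    have h3 := R2_convex.slope_le_leftDeriv_of_mem_interior (mem_univ s) (hint t) hs
    exact h2.trans h3
  have heq := le_antisymm hle hge
  rw [heq] at hl
  have hun := hl.union hr
  rw [Iio_union_Ioi, compl_eq_univ_sdiff, hasDerivWithinAt_sdiff_singleton,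
    hasDerivWithinAt_univ] at hun
  exact hun.differentiableAt

end Pool.Agent.Lib.MP_dcf1eb_pr
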