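import Pool.Agent.Lib.MP_dcf1eb_pr.R4
import Pool.Agent.Lib.MP_dcf1eb_pr.N10

/-!
# Fixed area polygons: the variance in the tilted ensembles is at least linear (R5)
-/

set_option autoImplicit false

open Filter

namespace Pool.Agent.Lib.MP_dcf1eb_pr

/-- The second moment of the half-perimeter around `a` in the tilted ensemble. -/
noncomputable def mom2 (n : ℕ) (t a : ℝ) : ℝ :=
  ∑ S ∈ polys n, ((perim S : ℝ) / 2 - a) ^ 2 * wt t S

/-- The variance of the half-perimeter in the tilted ensemble. -/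
noncomputable def vvar (n : ℕ) (t : ℝ) : ℝ := mom2 n t (mmean n t) / ZZ n t

private theorem R5_bern (k j : ℕ) (hj : j ≤ k) {x : ℝ} (hx : 0 < x) :
    Polynomial.eval (x / (1 + x)) (bernsteinPolynomial ℝ k j) =
      (k.choose j : ℝ) * x ^ j / (1 + x) ^ k := by
  unfold bernsteinPolynomial
  rw [Polynomial.eval_mul, Polynomial.eval_mul, Polynomial.eval_natCast, Polynomial.eval_pow,
    Polynomial.eval_X, Polynomial.eval_pow, Polynomial.eval_sub, Polynomial.eval_one,
    Polynomial.eval_X]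
  have h1 : 1 - x / (1 + x) = 1 / (1 + x) := by
    field_simp
    ring
  rw [h1, div_pow, one_div, inv_pow]
  have h2 : (1 + x) ^ k = (1 + x) ^ j * (1 + x) ^ (k - j) := by
    rw [← pow_add]
    congr 1
    omega
  rw [h2]
  field_simp

theorem R5_binom (k : ℕ) {x : ℝ} (hx : 0 < x) (b : ℝ) :
    (k : ℝ) * (x / (1 + x) ^ 2) * ∑ j ∈ Finset.range (k + 1), (k.choose j : ℝ) * x ^ j ≤
      ∑ j ∈ Finset.range (k + 1), (k.choose j : ℝ) * (x ^ j * (b + j) ^ 2) := by
  obtain ⟨p, hp⟩ : ∃ p, p = x / (1 + x) := ⟨_, rfl⟩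
  obtain ⟨B, hB⟩ : ∃ B : ℕ → ℝ, B = fun j => Polynomial.eval p (bernsteinPolynomial ℝ k j) :=
    ⟨_, rfl⟩
  have h1x : 0 < 1 + x := by linarith
  have hBj : ∀ j ∈ Finset.range (k + 1), (k.choose j : ℝ) * x ^ j = (1 + x) ^ k * B j := by
    intro j hj
    rw [hB]
    simp only
    rw [hp, R5_bern k j (Nat.lt_succ_iff.1 (Finset.mem_range.1 hj)) hx]
    field_simp
  have s0 : ∑ j ∈ Finset.range (k + 1), B j = 1 := by
    have h := congrArg (Polynomial.eval p) (bernsteinPolynomial.sum ℝ k)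
    rw [Polynomial.eval_finsetSum, Polynomial.eval_one] at h
    rw [hB]
    exact h
  have s1 : ∑ j ∈ Finset.range (k + 1), (j : ℝ) * B j = k * p := by
    have h := congrArg (Polynomial.eval p) (bernsteinPolynomial.sum_smul ℝ k)
    rw [Polynomial.eval_finsetSum] at h
    simp only [nsmul_eq_mul] at h
    rw [hB]
    simpa [Polynomial.eval_mul] using h
  have s2 : ∑ j ∈ Finset.range (k + 1), ((k : ℝ) * p - j) ^ 2 * B j = k * p * (1 - p) := by
    have h := congrArg (Polynomial.eval p) (bernsteinPolynomial.variance ℝ k)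
    rw [Polynomial.eval_finsetSum] at h
    rw [hB]
    simpa [Polynomial.eval_mul, Polynomial.eval_pow, Polynomial.eval_sub] using h
  have hpp : p * (1 - p) = x / (1 + x) ^ 2 := by
    rw [hp]
    field_simp
    ring
  have e1 : ∑ j ∈ Finset.range (k + 1), (k.choose j : ℝ) * x ^ j = (1 + x) ^ k := by
    rw [Finset.sum_congr rfl hBj, ← Finset.mul_sum, s0, mul_one]
  have e2 : ∑ j ∈ Finset.range (k + 1), (k.choose j : ℝ) * (x ^ j * (b + j) ^ 2) =
      (1 + x) ^ k * (k * p * (1 - p) + (k * p + b) ^ 2) := by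
    have h3 : ∀ j ∈ Finset.range (k + 1), (k.choose j : ℝ) * (x ^ j * (b + j) ^ 2) =
        (1 + x) ^ k * ((((k : ℝ) * p - j) ^ 2 * B j) + 2 * (k * p + b) * ((j : ℝ) * B j) -
          2 * (k * p + b) * (k * p) * B j + (k * p + b) ^ 2 * B j) := by
      intro j hj
      rw [← mul_assoc, hBj j hj]
      ring
    rw [Finset.sum_congr rfl h3, ← Finset.mul_sum, Finset.sum_add_distrib, Finset.sum_sub_distrib,
      Finset.sum_add_distrib, ← Finset.mul_sum, ← Finset.mul_sum, ← Finset.mul_sum, s0, s1, s2]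
    ring
  rw [e1, e2, ← hpp]
  have h4 : 0 < (1 + x) ^ k := by positivity
  nlinarith [mul_nonneg h4.le (sq_nonneg ((k : ℝ) * p + b))]

open Classical in
/-- Sum over all polygons, organised by the fibres of `can`. -/
private theorem R5_group (n : ℕ) (g : Finset (ℤ × ℤ) → ℝ) :
    ∑ S ∈ polys n, g S = ∑ R ∈ (polys n).filter (fun R => obb R = ∅),
      ∑ S ∈ (polys n).filter (fun S => can S = R), g S := by
  rw [Finset.sum_fiberwise_of_maps_to]
  intro S hS
  obtain ⟨h1, -, h2⟩ := can_mem hS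
  exact Finset.mem_filter.2 ⟨h1, h2⟩

theorem R5_mom2 (n : ℕ) (t a : ℝ) :
    Real.exp t / (1 + Real.exp t) ^ 2 * ∑ S ∈ polys n, ((oc S).card : ℝ) * wt t S ≤
      mom2 n t a := by
  classical
  unfold mom2
  rw [R5_group n (fun S => ((oc S).card : ℝ) * wt t S),
    R5_group n (fun S => ((perim S : ℝ) / 2 - a) ^ 2 * wt t S), Finset.mul_sum]
  refine Finset.sum_le_sum fun R hR => ?_
  obtain ⟨hR1, hR2⟩ := Finset.mem_filter.1 hR
  have e1 : ∑ S ∈ (polys n).filter (fun S => can S = R), ((oc S).card : ℝ) * wt t S =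
      ((oc R).card : ℝ) * ∑ S ∈ (polys n).filter (fun S => can S = R), wt t S := by
    rw [Finset.mul_sum]
    refine Finset.sum_congr rfl fun S hS => ?_
    obtain ⟨hS1, hS2⟩ := Finset.mem_filter.1 hS
    rw [← (can_mem hS1).2.1, hS2]
  rw [e1]
  have f1 := fibre_sum hR1 hR2 (fun p => Real.exp (t * ((p : ℝ) / 2)))
  have f2 := fibre_sum hR1 hR2 (fun p => ((p : ℝ) / 2 - a) ^ 2 * Real.exp (t * ((p : ℝ) / 2)))
  have g1 : ∑ S ∈ (polys n).filter (fun S => can S = R), wt t S =
      wt t R * ∑ j ∈ Finset.range ((oc R).card + 1),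
        ((oc R).card.choose j : ℝ) * Real.exp t ^ j := by
    unfold wt
    rw [f1, Finset.mul_sum]
    refine Finset.sum_congr rfl fun j _ => ?_
    rw [← Real.exp_nat_mul, mul_left_comm, ← Real.exp_add]
    congr 2
    push_cast
    ring
  have g2 : ∑ S ∈ (polys n).filter (fun S => can S = R), ((perim S : ℝ) / 2 - a) ^ 2 * wt t S =
      wt t R * ∑ j ∈ Finset.range ((oc R).card + 1),
        ((oc R).card.choose j : ℝ) * (Real.exp t ^ j * (((perim R : ℝ) / 2 - a) + j) ^ 2) := by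
    unfold wt
    rw [f2, Finset.mul_sum]
    refine Finset.sum_congr rfl fun j _ => ?_
    have h5 : Real.exp (t * (((perim R + 2 * j : ℕ) : ℝ) / 2)) =
        Real.exp (t * ((perim R : ℝ) / 2)) * Real.exp t ^ j := by
      rw [← Real.exp_nat_mul, ← Real.exp_add]
      congr 1
      push_cast
      ring
    rw [h5]
    push_cast
    ring
  rw [g1, g2]
  have h6 := mul_le_mul_of_nonneg_left
    (R5_binom (oc R).card (Real.exp_pos t) ((perim R : ℝ) / 2 - a)) (wt_pos t R).le
  refine le_trans (le_of_eq ?_) h6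
  ring

/-- The variance in every tilted ensemble with positive free energy is at least linear. -/
theorem R5_var {t : ℝ} (ht : 0 < FE t) : ∃ c : ℝ, 0 < c ∧ ∀ᶠ n : ℕ in atTop, ∀ a : ℝ,
    c * n * ZZ n t ≤ mom2 n t a := by
  classical
  obtain ⟨γ, hγ, hrich⟩ := R1_rich ht
  obtain ⟨f, hf⟩ : ∃ f, f = Real.exp t / (1 + Real.exp t) ^ 2 := ⟨_, rfl⟩
  have hf0 : 0 < f := by
    rw [hf]
    positivity
  refine ⟨f * (γ / 4), by positivity, ?_⟩
  have h2 : Tendsto (fun n : ℕ => γ * (n : ℝ)) atTop atTop :=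
    tendsto_natCast_atTop_atTop.const_mul_atTop hγ
  filter_upwards [hrich, h2.eventually (eventually_ge_atTop 2)] with n h3 h4 a
  have h5 := R5_mom2 n t a
  rw [← hf] at h5
  have hfl : γ * n - 1 ≤ (⌊γ * n⌋₊ : ℝ) := (Nat.sub_one_lt_floor _).le
  have h6 : (γ * n / 2) * (ZZ n t / 2) ≤ ∑ S ∈ polys n, ((oc S).card : ℝ) * wt t S := by
    calc (γ * n / 2) * (ZZ n t / 2)
        ≤ (⌊γ * n⌋₊ : ℝ) * ∑ S ∈ (polys n).filter (fun S => ⌊γ * n⌋₊ ≤ (oc S).card), wt t S := by
          have := ZZ_nonneg n t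
          refine mul_le_mul (by linarith) (by linarith) (by linarith) (Nat.cast_nonneg _)
      _ ≤ ∑ S ∈ (polys n).filter (fun S => ⌊γ * n⌋₊ ≤ (oc S).card),
            ((oc S).card : ℝ) * wt t S := by
          rw [Finset.mul_sum]
          refine Finset.sum_le_sum fun S hS => ?_
          refine mul_le_mul_of_nonneg_right ?_ (wt_pos t S).le
          exact_mod_cast (Finset.mem_filter.1 hS).2
      _ ≤ _ := Finset.sum_le_sum_of_subset_of_nonneg (Finset.filter_subset _ _) fun S _ _ =>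
          mul_nonneg (Nat.cast_nonneg _) (wt_pos t S).le
  have h7 := mul_le_mul_of_nonneg_left h6 hf0.le
  refine le_trans (le_of_eq ?_) (h7.trans h5)
  ring

end Pool.Agent.Lib.MP_dcf1eb_pr
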