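import Pool.Agent.Lib.MP_dcf1eb_pr.R5

/-!
# Fixed area polygons: the variance is of exact order n for almost every tilt (R6)
-/

set_option autoImplicit false

open Filter MeasureTheory

namespace Pool.Agent.Lib.MP_dcf1eb_pr

/-- The `k`-th moment sum. -/
noncomputable def R6_M (k n : ℕ) (t : ℝ) : ℝ := ∑ S ∈ polys n, ((perim S : ℝ) / 2) ^ k * wt t S

theorem R6_M0 (n : ℕ) (t : ℝ) : R6_M 0 n t = ZZ n t := by
  unfold R6_M ZZ
  exact Finset.sum_congr rfl fun S _ => by rw [pow_zero, one_mul]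

theorem R6_deriv (k n : ℕ) (t : ℝ) : HasDerivAt (R6_M k n) (R6_M (k + 1) n t) t := by
  have h : ∀ S ∈ polys n, HasDerivAt (fun t : ℝ => ((perim S : ℝ) / 2) ^ k * wt t S)
      (((perim S : ℝ) / 2) ^ (k + 1) * wt t S) t := by
    intro S _
    have h1 : HasDerivAt (fun t : ℝ => t * ((perim S : ℝ) / 2)) ((perim S : ℝ) / 2) t := by
      simpa using (hasDerivAt_id t).mul_const ((perim S : ℝ) / 2)
    have h2 := (h1.exp).const_mul (((perim S : ℝ) / 2) ^ k)
    unfold wt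
    refine h2.congr_deriv ?_
    ring
  exact (HasDerivAt.fun_sum h)

theorem R6_cont (k n : ℕ) : Continuous (R6_M k n) :=
  continuous_iff_continuousAt.2 fun t => (R6_deriv k n t).continuousAt

theorem R6_mmean (n : ℕ) (t : ℝ) : mmean n t = R6_M 1 n t / R6_M 0 n t := by
  rw [R6_M0]
  unfold mmean R6_M
  congr 1
  exact Finset.sum_congr rfl fun S _ => by rw [pow_one]

theorem R6_vvar {n : ℕ} (hn : 1 ≤ n) (t : ℝ) :
    vvar n t = (R6_M 2 n t * R6_M 0 n t - R6_M 1 n t * R6_M 1 n t) / R6_M 0 n t ^ 2 := by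
  have hZ : R6_M 0 n t ≠ 0 := by
    rw [R6_M0]
    exact (R1_pos hn t).ne'
  have h1 : ∀ a : ℝ, mom2 n t a = R6_M 2 n t - 2 * a * R6_M 1 n t + a ^ 2 * R6_M 0 n t := by
    intro a
    unfold mom2 R6_M
    rw [Finset.mul_sum, Finset.mul_sum, ← Finset.sum_sub_distrib, ← Finset.sum_add_distrib]
    refine Finset.sum_congr rfl fun S _ => ?_
    ring
  unfold vvar
  rw [h1, R6_mmean, ← R6_M0]
  field_simp
  ring

theorem R6_mderiv {n : ℕ} (hn : 1 ≤ n) (t : ℝ) : HasDerivAt (mmean n) (vvar n t) t := by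
  have hZ : R6_M 0 n t ≠ 0 := by
    rw [R6_M0]
    exact (R1_pos hn t).ne'
  have h1 := (R6_deriv 1 n t).div (R6_deriv 0 n t) hZ
  have h2 : mmean n = fun t => R6_M 1 n t / R6_M 0 n t := funext fun t => R6_mmean n t
  rw [h2, R6_vvar hn]
  exact h1

theorem R6_vcont {n : ℕ} (hn : 1 ≤ n) : Continuous (vvar n) := by
  have h2 : vvar n = fun t => (R6_M 2 n t * R6_M 0 n t - R6_M 1 n t * R6_M 1 n t) /
      R6_M 0 n t ^ 2 := funext fun t => R6_vvar hn t
  rw [h2]
  refine Continuous.div (((R6_cont 2 n).mul (R6_cont 0 n)).sub ((R6_cont 1 n).mul (R6_cont 1 n)))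
    ((R6_cont 0 n).pow 2) fun t => ?_
  rw [R6_M0]
  exact pow_ne_zero 2 (R1_pos hn t).ne'

theorem R6_vnn (n : ℕ) (t : ℝ) : 0 ≤ vvar n t := by
  unfold vvar mom2
  exact div_nonneg (Finset.sum_nonneg fun S _ => mul_nonneg (sq_nonneg _) (wt_pos t S).le)
    (ZZ_nonneg n t)

theorem R6_mnn (n : ℕ) (t : ℝ) : 0 ≤ mmean n t := by
  unfold mmean
  exact div_nonneg (Finset.sum_nonneg fun S _ => mul_nonneg (by positivity) (wt_pos t S).le)
    (ZZ_nonneg n t)

theorem R6_mle {n : ℕ} (hn : 1 ≤ n) (t : ℝ) : mmean n t ≤ n + 1 := by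
  unfold mmean
  rw [div_le_iff₀ (R1_pos hn t)]
  unfold ZZ
  rw [Finset.mul_sum]
  refine Finset.sum_le_sum fun S hS => mul_le_mul_of_nonneg_right ?_ (wt_pos t S).le
  have h : ((perim S : ℕ) : ℝ) ≤ 2 * n + 2 := by exact_mod_cast R1_perim hS
  linarith

theorem R6_int {n : ℕ} (hn : 1 ≤ n) {a b : ℝ} (hab : a ≤ b) :
    ∫⁻ t in Set.Ioc a b, ENNReal.ofReal (vvar n t / n) ≤ 2 := by
  have hn' : (0 : ℝ) < n := by exact_mod_cast hn
  have hc : Continuous fun t => vvar n t / (n : ℝ) := (R6_vcont hn).div_const _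
  have hi : IntervalIntegrable (fun t => vvar n t / (n : ℝ)) volume a b :=
    hc.intervalIntegrable a b
  have h1 : ∫ t in a..b, vvar n t / (n : ℝ) = mmean n b / n - mmean n a / n :=
    intervalIntegral.integral_eq_sub_of_hasDerivAt
      (fun t _ => (R6_mderiv hn t).div_const (n : ℝ)) hi
  have h2 : ∫ t in a..b, vvar n t / (n : ℝ) ≤ 2 := by
    rw [h1, ← sub_div, div_le_iff₀ hn']
    have h3 := R6_mle hn b
    have h4 := R6_mnn n a
    have h5 : (1 : ℝ) ≤ n := by exact_mod_cast hn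
    linarith
  rw [← ofReal_integral_eq_lintegral_ofReal hi.1
    (Filter.Eventually.of_forall fun t => div_nonneg (R6_vnn n t) hn'.le),
    ← intervalIntegral.integral_of_le hab]
  calc ENNReal.ofReal (∫ t in a..b, vvar n t / (n : ℝ)) ≤ ENNReal.ofReal 2 :=
        ENNReal.ofReal_le_ofReal h2
    _ = 2 := by norm_num

/-- For almost every tilt the Cesaro means of `Var / n` are bounded along a subsequence. -/
theorem R6_ae : ∀ᵐ t : ℝ, ∃ C : ℝ, ∃ᶠ N : ℕ in atTop,
    ∑ n ∈ Finset.Icc 1 N, vvar n t / n ≤ C * N := by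
  have hloc : ∀ K : ℕ, ∀ᵐ t : ℝ, t ∈ Set.Ioc (-(K : ℝ)) K →
      ∃ C : ℝ, ∃ᶠ N : ℕ in atTop, ∑ n ∈ Finset.Icc 1 N, vvar n t / n ≤ C * N := by
    intro K
    rw [← ae_restrict_iff' measurableSet_Ioc]
    obtain ⟨f, hf⟩ : ∃ f : ℕ → ℝ → ENNReal, f = fun N t =>
        (∑ n ∈ Finset.Icc 1 N, ENNReal.ofReal (vvar n t / n)) * (N : ENNReal)⁻¹ := ⟨_, rfl⟩
    have hm1 : ∀ N : ℕ, ∀ n ∈ Finset.Icc 1 N,
        Measurable fun t => ENNReal.ofReal (vvar n t / (n : ℝ)) := by
      intro N n hn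
      exact ((R6_vcont (Finset.mem_Icc.1 hn).1).div_const _).measurable.ennreal_ofReal
    have hmeas : ∀ N, Measurable (f N) := by
      intro N
      rw [hf]
      exact (Finset.measurable_fun_sum _ (hm1 N)).mul_const _
    have hbound : ∀ N, ∫⁻ t in Set.Ioc (-(K : ℝ)) K, f N t ≤ 2 := by
      intro N
      rw [hf]
      rw [lintegral_mul_const _ (Finset.measurable_fun_sum _ (hm1 N)),
        lintegral_finsetSum _ (hm1 N)]
      have h1 : ∑ n ∈ Finset.Icc 1 N, ∫⁻ t in Set.Ioc (-(K : ℝ)) K,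
          ENNReal.ofReal (vvar n t / (n : ℝ)) ≤ ∑ _n ∈ Finset.Icc 1 N, (2 : ENNReal) :=
        Finset.sum_le_sum fun n hn => R6_int (Finset.mem_Icc.1 hn).1 (by
          have : (0 : ℝ) ≤ K := Nat.cast_nonneg K
          linarith)
      rw [Finset.sum_const, Nat.card_Icc, Nat.add_sub_cancel, nsmul_eq_mul] at h1
      refine (mul_le_mul_left h1 _).trans ?_
      by_cases hN : N = 0
      · rw [hN]
        simp
      · have hN' : (N : ENNReal) ≠ 0 := by exact_mod_cast hN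
        rw [mul_comm (N : ENNReal) 2, mul_assoc, ENNReal.mul_inv_cancel hN' (ENNReal.natCast_ne_top N),
          mul_one]
    have hfat : ∫⁻ t in Set.Ioc (-(K : ℝ)) K, liminf (fun N => f N t) atTop ≤ 2 := by
      refine (lintegral_liminf_le hmeas).trans ?_
      refine liminf_le_of_frequently_le' ?_
      exact Frequently.of_forall hbound
    have hfin := ae_lt_top (Measurable.liminf hmeas) (ne_top_of_le_ne_top (by norm_num) hfat)
    filter_upwards [hfin] with t ht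
    obtain ⟨c, hc1, hc2⟩ := exists_between ht
    have hfreq := frequently_lt_of_liminf_lt (by isBoundedDefault) hc1
    refine ⟨c.toReal, ?_⟩
    refine (hfreq.and_eventually (eventually_ge_atTop 1)).mono fun N hN => ?_
    obtain ⟨hN1, hN2⟩ := hN
    rw [hf] at hN1
    have hN' : (0 : ℝ) < N := by exact_mod_cast hN2
    have h1 : (∑ n ∈ Finset.Icc 1 N, vvar n t / n) / N ≤ c.toReal := by
      have h2 := ENNReal.toReal_mono hc2.ne hN1.le
      rw [ENNReal.toReal_mul, ENNReal.toReal_sum (fun n _ => ENNReal.ofReal_ne_top),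
        ENNReal.toReal_inv, ENNReal.toReal_natCast, ← div_eq_mul_inv] at h2
      refine le_trans (le_of_eq ?_) h2
      congr 1
      refine Finset.sum_congr rfl fun n _ => ?_
      rw [ENNReal.toReal_ofReal (div_nonneg (R6_vnn _ _) (Nat.cast_nonneg n))]
    rwa [div_le_iff₀ hN'] at h1
  rw [← ae_all_iff] at hloc
  filter_upwards [hloc] with t ht
  obtain ⟨N, hN⟩ := exists_nat_gt |t|
  refine ht N ⟨?_, ?_⟩
  · have := neg_abs_le t
    linarith
  · have := le_abs_self t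
    linarith

end Pool.Agent.Lib.MP_dcf1eb_pr
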