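import Pool.Agent.Lib.MP_dcf1eb_pr.R6

/-!
# Fixed area polygons: the limiting mean as a function of the tilt; link with the counts (R7)
-/

set_option autoImplicit false

open Filter Set MeasureTheory

namespace Pool.Agent.Lib.MP_dcf1eb_pr

/-- The right derivative of the free energy. -/
noncomputable def gd (t : ℝ) : ℝ := derivWithin FE (Ioi t) t

theorem R7_int (t : ℝ) : t ∈ interior (univ : Set ℝ) := by
  rw [interior_univ]
  exact mem_univ t

theorem R7_slope_le {s t : ℝ} (h : s < t) : slope FE s t ≤ gd t :=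
  (R2_convex.slope_le_leftDeriv_of_mem_interior (mem_univ s) (R7_int t) h).trans
    (R2_convex.leftDeriv_le_rightDeriv_of_mem_interior (R7_int t))

theorem R7_le_slope {s t : ℝ} (h : s < t) : gd s ≤ slope FE s t :=
  R2_convex.rightDeriv_le_slope_of_mem_interior (R7_int s) (mem_univ t) h

theorem R7_strictMono {s t : ℝ} (hs : 0 < FE s) (h : s < t) : gd s < gd t := by
  have h1 := R7_le_slope (s := s) (t := (s + t) / 2) (by linarith)
  have h2 := R7_slope_le (s := (s + t) / 2) (t := t) (by linarith)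
  have h3 := R2_strict' (t := (s + t) / 2) (h := (t - s) / 2)
    (lt_of_lt_of_le hs (R2_mono (by linarith))) (by
      have : (0 : ℝ) < (t - s) / 2 := by linarith
      exact this.ne')
  have e1 : (s + t) / 2 + (t - s) / 2 = t := by ring
  have e2 : (s + t) / 2 - (t - s) / 2 = s := by ring
  rw [e1, e2] at h3
  refine lt_of_le_of_lt h1 (lt_of_lt_of_le ?_ h2)
  rw [slope_def_field, slope_def_field]
  have e3 : (s + t) / 2 - s = (t - s) / 2 := by ring
  have e4 : t - (s + t) / 2 = (t - s) / 2 := by ring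
  rw [e3, e4]
  exact div_lt_div_of_pos_right (by linarith) (by linarith)

theorem R7_mem {t : ℝ} (ht : 0 < FE t) : 0 < gd t ∧ gd t < 1 := by
  obtain ⟨s, hs, hs0⟩ := R4_left ht
  have h1 := R7_slope_le hs
  have h2 := R7_le_slope (s := t) (t := t + 1) (by linarith)
  rw [slope_def_field] at h1 h2
  have h3 := R2_strictMono hs0 hs
  have h4 := R2_strictAnti (t := t + 1) ht (by linarith)
  constructor
  · refine lt_of_lt_of_le ?_ h1
    exact div_pos (by linarith) (by linarith)
  · refine lt_of_le_of_lt h2 ?_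
    rw [div_lt_one (by linarith)]
    linarith

theorem R7_deriv {t : ℝ} (ht : DifferentiableAt ℝ FE t) : HasDerivAt FE (gd t) t := by
  have h1 : gd t = deriv FE t :=
    ht.hasDerivAt.hasDerivWithinAt.derivWithin (uniqueDiffWithinAt_Ioi t)
  rw [h1]
  exact ht.hasDerivAt

theorem R7_half (S : Finset (ℤ × ℤ)) : ((perim S / 2 : ℕ) : ℝ) = (perim S : ℝ) / 2 := by
  obtain ⟨k, hk⟩ := perim_even S
  have h1 : perim S / 2 = k := by omega
  rw [h1, hk]
  push_cast
  ring

/-- Tilted sums over the counts. -/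
theorem R7_sum (n : ℕ) (t : ℝ) (g : ℝ → ℝ) :
    ∑ m ∈ Finset.range (4 * n + 4), g m * (Real.exp (t * m) * (pp m n : ℝ)) =
      ∑ S ∈ polys n, g ((perim S : ℝ) / 2) * wt t S := by
  have h := sum_pp n (fun m => g m * Real.exp (t * m))
  have h1 : ∑ m ∈ Finset.range (4 * n + 4), g m * (Real.exp (t * m) * (pp m n : ℝ)) =
      ∑ m ∈ Finset.range (4 * n + 4), (g m * Real.exp (t * m)) * (pp m n : ℝ) :=
    Finset.sum_congr rfl fun m _ => by ring
  rw [h1, h]
  refine Finset.sum_congr rfl fun S _ => ?_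
  rw [R7_half]
  rfl

theorem R7_Z (n : ℕ) (t : ℝ) :
    ∑ m ∈ Finset.range (4 * n + 4), Real.exp (t * m) * (pp m n : ℝ) = ZZ n t := by
  have h := R7_sum n t (fun _ => 1)
  simp only [one_mul] at h
  rw [h]
  rfl

theorem R7_mean (n : ℕ) (t : ℝ) :
    (∑ m ∈ Finset.range (4 * n + 4), (m : ℝ) * (Real.exp (t * m) * (pp m n : ℝ))) / ZZ n t =
      mmean n t := by
  rw [R7_sum n t (fun x => x)]
  rfl

theorem R7_var (n : ℕ) (t : ℝ) :
    (∑ m ∈ Finset.range (4 * n + 4), ((m : ℝ) - mmean n t) ^ 2 *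
      (Real.exp (t * m) * (pp m n : ℝ))) / ZZ n t = vvar n t := by
  rw [R7_sum n t (fun x => (x - mmean n t) ^ 2)]
  rfl

theorem R7_tail (n : ℕ) (t μ ε : ℝ) :
    ∑ m ∈ Finset.range (4 * n + 4), (if ε * n ≤ |(m : ℝ) - μ * n| then
      Real.exp (t * m) * (pp m n : ℝ) else 0) = TT n t μ ε := by
  classical
  have h := R7_sum n t (fun x => if ε * n ≤ |x - μ * n| then 1 else 0)
  have h1 : ∑ m ∈ Finset.range (4 * n + 4), (if ε * n ≤ |(m : ℝ) - μ * n| then
      Real.exp (t * m) * (pp m n : ℝ) else 0) = ∑ m ∈ Finset.range (4 * n + 4),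
      (if ε * n ≤ |(m : ℝ) - μ * n| then (1 : ℝ) else 0) *
        (Real.exp (t * m) * (pp m n : ℝ)) := by
    refine Finset.sum_congr rfl fun m _ => ?_
    split_ifs
    · rw [one_mul]
    · rw [zero_mul]
  rw [h1, h]
  unfold TT
  rw [Finset.sum_filter]
  refine Finset.sum_congr rfl fun S _ => ?_
  split_ifs
  · rw [one_mul]
  · rw [zero_mul]

/-- The variance bounds in the form of the final statement. -/
theorem R7_varbound {t : ℝ} (ht : 0 < FE t) :
    ∃ c : ℝ, 0 < c ∧ ∀ᶠ n : ℕ in atTop, c ≤ vvar n t / n := by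
  obtain ⟨c, hc, h⟩ := R5_var ht
  refine ⟨c, hc, ?_⟩
  filter_upwards [h, eventually_ge_atTop 1] with n h1 hn
  have hn' : (0 : ℝ) < n := by exact_mod_cast hn
  have h2 := h1 (mmean n t)
  rw [le_div_iff₀ hn']
  unfold vvar
  rw [le_div_iff₀ (R1_pos hn t)]
  exact h2

end Pool.Agent.Lib.MP_dcf1eb_pr
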