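import Pool.Agent.Lib.MP_dcf1eb_pr.K8
import Pool.Agent.Lib.MP_dcf1eb_pr.G8
import Pool.Agent.Lib.MP_dcf1eb_pr.N7

/-!
# Fixed area polygons: most polygons have many patterns (Z1)
-/

set_option autoImplicit false

open Filter

namespace Pool.Agent.Lib.MP_dcf1eb_pr

private theorem Z1_absorb {c : ℝ} (hc : 0 < c) :
    ∀ᶠ n : ℕ in atTop, 145 * Real.exp (-(c * n)) ≤ Real.exp (-(c / 2 * n)) := by
  have h1 : Tendsto (fun n : ℕ => c / 2 * (n : ℝ)) atTop atTop :=
    Tendsto.const_mul_atTop (by positivity) tendsto_natCast_atTop_atTop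
  filter_upwards [h1.eventually_ge_atTop (Real.log 145)] with n hn
  have h2 : (145 : ℝ) ≤ Real.exp (c / 2 * n) := by
    rw [← Real.log_le_iff_le_exp (by norm_num)]
    exact hn
  calc 145 * Real.exp (-(c * n)) ≤ Real.exp (c / 2 * n) * Real.exp (-(c * n)) :=
        mul_le_mul_of_nonneg_right h2 (Real.exp_pos _).le
    _ = Real.exp (-(c / 2 * n)) := by
        rw [← Real.exp_add]
        congr 1
        ring

open Classical in
private theorem Z1_biUnion (s : Finset (ℤ × ℤ)) (B : ℤ × ℤ → Finset (Finset (ℤ × ℤ))) (t : ℝ) :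
    ∑ S ∈ s.biUnion B, wt t S ≤ ∑ ρ ∈ s, ∑ S ∈ B ρ, wt t S := by
  induction s using Finset.induction_on with
  | empty => simp
  | insert ρ s hρ ih =>
    rw [Finset.biUnion_insert, Finset.sum_insert hρ]
    have h1 : ∑ S ∈ B ρ ∪ s.biUnion B, wt t S ≤ ∑ S ∈ B ρ, wt t S + ∑ S ∈ s.biUnion B, wt t S := by
      rw [← Finset.sum_union_inter]
      have : 0 ≤ ∑ S ∈ B ρ ∩ s.biUnion B, wt t S :=
        Finset.sum_nonneg (fun S _ => (wt_pos t S).le)
      linarith
    linarith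

/-- In the tilted ensemble with positive free energy, all but an exponentially small part of the
polygons have perimeter at least `ε n` and at least `γ n` occurrences of the pattern. -/
theorem rich {t : ℝ} (ht : 0 < FE t) : ∃ ε γ c : ℝ, 0 < ε ∧ 0 < γ ∧ 0 < c ∧
    ∀ᶠ n : ℕ in atTop,
      ∑ S ∈ (polys n).filter (fun S => (perim S : ℝ) ≤ ε * n ∨ ((oc S).card : ℝ) ≤ γ * n),
        wt t S ≤ Real.exp (-(c * n)) * ZZ n t := by
  obtain ⟨ε, c0, hε, hε1, hc0, h0⟩ := small_perim_rare ht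
  obtain ⟨γ, c1, hγ, hc1, h1⟩ := pattern2 (ε := ε / 576) ht (by positivity) (by linarith)
  refine ⟨ε, γ, min c0 c1 / 2, hε, hγ, by positivity, ?_⟩
  have hm : 0 < min c0 c1 := lt_min hc0 hc1
  filter_upwards [h0, h1, Z1_absorb hm] with n h0 h1 h2
  classical
  set A := (polys n).filter (fun S => (perim S : ℝ) ≤ ε * n) with hA
  set B : ℤ × ℤ → Finset (Finset (ℤ × ℤ)) := fun ρ => (polys n).filter
    (fun S => ε / 576 * n ≤ ((bd ρ S).card : ℝ) ∧ ((oc S).card : ℝ) ≤ γ * n) with hB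
  have hsub : (polys n).filter (fun S => (perim S : ℝ) ≤ ε * n ∨
      ((oc S).card : ℝ) ≤ γ * n) ⊆ A ∪ cls.biUnion B := by
    intro S hS
    rw [Finset.mem_filter] at hS
    by_cases hp : (perim S : ℝ) ≤ ε * n
    · exact Finset.mem_union_left _ (Finset.mem_filter.2 ⟨hS.1, hp⟩)
    · apply Finset.mem_union_right
      obtain ⟨ρ, hρ, hρ2⟩ := exists_class S
      rw [Finset.mem_biUnion]
      refine ⟨ρ, hρ, Finset.mem_filter.2 ⟨hS.1, ?_, hS.2.resolve_left hp⟩⟩
      have h3 : (perim S : ℝ) ≤ 576 * ((bd ρ S).card : ℝ) := by exact_mod_cast hρ2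
      push Not at hp
      linarith
  have hcls : (cls.card : ℝ) = 144 := by
    simp [cls]
  have hZ := ZZ_nonneg n t
  have e0 : Real.exp (-(c0 * n)) ≤ Real.exp (-(min c0 c1 * n)) := by
    apply Real.exp_le_exp.2
    have : min c0 c1 * (n : ℝ) ≤ c0 * n :=
      mul_le_mul_of_nonneg_right (min_le_left _ _) (Nat.cast_nonneg n)
    linarith
  have e1 : Real.exp (-(c1 * n)) ≤ Real.exp (-(min c0 c1 * n)) := by
    apply Real.exp_le_exp.2
    have : min c0 c1 * (n : ℝ) ≤ c1 * n :=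
      mul_le_mul_of_nonneg_right (min_le_right _ _) (Nat.cast_nonneg n)
    linarith
  calc ∑ S ∈ (polys n).filter (fun S => (perim S : ℝ) ≤ ε * n ∨
      ((oc S).card : ℝ) ≤ γ * n), wt t S
      ≤ ∑ S ∈ A ∪ cls.biUnion B, wt t S :=
        Finset.sum_le_sum_of_subset_of_nonneg hsub (fun S _ _ => (wt_pos t S).le)
    _ ≤ ∑ S ∈ A, wt t S + ∑ S ∈ cls.biUnion B, wt t S := by
        rw [← Finset.sum_union_inter]
        have : 0 ≤ ∑ S ∈ A ∩ cls.biUnion B, wt t S :=
          Finset.sum_nonneg (fun S _ => (wt_pos t S).le)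
        linarith
    _ ≤ ∑ S ∈ A, wt t S + ∑ ρ ∈ cls, ∑ S ∈ B ρ, wt t S := by
        gcongr
        exact Z1_biUnion cls B t
    _ ≤ Real.exp (-(min c0 c1 * n)) * ZZ n t + ∑ ρ ∈ cls, Real.exp (-(min c0 c1 * n)) * ZZ n t := by
        gcongr with ρ hρ
        · exact h0.trans (mul_le_mul_of_nonneg_right e0 hZ)
        · exact (h1 ρ).trans (mul_le_mul_of_nonneg_right e1 hZ)
    _ = (145 * Real.exp (-(min c0 c1 * n))) * ZZ n t := by
        rw [Finset.sum_const, nsmul_eq_mul, hcls]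
        ring
    _ ≤ Real.exp (-(min c0 c1 / 2 * n)) * ZZ n t := mul_le_mul_of_nonneg_right h2 hZ

end Pool.Agent.Lib.MP_dcf1eb_pr
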