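import Pool.Agent.Lib.MP_dcf1eb_pr.A3
import Pool.Agent.Lib.MP_dcf1eb_pr.N8
import Pool.Agent.Lib.MP_dcf1eb_pr.Z1

/-!
# Fixed area polygons: linear concentration of the perimeter (Z2)
-/

set_option autoImplicit false

open Filter

namespace Pool.Agent.Lib.MP_dcf1eb_pr

theorem half_cast (S : Finset (ℤ × ℤ)) : ((perim S / 2 : ℕ) : ℝ) = (perim S : ℝ) / 2 := by
  obtain ⟨k, hk⟩ := perim_even S
  have h1 : perim S / 2 = k := by omega
  rw [h1, hk]
  push_cast
  ring

/-- The number of bad polygons. -/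
theorem rich_card : ∃ ε γ c : ℝ, 0 < ε ∧ 0 < γ ∧ 0 < c ∧
    ∀ᶠ n : ℕ in atTop,
      (((polys n).filter (fun S => (perim S : ℝ) ≤ ε * n ∨
        ((oc S).card : ℝ) ≤ γ * n)).card : ℝ) ≤ Real.exp (-(c * n)) * ((polys n).card : ℝ) := by
  obtain ⟨ε, γ, c, hε, hγ, hc, h⟩ := rich FE_zero_pos
  refine ⟨ε, γ, c, hε, hγ, hc, ?_⟩
  filter_upwards [h] with n hn
  rw [ZZ_zero] at hn
  simpa [wt_zero] using hn

theorem sum_pp_one (n : ℕ) :
    ∑ m ∈ Finset.range (4 * n + 4), (pp m n : ℝ) = ((polys n).card : ℝ) := by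
  have := sum_pp n (fun _ => 1)
  simpa using this

/-- Linear concentration. -/
theorem lin : ∃ a b c : ℝ, 0 < a ∧ b < 1 ∧ 0 < c ∧ ∀ᶠ n : ℕ in atTop,
    0 < ((polys n).card : ℝ) ∧
    (1 - Real.exp (-(c * n))) * ((polys n).card : ℝ) ≤
      ∑ m ∈ Finset.range (4 * n + 4),
        (if a * n ≤ (m : ℝ) ∧ (m : ℝ) ≤ b * n then (pp m n : ℝ) else 0) ∧
    a * n * ((polys n).card : ℝ) ≤ ∑ m ∈ Finset.range (4 * n + 4), (m : ℝ) * (pp m n : ℝ) ∧
    ∑ m ∈ Finset.range (4 * n + 4), (m : ℝ) * (pp m n : ℝ) ≤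
      b * n * ((polys n).card : ℝ) := by
  obtain ⟨ε, γ, c, hε, hγ, hc, h⟩ := rich_card
  refine ⟨ε / 4, 1 - γ / 4, c, by positivity, by linarith, hc, ?_⟩
  have hcn : Tendsto (fun n : ℕ => c * (n : ℝ)) atTop atTop :=
    Tendsto.const_mul_atTop hc tendsto_natCast_atTop_atTop
  have hexp : Tendsto (fun n : ℕ => Real.exp (-(c * n)) * ((n : ℝ) + 1)) atTop (nhds 0) := by
    have h1 : Tendsto (fun x : ℝ => x * Real.exp (-x)) atTop (nhds 0) := by
      simpa using Real.tendsto_pow_mul_exp_neg_atTop_nhds_zero 1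
    have h2 : Tendsto (fun n : ℕ => (c * (n : ℝ)) * Real.exp (-(c * n))) atTop (nhds 0) :=
      h1.comp hcn
    have h3 : Tendsto (fun n : ℕ => Real.exp (-(c * n))) atTop (nhds 0) :=
      Real.tendsto_exp_neg_atTop_nhds_zero.comp hcn
    have h4 := (h2.const_mul (1 / c)).add h3
    rw [mul_zero, zero_add] at h4
    refine h4.congr (fun n => ?_)
    field_simp
  have hγn : Tendsto (fun n : ℕ => γ * (n : ℝ)) atTop atTop :=
    Tendsto.const_mul_atTop hγ tendsto_natCast_atTop_atTop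
  have e1 : ∀ᶠ n : ℕ in atTop, Real.exp (-(c * n)) * ((n : ℝ) + 1) ≤ 1 / 4 :=
    (hexp.eventually_lt_const (by norm_num : (0 : ℝ) < 1 / 4)).mono (fun _ h => h.le)
  filter_upwards [h, e1, hγn.eventually_ge_atTop 4, eventually_ge_atTop 1] with n hn e1 e2 e3
  have hN : 1 ≤ (polys n).card := polys_pos e3
  have hN' : (1 : ℝ) ≤ ((polys n).card : ℝ) := by exact_mod_cast hN
  have hn1 : (1 : ℝ) ≤ n := by exact_mod_cast e3
  have hx : Real.exp (-(c * n)) ≤ 1 / 8 := by
    have h0 := Real.exp_pos (-(c * n))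
    nlinarith
  set B := (polys n).filter (fun S => (perim S : ℝ) ≤ ε * n ∨ ((oc S).card : ℝ) ≤ γ * n) with hB
  have hgood : ∀ S ∈ polys n, S ∉ B → ε / 2 * n ≤ ((perim S / 2 : ℕ) : ℝ) ∧
      ((perim S / 2 : ℕ) : ℝ) ≤ (1 - γ / 2) * n := by
    intro S hS hSB
    have h1 : ¬ ((perim S : ℝ) ≤ ε * n ∨ ((oc S).card : ℝ) ≤ γ * n) := by
      intro h'
      exact hSB (Finset.mem_filter.2 ⟨hS, h'⟩)
    push Not at h1
    obtain ⟨hp, hcard, -⟩ := mem_polys.1 hS
    have h2 := perim_oc hp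
    rw [hcard] at h2
    have h3 : (perim S : ℝ) + 2 * ((oc S).card : ℝ) ≤ 2 * n + 2 := by exact_mod_cast h2
    rw [half_cast]
    constructor <;> nlinarith [h1.1, h1.2]
  have hall : ∀ S ∈ polys n, ((perim S / 2 : ℕ) : ℝ) ≤ n + 1 := by
    intro S hS
    obtain ⟨hp, hcard, -⟩ := mem_polys.1 hS
    have h2 := perim_oc hp
    rw [hcard] at h2
    have h4 : perim S ≤ 2 * n + 2 := by omega
    have h3 : (perim S : ℝ) ≤ 2 * n + 2 := by exact_mod_cast h4
    rw [half_cast]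
    linarith
  have hBsub : B ⊆ polys n := Finset.filter_subset _ _
  have hcardsd : ((polys n \ B).card : ℝ) = ((polys n).card : ℝ) - (B.card : ℝ) := by
    rw [Finset.card_sdiff_of_subset hBsub, Nat.cast_sub (Finset.card_le_card hBsub)]
  have hx0 := Real.exp_pos (-(c * (n : ℝ)))
  refine ⟨by linarith, ?_, ?_, ?_⟩
  · have h1 : ∀ m : ℕ, (if ε / 4 * n ≤ (m : ℝ) ∧ (m : ℝ) ≤ (1 - γ / 4) * n then (pp m n : ℝ)
        else 0) = (if ε / 4 * n ≤ (m : ℝ) ∧ (m : ℝ) ≤ (1 - γ / 4) * n then (1 : ℝ) else 0) *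
          (pp m n : ℝ) := by
      intro m
      split_ifs <;> simp
    rw [Finset.sum_congr rfl (fun m _ => h1 m),
      sum_pp n (fun m => if ε / 4 * n ≤ (m : ℝ) ∧ (m : ℝ) ≤ (1 - γ / 4) * n then (1 : ℝ) else 0)]
    calc (1 - Real.exp (-(c * n))) * ((polys n).card : ℝ)
        ≤ ((polys n).card : ℝ) - (B.card : ℝ) := by linarith
      _ = ∑ S ∈ polys n \ B, (1 : ℝ) := by rw [← hcardsd]; simp
      _ ≤ ∑ S ∈ polys n \ B, (if ε / 4 * n ≤ ((perim S / 2 : ℕ) : ℝ) ∧
            ((perim S / 2 : ℕ) : ℝ) ≤ (1 - γ / 4) * n then (1 : ℝ) else 0) := by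
          apply Finset.sum_le_sum
          intro S hS
          rw [Finset.mem_sdiff] at hS
          obtain ⟨g1, g2⟩ := hgood S hS.1 hS.2
          rw [if_pos]
          constructor <;> nlinarith
      _ ≤ _ := Finset.sum_le_sum_of_subset_of_nonneg Finset.sdiff_subset
          (fun S _ _ => by split_ifs <;> norm_num)
  · rw [sum_pp n (fun m => (m : ℝ))]
    calc ε / 4 * n * ((polys n).card : ℝ)
        ≤ (ε / 2 * n) * (((polys n).card : ℝ) - (B.card : ℝ)) := by
          have h5 : (B.card : ℝ) ≤ 1 / 8 * ((polys n).card : ℝ) :=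
            hn.trans (mul_le_mul_of_nonneg_right hx (by linarith))
          have h6 : 0 ≤ ε / 2 * n := by positivity
          have h7 : 1 / 2 * ((polys n).card : ℝ) ≤ ((polys n).card : ℝ) - (B.card : ℝ) := by
            linarith
          calc ε / 4 * n * ((polys n).card : ℝ) = (ε / 2 * n) * (1 / 2 * ((polys n).card : ℝ)) := by
                ring
            _ ≤ _ := mul_le_mul_of_nonneg_left h7 h6
      _ = ∑ S ∈ polys n \ B, (ε / 2 * n : ℝ) := by
          rw [← hcardsd, Finset.sum_const, nsmul_eq_mul]; ring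
      _ ≤ ∑ S ∈ polys n \ B, ((perim S / 2 : ℕ) : ℝ) := by
          apply Finset.sum_le_sum
          intro S hS
          rw [Finset.mem_sdiff] at hS
          exact (hgood S hS.1 hS.2).1
      _ ≤ _ := Finset.sum_le_sum_of_subset_of_nonneg Finset.sdiff_subset
          (fun S _ _ => Nat.cast_nonneg _)
  · rw [sum_pp n (fun m => (m : ℝ)), ← Finset.sum_sdiff hBsub]
    have h1 : ∑ S ∈ polys n \ B, ((perim S / 2 : ℕ) : ℝ) ≤
        (1 - γ / 2) * n * (((polys n).card : ℝ) - (B.card : ℝ)) := by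
      calc _ ≤ ∑ S ∈ polys n \ B, ((1 - γ / 2) * n : ℝ) := by
            apply Finset.sum_le_sum
            intro S hS
            rw [Finset.mem_sdiff] at hS
            exact (hgood S hS.1 hS.2).2
        _ = _ := by rw [← hcardsd, Finset.sum_const, nsmul_eq_mul]; ring
    have h2 : ∑ S ∈ B, ((perim S / 2 : ℕ) : ℝ) ≤ ((n : ℝ) + 1) * (B.card : ℝ) := by
      calc _ ≤ ∑ S ∈ B, ((n : ℝ) + 1) :=
            Finset.sum_le_sum (fun S hS => hall S (hBsub hS))
        _ = _ := by rw [Finset.sum_const, nsmul_eq_mul]; ring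
    have h3 : ((n : ℝ) + 1) * (B.card : ℝ) ≤ 1 / 4 * ((polys n).card : ℝ) := by
      calc ((n : ℝ) + 1) * (B.card : ℝ)
          ≤ ((n : ℝ) + 1) * (Real.exp (-(c * n)) * ((polys n).card : ℝ)) := by
            gcongr
        _ = (Real.exp (-(c * n)) * ((n : ℝ) + 1)) * ((polys n).card : ℝ) := by ring
        _ ≤ 1 / 4 * ((polys n).card : ℝ) := mul_le_mul_of_nonneg_right e1 (by linarith)
    have hBn : (B.card : ℝ) ≤ ((polys n).card : ℝ) := by
      exact_mod_cast Finset.card_le_card hBsub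
    have hB0 : (0 : ℝ) ≤ (B.card : ℝ) := Nat.cast_nonneg _
    -- if `1 - γ / 2` is negative the good set is empty
    by_cases hg : 0 ≤ 1 - γ / 2
    · have h4 : (1 - γ / 2) * n * (((polys n).card : ℝ) - (B.card : ℝ)) ≤
          (1 - γ / 2) * n * ((polys n).card : ℝ) := by
        apply mul_le_mul_of_nonneg_left (by linarith)
        positivity
      nlinarith
    · exfalso
      have h5 : (B.card : ℝ) ≤ 1 / 8 * ((polys n).card : ℝ) :=
        hn.trans (mul_le_mul_of_nonneg_right hx (by linarith))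
      have h6 : 0 < ((polys n \ B).card : ℝ) := by rw [hcardsd]; linarith
      have h7 : 0 < (polys n \ B).card := by exact_mod_cast h6
      obtain ⟨S, hS⟩ := Finset.card_pos.1 h7
      rw [Finset.mem_sdiff] at hS
      have h8 := (hgood S hS.1 hS.2).2
      have h9 : (0 : ℝ) ≤ ((perim S / 2 : ℕ) : ℝ) := Nat.cast_nonneg _
      push Not at hg
      nlinarith

end Pool.Agent.Lib.MP_dcf1eb_pr
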