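import Pool.Agent.Lib.MP_dcf1eb_pr.N11
import Pool.Agent.Lib.MP_dcf1eb_pr.Z2

/-!
# Fixed area polygons: smoothness and anti-concentration of the perimeter law (Z3)
-/

set_option autoImplicit false

open Filter

namespace Pool.Agent.Lib.MP_dcf1eb_pr

private theorem Z3_fib (n M : ℕ) (q : Finset (ℤ × ℤ) → Prop) [DecidablePred q] :
    ∑ m ∈ Finset.range M, ((polys n).filter (fun S => perim S = 2 * m ∧ q S)).card ≤
      ((polys n).filter q).card := by
  classical
  rw [← Finset.card_biUnion]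
  · apply Finset.card_le_card
    intro S hS
    rw [Finset.mem_biUnion] at hS
    obtain ⟨m, -, hm⟩ := hS
    rw [Finset.mem_filter] at hm ⊢
    exact ⟨hm.1, hm.2.2⟩
  · intro m _ m' _ hne
    show Disjoint _ _
    rw [Finset.disjoint_left]
    intro S hS hS'
    rw [Finset.mem_filter] at hS hS'
    omega

private theorem Z3_sum_pp_le (n M : ℕ) :
    ∑ m ∈ Finset.range M, (pp m n : ℝ) ≤ ((polys n).card : ℝ) := by
  have h1 : ∀ m, pp m n = ((polys n).filter (fun S => perim S = 2 * m ∧ perim S = perim S)).card := by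
    intro m
    rw [pp_eq]
    congr 1
    ext S
    simp only [Finset.mem_filter, and_true]
  have h := Z3_fib n M (fun S => perim S = perim S)
  have h2 : ∑ m ∈ Finset.range M, pp m n ≤ (polys n).card := by
    calc ∑ m ∈ Finset.range M, pp m n
        = ∑ m ∈ Finset.range M, ((polys n).filter
            (fun S => perim S = 2 * m ∧ perim S = perim S)).card :=
          Finset.sum_congr rfl (fun m _ => h1 m)
      _ ≤ _ := h
      _ ≤ _ := Finset.card_le_card (Finset.filter_subset _ _)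
  exact_mod_cast h2

private theorem Z3_tv_le (n M : ℕ) :
    ∑ m ∈ Finset.range M, |(pp (m + 1) n : ℝ) - (pp m n : ℝ)| ≤ 2 * ((polys n).card : ℝ) := by
  have h1 := Z3_sum_pp_le n (M + 1)
  have h2 := Z3_sum_pp_le n M
  rw [Finset.sum_range_succ'] at h1
  have h3 : ∑ m ∈ Finset.range M, |(pp (m + 1) n : ℝ) - (pp m n : ℝ)| ≤
      ∑ m ∈ Finset.range M, ((pp (m + 1) n : ℝ) + (pp m n : ℝ)) := by
    apply Finset.sum_le_sum
    intro m _
    rw [abs_le]
    have e1 : (0 : ℝ) ≤ (pp (m + 1) n : ℝ) := Nat.cast_nonneg _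
    have e2 : (0 : ℝ) ≤ (pp m n : ℝ) := Nat.cast_nonneg _
    constructor <;> linarith
  rw [Finset.sum_add_distrib] at h3
  have h4 : (0 : ℝ) ≤ (pp 0 n : ℝ) := Nat.cast_nonneg _
  linarith

/-- Total variation between the law of the half-perimeter and its shift by one. -/
theorem smooth : ∃ C : ℝ, 0 < C ∧ ∀ n : ℕ, 1 ≤ n → ∀ M : ℕ,
    (∑ m ∈ Finset.range M, |(pp (m + 1) n : ℝ) - (pp m n : ℝ)|) * Real.sqrt n ≤
      C * ((polys n).card : ℝ) := by
  classical
  obtain ⟨ε, γ, c, hε, hγ, hc, h⟩ := rich_card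
  have hcn : Tendsto (fun n : ℕ => c * (n : ℝ)) atTop atTop :=
    Tendsto.const_mul_atTop hc tendsto_natCast_atTop_atTop
  have hexp : Tendsto (fun n : ℕ => Real.exp (-(c * n)) * (n : ℝ)) atTop (nhds 0) := by
    have h1 : Tendsto (fun x : ℝ => x * Real.exp (-x)) atTop (nhds 0) := by
      simpa using Real.tendsto_pow_mul_exp_neg_atTop_nhds_zero 1
    have h2 : Tendsto (fun n : ℕ => (c * (n : ℝ)) * Real.exp (-(c * n))) atTop (nhds 0) :=
      h1.comp hcn
    have h4 := h2.const_mul (1 / c)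
    rw [mul_zero] at h4
    refine h4.congr (fun n => ?_)
    field_simp
  have e1 : ∀ᶠ n : ℕ in atTop, Real.exp (-(c * n)) * (n : ℝ) ≤ 1 :=
    (hexp.eventually_lt_const (by norm_num : (0 : ℝ) < 1)).mono (fun _ h => h.le)
  obtain ⟨n0, hn0⟩ := eventually_atTop.1 (h.and e1)
  refine ⟨2 * Real.sqrt n0 + 2 / Real.sqrt γ + 2, by positivity, ?_⟩
  intro n hn M
  have hN0 : (0 : ℝ) ≤ ((polys n).card : ℝ) := Nat.cast_nonneg _
  have hn1 : (1 : ℝ) ≤ n := by exact_mod_cast hn
  by_cases hlt : n < n0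
  · have h1 := Z3_tv_le n M
    have h2 : Real.sqrt n ≤ Real.sqrt n0 := Real.sqrt_le_sqrt (by exact_mod_cast hlt.le)
    have h3 : 0 ≤ Real.sqrt n := Real.sqrt_nonneg _
    have h4 : 0 ≤ 2 / Real.sqrt γ := by positivity
    calc (∑ m ∈ Finset.range M, |(pp (m + 1) n : ℝ) - (pp m n : ℝ)|) * Real.sqrt n
        ≤ (2 * ((polys n).card : ℝ)) * Real.sqrt n0 :=
          mul_le_mul h1 h2 h3 (by linarith)
      _ ≤ (2 * Real.sqrt n0 + 2 / Real.sqrt γ + 2) * ((polys n).card : ℝ) := by
          nlinarith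
  · push Not at hlt
    obtain ⟨hB, hx⟩ := hn0 n hlt
    set K := ⌊γ * n⌋₊ + 1 with hK
    set B := (polys n).filter (fun S => (perim S : ℝ) ≤ ε * n ∨ ((oc S).card : ℝ) ≤ γ * n)
      with hBdef
    set r : ℕ → ℝ := fun m =>
      (((polys n).filter (fun S => perim S = 2 * m ∧ ¬ K ≤ (oc S).card)).card : ℝ) with hr
    have hdec : ∀ m, (pp m n : ℝ) = (cK n K m : ℝ) + r m := by
      intro m
      have h1 : ((polys n).filter (fun S => perim S = 2 * m)).card =
          ((polys n).filter (fun S => perim S = 2 * m ∧ K ≤ (oc S).card)).card +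
          ((polys n).filter (fun S => perim S = 2 * m ∧ ¬ K ≤ (oc S).card)).card := by
        rw [← Finset.card_filter_add_card_filter_not
          (s := (polys n).filter (fun S => perim S = 2 * m)) (fun S => K ≤ (oc S).card),
          Finset.filter_filter, Finset.filter_filter]
      rw [pp_eq]
      simp only [hr, cK]
      rw [h1]
      push_cast
      rfl
    have hr0 : ∀ m, 0 ≤ r m := fun m => Nat.cast_nonneg _
    have hrB : ∀ M', ∑ m ∈ Finset.range M', r m ≤ (B.card : ℝ) := by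
      intro M'
      have h1 := Z3_fib n M' (fun S => ¬ K ≤ (oc S).card)
      have h2 : ((polys n).filter (fun S => ¬ K ≤ (oc S).card)).card ≤ B.card := by
        apply Finset.card_le_card
        intro S hS
        rw [Finset.mem_filter] at hS
        refine Finset.mem_filter.2 ⟨hS.1, Or.inr ?_⟩
        have h3 : (oc S).card ≤ ⌊γ * n⌋₊ := by have := hS.2; omega
        calc ((oc S).card : ℝ) ≤ (⌊γ * n⌋₊ : ℝ) := by exact_mod_cast h3
          _ ≤ γ * n := Nat.floor_le (by positivity)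
      calc ∑ m ∈ Finset.range M', r m = ((∑ m ∈ Finset.range M', ((polys n).filter
            (fun S => perim S = 2 * m ∧ ¬ K ≤ (oc S).card)).card : ℕ) : ℝ) := by
            push_cast
            rfl
        _ ≤ (B.card : ℝ) := Nat.cast_le.2 (h1.trans h2)
    have htv := tv_K n K M
    have hsum : ∑ m ∈ Finset.range M, |(pp (m + 1) n : ℝ) - (pp m n : ℝ)| ≤
        ∑ m ∈ Finset.range M, |(cK n K (m + 1) : ℝ) - (cK n K m : ℝ)| + 2 * (B.card : ℝ) := by
      have h1 : ∑ m ∈ Finset.range M, |(pp (m + 1) n : ℝ) - (pp m n : ℝ)| ≤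
          ∑ m ∈ Finset.range M, (|(cK n K (m + 1) : ℝ) - (cK n K m : ℝ)| +
            (r (m + 1) + r m)) := by
        apply Finset.sum_le_sum
        intro m _
        rw [hdec (m + 1), hdec m]
        have e3 : (cK n K (m + 1) : ℝ) + r (m + 1) - ((cK n K m : ℝ) + r m) =
            ((cK n K (m + 1) : ℝ) - (cK n K m : ℝ)) + (r (m + 1) - r m) := by ring
        rw [e3]
        refine (abs_add_le _ _).trans ?_
        have : |r (m + 1) - r m| ≤ r (m + 1) + r m := by
          rw [abs_le]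
          have := hr0 m
          have := hr0 (m + 1)
          constructor <;> linarith
        linarith
      rw [Finset.sum_add_distrib, Finset.sum_add_distrib] at h1
      have h2 := hrB (M + 1)
      rw [Finset.sum_range_succ'] at h2
      have h3 := hrB M
      have h4 := hr0 0
      linarith
    have hKn : γ * n ≤ (K : ℝ) := by
      rw [hK]
      push_cast
      exact (Nat.lt_floor_add_one _).le
    have hsK : Real.sqrt γ * Real.sqrt n ≤ Real.sqrt K := by
      rw [← Real.sqrt_mul hγ.le]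
      exact Real.sqrt_le_sqrt hKn
    have hsγ : 0 < Real.sqrt γ := Real.sqrt_pos.2 hγ
    have hsn : 0 < Real.sqrt n := Real.sqrt_pos.2 (by linarith)
    have hsn1 : Real.sqrt n ≤ n := by
      rw [Real.sqrt_le_left (by linarith)]
      nlinarith
    have hTV0 : 0 ≤ ∑ m ∈ Finset.range M, |(cK n K (m + 1) : ℝ) - (cK n K m : ℝ)| :=
      Finset.sum_nonneg (fun _ _ => abs_nonneg _)
    have h5 : (∑ m ∈ Finset.range M, |(cK n K (m + 1) : ℝ) - (cK n K m : ℝ)|) * Real.sqrt n ≤
        2 / Real.sqrt γ * ((polys n).card : ℝ) := by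
      rw [div_mul_eq_mul_div, le_div_iff₀ hsγ]
      calc _ = (∑ m ∈ Finset.range M, |(cK n K (m + 1) : ℝ) - (cK n K m : ℝ)|) *
            (Real.sqrt γ * Real.sqrt n) := by ring
        _ ≤ (∑ m ∈ Finset.range M, |(cK n K (m + 1) : ℝ) - (cK n K m : ℝ)|) * Real.sqrt K :=
            mul_le_mul_of_nonneg_left hsK hTV0
        _ ≤ _ := htv
    have h6 : (B.card : ℝ) * Real.sqrt n ≤ ((polys n).card : ℝ) := by
      calc (B.card : ℝ) * Real.sqrt n
          ≤ (Real.exp (-(c * n)) * ((polys n).card : ℝ)) * n :=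
            mul_le_mul hB hsn1 hsn.le (by positivity)
        _ = (Real.exp (-(c * n)) * (n : ℝ)) * ((polys n).card : ℝ) := by ring
        _ ≤ 1 * ((polys n).card : ℝ) := mul_le_mul_of_nonneg_right hx hN0
        _ = _ := one_mul _
    have h7 : 0 ≤ Real.sqrt n0 := Real.sqrt_nonneg _
    calc (∑ m ∈ Finset.range M, |(pp (m + 1) n : ℝ) - (pp m n : ℝ)|) * Real.sqrt n
        ≤ (∑ m ∈ Finset.range M, |(cK n K (m + 1) : ℝ) - (cK n K m : ℝ)| +
            2 * (B.card : ℝ)) * Real.sqrt n := mul_le_mul_of_nonneg_right hsum hsn.le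
      _ = (∑ m ∈ Finset.range M, |(cK n K (m + 1) : ℝ) - (cK n K m : ℝ)|) * Real.sqrt n +
            2 * ((B.card : ℝ) * Real.sqrt n) := by ring
      _ ≤ 2 / Real.sqrt γ * ((polys n).card : ℝ) + 2 * ((polys n).card : ℝ) := by linarith
      _ ≤ (2 * Real.sqrt n0 + 2 / Real.sqrt γ + 2) * ((polys n).card : ℝ) := by nlinarith

theorem pp_large {n m : ℕ} (h : 2 * n < m) : pp m n = 0 := by
  rw [pp_eq, Finset.card_eq_zero, Finset.filter_eq_empty_iff]
  intro S hS hm
  have h1 := perim_le S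
  rw [(mem_polys.1 hS).2.1] at h1
  omega

/-- Anti-concentration. -/
theorem anticonc {C : ℝ} (h : ∀ n : ℕ, 1 ≤ n → ∀ M : ℕ,
    (∑ m ∈ Finset.range M, |(pp (m + 1) n : ℝ) - (pp m n : ℝ)|) * Real.sqrt n ≤
      C * ((polys n).card : ℝ)) (n : ℕ) (hn : 1 ≤ n) (m : ℕ) :
    (pp m n : ℝ) * Real.sqrt n ≤ C * ((polys n).card : ℝ) := by
  refine le_trans ?_ (h n hn (m + (2 * n + 1)))
  apply mul_le_mul_of_nonneg_right _ (Real.sqrt_nonneg _)
  have h1 : (pp (m + (2 * n + 1)) n : ℝ) = 0 := by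
    rw [pp_large (by omega)]
    simp
  have h2 : ∀ k : ℕ, |(pp (m + k) n : ℝ) - (pp m n : ℝ)| ≤
      ∑ j ∈ Finset.range (m + k), |(pp (j + 1) n : ℝ) - (pp j n : ℝ)| := by
    intro k
    induction k with
    | zero =>
      simp only [add_zero, sub_self, abs_zero]
      exact Finset.sum_nonneg (fun _ _ => abs_nonneg _)
    | succ k ih =>
      rw [← add_assoc, Finset.sum_range_succ]
      have e : (pp (m + k + 1) n : ℝ) - (pp m n : ℝ) =
          ((pp (m + k) n : ℝ) - (pp m n : ℝ)) + ((pp (m + k + 1) n : ℝ) - (pp (m + k) n : ℝ)) := by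
        ring
      rw [e]
      exact (abs_add_le _ _).trans (by linarith)
  have h3 := h2 (2 * n + 1)
  rw [h1] at h3
  have h4 : (0 : ℝ) ≤ (pp m n : ℝ) := Nat.cast_nonneg _
  rw [zero_sub, abs_neg, abs_of_nonneg h4] at h3
  exact h3

/-- The second moment about any point is at least of order `n`. -/
theorem spread {C : ℝ} (hC : 0 < C) (h : ∀ n : ℕ, 1 ≤ n → ∀ m : ℕ,
    (pp m n : ℝ) * Real.sqrt n ≤ C * ((polys n).card : ℝ)) :
    ∀ᶠ n : ℕ in atTop, ∀ x : ℝ, (n : ℝ) / (128 * C ^ 2) * ((polys n).card : ℝ) ≤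
      ∑ m ∈ Finset.range (4 * n + 4), ((m : ℝ) - x) ^ 2 * (pp m n : ℝ) := by
  have hs : Tendsto (fun n : ℕ => Real.sqrt (n : ℝ)) atTop atTop :=
    Real.tendsto_sqrt_atTop.comp tendsto_natCast_atTop_atTop
  filter_upwards [hs.eventually_ge_atTop (8 * C), eventually_ge_atTop 1] with n hn hn1 x
  have hsq : Real.sqrt n ^ 2 = n := Real.sq_sqrt (Nat.cast_nonneg n)
  have hs0 : 0 < Real.sqrt n := by linarith
  have hN0 : (0 : ℝ) ≤ ((polys n).card : ℝ) := Nat.cast_nonneg _
  set r : ℝ := Real.sqrt n / (8 * C) with hr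
  have hr1 : 1 ≤ r := by
    rw [hr, le_div_iff₀ (by positivity)]
    linarith
  -- the mass within distance `r` of `x`
  set J := (Finset.range (4 * n + 4)).filter (fun m : ℕ => |(m : ℝ) - x| < r) with hJ
  have hJcard : (J.card : ℝ) ≤ 2 * r + 1 := by
    by_cases hJe : J = ∅
    · rw [hJe]
      simp only [Finset.card_empty, Nat.cast_zero]
      linarith
    · obtain ⟨a, haJ, ha⟩ := Finset.exists_min_image J (fun m : ℕ => (m : ℝ))
        (Finset.nonempty_iff_ne_empty.2 hJe)
      obtain ⟨b, hbJ, hb⟩ := Finset.exists_max_image J (fun m : ℕ => (m : ℝ))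
        (Finset.nonempty_iff_ne_empty.2 hJe)
      have h1 : J ⊆ Finset.Icc a b := by
        intro m hm
        rw [Finset.mem_Icc]
        exact ⟨by exact_mod_cast ha m hm, by exact_mod_cast hb m hm⟩
      have h2 := Finset.card_le_card h1
      rw [Nat.card_Icc] at h2
      have hab : a ≤ b := by exact_mod_cast ha b hbJ
      have h3 : (J.card : ℝ) ≤ (b : ℝ) + 1 - a := by
        calc (J.card : ℝ) ≤ ((b + 1 - a : ℕ) : ℝ) := by exact_mod_cast h2
          _ = (b : ℝ) + 1 - a := by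
            rw [Nat.cast_sub (by omega)]
            push_cast
            ring
      have h4 := (Finset.mem_filter.1 haJ).2
      have h5 := (Finset.mem_filter.1 hbJ).2
      rw [abs_lt] at h4 h5
      linarith [h4.1, h4.2, h5.1, h5.2]
  have hJmass : ∑ m ∈ J, (pp m n : ℝ) ≤ 1 / 2 * ((polys n).card : ℝ) := by
    have h1 : ∀ m ∈ J, (pp m n : ℝ) ≤ C * ((polys n).card : ℝ) / Real.sqrt n := by
      intro m _
      rw [le_div_iff₀ hs0]
      exact h n hn1 m
    calc ∑ m ∈ J, (pp m n : ℝ) ≤ ∑ m ∈ J, C * ((polys n).card : ℝ) / Real.sqrt n :=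
          Finset.sum_le_sum h1
      _ = (J.card : ℝ) * (C * ((polys n).card : ℝ) / Real.sqrt n) := by
          rw [Finset.sum_const, nsmul_eq_mul]
      _ ≤ (4 * r) * (C * ((polys n).card : ℝ) / Real.sqrt n) := by
          apply mul_le_mul_of_nonneg_right (by linarith)
          positivity
      _ = 1 / 2 * ((polys n).card : ℝ) := by
          rw [hr]
          field_simp
          ring
  have htot := sum_pp_one n
  have hsplit : ∑ m ∈ Finset.range (4 * n + 4), (pp m n : ℝ) =
      ∑ m ∈ J, (pp m n : ℝ) +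
        ∑ m ∈ (Finset.range (4 * n + 4)).filter (fun m : ℕ => ¬ |(m : ℝ) - x| < r),
          (pp m n : ℝ) := by
    rw [hJ, Finset.sum_filter_add_sum_filter_not]
  have hfar : 1 / 2 * ((polys n).card : ℝ) ≤
      ∑ m ∈ (Finset.range (4 * n + 4)).filter (fun m : ℕ => ¬ |(m : ℝ) - x| < r),
          (pp m n : ℝ) := by linarith
  calc (n : ℝ) / (128 * C ^ 2) * ((polys n).card : ℝ)
      = r ^ 2 * (1 / 2 * ((polys n).card : ℝ)) := by
        rw [hr, div_pow, hsq]
        field_simp
        ring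
    _ ≤ r ^ 2 * ∑ m ∈ (Finset.range (4 * n + 4)).filter (fun m : ℕ => ¬ |(m : ℝ) - x| < r),
          (pp m n : ℝ) := mul_le_mul_of_nonneg_left hfar (by positivity)
    _ = ∑ m ∈ (Finset.range (4 * n + 4)).filter (fun m : ℕ => ¬ |(m : ℝ) - x| < r),
          r ^ 2 * (pp m n : ℝ) := by rw [Finset.mul_sum]
    _ ≤ ∑ m ∈ (Finset.range (4 * n + 4)).filter (fun m : ℕ => ¬ |(m : ℝ) - x| < r),
          ((m : ℝ) - x) ^ 2 * (pp m n : ℝ) := by
        apply Finset.sum_le_sum
        intro m hm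
        have h1 := (Finset.mem_filter.1 hm).2
        push Not at h1
        apply mul_le_mul_of_nonneg_right _ (Nat.cast_nonneg _)
        rw [← sq_abs ((m : ℝ) - x)]
        exact pow_le_pow_left₀ (by linarith) h1 2
    _ ≤ _ := by
        apply Finset.sum_le_sum_of_subset_of_nonneg (Finset.filter_subset _ _)
        intro m _ _
        positivity

end Pool.Agent.Lib.MP_dcf1eb_pr
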